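import Pool.Agent.Lib.MP_9fe581_an.HX.Defs

/-!
# HX: property (P) with point dependent joinings
-/

set_option autoImplicit false

open Finset MeasureTheory Filter Topology UnitAddTorus
open scoped ComplexConjugate Matrix

namespace Pool.Agent.Lib.MP_9fe581_an.HX

open Pool.Agent.Lib.MP_9fe581_an.HD

variable {Y : Type} [TopologicalSpace Y]

/-- property (P) of a base, the joinings may depend on the point: `MM i q` is a set of `S × S`-invariant joinings, `linf i`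
the limit for `q → ∞` -/
structure BaseQ {D : Type} [Fintype D] [MeasurableSpace Y] (S : Y → Y) (ν : Measure Y)
    (MM : D → ℕ → Set (Measure (Y × Y))) (linf : D → Measure (Y × Y)) (C0 : ℝ) : Prop where
  cont : Continuous S
  prob : IsProbabilityMeasure ν
  mp : MeasurePreserving S ν ν
  C0_nonneg : 0 ≤ C0
  lprob : ∀ i q, ∀ m ∈ MM i q, IsProbabilityMeasure m
  linv : ∀ i q, ∀ m ∈ MM i q, MeasurePreserving (Prod.map S S) m m
  iprob : ∀ i, IsProbabilityMeasure (linf i)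
  iinv : ∀ i, MeasurePreserving (Prod.map S S) (linf i) (linf i)
  pos : ∀ i q, ∀ m ∈ MM i q, ∀ f : C(Y, ℂ), jq (linf i) f ≤ jq m f
  lim : ∀ i, ∀ f : C(Y, ℂ), ∀ ε : ℝ, 0 < ε → ∃ q0 : ℕ, ∀ q ≥ q0, ∀ m ∈ MM i q, jq m f ≤ jq (linf i) f + ε
  P : ∀ Q : Finset ℕ, (∀ p ∈ Q, p.Prime) → ∀ (f : ℕ → C(Y, ℂ)) (B : ℝ), (∀ p ∈ Q, ∀ y, ‖f p y‖ ≤ B) →
    ∀ ε : ℝ, 0 < ε → ∃ M0 : ℕ, ∀ M ≥ M0, ∀ (M1 : ℕ) (y : Y), ∃ m : D → ℕ → Measure (Y × Y),
      (∀ i, ∀ q ∈ Q, m i q ∈ MM i q) ∧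
      ∑ k ∈ Ioc M1 (M1 + M), ‖∑ p ∈ Q, f p (S^[p * k] y)‖ ^ 2 ≤
        (‖∑ p ∈ Q, ∫ y, f p y ∂ν‖ ^ 2 + Q.card * B ^ 2 +
          ∑ p ∈ Q, ∑ i, ∑ q ∈ Q, (jq (m i q) (f p) - jq (linf i) (f p)) +
          C0 * Q.card * B * Real.sqrt (∑ p ∈ Q, ∑ i, ∑ q ∈ Q, (jq (m i q) (f p) - jq (linf i) (f p))) + ε) * M

theorem BaseP.toQ {D : Type} [Fintype D] [MeasurableSpace Y] {S : Y → Y} {ν : Measure Y}
    {lam : D → ℕ → Measure (Y × Y)} (h : BaseP S ν lam) :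
    BaseQ S ν (fun i q => {lam i q}) (fun i => lam i 0) 0 where
  cont := h.cont
  prob := h.prob
  mp := h.mp
  C0_nonneg := le_rfl
  lprob i q m hm := by rw [hm]; exact h.lprob i q
  linv i q m hm := by rw [hm]; exact h.linv i q
  iprob i := h.lprob i 0
  iinv i := h.linv i 0
  pos i q m hm f := by rw [hm]; exact h.pos i q f
  lim i f ε hε := by
    have h1 := (h.lim i f).eventually (gt_mem_nhds (show jq (lam i 0) f < jq (lam i 0) f + ε by linarith))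
    obtain ⟨q0, hq0⟩ := eventually_atTop.1 h1
    exact ⟨q0, fun q hq m hm => by rw [hm]; exact (hq0 q hq).le⟩
  P Q hQ f B hB ε hε := by
    obtain ⟨M0, hM0⟩ := h.P Q hQ f B hB ε hε
    refine ⟨M0, fun M hM M1 y => ⟨lam, fun i q _ => rfl, ?_⟩⟩
    have h1 := hM0 M hM M1 y
    rw [zero_mul, zero_mul, zero_mul, add_zero]
    exact h1

end Pool.Agent.Lib.MP_9fe581_an.HX
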