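import Pool.Agent.Lib.MP_9fe581_an.HX.Defs
import Pool.Agent.Lib.MP_9fe581_an.HD.Spec
import Pool.Agent.Lib.MP_9fe581_an.HD.Obs.Ext
import Pool.Agent.Lib.MP_9fe581_an.HT.Defs

/-!
# HX: definitions for the extensions of affine maps of zero entropy and of towers, nothing ergodic
-/

set_option autoImplicit false

open Finset MeasureTheory Filter Topology UnitAddTorus
open scoped ComplexConjugate Matrix

namespace Pool.Agent.Lib.MP_9fe581_an.HX

open Pool.Agent.Lib.MP_9fe581_an.HD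

/-- uniform upper bound for the averages of continuous functions (unique ergodicity) -/
def UE {Y : Type} [TopologicalSpace Y] [MeasurableSpace Y] (S : Y → Y) (ν : Measure Y) : Prop :=
  ∀ E : Y → ℝ, Continuous E → ∀ ε : ℝ, 0 < ε → ∃ N0 : ℕ, ∀ N ≥ N0, ∀ x : Y,
    ∑ n ∈ Icc 1 N, E (S^[n] x) ≤ (∫ t, E t ∂ν + ε) * N

/-- orthogonality of `u` to all unitary cocycles over `S` with a continuous matrix observable, uniform in the point -/
def MatOrth {Y : Type} [TopologicalSpace Y] (S : Y → Y) (u : ℕ → ℂ) : Prop :=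
  ∀ (κ : Type) [Fintype κ] [DecidableEq κ] (A D : Y → Matrix κ κ ℂ), Continuous A → (∀ y, A y * (A y)ᴴ = 1) →
    Continuous D → ∀ ε : ℝ, 0 < ε → ∃ N0 : ℕ, ∀ N ≥ N0, ∀ (y : Y) (i j : κ),
      ‖∑ n ∈ Icc 1 N, u n * (D (S^[n] y) * cpS S A n y) i j‖ ≤ ε * N

/-- orthogonality of `u` to all unitary cocycles over `T` with a continuous observable, uniform for the points of `Z` -/
def CocOrthY {X : Type} [TopologicalSpace X] (T : X → X) (u : ℕ → ℂ) (Z : Set X) : Prop :=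
  ∀ (m : ℕ) (A : X → Matrix (Fin m) (Fin m) ℂ), Continuous A → (∀ x, A x * (A x)ᴴ = 1) → ∀ h : C(X, ℂ),
    ∀ ε : ℝ, 0 < ε → ∃ N0 : ℕ, ∀ N ≥ N0, ∀ x ∈ Z, ∀ i j : Fin m,
      ‖∑ n ∈ Icc 1 N, u n * (h (T^[n] x) * cpS T A n x i j)‖ ≤ ε * N

/-- the product of `A` along the sequence `x` -/
noncomputable def sqp {X ι : Type} [Fintype ι] [DecidableEq ι] (A : X → Matrix ι ι ℂ) (x : ℕ → X) : ℕ → Matrix ι ι ℂ
  | 0 => 1
  | n + 1 => A (x n) * sqp A x n

/-- orthogonality of `u` to the products of all continuous unitary matrix functions along the sequence `x`, with a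
continuous observable -/
def SeqOrth {X : Type} [TopologicalSpace X] (u : ℕ → ℂ) (x : ℕ → X) : Prop :=
  ∀ (m : ℕ) (A : X → Matrix (Fin m) (Fin m) ℂ), Continuous A → (∀ y, A y * (A y)ᴴ = 1) → ∀ h : C(X, ℂ),
    ∀ ε : ℝ, 0 < ε → ∃ N0 : ℕ, ∀ N ≥ N0, ∀ i j : Fin m,
      ‖∑ n ∈ Icc 1 N, u n * (h (x n) * sqp A x n i j)‖ ≤ ε * N

/-- the affine map `x ↦ B x + b` of the torus -/
def aff {D : ℕ} (B : Matrix (Fin D) (Fin D) ℤ) (b : Td D) (x : Td D) : Td D := act B x + b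

end Pool.Agent.Lib.MP_9fe581_an.HX
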