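import Pool.Agent.Lib.MP_9fe581_an.HX.Energy
import Pool.Agent.Lib.MP_9fe581_an.HD.AbsMono
import Pool.Agent.Lib.MP_9fe581_an.HD.AbsPrimes
import Pool.Agent.Lib.MP_9fe581_an.HD.Cheb
import Pool.Agent.Lib.MP_9fe581_an.HD.VonNeumann

/-!
# HX: averages over the primes of the dyadic blocks of `bX (lam i q) - bX (lam i 0)`
-/

set_option autoImplicit false
set_option linter.unusedSectionVars false

open Finset MeasureTheory Filter Topology UnitAddTorus
open scoped ComplexConjugate Matrix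

namespace Pool.Agent.Lib.MP_9fe581_an.HX

open Pool.Agent.Lib.MP_9fe581_an.HD

/-- the average of `b q`, `q ∈ s`; `b 0` if `s` is empty -/
noncomputable def dlt_E (b : ℕ → ℕ → ℝ) (s : Finset ℕ) (n : ℕ) : ℝ :=
  if s.card = 0 then b 0 n else (1 / (s.card : ℝ)) * ∑ q ∈ s, b q n

theorem dlt_avg2_E (b : ℕ → ℕ → ℝ) (s : Finset ℕ) (N : ℕ) :
    avg2 (dlt_E b s) N = dlt_E (fun q N => avg2 (b q) N) s N := by
  unfold dlt_E
  split_ifs with h
  · rfl
  · unfold avg2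
    simp only [Finset.mul_sum]
    have h1 : ∀ q ∈ s, ∑ x ∈ range N, ∑ x_1 ∈ range N, 1 / (s.card : ℝ) * (1 / (N : ℝ) ^ 2 * b q ((x - x_1) + (x_1 - x))) =
        ∑ x ∈ range N, ∑ x_1 ∈ range N, 1 / (N : ℝ) ^ 2 * (1 / (s.card : ℝ) * b q ((x - x_1) + (x_1 - x))) := by
      intro q _
      refine Finset.sum_congr rfl fun x _ => Finset.sum_congr rfl fun y _ => ?_
      ring
    rw [Finset.sum_congr rfl h1]
    symm
    rw [Finset.sum_comm]
    refine Finset.sum_congr rfl fun x _ => ?_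
    rw [Finset.sum_comm]

theorem dlt_E_le (b b' : ℕ → ℕ → ℝ) (s : Finset ℕ) (n m : ℕ) (h0 : b 0 n ≤ b' 0 m)
    (h : ∀ q ∈ s, b q n ≤ b' q m) : dlt_E b s n ≤ dlt_E b' s m := by
  unfold dlt_E
  split_ifs with hs
  · exact h0
  · exact mul_le_mul_of_nonneg_left (Finset.sum_le_sum h) (by positivity)

theorem dlt_E_const (c : ℝ) (s : Finset ℕ) (n : ℕ) : dlt_E (fun _ _ => c) s n = c := by
  unfold dlt_E
  split_ifs with hs
  · rfl
  · have : (s.card : ℝ) ≠ 0 := by exact_mod_cast hs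
    rw [Finset.sum_const, nsmul_eq_mul]
    field_simp

theorem dlt_vn_re {b : ℕ → ℂ} {C : ℝ} (h : VN b C) : VN (fun n => (((b n).re : ℝ) : ℂ)) C := by
  intro c N r B hB
  have h1 := h c N r B hB
  have h2 := h (fun n => conj (c n)) N r B (by
    intro θ
    have h3 := hB (-θ)
    have h4 : ∑ n ∈ Icc 1 N, conj (c n) * GT.e (n * θ) = conj (∑ n ∈ Icc 1 N, c n * GT.e (n * (-θ))) := by
      rw [map_sum]
      refine Finset.sum_congr rfl fun n _ => ?_
      rw [map_mul]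
      congr 1
      unfold GT.e
      rw [← Complex.exp_conj]
      congr 1
      simp only [map_mul, Complex.conj_I, Complex.conj_ofReal, map_ofNat]
      push_cast
      ring
    rw [h4, RCLike.norm_conj]
    exact h3)
  have h5 : ∑ n ∈ Icc 1 N, c n * (((b (r * n)).re : ℝ) : ℂ) = (1 / 2 : ℂ) *
      (∑ n ∈ Icc 1 N, c n * b (r * n) + conj (∑ n ∈ Icc 1 N, conj (c n) * b (r * n))) := by
    rw [map_sum, ← Finset.sum_add_distrib, Finset.mul_sum]
    refine Finset.sum_congr rfl fun n _ => ?_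
    rw [map_mul, Complex.conj_conj, ← mul_add, Complex.add_conj]
    push_cast
    ring
  show ‖∑ n ∈ Icc 1 N, c n * (((b (r * n)).re : ℝ) : ℂ)‖ ≤ C * B
  rw [h5, norm_mul]
  have h6 : ‖(1 / 2 : ℂ)‖ = 1 / 2 := by norm_num
  rw [h6]
  have h7 := norm_add_le (∑ n ∈ Icc 1 N, c n * b (r * n)) (conj (∑ n ∈ Icc 1 N, conj (c n) * b (r * n)))
  rw [RCLike.norm_conj] at h7
  linarith

theorem dlt_vn_E {b : ℕ → ℕ → ℝ} {C : ℝ} (s : Finset ℕ) (h : ∀ q, VN (fun n => ((b q n : ℝ) : ℂ)) C) :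
    VN (fun n => ((dlt_E b s n : ℝ) : ℂ)) C := by
  intro c N r B hB
  show ‖∑ n ∈ Icc 1 N, c n * ((dlt_E b s (r * n) : ℝ) : ℂ)‖ ≤ C * B
  unfold dlt_E
  split_ifs with hs
  · exact h 0 c N r B hB
  · have hs0 : (0 : ℝ) < s.card := by exact_mod_cast Nat.pos_of_ne_zero hs
    have h1 : ∑ n ∈ Icc 1 N, c n * (((1 / (s.card : ℝ)) * ∑ q ∈ s, b q (r * n) : ℝ) : ℂ) =
        (1 / (s.card : ℂ)) * ∑ q ∈ s, ∑ n ∈ Icc 1 N, c n * ((b q (r * n) : ℝ) : ℂ) := by
      rw [Finset.sum_comm, Finset.mul_sum]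
      refine Finset.sum_congr rfl fun n _ => ?_
      push_cast
      rw [← Finset.mul_sum]
      ring
    rw [h1, norm_mul, norm_div, norm_one, Complex.norm_natCast, one_div, inv_mul_le_iff₀ hs0]
    refine (norm_sum_le _ _).trans ?_
    calc _ ≤ ∑ q ∈ s, C * B := Finset.sum_le_sum fun q _ => h q c N r B hB
      _ = _ := by rw [Finset.sum_const, nsmul_eq_mul]

variable {Y : Type} [TopologicalSpace Y] {ι : Type} [Fintype ι] [DecidableEq ι] {S : Y → Y} {X : ℕ → Y → Matrix ι ι ℂ}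
variable [CompactSpace Y] [T2Space Y] [SecondCountableTopology Y] [MeasurableSpace Y] [BorelSpace Y]
  {ν : Measure Y} {D : Type} [Fintype D] {lam : D → ℕ → Measure (Y × Y)}

theorem dlt_vn (hS : Continuous S) (hX : Fam S X) (l : Measure (Y × Y)) [IsProbabilityMeasure l]
    (hl : MeasurePreserving (Prod.map S S) l l) :
    VN (fun n => (((bX l X n).re : ℝ) : ℂ)) (((Fintype.card ι : ℝ) ^ 2) ^ 2) := by
  refine dlt_vn_re ?_
  intro c N r B hB
  have hB0 : 0 ≤ B := (norm_nonneg _).trans (hB 0)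
  refine (vn_of_posDef _ (bX_posDef hS hX l hl) (bX_zero_im hX l) c N r B hB).trans ?_
  refine mul_le_mul_of_nonneg_right ?_ hB0
  exact (Complex.re_le_norm _).trans (bX_le hX l 0)

/-- one joining -/
theorem dlt_one {l : ℕ → Measure (Y × Y)} (hS : Continuous S) (hlp : ∀ q, IsProbabilityMeasure (l q))
    (hli : ∀ q, MeasurePreserving (Prod.map S S) (l q) (l q))
    (hpos : ∀ q, ∀ f : C(Y, ℂ), jq (l 0) f ≤ jq (l q) f)
    (hlim : ∀ f : C(Y, ℂ), Tendsto (fun q => jq (l q) f) atTop (𝓝 (jq (l 0) f)))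
    (hX : Fam S X) (r : ℕ) (hr : 1 ≤ r) (ε : ℝ) (hε : 0 < ε) :
    ∃ j0 : ℕ, ∀ j ≥ j0, ∑ p ∈ Qb j, ∑ q ∈ Qb j,
      ((bX (l q) X (p * r)).re - (bX (l 0) X (p * r)).re) ≤ ε * ((Qb j).card : ℝ) ^ 2 := by
  set b : ℕ → ℕ → ℝ := fun q n => (bX (l q) X n).re with hb
  have hge : ∀ q n, b 0 n ≤ b q n := fun q n => hpos q ⟨FF X n, FF_cont hX n⟩
  have hlimq : ∀ n, Tendsto (fun q => b q n) atTop (𝓝 (b 0 n)) := fun n => hlim ⟨FF X n, FF_cont hX n⟩
  have hmono : ∀ q k, avg2 (b q) (2 ^ (k + 1)) ≤ avg2 (b q) (2 ^ k) := by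
    intro q k
    rw [pow_succ]
    exact bX_avg_mono hS hX (l q) (hli q) (2 ^ k) 2 (by positivity) (by norm_num)
  have hD : ∀ j n, b 0 n ≤ dlt_E b (Qb j) n := by
    intro j n
    have h1 := dlt_E_le (fun _ _ => b 0 n) b (Qb j) n n le_rfl (fun q _ => hge q n)
    rwa [dlt_E_const] at h1
  have h8 := mono_abs (fun j => dlt_E b (Qb j)) (b 0) hD ?_ ?_ (hmono 0) ?_
  · have h9 := primes_abs model Qb_card (fun j => dlt_E b (Qb j)) (b 0) (((Fintype.card ι : ℝ) ^ 2) ^ 2)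
      (fun j => dlt_vn_E (Qb j) fun q => dlt_vn hS hX (l q) (hli q))
      (dlt_vn hS hX (l 0) (hli 0)) hD h8 r hr ε hε
    obtain ⟨j0, hj0⟩ := h9
    refine ⟨j0, fun j hj => ?_⟩
    have h10 := hj0 j hj
    rcases Nat.eq_zero_or_pos (Qb j).card with hc | hc
    · have hemp : Qb j = ∅ := Finset.card_eq_zero.1 hc
      rw [hemp]
      simp
    · have hc' : (0 : ℝ) < (Qb j).card := by exact_mod_cast hc
      have h11 : ∑ p ∈ Qb j, ∑ q ∈ Qb j, (b q (p * r) - b 0 (p * r)) =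
          ((Qb j).card : ℝ) * ∑ p ∈ Qb j, (dlt_E b (Qb j) (p * r) - b 0 (p * r)) := by
        rw [Finset.mul_sum]
        refine Finset.sum_congr rfl fun p _ => ?_
        unfold dlt_E
        rw [if_neg (by omega), Finset.sum_sub_distrib, Finset.sum_const, nsmul_eq_mul]
        field_simp
      calc ∑ p ∈ Qb j, ∑ q ∈ Qb j, ((bX (l q) X (p * r)).re - (bX (l 0) X (p * r)).re) =
          ((Qb j).card : ℝ) * ∑ p ∈ Qb j, (dlt_E b (Qb j) (p * r) - b 0 (p * r)) := h11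
        _ ≤ ((Qb j).card : ℝ) * (ε * ((Qb j).card : ℝ)) := mul_le_mul_of_nonneg_left h10 hc'.le
        _ = _ := by ring
  · -- the limit
    intro n
    rw [Metric.tendsto_atTop]
    intro δ hδ
    obtain ⟨q0, hq0⟩ := Metric.tendsto_atTop.1 (hlimq n) (δ / 2) (by positivity)
    refine ⟨q0, fun j hj => ?_⟩
    have h1 : ∀ q ∈ Qb j, b q n ≤ b 0 n + δ / 2 := by
      intro q hq
      have h2 : q0 ≤ q := by
        unfold Qb at hq
        rw [Finset.mem_filter, Finset.mem_Ico] at hq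
        have : j < 2 ^ j := Nat.lt_two_pow_self
        omega
      have h3 := hq0 q h2
      rw [Real.dist_eq] at h3
      have h4 := (abs_lt.1 h3).2
      linarith
    have h2 := dlt_E_le b (fun _ _ => b 0 n + δ / 2) (Qb j) n n (by linarith) h1
    rw [dlt_E_const] at h2
    have h3 := hD j n
    rw [Real.dist_eq, abs_lt]
    constructor <;> linarith
  · intro j k
    rw [dlt_avg2_E, dlt_avg2_E]
    exact dlt_E_le _ _ _ _ _ (hmono 0 k) (fun q _ => hmono q k)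
  · intro k
    exact bX_avg_nonneg hS hX (l 0) (hli 0) (2 ^ k) (by positivity)

theorem delta_primes0 (hS : Continuous S) (hlp : ∀ i q, IsProbabilityMeasure (lam i q))
    (hli : ∀ i q, MeasurePreserving (Prod.map S S) (lam i q) (lam i q))
    (hpos : ∀ i q, ∀ f : C(Y, ℂ), jq (lam i 0) f ≤ jq (lam i q) f)
    (hlim : ∀ i, ∀ f : C(Y, ℂ), Tendsto (fun q => jq (lam i q) f) atTop (𝓝 (jq (lam i 0) f)))
    (hX : Fam S X) (r : ℕ) (hr : 1 ≤ r) (ε : ℝ) (hε : 0 < ε) :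
    ∃ j0 : ℕ, ∀ j ≥ j0, ∑ p ∈ Qb j, ∑ i, ∑ q ∈ Qb j,
      ((bX (lam i q) X (p * r)).re - (bX (lam i 0) X (p * r)).re) ≤ ε * ((Qb j).card : ℝ) ^ 2 := by
  set K : ℝ := (Fintype.card D : ℝ) + 1 with hK
  have hK0 : 0 < K := by positivity
  choose j0 hj0 using fun i : D => dlt_one (l := lam i) hS (hlp i) (hli i) (hpos i) (hlim i) hX r hr (ε / K)
    (by positivity)
  refine ⟨∑ i, j0 i, fun j hj => ?_⟩
  rw [Finset.sum_comm]
  have h1 : ∀ i ∈ (Finset.univ : Finset D), ∑ p ∈ Qb j, ∑ q ∈ Qb j,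
      ((bX (lam i q) X (p * r)).re - (bX (lam i 0) X (p * r)).re) ≤ ε / K * ((Qb j).card : ℝ) ^ 2 := by
    intro i _
    refine hj0 i j (le_trans ?_ hj)
    exact Finset.single_le_sum (fun _ _ => Nat.zero_le _) (Finset.mem_univ i)
  refine (Finset.sum_le_sum h1).trans ?_
  rw [Finset.sum_const, nsmul_eq_mul, Finset.card_univ]
  have h2 : (Fintype.card D : ℝ) * (ε / K * ((Qb j).card : ℝ) ^ 2) =
      ((Fintype.card D : ℝ) / K) * (ε * ((Qb j).card : ℝ) ^ 2) := by ring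
  rw [h2]
  refine mul_le_of_le_one_left (by positivity) ?_
  rw [div_le_one hK0]
  linarith

theorem delta_primes (hB : BaseP S ν lam) (hX : Fam S X) (r : ℕ) (hr : 1 ≤ r) (ε : ℝ) (hε : 0 < ε) :
    ∃ j0 : ℕ, ∀ j ≥ j0, ∑ p ∈ Qb j, ∑ i, ∑ q ∈ Qb j,
      ((bX (lam i q) X (p * r)).re - (bX (lam i 0) X (p * r)).re) ≤ ε * ((Qb j).card : ℝ) ^ 2 :=
  delta_primes0 hB.cont hB.lprob hB.linv hB.pos hB.lim hX r hr ε hε

end Pool.Agent.Lib.MP_9fe581_an.HX
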