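import Pool.Agent.Lib.MP_9fe581_an.HD.GDefs

/-!
# HX: skew products over a general base, definitions

`Fam S X`: a family of continuous matrix functions `X n` on `Y` with `X (l + k) y = X l (S^k y) * V`, `V` depending on `k, y`
only and acting isometrically (cocycle products with an observable).
`BaseP S ν lam`: property (P) of the base `(Y, S, ν)` with the `S × S`-invariant joinings `lam i q` (`q = 0` is the limit).
Unipotent affine maps `uS N β x = x + N x + β` of the torus, `N` a nilpotent integer matrix.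
-/

set_option autoImplicit false

open Finset MeasureTheory Filter Topology UnitAddTorus
open scoped ComplexConjugate Matrix

namespace Pool.Agent.Lib.MP_9fe581_an.HX

open Pool.Agent.Lib.MP_9fe581_an.HD

variable {Y : Type} [TopologicalSpace Y] {ι : Type} [Fintype ι] [DecidableEq ι]

/-- families with an observable over `(Y, S)`, entries at most 1 -/
structure Fam (S : Y → Y) (X : ℕ → Y → Matrix ι ι ℂ) : Prop where
  cont : ∀ n, Continuous (X n)
  bd : ∀ n y i j, ‖X n y i j‖ ≤ 1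
  add : ∀ k y, ∃ V : Matrix ι ι ℂ, (∀ t, ∑ b, ‖V b t‖ ^ 2 ≤ 1) ∧
    ∀ l, X (l + k) y = X l (S^[k] y) * V ∧ X l (S^[k] y) * (V * Vᴴ) = X l (S^[k] y)

/-- `tr (X_n(y) X_0(y)^*)` -/
noncomputable def FF (X : ℕ → Y → Matrix ι ι ℂ) (n : ℕ) (y : Y) : ℂ := (X n y * (X 0 y)ᴴ).trace

/-- the integral of `FF` -/
noncomputable def aX [MeasurableSpace Y] (ν : Measure Y) (X : ℕ → Y → Matrix ι ι ℂ) (n : ℕ) : ℂ :=
  ∫ y, FF X n y ∂ν

/-- the correlation of `FF` along a joining -/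
noncomputable def bX [MeasurableSpace Y] (lam : Measure (Y × Y)) (X : ℕ → Y → Matrix ι ι ℂ) (n : ℕ) : ℂ :=
  ∫ z, FF X n z.1 * conj (FF X n z.2) ∂lam

/-- entries of `(1/L) ∑_{l < L} X_{pl}(u) ⊗ conj X_{ql}(v)` -/
noncomputable def Wt (X : ℕ → Y → Matrix ι ι ℂ) (p q L : ℕ) (u v : Y) (a b c f : ι) : ℂ :=
  (1 / (L : ℂ)) * ∑ l ∈ range L, X (p * l) u a b * conj (X (q * l) v c f)

/-- Hilbert - Schmidt norm squared -/
noncomputable def Phi (X : ℕ → Y → Matrix ι ι ℂ) (p q L : ℕ) (u v : Y) : ℝ :=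
  ∑ a, ∑ b, ∑ c, ∑ f, ‖Wt X p q L u v a b c f‖ ^ 2

/-- `tr (X_{pl}(u) X_{pl'}(u)^*)` -/
noncomputable def sX (X : ℕ → Y → Matrix ι ι ℂ) (p l l' : ℕ) (u : Y) : ℂ :=
  (X (p * l) u * (X (p * l') u)ᴴ).trace

/-- the quadratic form of a joining -/
noncomputable def jq [MeasurableSpace Y] (lam : Measure (Y × Y)) (f : C(Y, ℂ)) : ℝ :=
  (∫ z, f z.1 * conj (f z.2) ∂lam).re

/-- property (P) of a base -/
structure BaseP {D : Type} [Fintype D] [MeasurableSpace Y] (S : Y → Y) (ν : Measure Y)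
    (lam : D → ℕ → Measure (Y × Y)) : Prop where
  cont : Continuous S
  prob : IsProbabilityMeasure ν
  mp : MeasurePreserving S ν ν
  lprob : ∀ i q, IsProbabilityMeasure (lam i q)
  linv : ∀ i q, MeasurePreserving (Prod.map S S) (lam i q) (lam i q)
  pos : ∀ i q, ∀ f : C(Y, ℂ), jq (lam i 0) f ≤ jq (lam i q) f
  lim : ∀ i, ∀ f : C(Y, ℂ), Tendsto (fun q => jq (lam i q) f) atTop (𝓝 (jq (lam i 0) f))
  P : ∀ Q : Finset ℕ, (∀ p ∈ Q, p.Prime) → ∀ (f : ℕ → C(Y, ℂ)) (B : ℝ), (∀ p ∈ Q, ∀ y, ‖f p y‖ ≤ B) →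
    ∀ ε : ℝ, 0 < ε → ∃ M0 : ℕ, ∀ M ≥ M0, ∀ (M1 : ℕ) (y : Y),
      ∑ m ∈ Ioc M1 (M1 + M), ‖∑ p ∈ Q, f p (S^[p * m] y)‖ ^ 2 ≤
        (‖∑ p ∈ Q, ∫ y, f p y ∂ν‖ ^ 2 + Q.card * B ^ 2 +
          ∑ p ∈ Q, ∑ i, ∑ q ∈ Q, (jq (lam i q) (f p) - jq (lam i 0) (f p)) + ε) * M

variable {D : ℕ}

/-- the action of an integer matrix on the torus -/
def act (N : Matrix (Fin D) (Fin D) ℤ) (x : Td D) : Td D := fun i => ∑ j, N i j • x j

/-- the unipotent affine map `x ↦ x + N x + β` -/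
def uS (N : Matrix (Fin D) (Fin D) ℤ) (β : Td D) (x : Td D) : Td D := x + act N x + β

/-- `q = 0`: Haar measure; `q > 0`: the uniform probability on the points of order `q` -/
noncomputable def mq (D q : ℕ) : Measure (Td D) :=
  if q = 0 then mT D else (((q : ENNReal) ^ D)⁻¹) • ∑ i : Fin D → Fin q, Measure.dirac (ptq q i)

/-- the joinings of the unipotent affine maps: the law of `(x + N^(k+1) t + N^k s, x)`, `x, t` Haar, `s` with law `mq D q` -/
noncomputable def lamU (N : Matrix (Fin D) (Fin D) ℤ) (k q : ℕ) : Measure (Td D × Td D) :=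
  ((mT D).prod ((mT D).prod (mq D q))).map
    (fun z => (z.1 + act (N ^ (k + 1)) z.2.1 + act (N ^ k) z.2.2, z.1))

/-- the adjoint action on the characters -/
def ad (N : Matrix (Fin D) (Fin D) ℤ) (a : Fin D → ℤ) : Fin D → ℤ := Matrix.vecMul a N

/-- divisibility of a vector -/
def dv (q : ℕ) (a : Fin D → ℤ) : Prop := ∀ i, (q : ℤ) ∣ a i

/-- the skew product over `S` -/
def skewS {G : Type} [Mul G] (S : Td D → Td D) (φ : Td D → G) (z : Td D × G) : Td D × G := (S z.1, φ z.1 * z.2)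

/-- the products of the cocycle over `S` -/
def prS {G : Type} [Group G] (S : Td D → Td D) (φ : Td D → G) : ℕ → Td D → G
  | 0, _ => 1
  | n + 1, x => φ (S^[n] x) * prS S φ n x

/-- the family of the function `mFourier k x * ((1 - fixP) * π y) i j` -/
noncomputable def XG {G : Type} [Group G] [MeasurableSpace G] (μ : Measure G) (π : G → Matrix ι ι ℂ) (k : Fin D → ℤ)
    (S : Td D → Td D) (φ : Td D → G) (n : ℕ) (x : Td D) : Matrix ι ι ℂ :=
  mFourier k (S^[n] x) • ((1 - fixP μ π) * π (prS S φ n x))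

/-- multiplicative difference -/
noncomputable def dif (g : ℕ → ℂ) (m : ℕ) : ℂ := g (m + 1) * conj (g m)

/-- the level of a character: the least `k` with `N^k` killing it -/
noncomputable def lev (N : Matrix (Fin D) (Fin D) ℤ) (a : Fin D → ℤ) : ℕ := sInf {k | ad (N ^ k) a = 0}

/-- the leading part -/
noncomputable def led (N : Matrix (Fin D) (Fin D) ℤ) (a : Fin D → ℤ) : Fin D → ℤ := ad (N ^ (lev N a - 1)) a

end Pool.Agent.Lib.MP_9fe581_an.HX
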