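import Pool.Agent.Lib.MP_9fe581_an.Kbsz
import Pool.Agent.Lib.MP_9fe581_an.HX.Defs

/-! HX, module A4: the Katai - Bourgain - Sarnak - Ziegler criterion with pair sums over windows. -/

set_option autoImplicit false

open Finset MeasureTheory Filter Topology
open scoped ComplexConjugate

namespace Pool.Agent.Lib.MP_9fe581_an.HX

open Pool.Agent.Lib.MP_9fe581_an.HD

private lemma kw_mem {j p : ℕ} (hp : p ∈ Qb j) : p.Prime ∧ 2 ^ j ≤ p ∧ p < 2 ^ (j + 1) := by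
  unfold Qb at hp
  rw [mem_filter, mem_Ico] at hp
  exact ⟨hp.2, hp.1.1, hp.1.2⟩

private lemma kw_card_le (j : ℕ) : (Qb j).card ≤ 2 ^ j := by
  unfold Qb
  refine (card_filter_le _ _).trans ?_
  rw [Nat.card_Ico, pow_succ]; omega

/-- one piece -/
private lemma kw_piece {u a : ℕ → ℂ} (hu1 : ∀ n, ‖u n‖ ≤ 1) (Q P : Finset ℕ) (hPQ : P ⊆ Q) (M1 H : ℕ)
    (δ : ℝ) (hδ : 0 ≤ δ)
    (hc : ∑ p ∈ Q, ∑ q ∈ Q, ‖∑ m ∈ Ioc M1 (M1 + H), a (p * m) * conj (a (q * m))‖ ≤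
      δ ^ 2 * (Q.card : ℝ) ^ 2 * H) :
    ‖∑ p ∈ P, ∑ m ∈ Ioc M1 (M1 + H), u p * u m * a (p * m)‖ ≤ δ * Q.card * H := by
  have e1 : ∑ p ∈ P, ∑ m ∈ Ioc M1 (M1 + H), u p * u m * a (p * m)
      = ∑ m ∈ Ioc M1 (M1 + H), u m * ∑ p ∈ P, u p * a (p * m) := by
    rw [Finset.sum_comm]
    refine Finset.sum_congr rfl fun m _ => ?_
    rw [Finset.mul_sum]
    exact Finset.sum_congr rfl fun p _ => by ring
  rw [e1]
  have e2 : ‖∑ m ∈ Ioc M1 (M1 + H), u m * ∑ p ∈ P, u p * a (p * m)‖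
      ≤ ∑ m ∈ Ioc M1 (M1 + H), ‖∑ p ∈ P, u p * a (p * m)‖ := by
    refine (norm_sum_le _ _).trans (Finset.sum_le_sum fun m _ => ?_)
    rw [norm_mul]
    exact mul_le_of_le_one_left (norm_nonneg _) (hu1 m)
  have e3 : (∑ m ∈ Ioc M1 (M1 + H), ‖∑ p ∈ P, u p * a (p * m)‖) ^ 2
      ≤ (H : ℝ) * ∑ m ∈ Ioc M1 (M1 + H), ‖∑ p ∈ P, u p * a (p * m)‖ ^ 2 := by
    refine (sq_sum_le_card_mul_sum_sq).trans ?_
    rw [Nat.card_Ioc, Nat.add_sub_cancel_left]
  have e4 : ∑ m ∈ Ioc M1 (M1 + H), ‖∑ p ∈ P, u p * a (p * m)‖ ^ 2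
      ≤ δ ^ 2 * (Q.card : ℝ) ^ 2 * H := by
    have k2 : ((∑ m ∈ Ioc M1 (M1 + H), ‖∑ p ∈ P, u p * a (p * m)‖ ^ 2 : ℝ) : ℂ)
        = ∑ p ∈ P, ∑ q ∈ P, u p * conj (u q) * ∑ m ∈ Ioc M1 (M1 + H), a (p * m) * conj (a (q * m)) := by
      rw [Complex.ofReal_sum]
      have k1 : ∀ m, ((‖∑ p ∈ P, u p * a (p * m)‖ ^ 2 : ℝ) : ℂ) =
          ∑ p ∈ P, ∑ q ∈ P, (u p * a (p * m)) * conj (u q * a (q * m)) := by
        intro m
        rw [← Finset.sum_mul_sum, ← map_sum, Complex.mul_conj, Complex.normSq_eq_norm_sq]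
      simp_rw [k1]
      rw [Finset.sum_comm]
      refine Finset.sum_congr rfl fun p _ => ?_
      rw [Finset.sum_comm]
      refine Finset.sum_congr rfl fun q _ => ?_
      rw [Finset.mul_sum]
      refine Finset.sum_congr rfl fun m _ => ?_
      rw [map_mul]
      ring
    have k6 : ∑ m ∈ Ioc M1 (M1 + H), ‖∑ p ∈ P, u p * a (p * m)‖ ^ 2
        ≤ ∑ p ∈ P, ∑ q ∈ P, ‖∑ m ∈ Ioc M1 (M1 + H), a (p * m) * conj (a (q * m))‖ := by
      have : (∑ m ∈ Ioc M1 (M1 + H), ‖∑ p ∈ P, u p * a (p * m)‖ ^ 2 : ℝ)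
          = ‖((∑ m ∈ Ioc M1 (M1 + H), ‖∑ p ∈ P, u p * a (p * m)‖ ^ 2 : ℝ) : ℂ)‖ := by
        rw [Complex.norm_real, Real.norm_of_nonneg]
        exact Finset.sum_nonneg fun _ _ => by positivity
      rw [this, k2]
      refine (norm_sum_le _ _).trans (Finset.sum_le_sum fun p _ => ?_)
      refine (norm_sum_le _ _).trans (Finset.sum_le_sum fun q _ => ?_)
      rw [norm_mul, norm_mul, RCLike.norm_conj]
      exact mul_le_of_le_one_left (norm_nonneg _) (mul_le_one₀ (hu1 _) (norm_nonneg _) (hu1 _))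
    refine k6.trans (le_trans ?_ hc)
    refine (Finset.sum_le_sum fun p _ =>
      Finset.sum_le_sum_of_subset_of_nonneg hPQ fun _ _ _ => norm_nonneg _).trans ?_
    exact Finset.sum_le_sum_of_subset_of_nonneg hPQ fun _ _ _ =>
      Finset.sum_nonneg fun _ _ => norm_nonneg _
  have hH : (0 : ℝ) ≤ H := Nat.cast_nonneg _
  have e5 : ‖∑ m ∈ Ioc M1 (M1 + H), u m * ∑ p ∈ P, u p * a (p * m)‖ ^ 2
      ≤ (δ * Q.card * H) ^ 2 := by
    calc ‖∑ m ∈ Ioc M1 (M1 + H), u m * ∑ p ∈ P, u p * a (p * m)‖ ^ 2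
        ≤ (∑ m ∈ Ioc M1 (M1 + H), ‖∑ p ∈ P, u p * a (p * m)‖) ^ 2 :=
          pow_le_pow_left₀ (norm_nonneg _) e2 2
      _ ≤ (H : ℝ) * ∑ m ∈ Ioc M1 (M1 + H), ‖∑ p ∈ P, u p * a (p * m)‖ ^ 2 := e3
      _ ≤ (H : ℝ) * (δ ^ 2 * (Q.card : ℝ) ^ 2 * H) := mul_le_mul_of_nonneg_left e4 hH
      _ = (δ * Q.card * H) ^ 2 := by ring
  exact (pow_le_pow_iff_left₀ (norm_nonneg _) (by positivity) two_ne_zero).1 e5

/-- cutting an interval into pieces -/
private lemma kw_cut (f : ℕ → ℂ) (H k : ℕ) :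
    ∑ m ∈ Ioc 0 (H * k), f m = ∑ i ∈ range k, ∑ m ∈ Ioc (H * i) (H * i + H), f m := by
  induction k with
  | zero => simp
  | succ k ih =>
    rw [Finset.sum_range_succ, ← ih, show H * (k + 1) = H * k + H by ring,
      Finset.sum_Ioc_consecutive _ (Nat.zero_le _) (Nat.le_add_right _ _)]

/-- one dyadic block, from window sums -/
private lemma kw_block {u a : ℕ → ℂ} (hu1 : ∀ n, ‖u n‖ ≤ 1) (ha : ∀ n, ‖a n‖ ≤ 1) (j H0 R : ℕ)
    (ε : ℝ) (hε : 0 < ε) (hR : 16 / ε ≤ R)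
    (hc : ∀ H ≥ H0, ∀ M1 : ℕ,
      ∑ p ∈ Qb j, ∑ q ∈ Qb j, ‖∑ m ∈ Ioc M1 (M1 + H), a (p * m) * conj (a (q * m))‖ ≤
        (ε / 8) ^ 2 * ((Qb j).card : ℝ) ^ 2 * H)
    (N : ℕ) (hN : (H0 + 1) * (2 ^ j * R) ≤ N) :
    ‖∑ p ∈ Qb j, ∑ m ∈ Icc 1 (N / p), u p * u m * a (p * m)‖
      ≤ ε / 4 * ((Qb j).card / 2 ^ j) * N := by
  set D : ℕ := 2 ^ j with hDdef
  have hD : 0 < D := by positivity
  have hDr : (0 : ℝ) < D := by exact_mod_cast hD
  have hRr : (0 : ℝ) < R := lt_of_lt_of_le (by positivity) hR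
  have hRn : 0 < R := by exact_mod_cast hRr
  set Q : Finset ℕ := Qb j with hQdef
  have hQ : ∀ p ∈ Q, p.Prime ∧ D ≤ p := fun p hp => ⟨(kw_mem hp).1, (kw_mem hp).2.1⟩
  set H : ℕ := N / (D * R) with hHdef
  have hH0 : H0 + 1 ≤ H := by
    rw [hHdef, Nat.le_div_iff_mul_le (by positivity)]
    exact hN
  have hHpos : 0 < H := by omega
  have hHr : (0 : ℝ) < H := by exact_mod_cast hHpos
  have hHle : (H : ℝ) ≤ N / (D * R) := by
    have := Nat.cast_div_le (α := ℝ) (m := N) (n := D * R)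
    push_cast at this
    exact this
  set K : ℕ := (N / D) / H with hKdef
  set k : ℕ → ℕ := fun p => (N / p) / H with hkdef
  have hkK : ∀ p ∈ Q, k p ≤ K := fun p hp =>
    Nat.div_le_div_right (Nat.div_le_div_left (hQ p hp).2 hD)
  -- the cut
  have e1 : ∀ p ∈ Q, ∑ m ∈ Icc 1 (N / p), u p * u m * a (p * m)
      = ∑ i ∈ range K, (if i < k p then ∑ m ∈ Ioc (H * i) (H * i + H), u p * u m * a (p * m) else 0)
        + ∑ m ∈ Ioc (H * k p) (N / p), u p * u m * a (p * m) := by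
    intro p hp
    have h1 : H * k p ≤ N / p := Nat.mul_div_le (N / p) H
    have h2 : Icc 1 (N / p) = Ioc 0 (N / p) := by
      ext m
      rw [mem_Icc, mem_Ioc]
      omega
    rw [h2, ← Finset.sum_Ioc_consecutive _ (Nat.zero_le _) h1, kw_cut]
    congr 1
    rw [← Finset.sum_filter]
    refine Finset.sum_congr ?_ fun _ _ => rfl
    ext i
    rw [mem_filter, mem_range, mem_range]
    have := hkK p hp
    omega
  rw [Finset.sum_congr rfl e1, Finset.sum_add_distrib, Finset.sum_comm]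
  have e2 : ‖∑ i ∈ range K, ∑ p ∈ Q, (if i < k p then ∑ m ∈ Ioc (H * i) (H * i + H), u p * u m * a (p * m) else 0)‖
      ≤ K * (ε / 8 * Q.card * H) := by
    refine (norm_sum_le _ _).trans ((Finset.sum_le_card_nsmul _ _ (ε / 8 * Q.card * H) ?_).trans_eq ?_)
    · intro i _
      rw [← Finset.sum_filter]
      exact kw_piece hu1 Q _ (Finset.filter_subset _ _) (H * i) H (ε / 8) (by positivity)
        (hc H (by omega) (H * i))
    · rw [card_range, nsmul_eq_mul]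
  have e3 : ‖∑ p ∈ Q, ∑ m ∈ Ioc (H * k p) (N / p), u p * u m * a (p * m)‖ ≤ Q.card * H := by
    refine (norm_sum_le _ _).trans ((Finset.sum_le_card_nsmul _ _ (H : ℝ) ?_).trans_eq ?_)
    · intro p _
      refine (norm_sum_le _ _).trans ?_
      calc ∑ m ∈ Ioc (H * k p) (N / p), ‖u p * u m * a (p * m)‖
          ≤ ∑ m ∈ Ioc (H * k p) (N / p), (1 : ℝ) := by
            refine Finset.sum_le_sum fun m _ => ?_
            rw [norm_mul, norm_mul]
            exact mul_le_one₀ (mul_le_one₀ (hu1 _) (norm_nonneg _) (hu1 _)) (norm_nonneg _) (ha _)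
        _ = ((N / p - H * k p : ℕ) : ℝ) := by simp
        _ ≤ H := by
            have h1 : N / p < H * (k p + 1) := Nat.lt_mul_div_succ (N / p) hHpos
            have h2 : N / p - H * k p ≤ H := by
              rw [mul_add, mul_one] at h1
              omega
            exact_mod_cast h2
    · rw [nsmul_eq_mul]
  have hKH : (K : ℝ) * H ≤ N / D := by
    have h1 : K * H ≤ N / D := Nat.div_mul_le_self (N / D) H
    have h2 : ((K * H : ℕ) : ℝ) ≤ ((N / D : ℕ) : ℝ) := by exact_mod_cast h1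
    push_cast at h2
    exact h2.trans Nat.cast_div_le
  have hHR : (H : ℝ) ≤ ε / 16 * (N / D) := by
    refine hHle.trans ?_
    rw [div_le_iff₀ (by positivity)]
    have h1 : 1 ≤ ε / 16 * R := by
      rw [div_le_iff₀ hε] at hR
      linarith
    have h2 : (0 : ℝ) ≤ N := Nat.cast_nonneg _
    calc (N : ℝ) ≤ (ε / 16 * R) * N := le_mul_of_one_le_left h2 h1
      _ = ε / 16 * (N / D) * (D * R) := by field_simp
  have hQc : (0 : ℝ) ≤ Q.card := Nat.cast_nonneg _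
  have hNr : (0 : ℝ) ≤ N := Nat.cast_nonneg _
  rw [show ((2 : ℝ) ^ j) = (D : ℝ) by rw [hDdef]; push_cast; rfl]
  calc _ ≤ K * (ε / 8 * Q.card * H) + Q.card * H := (norm_add_le _ _).trans (add_le_add e2 e3)
    _ = ε / 8 * Q.card * (K * H) + Q.card * H := by ring
    _ ≤ ε / 8 * Q.card * (N / D) + Q.card * (ε / 16 * (N / D)) :=
        add_le_add (mul_le_mul_of_nonneg_left hKH (by positivity)) (mul_le_mul_of_nonneg_left hHR hQc)
    _ = (ε / 8 + ε / 16) * (Q.card * (N / D)) := by ring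
    _ ≤ ε / 4 * (Q.card * (N / D)) := by
        refine mul_le_mul_of_nonneg_right (by linarith) (by positivity)
    _ = ε / 4 * (Q.card / D) * N := by ring

/-- the trivial bound for one block -/
private lemma kw_block_triv {u a : ℕ → ℂ} (hu1 : ∀ n, ‖u n‖ ≤ 1) (ha : ∀ n, ‖a n‖ ≤ 1) (j N : ℕ) :
    ‖∑ p ∈ Qb j, ∑ m ∈ Icc 1 (N / p), u p * u m * a (p * m)‖ ≤ N := by
  have h1 : ∀ p ∈ Qb j, ‖∑ m ∈ Icc 1 (N / p), u p * u m * a (p * m)‖ ≤ (N : ℝ) / 2 ^ j := by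
    intro p hp
    refine (norm_sum_le _ _).trans ?_
    calc ∑ m ∈ Icc 1 (N / p), ‖u p * u m * a (p * m)‖ ≤ ∑ m ∈ Icc 1 (N / p), (1 : ℝ) := by
          refine Finset.sum_le_sum fun m _ => ?_
          rw [norm_mul, norm_mul]
          exact mul_le_one₀ (mul_le_one₀ (hu1 _) (norm_nonneg _) (hu1 _)) (norm_nonneg _) (ha _)
      _ = ((N / p : ℕ) : ℝ) := by simp
      _ ≤ (N : ℝ) / p := Nat.cast_div_le
      _ ≤ (N : ℝ) / 2 ^ j := by
          have : ((2 : ℝ) ^ j) ≤ p := by exact_mod_cast (kw_mem hp).2.1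
          gcongr
  refine (norm_sum_le _ _).trans ((Finset.sum_le_sum h1).trans ?_)
  rw [Finset.sum_const, nsmul_eq_mul]
  have hc : ((Qb j).card : ℝ) ≤ 2 ^ j := by exact_mod_cast kw_card_le j
  calc ((Qb j).card : ℝ) * ((N : ℝ) / 2 ^ j) ≤ 2 ^ j * ((N : ℝ) / 2 ^ j) := by gcongr
    _ = N := by field_simp

/-- The orthogonality criterion with correlations over windows, averaged over pairs of primes of dyadic
blocks, uniformly in a parameter; one level. -/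
theorem kbsz_win {I : Type} {u : ℕ → ℂ} (hu : BMult u) (s : I → ℕ → ℂ) (hs : ∀ i n, ‖s i n‖ ≤ 1) (ε : ℝ) (hε : 0 < ε)
    (h : ∃ J0 : ℕ, ∀ j ≥ J0, ∃ H0 : ℕ, ∀ H ≥ H0, ∀ (M1 : ℕ) (i : I),
      ∑ p ∈ Qb j, ∑ q ∈ Qb j, ‖∑ m ∈ Ioc M1 (M1 + H), s i (p * m) * conj (s i (q * m))‖ ≤
        (ε / 8) ^ 2 * ((Qb j).card : ℝ) ^ 2 * H) :
    ∃ N0 : ℕ, ∀ N ≥ N0, ∀ i : I, ‖∑ n ∈ Icc 1 N, u n * s i n‖ ≤ ε * N := by
  obtain ⟨J0, hJ0⟩ := h
  -- choose the primes
  have hdiv : Tendsto (fun J : ℕ => ∑ p ∈ (range (2 ^ J)).filter Nat.Prime, (1 : ℝ) / p)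
      atTop atTop := by
    have h1 := not_summable_one_div_on_primes
    have h2 := (not_summable_iff_tendsto_nat_atTop_of_nonneg
      (f := Set.indicator {p | Nat.Prime p} (fun n : ℕ => (1 : ℝ) / n))
      (fun n => Set.indicator_nonneg (fun _ _ => by positivity) n)).1 h1
    have h3 := h2.comp (tendsto_pow_atTop_atTop_of_one_lt (one_lt_two : (1 : ℕ) < 2))
    refine h3.congr fun J => ?_
    simp only [Function.comp, Finset.sum_filter, Set.indicator_apply, Set.mem_ofPred_eq]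
  obtain ⟨J, hJ⟩ := (hdiv.eventually
    (eventually_gt_atTop (max 1 (((8 + J0) / (ε / 2)) ^ 2)))).exists
  set P : Finset ℕ := (range (2 ^ J)).filter Nat.Prime with hPdef
  have hP : ∀ p ∈ P, p.Prime := fun p hp => (mem_filter.1 hp).2
  set A : ℝ := ∑ p ∈ P, (1 : ℝ) / p with hA
  have hA1 : 1 < A := (le_max_left _ _).trans_lt hJ
  have hA2 : ((8 + J0) / (ε / 2)) ^ 2 < A := (le_max_right _ _).trans_lt hJ
  have hA0 : 0 < A := by linarith
  -- the blocks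
  have hmaps : ∀ p ∈ P, Nat.log 2 p ∈ range J := by
    intro p hp
    have h1 := (mem_filter.1 hp).1
    rw [mem_range] at h1 ⊢
    exact Nat.log_lt_of_lt_pow (hP p hp).ne_zero h1
  have hfib : ∀ j ∈ range J, P.filter (fun p => Nat.log 2 p = j) = Qb j := by
    intro j hj
    rw [mem_range] at hj
    ext p
    unfold Qb
    rw [mem_filter, mem_filter, mem_range, mem_filter, mem_Ico]
    constructor
    · rintro ⟨⟨h1, h2⟩, h3⟩
      refine ⟨⟨?_, ?_⟩, h2⟩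
      · rw [← h3]; exact Nat.pow_log_le_self 2 h2.ne_zero
      · rw [← h3]; exact Nat.lt_pow_succ_log_self one_lt_two p
    · rintro ⟨⟨h1, h2⟩, h3⟩
      refine ⟨⟨h2.trans_le (Nat.pow_le_pow_right two_pos hj), h3⟩, ?_⟩
      exact Nat.log_eq_of_pow_le_of_lt_pow h1 h2
  -- thresholds
  have hM : ∀ j : ℕ, ∃ M0 : ℕ, J0 ≤ j → ∀ H ≥ M0, ∀ (M1 : ℕ) (i : I),
      ∑ p ∈ Qb j, ∑ q ∈ Qb j, ‖∑ m ∈ Ioc M1 (M1 + H), s i (p * m) * conj (s i (q * m))‖ ≤
        (ε / 8) ^ 2 * ((Qb j).card : ℝ) ^ 2 * H := by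
    intro j
    by_cases hj : J0 ≤ j
    · obtain ⟨M0, hM0⟩ := hJ0 j hj
      exact ⟨M0, fun _ => hM0⟩
    · exact ⟨0, fun h' => absurd h' hj⟩
  choose M0 hM0 using hM
  obtain ⟨R, hR⟩ := exists_nat_ge (16 / ε)
  refine ⟨P.card + ∑ j ∈ range J, (M0 j + 1) * (2 ^ j * R), fun N hN i => ?_⟩
  have hNP : (P.card : ℝ) ≤ N := by
    have : P.card ≤ N := (Nat.le_add_right _ _).trans hN
    exact_mod_cast this
  have hNj : ∀ j ∈ range J, (M0 j + 1) * (2 ^ j * R) ≤ N := fun j hj =>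
    (Finset.single_le_sum (f := fun j => (M0 j + 1) * (2 ^ j * R)) (fun _ _ => Nat.zero_le _) hj).trans
      ((Nat.le_add_left _ _).trans hN)
  have hNr : (0 : ℝ) ≤ N := Nat.cast_nonneg _
  have hu1 := hu.le_one
  have ha := hs i
  -- main estimate
  have m1 : ‖∑ p ∈ P, ∑ m ∈ Icc 1 (N / p), u p * u m * s i (p * m)‖
      ≤ (4 + J0 + ε / 2 * A) * N := by
    rw [← Finset.sum_fiberwise_of_maps_to hmaps]
    have hb : ∀ j ∈ range J,
        ‖∑ p ∈ P.filter (fun p => Nat.log 2 p = j), ∑ m ∈ Icc 1 (N / p), u p * u m * s i (p * m)‖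
        ≤ (Real.sqrt ((2 : ℝ) ^ j) / 2 ^ j + ε / 2 * (∑ p ∈ P.filter (fun p => Nat.log 2 p = j), (1 : ℝ) / p)
          + (if j < J0 then 1 else 0)) * N := by
      intro j hj
      rw [hfib j hj]
      have hS0 : 0 ≤ ∑ p ∈ Qb j, (1 : ℝ) / p := Finset.sum_nonneg fun _ _ => by positivity
      by_cases hj0 : j < J0
      · rw [if_pos hj0]
        refine (kw_block_triv hu1 ha j N).trans ?_
        refine le_mul_of_one_le_left hNr ?_
        have : 0 ≤ Real.sqrt ((2 : ℝ) ^ j) / 2 ^ j := by positivity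
        have : 0 ≤ ε / 2 * ∑ p ∈ Qb j, (1 : ℝ) / p := by positivity
        linarith
      · rw [if_neg hj0, add_zero]
        refine (kw_block hu1 ha j (M0 j) R ε hε hR (fun H hH M1 => hM0 j (not_lt.1 hj0) H hH M1 i) N
          (hNj j hj)).trans ?_
        refine mul_le_mul_of_nonneg_right ?_ hNr
        refine le_add_of_nonneg_of_le (by positivity) ?_
        have h2 : ((Qb j).card : ℝ) / 2 ^ (j + 1) ≤ ∑ p ∈ Qb j, (1 : ℝ) / p := by
          rw [div_eq_mul_one_div, ← nsmul_eq_mul]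
          refine Finset.card_nsmul_le_sum _ _ _ fun p hp => ?_
          have h3 := (kw_mem hp).1.pos
          have h4 : (p : ℝ) ≤ 2 ^ (j + 1) := by exact_mod_cast (kw_mem hp).2.2.le
          have h5 : (0 : ℝ) < p := by exact_mod_cast h3
          exact one_div_le_one_div_of_le h5 h4
        rw [pow_succ] at h2
        calc ε / 4 * (((Qb j).card : ℝ) / 2 ^ j) = ε / 2 * (((Qb j).card : ℝ) / (2 ^ j * 2)) := by ring
          _ ≤ _ := mul_le_mul_of_nonneg_left h2 (by positivity)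
    refine (norm_sum_le _ _).trans ((Finset.sum_le_sum hb).trans ?_)
    rw [← Finset.sum_mul]
    refine mul_le_mul_of_nonneg_right ?_ hNr
    rw [Finset.sum_add_distrib, Finset.sum_add_distrib, ← Finset.mul_sum,
      Finset.sum_fiberwise_of_maps_to hmaps]
    have k1 := geom_bound J
    have k2 : ∑ j ∈ range J, (if j < J0 then (1 : ℝ) else 0) ≤ J0 := by
      rw [Finset.sum_boole]
      have : ((range J).filter (fun j => j < J0)).card ≤ J0 := by
        refine (card_le_card (t := range J0) ?_).trans_eq (card_range J0)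
        intro j hj
        rw [mem_filter] at hj
        exact mem_range.2 hj.2
      exact_mod_cast this
    linarith
  have m2 : ‖∑ p ∈ P, ∑ m ∈ Icc 1 (N / p), u (p * m) * s i (p * m)‖
      ≤ (6 + J0 + ε / 2 * A) * N := by
    have k1 : ‖∑ p ∈ P, ∑ m ∈ Icc 1 (N / p), u (p * m) * s i (p * m)
        - ∑ p ∈ P, ∑ m ∈ Icc 1 (N / p), u p * u m * s i (p * m)‖ ≤ 2 * N := by
      rw [← Finset.sum_sub_distrib]
      refine (norm_sum_le _ _).trans ((Finset.sum_le_sum fun p hp =>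
        prime_sum hu1 hu.mul ha p (hP p hp) N).trans ?_)
      rw [← Finset.mul_sum, ← Finset.mul_sum]
      have := sum_inv_sq_le P hP
      nlinarith
    have k2 := norm_sub_norm_le (∑ p ∈ P, ∑ m ∈ Icc 1 (N / p), u (p * m) * s i (p * m))
      (∑ p ∈ P, ∑ m ∈ Icc 1 (N / p), u p * u m * s i (p * m))
    have k3 : (6 + J0 + ε / 2 * A) * (N : ℝ) = (4 + J0 + ε / 2 * A) * N + 2 * N := by ring
    rw [k3]
    linarith
  have m3 : ∑ n ∈ Icc 1 N, (om P n : ℂ) * (u n * s i n)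
      = ∑ p ∈ P, ∑ m ∈ Icc 1 (N / p), u (p * m) * s i (p * m) := by
    have k1 : ∀ n, (om P n : ℂ) * (u n * s i n) = ∑ p ∈ P, if p ∣ n then u n * s i n else 0 := by
      intro n
      unfold om
      push_cast
      rw [Finset.sum_mul]
      refine Finset.sum_congr rfl fun p _ => ?_
      split_ifs <;> simp
    simp_rw [k1]
    rw [Finset.sum_comm]
    exact Finset.sum_congr rfl fun p hp => sum_dvd_eq (fun n => u n * s i n) N p (hP p hp).pos
  have m4 : ‖(A : ℂ) * ∑ n ∈ Icc 1 N, u n * s i n - ∑ n ∈ Icc 1 N, (om P n : ℂ) * (u n * s i n)‖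
      ≤ 2 * Real.sqrt A * N := by
    rw [Finset.mul_sum, ← Finset.sum_sub_distrib]
    have k1 : ∀ n, ‖(A : ℂ) * (u n * s i n) - (om P n : ℂ) * (u n * s i n)‖ ≤ |om P n - A| := by
      intro n
      rw [← sub_mul, norm_mul, ← Complex.ofReal_sub, Complex.norm_real, Real.norm_eq_abs,
        abs_sub_comm]
      refine mul_le_of_le_one_right (abs_nonneg _) ?_
      rw [norm_mul]
      exact mul_le_one₀ (hu1 n) (norm_nonneg _) (ha n)
    refine (norm_sum_le _ _).trans ((Finset.sum_le_sum fun n _ => k1 n).trans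
      ((abs_sum_le P hP N).trans ?_))
    rw [← hA]
    refine Real.sqrt_le_iff.2 ⟨by positivity, ?_⟩
    have : (2 * Real.sqrt A * N) ^ 2 = 4 * A * N ^ 2 := by
      rw [mul_pow, mul_pow, Real.sq_sqrt hA0.le]; ring
    rw [this]
    have hq : 2 * A * (P.card : ℝ) ≤ 2 * A * N := mul_le_mul_of_nonneg_left hNP (by positivity)
    have hq2 : (N : ℝ) * (2 * A * (P.card : ℝ)) ≤ N * (2 * A * N) :=
      mul_le_mul_of_nonneg_left hq hNr
    nlinarith [mul_nonneg hA0.le (mul_nonneg hNr hNr)]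
  have m5 : A * ‖∑ n ∈ Icc 1 N, u n * s i n‖ ≤ (2 * Real.sqrt A + 6 + J0 + ε / 2 * A) * N := by
    have k1 : ‖(A : ℂ) * ∑ n ∈ Icc 1 N, u n * s i n‖ = A * ‖∑ n ∈ Icc 1 N, u n * s i n‖ := by
      rw [norm_mul, Complex.norm_real, Real.norm_of_nonneg hA0.le]
    rw [← k1]
    have k2 := norm_sub_norm_le ((A : ℂ) * ∑ n ∈ Icc 1 N, u n * s i n)
      (∑ n ∈ Icc 1 N, (om P n : ℂ) * (u n * s i n))
    rw [m3] at k2 m4
    have k3 : (2 * Real.sqrt A + 6 + J0 + ε / 2 * A) * (N : ℝ)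
        = (6 + J0 + ε / 2 * A) * N + 2 * Real.sqrt A * N := by ring
    rw [k3]
    linarith
  -- conclusion
  have hs1 : 1 < Real.sqrt A := by
    rw [show (1 : ℝ) = Real.sqrt 1 from Real.sqrt_one.symm]
    exact Real.sqrt_lt_sqrt zero_le_one hA1
  have hs2 : (8 + J0) / (ε / 2) < Real.sqrt A := Real.lt_sqrt_of_sq_lt hA2
  have hs3 : Real.sqrt A * Real.sqrt A = A := Real.mul_self_sqrt hA0.le
  have hJ0' : (0 : ℝ) ≤ J0 := Nat.cast_nonneg _
  have hs4 : (8 + J0 : ℝ) < ε / 2 * Real.sqrt A := by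
    rw [div_lt_iff₀ (by positivity)] at hs2
    linarith
  have m6 : A * ‖∑ n ∈ Icc 1 N, u n * s i n‖ ≤ A * (ε * N) := by
    refine m5.trans ?_
    have k3 : 2 * Real.sqrt A + 6 + J0 ≤ ε / 2 * A := by
      calc 2 * Real.sqrt A + 6 + J0 ≤ (8 + J0) * Real.sqrt A := by nlinarith
        _ ≤ ε / 2 * Real.sqrt A * Real.sqrt A := by
            refine mul_le_mul_of_nonneg_right hs4.le (by linarith)
        _ = ε / 2 * A := by rw [mul_assoc, hs3]
    calc (2 * Real.sqrt A + 6 + J0 + ε / 2 * A) * (N : ℝ) ≤ (ε / 2 * A + ε / 2 * A) * N := by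
          refine mul_le_mul_of_nonneg_right (by linarith) hNr
      _ = A * (ε * N) := by ring
  exact le_of_mul_le_mul_left m6 hA0


end Pool.Agent.Lib.MP_9fe581_an.HX
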