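import Pool.Agent.Lib.MP_9fe581_an.HX.Defs

/-!
# HX U2: the action of integer matrices, unipotent affine maps, differences of characters
-/

set_option autoImplicit false

open Finset MeasureTheory Filter Topology UnitAddTorus
open scoped ComplexConjugate Matrix

namespace Pool.Agent.Lib.MP_9fe581_an.HX

open Pool.Agent.Lib.MP_9fe581_an.HD

variable {D : ℕ} {N : Matrix (Fin D) (Fin D) ℤ} {β : Td D}

theorem act_add (N : Matrix (Fin D) (Fin D) ℤ) (x y : Td D) : act N (x + y) = act N x + act N y := by
  funext i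
  simp only [act, Pi.add_apply, smul_add, Finset.sum_add_distrib]

theorem act_cont (N : Matrix (Fin D) (Fin D) ℤ) : Continuous (act N) := by
  unfold act
  exact continuous_pi fun i => continuous_finsetSum _ fun j _ => (continuous_apply j).zsmul _

theorem act_mul (M N : Matrix (Fin D) (Fin D) ℤ) (x : Td D) : act (M * N) x = act M (act N x) := by
  funext i
  simp only [act, Matrix.mul_apply, Finset.sum_smul, Finset.smul_sum, mul_smul]
  rw [Finset.sum_comm]

private theorem u2_prod {α : Type*} (s : Finset α) (f : α → AddCircle (1 : ℝ)) :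
    ∏ i ∈ s, ((AddCircle.toCircle (f i) : Circle) : ℂ) =
      ((AddCircle.toCircle (∑ i ∈ s, f i) : Circle) : ℂ) := by
  classical
  induction s using Finset.induction_on with
  | empty => simp
  | insert i s hi ih =>
    rw [Finset.prod_insert hi, Finset.sum_insert hi, ih, AddCircle.toCircle_add, Circle.coe_mul]

private theorem u2_mF (a : Fin D → ℤ) (x : Td D) :
    mFourier a x = ((AddCircle.toCircle (∑ i, a i • x i) : Circle) : ℂ) := by
  rw [← u2_prod]
  rfl

theorem mF_act (N : Matrix (Fin D) (Fin D) ℤ) (a : Fin D → ℤ) (x : Td D) :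
    mFourier a (act N x) = mFourier (ad N a) x := by
  rw [u2_mF, u2_mF]
  have h : ∑ i, a i • act N x i = ∑ i, ad N a i • x i := by
    simp only [act, ad, Matrix.vecMul, dotProduct, Finset.sum_smul, Finset.smul_sum, mul_smul]
    rw [Finset.sum_comm]
  rw [h]

theorem ad_mul (M N : Matrix (Fin D) (Fin D) ℤ) (a : Fin D → ℤ) : ad (M * N) a = ad N (ad M a) :=
  (Matrix.vecMul_vecMul a M N).symm

theorem ad_pow_comm (N : Matrix (Fin D) (Fin D) ℤ) (i j : ℕ) (a : Fin D → ℤ) :
    ad (N ^ i) (ad (N ^ j) a) = ad (N ^ (i + j)) a := by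
  rw [← ad_mul, ← pow_add, add_comm]

theorem uS_cont : Continuous (uS N β) := by
  unfold uS
  exact (continuous_id.add (act_cont N)).add continuous_const

private theorem u2_act_one (x : Td D) : act (1 : Matrix (Fin D) (Fin D) ℤ) x = x := by
  funext i
  simp [act, Matrix.one_apply, ite_smul]

private theorem u2_act_madd (M N : Matrix (Fin D) (Fin D) ℤ) (x : Td D) :
    act (M + N) x = act M x + act N x := by
  funext i
  simp only [act, Matrix.add_apply, Pi.add_apply, add_smul, Finset.sum_add_distrib]

private theorem u2_act_zero (N : Matrix (Fin D) (Fin D) ℤ) : act N (0 : Td D) = 0 := by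
  funext i
  simp [act]

private theorem u2_uS (x : Td D) : uS N β x = act (1 + N) x + β := by
  unfold uS
  rw [u2_act_madd, u2_act_one]

theorem uS_mp (hN : IsNilpotent N) : MeasurePreserving (uS N β) (mT D) (mT D) := by
  have hu : IsUnit (1 + N) := hN.isUnit_one_add
  let F : Td D →+ Td D :=
    { toFun := act (1 + N)
      map_zero' := u2_act_zero _
      map_add' := act_add _ }
  have hF : MeasurePreserving F (mT D) (mT D) := by
    refine AddMonoidHom.measurePreserving (act_cont (1 + N)) ?_ ?_
    · intro y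
      obtain ⟨U, hU⟩ := hu
      refine ⟨act (↑U⁻¹ : Matrix (Fin D) (Fin D) ℤ) y, ?_⟩
      change act (1 + N) (act _ y) = y
      rw [← act_mul, ← hU, Units.mul_inv, u2_act_one]
    · rfl
  have h := (measurePreserving_add_right (mT D) β).comp hF
  have e : uS N β = (fun x => x + β) ∘ F := by
    funext x
    exact u2_uS x
  rw [e]
  exact h

/-! ### Differences of characters -/

private theorem u2_mF_add (a : Fin D → ℤ) (x y : Td D) :
    mFourier a (x + y) = mFourier a x * mFourier a y := by
  rw [u2_mF, u2_mF, u2_mF, ← Circle.coe_mul, ← AddCircle.toCircle_add, ← Finset.sum_add_distrib]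
  congr 3
  funext i
  exact smul_add _ _ _

private theorem u2_mF_norm (a : Fin D → ℤ) (x : Td D) : ‖mFourier a x‖ = 1 := by
  rw [u2_mF]; exact Circle.norm_coe _

private theorem u2_mF_conj (a : Fin D → ℤ) (x : Td D) :
    mFourier a x * conj (mFourier a x) = 1 := by
  rw [Complex.mul_conj, Complex.normSq_eq_norm_sq, u2_mF_norm]
  norm_num

private theorem u2_mF_zero (x : Td D) : mFourier (0 : Fin D → ℤ) x = 1 := by
  rw [mFourier_zero]; rfl

private theorem u2_mF_nsmul (a : Fin D → ℤ) (n : ℕ) (x : Td D) :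
    mFourier ((n : ℤ) • a) x = mFourier a x ^ n := by
  induction n with
  | zero => rw [Nat.cast_zero, zero_smul, pow_zero, u2_mF_zero]
  | succ n ih =>
    rw [Nat.cast_succ, add_smul, one_smul, mFourier_add, ih, pow_succ]

/-- the iterates of the unipotent map -/
private theorem u2_iter (n : ℕ) (y : Td D) : (uS N β)^[n] y =
    act ((1 + N) ^ n) y + act (∑ i ∈ range n, (1 + N) ^ i) β := by
  induction n with
  | zero =>
    rw [Function.iterate_zero, id, pow_zero, u2_act_one, Finset.range_zero, Finset.sum_empty]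
    have : act (0 : Matrix (Fin D) (Fin D) ℤ) β = 0 := by
      funext i; simp [act]
    rw [this, add_zero]
  | succ n ih =>
    rw [Function.iterate_succ_apply', ih, u2_uS, act_add, ← act_mul, ← act_mul, ← pow_succ',
      Finset.sum_range_succ', pow_zero, u2_act_madd, u2_act_one, Finset.mul_sum]
    simp only [← pow_succ']
    rw [add_assoc]

private theorem u2_diff (n : ℕ) (y : Td D) : (uS N β)^[n] y =
    y + act (∑ i ∈ range n, (1 + N) ^ i) (act N y + β) := by
  rw [u2_iter, act_add, ← act_mul]
  have h := geom_sum_mul (1 + N) n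
  rw [add_sub_cancel_left] at h
  rw [h]
  have h2 : act ((1 + N) ^ n) y = y + act ((1 + N) ^ n - 1) y := by
    have h3 := u2_act_madd 1 ((1 + N) ^ n - 1) y
    rw [add_sub_cancel, u2_act_one] at h3
    exact h3
  rw [h2, add_assoc]

private theorem u2_dif_const (C : ℂ) (hC : ‖C‖ = 1) (g : ℕ → ℂ) :
    dif (fun m => C * g m) = dif g := by
  funext m
  unfold dif
  have h : C * conj C = 1 := by
    rw [Complex.mul_conj, Complex.normSq_eq_norm_sq, hC]; norm_num
  rw [map_mul]
  calc C * g (m + 1) * (conj C * conj (g m)) = (C * conj C) * (g (m + 1) * conj (g m)) := by ring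
    _ = _ := by rw [h, one_mul]

private theorem u2_dif_one (p : ℕ) (a : Fin D → ℤ) (x : Td D) :
    dif (fun m => mFourier a ((uS N β)^[p * m] x)) = fun m =>
      mFourier (ad (∑ i ∈ range p, (1 + N) ^ i) a) β *
        mFourier (ad ((∑ i ∈ range p, (1 + N) ^ i) * N) a) ((uS N β)^[p * m] x) := by
  funext m
  unfold dif
  beta_reduce
  have h1 : (uS N β)^[p * (m + 1)] x = (uS N β)^[p] ((uS N β)^[p * m] x) := by
    rw [← Function.iterate_add_apply]
    congr 1
    ring
  rw [h1, u2_diff p ((uS N β)^[p * m] x), u2_mF_add, mul_right_comm, u2_mF_conj, one_mul, mF_act,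
    u2_mF_add, mF_act, ← ad_mul, mul_comm]

private theorem u2_ad_add (M N : Matrix (Fin D) (Fin D) ℤ) (a : Fin D → ℤ) :
    ad (M + N) a = ad M a + ad N a := Matrix.vecMul_add M N a

private theorem u2_ad_one (a : Fin D → ℤ) : ad (1 : Matrix (Fin D) (Fin D) ℤ) a = a :=
  Matrix.vecMul_one a

/-- vectors killed by `N` are multiplied by `p` -/
private theorem u2_ad_geom (p : ℕ) (c : Fin D → ℤ) (hc : ad N c = 0) :
    ad (∑ i ∈ range p, (1 + N) ^ i) c = (p : ℤ) • c := by
  have h1 : ∀ i : ℕ, ad ((1 + N) ^ i) c = c := by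
    intro i
    induction i with
    | zero => rw [pow_zero, u2_ad_one]
    | succ i ih => rw [pow_succ, ad_mul, ih, u2_ad_add, u2_ad_one, hc, add_zero]
  induction p with
  | zero =>
    rw [Finset.range_zero, Finset.sum_empty, Nat.cast_zero, zero_smul]
    exact Matrix.vecMul_zero c
  | succ p ih =>
    rw [Finset.sum_range_succ, u2_ad_add, ih, h1, Nat.cast_succ, add_smul, one_smul]

theorem dif_char (p κ : ℕ) (a : Fin D → ℤ) (ha : ad (N ^ (κ + 1)) a = 0) (x : Td D) (m : ℕ) :
    dif^[κ + 1] (fun m => mFourier a ((uS N β)^[p * m] x)) m = mFourier (ad (N ^ κ) a) β ^ (p ^ (κ + 1)) := by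
  set R : Matrix (Fin D) (Fin D) ℤ := ∑ i ∈ range p, (1 + N) ^ i with hR
  have hcomm : Commute R N := by
    rw [hR]
    refine Commute.sum_left _ _ _ fun i _ => ?_
    exact ((Commute.one_left N).add_left (Commute.refl N)).pow_left i
  induction κ generalizing a m with
  | zero =>
    rw [zero_add, pow_one] at ha
    rw [zero_add, Function.iterate_one, u2_dif_one, pow_one, pow_zero, u2_ad_one, ← hR]
    dsimp only
    rw [u2_ad_geom p a ha, hcomm.eq, ad_mul, ha, u2_mF_nsmul]
    have h0 : ad R (0 : Fin D → ℤ) = 0 := Matrix.zero_vecMul R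
    rw [h0, u2_mF_zero, mul_one]
  | succ κ ih =>
    rw [Function.iterate_succ_apply, u2_dif_one, ← hR, Function.iterate_succ_apply,
      u2_dif_const _ (u2_mF_norm _ _), ← Function.iterate_succ_apply]
    have hb : ad (N ^ (κ + 1)) (ad (R * N) a) = 0 := by
      rw [← ad_mul, mul_assoc, ← pow_succ', (hcomm.pow_right _).eq, ad_mul, ha]
      exact Matrix.zero_vecMul R
    rw [ih (ad (R * N) a) hb m]
    have hc : ad (N ^ κ) (ad (R * N) a) = (p : ℤ) • ad (N ^ (κ + 1)) a := by
      rw [← ad_mul, mul_assoc, ← pow_succ', (hcomm.pow_right _).eq, ad_mul, hR]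
      apply u2_ad_geom
      rw [← ad_mul, ← pow_succ]
      exact ha
    rw [hc, u2_mF_nsmul, ← pow_mul, ← pow_succ']

end Pool.Agent.Lib.MP_9fe581_an.HX
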