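import Pool.Agent.Lib.MP_9fe581_an.HX.DefsZ
import Pool.Agent.Lib.MP_9fe581_an.HX.Act

/-!
# HX Z9: iterated q-differences along the orbits of an affine map
-/

set_option autoImplicit false

open Finset MeasureTheory Filter Topology UnitAddTorus
open scoped ComplexConjugate Matrix

namespace Pool.Agent.Lib.MP_9fe581_an.HX

open Pool.Agent.Lib.MP_9fe581_an.HD

private theorem z9_sub {D : ℕ} (M N : Matrix (Fin D) (Fin D) ℤ) (x : Td D) :
    act (M - N) x = act M x - act N x := by
  funext i
  simp only [act, Matrix.sub_apply, Pi.sub_apply, sub_smul, Finset.sum_sub_distrib]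

private theorem z9_zero {D : ℕ} (x : Td D) : act (0 : Matrix (Fin D) (Fin D) ℤ) x = 0 := by
  funext i
  simp only [act, Matrix.zero_apply, zero_smul, Finset.sum_const_zero, Pi.zero_apply]

private theorem z9_one {D : ℕ} (x : Td D) : act (1 : Matrix (Fin D) (Fin D) ℤ) x = x := by
  funext i
  simp only [act, Matrix.one_apply, ite_smul, one_smul, zero_smul, Finset.sum_ite_eq, Finset.mem_univ,
    if_true]

private theorem z9_iter {D : ℕ} (B : Matrix (Fin D) (Fin D) ℤ) (b : Td D) (y : Td D) :
    ∀ (n : ℕ) (x : Td D), (aff B b)^[n] (x + y) = (aff B b)^[n] x + act (B ^ n) y := by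
  intro n
  induction n with
  | zero => intro x; rw [pow_zero, z9_one]; rfl
  | succ n ih =>
    intro x
    rw [Function.iterate_succ_apply', Function.iterate_succ_apply', ih x]
    unfold aff
    rw [act_add, pow_succ', act_mul]
    abel

private theorem z9_diff {D : ℕ} (B : Matrix (Fin D) (Fin D) ℤ) (q : ℕ) (y : Td D) :
    ∀ (j : ℕ) (C : Matrix (Fin D) (Fin D) ℤ),
      (fwdDiff q)^[j] (fun n => act (B ^ n * C) y) = fun n => act (B ^ n * ((B ^ q - 1) ^ j * C)) y := by
  intro j
  induction j with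
  | zero => intro C; simp
  | succ j ih =>
    intro C
    rw [Function.iterate_succ_apply]
    have h : fwdDiff q (fun n => act (B ^ n * C) y) = fun n => act (B ^ n * ((B ^ q - 1) * C)) y := by
      funext n
      simp only [fwdDiff]
      rw [← z9_sub, pow_add, sub_mul, mul_sub, one_mul, mul_assoc]
    rw [h, ih, pow_succ]
    funext n
    rw [mul_assoc ((B ^ q - 1) ^ j)]

theorem aff_diff {D : ℕ} (B : Matrix (Fin D) (Fin D) ℤ) (b : Td D) (q a s : ℕ) (hB : B ^ a * (B ^ q - 1) ^ s = 0)
    (x : Td D) : ∀ n ≥ a, (fwdDiff q)^[s + 1] (fun n => (aff B b)^[n] x) n = 0 := by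
  intro n hn
  rw [Function.iterate_succ_apply]
  have h : fwdDiff q (fun n => (aff B b)^[n] x) =
      fun n => act (B ^ n * 1) ((aff B b)^[q] x - x) := by
    funext n
    simp only [fwdDiff]
    have h2 := z9_iter B b ((aff B b)^[q] x - x) n x
    rw [add_sub_cancel, ← Function.iterate_add_apply] at h2
    rw [h2, mul_one]
    abel
  rw [h, z9_diff]
  simp only [mul_one]
  obtain ⟨k, rfl⟩ := Nat.exists_eq_add_of_le hn
  rw [add_comm a k, pow_add, mul_assoc, hB, mul_zero, z9_zero]

end Pool.Agent.Lib.MP_9fe581_an.HX
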