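import Pool.Agent.Lib.MP_9fe581_an.HX.Defs

/-!
# HX, module U5b: the quadratic forms of the joinings `lamU` on trigonometric polynomials
-/

set_option autoImplicit false

open Finset MeasureTheory Filter Topology UnitAddTorus
open scoped ComplexConjugate Matrix

namespace Pool.Agent.Lib.MP_9fe581_an.HX

open Pool.Agent.Lib.MP_9fe581_an.HD

variable {D : ℕ} {N : Matrix (Fin D) (Fin D) ℤ}

private theorem j_mul_add (a : Fin D → ℤ) (x y : Td D) : mFourier a (x + y) = mFourier a x * mFourier a y := by
  simp only [mFourier, ContinuousMap.coe_mk, ← Finset.prod_mul_distrib]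
  refine Finset.prod_congr rfl fun i _ => ?_
  simp only [fourier_apply, Pi.add_apply, smul_add, AddCircle.toCircle_add, Circle.coe_mul]

private theorem j_fourier_sum {ι : Type} (s : Finset ι) (n : ι → ℤ) (y : ι → UnitAddCircle) (m : ℤ) :
    (fourier m (∑ j ∈ s, n j • y j) : ℂ) = ∏ j ∈ s, (fourier (m * n j) (y j) : ℂ) := by
  classical
  induction s using Finset.induction_on with
  | empty => simp
  | insert j s hj ih =>
    rw [Finset.sum_insert hj, Finset.prod_insert hj, ← ih]
    simp only [fourier_apply, smul_add, AddCircle.toCircle_add, Circle.coe_mul, mul_smul]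

private theorem j_fourier_sum' {ι : Type} (s : Finset ι) (n : ι → ℤ) (y : UnitAddCircle) :
    (fourier (∑ j ∈ s, n j) y : ℂ) = ∏ j ∈ s, (fourier (n j) y : ℂ) := by
  classical
  induction s using Finset.induction_on with
  | empty => simp
  | insert j s hj ih => rw [Finset.sum_insert hj, Finset.prod_insert hj, ← ih, fourier_add]

private theorem j_act (M : Matrix (Fin D) (Fin D) ℤ) (a : Fin D → ℤ) (x : Td D) :
    mFourier a (act M x) = mFourier (ad M a) x := by
  simp only [mFourier, ContinuousMap.coe_mk, act, ad, Matrix.vecMul, dotProduct]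
  simp only [j_fourier_sum, j_fourier_sum']
  rw [Finset.prod_comm]

private theorem j_int (a : Fin D → ℤ) : ∫ t, mFourier a t ∂mT D = if a = 0 then 1 else 0 := by
  by_cases h : a = 0
  · subst h
    rw [if_pos rfl, mFourier_zero]
    simp
  · rw [if_neg h]
    obtain ⟨i, hi⟩ : ∃ i, a i ≠ 0 := Function.ne_iff.mp h
    have h0 : mFourier a (Pi.single i (((1 / (2 * (a i : ℝ)) : ℝ)) : UnitAddCircle) : Td D) ≠ 1 := by
      simp only [mFourier, ContinuousMap.coe_mk]
      rw [Finset.prod_eq_single i]
      · rw [Pi.single_eq_same, fourier_coe_apply]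
        have h1 : (2 * Real.pi * Complex.I * (a i : ℂ) * ((1 / (2 * (a i : ℝ)) : ℝ) : ℂ) / ((1 : ℝ) : ℂ)) = Real.pi * Complex.I := by
          have : (a i : ℂ) ≠ 0 := by exact_mod_cast hi
          push_cast
          field_simp
        rw [h1, Complex.exp_pi_mul_I]
        norm_num
      · intro j _ hj
        rw [Pi.single_eq_of_ne hj]
        simp
      · simp
    have h2 : ∫ t, mFourier a t ∂mT D =
        mFourier a (Pi.single i (((1 / (2 * (a i : ℝ)) : ℝ)) : UnitAddCircle) : Td D) * ∫ t, mFourier a t ∂mT D := by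
      rw [← integral_const_mul]
      conv_lhs => rw [← integral_add_left_eq_self (μ := mT D) (fun t : Td D => mFourier a t)
        (Pi.single i (((1 / (2 * (a i : ℝ)) : ℝ)) : UnitAddCircle) : Td D)]
      refine integral_congr_ae (Eventually.of_forall fun t => ?_)
      exact j_mul_add _ _ _
    have h3 : (1 - mFourier a (Pi.single i (((1 / (2 * (a i : ℝ)) : ℝ)) : UnitAddCircle) : Td D)) *
        ∫ t, mFourier a t ∂mT D = 0 := by
      rw [sub_mul, one_mul, ← h2, sub_self]
    exact (mul_eq_zero.mp h3).resolve_left (sub_ne_zero.mpr h0.symm)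

/-- orthogonality of the additive characters mod `q` -/
private theorem j_geom (q : ℕ) (hq : 0 < q) (a : ℤ) :
    ∑ j : Fin q, (fourier a ((((j : ℕ) : ℝ) / (q : ℝ) : ℝ) : UnitAddCircle) : ℂ) = if (q : ℤ) ∣ a then (q : ℂ) else 0 := by
  set ζ : ℂ := Complex.exp (2 * Real.pi * Complex.I * a / q) with hζ
  have hq' : (q : ℂ) ≠ 0 := by exact_mod_cast hq.ne'
  have h1 : ∀ j : ℕ, (fourier a ((((j : ℕ) : ℝ) / (q : ℝ) : ℝ) : UnitAddCircle) : ℂ) = ζ ^ j := by
    intro j
    rw [fourier_coe_apply, hζ, ← Complex.exp_nat_mul]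
    congr 1
    push_cast
    field_simp
  have h2 : ∑ j : Fin q, (fourier a ((((j : ℕ) : ℝ) / (q : ℝ) : ℝ) : UnitAddCircle) : ℂ) = ∑ j ∈ range q, ζ ^ j := by
    rw [← Fin.sum_univ_eq_sum_range]
    exact Finset.sum_congr rfl fun j _ => h1 j
  rw [h2]
  have hpi : (2 * (Real.pi : ℂ) * Complex.I) ≠ 0 := by
    simp [Real.pi_ne_zero]
  have hone : ζ = 1 ↔ (q : ℤ) ∣ a := by
    rw [hζ, Complex.exp_eq_one_iff]
    constructor
    · rintro ⟨n, hn⟩
      refine ⟨n, ?_⟩
      have h3 : (2 * (Real.pi : ℂ) * Complex.I) * ((a : ℂ) / q) = (2 * (Real.pi : ℂ) * Complex.I) * n := by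
        rw [mul_comm (2 * (Real.pi : ℂ) * Complex.I) (n : ℂ), ← hn]
        ring
      have h4 := mul_left_cancel₀ hpi h3
      have h5 : (a : ℂ) = q * n := by
        rw [← h4]; field_simp
      exact_mod_cast h5
    · rintro ⟨n, rfl⟩
      refine ⟨n, ?_⟩
      push_cast
      field_simp
  by_cases h : (q : ℤ) ∣ a
  · rw [if_pos h, hone.mpr h]
    simp
  · rw [if_neg h]
    have h3 : ζ ≠ 1 := fun h' => h (hone.mp h')
    have h4 : ζ ^ q = 1 := by
      rw [hζ, ← Complex.exp_nat_mul, Complex.exp_eq_one_iff]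
      refine ⟨a, ?_⟩
      field_simp
    have h5 := mul_geom_sum ζ q
    rw [h4, sub_self] at h5
    exact (mul_eq_zero.mp h5).resolve_left (sub_ne_zero.mpr h3)

private theorem j_orth (q : ℕ) (hq : 0 < q) (a : Fin D → ℤ) :
    (1 / (q : ℂ) ^ D) * ∑ i : Fin D → Fin q, mFourier a (ptq q i) = if (∀ i, (q : ℤ) ∣ a i) then 1 else 0 := by
  have hq' : (q : ℂ) ≠ 0 := by exact_mod_cast hq.ne'
  have h1 : ∑ i : Fin D → Fin q, mFourier a (ptq q i) =
      ∏ k : Fin D, ∑ j : Fin q, (fourier (a k) ((((j : ℕ) : ℝ) / (q : ℝ) : ℝ) : UnitAddCircle) : ℂ) := by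
    rw [Finset.prod_univ_sum, Fintype.piFinset_univ]
    rfl
  rw [h1]
  simp only [j_geom q hq]
  by_cases h : ∀ i, (q : ℤ) ∣ a i
  · rw [if_pos h, Finset.prod_congr rfl fun i _ => if_pos (h i), Finset.prod_const, Finset.card_univ, Fintype.card_fin]
    field_simp
  · rw [if_neg h]
    push Not at h
    obtain ⟨i, hi⟩ := h
    rw [Finset.prod_eq_zero (Finset.mem_univ i) (if_neg hi), mul_zero]

private theorem j_prob (q : ℕ) : IsProbabilityMeasure (mq D q) := by
  unfold mq
  split_ifs with h
  · infer_instance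
  · refine ⟨?_⟩
    have hq : (q : ENNReal) ≠ 0 := by exact_mod_cast h
    rw [Measure.smul_apply, Measure.coe_finsetSum, Finset.sum_apply]
    simp only [measure_univ, Finset.sum_const, Finset.card_univ, Fintype.card_fun, Fintype.card_fin, nsmul_eq_mul,
      mul_one, smul_eq_mul]
    push_cast
    exact ENNReal.inv_mul_cancel (pow_ne_zero _ hq) (ENNReal.pow_ne_top (ENNReal.natCast_ne_top q))

open Classical in
private theorem j_mq (q : ℕ) (a : Fin D → ℤ) : ∫ s, mFourier a s ∂mq D q = if dv q a then 1 else 0 := by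
  unfold mq
  split_ifs with h h1 h1
  · rw [j_int, if_pos]
    funext i
    have := h1 i
    subst h
    simpa using this
  · rw [j_int, if_neg]
    rintro rfl
    exact h1 fun i => by simp
  · rw [integral_smul_measure, integral_finsetSum_measure (fun i _ => (by
      exact Integrable.mono' (g := fun _ => (1 : ℝ)) (integrable_const _) (mFourier a).continuous.aestronglyMeasurable
        (Eventually.of_forall fun x => (mFourier a).norm_coe_le_norm x |>.trans (mFourier_norm (n := a)).le)))]
    simp only [integral_dirac]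
    have h2 := j_orth q (Nat.pos_of_ne_zero h) a
    rw [if_pos (show ∀ i, (q : ℤ) ∣ a i from h1)] at h2
    rw [← h2]
    simp [ENNReal.toReal_inv, Complex.real_smul]
  · rw [integral_smul_measure, integral_finsetSum_measure (fun i _ => (by
      exact Integrable.mono' (g := fun _ => (1 : ℝ)) (integrable_const _) (mFourier a).continuous.aestronglyMeasurable
        (Eventually.of_forall fun x => (mFourier a).norm_coe_le_norm x |>.trans (mFourier_norm (n := a)).le)))]
    simp only [integral_dirac]
    have h2 := j_orth q (Nat.pos_of_ne_zero h) a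
    rw [if_neg (show ¬ ∀ i, (q : ℤ) ∣ a i from h1)] at h2
    rw [← h2]
    simp [ENNReal.toReal_inv, Complex.real_smul]

private theorem j_actc (M : Matrix (Fin D) (Fin D) ℤ) : Continuous (act M) := by
  unfold act
  fun_prop

open Classical in
private theorem j_pair (k q : ℕ) (a b : Fin D → ℤ) :
    ∫ z, mFourier a z.1 * conj (mFourier b z.2) ∂lamU N k q =
      if a = b ∧ ad (N ^ (k + 1)) a = 0 ∧ dv q (ad (N ^ k) a) then 1 else 0 := by
  have := j_prob (D := D) q
  have hm : Measurable fun z : Td D × (Td D × Td D) => (z.1 + act (N ^ (k + 1)) z.2.1 + act (N ^ k) z.2.2, z.1) := by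
    refine Continuous.measurable ?_
    have h1 := j_actc (N ^ (k + 1))
    have h2 := j_actc (N ^ k)
    fun_prop
  unfold lamU
  rw [integral_map hm.aemeasurable]
  swap
  · refine Continuous.aestronglyMeasurable ?_
    fun_prop
  have h1 : ∀ z : Td D × (Td D × Td D),
      mFourier a (z.1 + act (N ^ (k + 1)) z.2.1 + act (N ^ k) z.2.2) * conj (mFourier b z.1) =
      mFourier (a - b) z.1 * (mFourier (ad (N ^ (k + 1)) a) z.2.1 * mFourier (ad (N ^ k) a) z.2.2) := by
    intro z
    rw [j_mul_add, j_mul_add, j_act, j_act, sub_eq_add_neg, mFourier_add, mFourier_neg]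
    ring
  simp only [h1]
  rw [integral_prod_mul (fun x => mFourier (a - b) x)
    (fun y : Td D × Td D => mFourier (ad (N ^ (k + 1)) a) y.1 * mFourier (ad (N ^ k) a) y.2),
    integral_prod_mul (fun x => mFourier (ad (N ^ (k + 1)) a) x) (fun y => mFourier (ad (N ^ k) a) y), j_int, j_int, j_mq]
  simp only [sub_eq_zero]
  by_cases h2 : a = b
  · subst h2
    by_cases h3 : ad (N ^ (k + 1)) a = 0 <;> by_cases h4 : dv q (ad (N ^ k) a) <;> simp [h3, h4]
  · simp [h2]

open Classical in
theorem jq_trig (k q : ℕ) (F : Finset (Fin D → ℤ)) (c : (Fin D → ℤ) → ℂ) (f : C(Td D, ℂ))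
    (hf : ∀ x, f x = ∑ a ∈ F, c a * mFourier a x) :
    jq (lamU N k q) f = ∑ a ∈ F.filter (fun a => ad (N ^ (k + 1)) a = 0 ∧ dv q (ad (N ^ k) a)), ‖c a‖ ^ 2 := by
  have := j_prob (D := D) q
  have : IsProbabilityMeasure (lamU N k q) := by
    unfold lamU
    refine Measure.isProbabilityMeasure_map (Continuous.aemeasurable ?_)
    have h1 := j_actc (N ^ (k + 1))
    have h2 := j_actc (N ^ k)
    fun_prop
  have hint : ∀ a b : Fin D → ℤ, Integrable (fun z : Td D × Td D => (c a * conj (c b)) * (mFourier a z.1 * conj (mFourier b z.2)))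
      (lamU N k q) := by
    intro a b
    refine (Integrable.mono' (g := fun _ => (1 : ℝ)) (integrable_const _) ?_ (Eventually.of_forall fun z => ?_)).const_mul _
    · refine Continuous.aestronglyMeasurable ?_
      fun_prop
    · rw [norm_mul, RCLike.norm_conj]
      have h1 := ((mFourier a).norm_coe_le_norm z.1).trans (mFourier_norm (n := a)).le
      have h2 := ((mFourier b).norm_coe_le_norm z.2).trans (mFourier_norm (n := b)).le
      exact mul_le_one₀ h1 (norm_nonneg _) h2
  have h1 : ∫ z, f z.1 * conj (f z.2) ∂lamU N k q =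
      ∑ a ∈ F, ∑ b ∈ F, (c a * conj (c b)) * ∫ z, mFourier a z.1 * conj (mFourier b z.2) ∂lamU N k q := by
    have h2 : ∀ z : Td D × Td D, f z.1 * conj (f z.2) =
        ∑ a ∈ F, ∑ b ∈ F, (c a * conj (c b)) * (mFourier a z.1 * conj (mFourier b z.2)) := by
      intro z
      rw [hf, hf, map_sum, Finset.sum_mul_sum]
      refine Finset.sum_congr rfl fun a _ => Finset.sum_congr rfl fun b _ => ?_
      rw [map_mul]
      ring
    simp only [h2]
    rw [integral_finsetSum _ fun a _ => integrable_finsetSum _ fun b _ => hint a b]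
    refine Finset.sum_congr rfl fun a _ => ?_
    rw [integral_finsetSum _ fun b _ => hint a b]
    refine Finset.sum_congr rfl fun b _ => ?_
    rw [integral_const_mul]
  unfold jq
  rw [h1]
  simp only [j_pair]
  rw [Finset.sum_filter, Complex.re_sum]
  refine Finset.sum_congr rfl fun a ha => ?_
  by_cases h3 : ad (N ^ (k + 1)) a = 0 ∧ dv q (ad (N ^ k) a)
  · rw [if_pos h3]
    rw [Finset.sum_eq_single a]
    · rw [if_pos ⟨rfl, h3⟩, mul_one, Complex.mul_conj', ← Complex.ofReal_pow, Complex.ofReal_re]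
    · intro b _ hb
      rw [if_neg (fun h => hb h.1.symm), mul_zero]
    · intro h; exact absurd ha h
  · rw [if_neg h3, Finset.sum_eq_zero, Complex.zero_re]
    intro b _
    rw [if_neg (fun h => h3 h.2), mul_zero]

end Pool.Agent.Lib.MP_9fe581_an.HX
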