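import Pool.Agent.Lib.MP_9fe581_an.HX.Act

/-!
# HX / LamU: the joinings `lamU` are invariant probability measures

`S (x + N^(k+1) t + N^k s) = S x + N^(k+1) (t + N t + s) + N^k s`, and `(x, t, s) ↦ (S x, t + N t + s, s)` preserves the measure.
-/

set_option autoImplicit false

open Finset MeasureTheory Filter Topology UnitAddTorus
open scoped ComplexConjugate Matrix

namespace Pool.Agent.Lib.MP_9fe581_an.HX

open Pool.Agent.Lib.MP_9fe581_an.HD

variable {D : ℕ} {N : Matrix (Fin D) (Fin D) ℤ} {β : Td D}

private theorem borTd : BorelSpace (Td D × Td D) := Prod.borelSpace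

attribute [local instance] borTd

private theorem borTd3 : BorelSpace (Td D × Td D × Td D) := Prod.borelSpace

attribute [local instance] borTd3

private theorem mq_prob (q : ℕ) : IsProbabilityMeasure (mq D q) := by
  unfold mq
  split_ifs with h
  · infer_instance
  · refine ⟨?_⟩
    rw [Measure.smul_apply, Measure.finsetSum_apply]
    simp only [measure_univ, sum_const, card_univ, Fintype.card_pi, Fintype.card_fin, prod_const, smul_eq_mul,
      nsmul_eq_mul, mul_one, Nat.cast_pow]
    refine ENNReal.inv_mul_cancel ?_ ?_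
    · exact pow_ne_zero _ (by exact_mod_cast h)
    · exact ENNReal.pow_ne_top (ENNReal.natCast_ne_top q)

attribute [local instance] mq_prob

private theorem pair_cont (N : Matrix (Fin D) (Fin D) ℤ) (k : ℕ) :
    Continuous fun z : Td D × Td D × Td D => (z.1 + act (N ^ (k + 1)) z.2.1 + act (N ^ k) z.2.2, z.1) :=
  ((continuous_fst.add ((act_cont _).comp (continuous_fst.comp continuous_snd))).add
    ((act_cont _).comp (continuous_snd.comp continuous_snd))).prodMk continuous_fst

theorem lamU_prob (k q : ℕ) : IsProbabilityMeasure (lamU N k q) := by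
  unfold lamU
  exact Measure.isProbabilityMeasure_map (pair_cont N k).measurable.aemeasurable

/-- `(t, s) ↦ (t + N t + s, s)` -/
private noncomputable def tht (N : Matrix (Fin D) (Fin D) ℤ) (z : Td D × Td D) : Td D × Td D := (uS N z.2 z.1, z.2)

private theorem tht_mp (hN : IsNilpotent N) (q : ℕ) :
    MeasurePreserving (tht N) ((mT D).prod (mq D q)) ((mT D).prod (mq D q)) := by
  have h1 : MeasurePreserving (fun z : Td D × Td D => (z.1, uS N z.1 z.2)) ((mq D q).prod (mT D))
      ((mq D q).prod (mT D)) := by
    refine (MeasurePreserving.id (mq D q)).skew_product ?_ (Eventually.of_forall fun s => (uS_mp hN).map_eq)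
    have h2 : Continuous fun z : Td D × Td D => uS N z.1 z.2 := by
      unfold uS
      exact (continuous_snd.add ((act_cont N).comp continuous_snd)).add continuous_fst
    exact h2.measurable
  have h3 := (Measure.measurePreserving_swap (μ := mq D q) (ν := mT D)).comp
    (h1.comp (Measure.measurePreserving_swap (μ := mT D) (ν := mq D q)))
  exact h3

theorem lamU_inv (hN : IsNilpotent N) (k q : ℕ) :
    MeasurePreserving (Prod.map (uS N β) (uS N β)) (lamU N k q) (lamU N k q) := by
  have hS : Continuous (uS N β) := uS_cont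
  have hP : Continuous (Prod.map (uS N β) (uS N β)) := hS.prodMap hS
  have hΨ : MeasurePreserving (Prod.map (uS N β) (tht N)) ((mT D).prod ((mT D).prod (mq D q)))
      ((mT D).prod ((mT D).prod (mq D q))) := (uS_mp hN).prod (tht_mp hN q)
  refine ⟨hP.measurable, ?_⟩
  unfold lamU
  rw [Measure.map_map hP.measurable (pair_cont N k).measurable]
  have h1 : Prod.map (uS N β) (uS N β) ∘
      (fun z : Td D × Td D × Td D => (z.1 + act (N ^ (k + 1)) z.2.1 + act (N ^ k) z.2.2, z.1)) =
      (fun z : Td D × Td D × Td D => (z.1 + act (N ^ (k + 1)) z.2.1 + act (N ^ k) z.2.2, z.1)) ∘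
        Prod.map (uS N β) (tht N) := by
    funext z
    obtain ⟨x, t, s⟩ := z
    refine Prod.ext ?_ rfl
    change uS N β (x + act (N ^ (k + 1)) t + act (N ^ k) s) =
      uS N β x + act (N ^ (k + 1)) (uS N s t) + act (N ^ k) s
    unfold uS
    have h2 : act N (act (N ^ (k + 1)) t) = act (N ^ (k + 1)) (act N t) := by
      rw [← act_mul, ← act_mul, ← pow_succ, ← pow_succ']
    have h3 : act N (act (N ^ k) s) = act (N ^ (k + 1)) s := by
      rw [← act_mul, ← pow_succ']
    rw [act_add, act_add, act_add, act_add, h2, h3]
    abel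
  rw [h1, ← Measure.map_map (pair_cont N k).measurable hΨ.measurable, hΨ.map_eq]

end Pool.Agent.Lib.MP_9fe581_an.HX
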