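import Pool.Agent.Lib.MP_9fe581_an.HX.TrigP
import Pool.Agent.Lib.MP_9fe581_an.HX.LamU
import Pool.Agent.Lib.MP_9fe581_an.HX.Joint
import Pool.Agent.Lib.MP_9fe581_an.HD.Base

/-!
# HX, module U6: ergodic unipotent affine maps of the torus have property (P)
-/

set_option autoImplicit false

open Finset MeasureTheory Filter Topology UnitAddTorus
open scoped ComplexConjugate Matrix

namespace Pool.Agent.Lib.MP_9fe581_an.HX

open Pool.Agent.Lib.MP_9fe581_an.HD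

variable {D : ℕ} {N : Matrix (Fin D) (Fin D) ℤ} {β : Td D}

/-- trigonometric approximation -/
theorem bu_approx (f : C(Td D, ℂ)) (δ : ℝ) (hδ : 0 < δ) : ∃ (F : Finset (Fin D → ℤ)) (c : (Fin D → ℤ) → ℂ)
    (g : C(Td D, ℂ)), (∀ x, g x = ∑ a ∈ F, c a * mFourier a x) ∧ ‖f - g‖ < δ := by
  have hmem' : f ∈ closure (Submodule.span ℂ (Set.range (mFourier (d := Fin D))) : Set _) := by
    rw [← Submodule.topologicalClosure_coe, span_mFourier_closure_eq_top]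
    trivial
  obtain ⟨g, hg, hd⟩ := Metric.mem_closure_iff.1 hmem' δ hδ
  obtain ⟨c, hc⟩ := (Finsupp.mem_span_range_iff_exists_finsupp).1 hg
  refine ⟨c.support, c, g, fun x => ?_, by rwa [← dist_eq_norm]⟩
  rw [← hc, Finsupp.sum, ContinuousMap.sum_apply]
  refine Finset.sum_congr rfl fun a _ => ?_
  rw [ContinuousMap.smul_apply, smul_eq_mul]

theorem bu_int {Y : Type} [TopologicalSpace Y] [CompactSpace Y] [T2Space Y] [SecondCountableTopology Y]
    [MeasurableSpace Y] [BorelSpace Y] (l : Measure (Y × Y)) [IsProbabilityMeasure l] (f g : C(Y, ℂ)) :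
    Integrable (fun z : Y × Y => f z.1 * conj (g z.2)) l := by
  refine Continuous.integrable_of_hasCompactSupport ?_ (HasCompactSupport.of_compactSpace _)
  exact (f.continuous.comp continuous_fst).mul (Complex.continuous_conj.comp (g.continuous.comp continuous_snd))

theorem bu_int_le {Y : Type} [TopologicalSpace Y] [CompactSpace Y] [T2Space Y] [SecondCountableTopology Y]
    [MeasurableSpace Y] [BorelSpace Y] (l : Measure (Y × Y)) [IsProbabilityMeasure l] (f g : C(Y, ℂ)) :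
    ‖∫ z, f z.1 * conj (g z.2) ∂l‖ ≤ ‖f‖ * ‖g‖ := by
  have := norm_integral_le_of_norm_le_const (μ := l) (C := ‖f‖ * ‖g‖)
    (f := fun z : Y × Y => f z.1 * conj (g z.2)) (Eventually.of_forall fun z => by
      rw [norm_mul, RCLike.norm_conj]
      exact mul_le_mul (f.norm_coe_le_norm _) (g.norm_coe_le_norm _) (norm_nonneg _) (norm_nonneg _))
  simpa using this

theorem bu_jq {Y : Type} [TopologicalSpace Y] [CompactSpace Y] [T2Space Y] [SecondCountableTopology Y]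
    [MeasurableSpace Y] [BorelSpace Y] (l : Measure (Y × Y)) [IsProbabilityMeasure l] (f g : C(Y, ℂ)) :
    |jq l f - jq l g| ≤ ‖f - g‖ * (‖f‖ + ‖g‖) := by
  unfold jq
  rw [← Complex.sub_re]
  have e : ∫ z, f z.1 * conj (f z.2) ∂l - ∫ z, g z.1 * conj (g z.2) ∂l =
      ∫ z, (f - g) z.1 * conj (f z.2) ∂l + ∫ z, g z.1 * conj ((f - g) z.2) ∂l := by
    rw [← integral_sub (bu_int l f f) (bu_int l g g), ← integral_add (bu_int l (f - g) f) (bu_int l g (f - g))]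
    refine integral_congr_ae (Eventually.of_forall fun z => ?_)
    simp only [ContinuousMap.sub_apply, map_sub]
    ring
  rw [e]
  refine (Complex.abs_re_le_norm _).trans ((norm_add_le _ _).trans ?_)
  have h1 := bu_int_le l (f - g) f
  have h2 := bu_int_le l g (f - g)
  linarith [h1, h2, mul_comm ‖g‖ ‖f - g‖]

theorem bu_jq_le {Y : Type} [TopologicalSpace Y] [CompactSpace Y] [T2Space Y] [SecondCountableTopology Y]
    [MeasurableSpace Y] [BorelSpace Y] (l : Measure (Y × Y)) [IsProbabilityMeasure l] (f : C(Y, ℂ)) :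
    jq l f ≤ ‖f‖ ^ 2 := by
  unfold jq
  rw [sq]
  exact ((le_abs_self _).trans (Complex.abs_re_le_norm _)).trans (bu_int_le l f f)

theorem bu_char (a : Fin D → ℤ) : ∫ x, mFourier a x ∂mT D = if a = 0 then 1 else 0 := by
  by_cases h : a = 0
  · subst h
    rw [if_pos rfl, mFourier_zero]
    simp
  · rw [if_neg h]
    obtain ⟨b, hb⟩ := bs_point a h
    exact eq_mF_int a b hb

theorem bu_mean (F : Finset (Fin D → ℤ)) (h0 : (0 : Fin D → ℤ) ∈ F) (c : (Fin D → ℤ) → ℂ) (f : C(Td D, ℂ))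
    (hf : ∀ x, f x = ∑ a ∈ F, c a * mFourier a x) : ∫ x, f x ∂mT D = c 0 := by
  have h1 : ∫ x, f x ∂mT D = ∑ a ∈ F, c a * ∫ x, mFourier a x ∂mT D := by
    rw [integral_congr_ae (Eventually.of_forall hf), integral_finsetSum]
    · exact Finset.sum_congr rfl fun a _ => integral_const_mul _ _
    · intro a _
      exact ((mFourier a).continuous.integrable_of_hasCompactSupport
        (HasCompactSupport.of_compactSpace _)).const_mul _
  rw [h1, Finset.sum_eq_single 0]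
  · rw [bu_char, if_pos rfl, mul_one]
  · intro b _ hb
    rw [bu_char, if_neg hb, mul_zero]
  · intro h
    exact absurd h0 h

theorem bu_dv0 (a : Fin D → ℤ) : dv 0 a ↔ a = 0 := by
  unfold dv
  simp only [Nat.cast_zero, zero_dvd_iff]
  exact ⟨fun h => funext h, fun h i => congrFun h i⟩

theorem bu_dvz (q : ℕ) : dv q (0 : Fin D → ℤ) := fun i => dvd_zero _

open Classical in
theorem bu_pos_trig (k q : ℕ) (F : Finset (Fin D → ℤ)) (c : (Fin D → ℤ) → ℂ) (f : C(Td D, ℂ))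
    (hf : ∀ x, f x = ∑ a ∈ F, c a * mFourier a x) : jq (lamU N k 0) f ≤ jq (lamU N k q) f := by
  rw [jq_trig k 0 F c f hf, jq_trig k q F c f hf]
  refine Finset.sum_le_sum_of_subset_of_nonneg ?_ fun _ _ _ => by positivity
  intro a ha
  rw [Finset.mem_filter] at ha ⊢
  refine ⟨ha.1, ha.2.1, ?_⟩
  rw [(bu_dv0 _).1 ha.2.2]
  exact bu_dvz q

theorem bu_pos (k q : ℕ) (f : C(Td D, ℂ)) : jq (lamU N k 0) f ≤ jq (lamU N k q) f := by
  have := lamU_prob (N := N) k 0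
  have := lamU_prob (N := N) k q
  refine le_of_forall_pos_le_add fun ε hε => ?_
  have hB : 0 < 2 * ‖f‖ + 1 := by positivity
  obtain ⟨F, c, g, hg, hd⟩ := bu_approx f (min 1 (ε / (2 * (2 * ‖f‖ + 1)))) (by positivity)
  have hd1 : ‖f - g‖ ≤ 1 := hd.le.trans (min_le_left _ _)
  have hd2 : ‖f - g‖ ≤ ε / (2 * (2 * ‖f‖ + 1)) := hd.le.trans (min_le_right _ _)
  have hg1 : ‖g‖ ≤ ‖f‖ + 1 := by
    have : ‖g‖ ≤ ‖f‖ + ‖f - g‖ := by
      calc ‖g‖ = ‖f - (f - g)‖ := by rw [sub_sub_cancel]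
        _ ≤ ‖f‖ + ‖f - g‖ := norm_sub_le _ _
    linarith
  have e1 : ‖f - g‖ * (‖f‖ + ‖g‖) ≤ ε / 2 := by
    calc ‖f - g‖ * (‖f‖ + ‖g‖) ≤ ε / (2 * (2 * ‖f‖ + 1)) * (2 * ‖f‖ + 1) := by
          apply mul_le_mul hd2 (by linarith) (by positivity) (by positivity)
      _ = ε / 2 := by field_simp
  have h1 := abs_le.1 (bu_jq (lamU N k 0) f g)
  have h2 := abs_le.1 (bu_jq (lamU N k q) f g)
  have h3 := bu_pos_trig (N := N) k q F c g hg
  linarith [h1.2, h2.1]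

open Classical in
theorem bu_lim_trig (k : ℕ) (F : Finset (Fin D → ℤ)) (c : (Fin D → ℤ) → ℂ) (f : C(Td D, ℂ))
    (hf : ∀ x, f x = ∑ a ∈ F, c a * mFourier a x) :
    ∃ q0 : ℕ, ∀ q ≥ q0, jq (lamU N k q) f = jq (lamU N k 0) f := by
  refine ⟨(∑ a ∈ F, ∑ i, (ad (N ^ k) a i).natAbs) + 1, fun q hq => ?_⟩
  rw [jq_trig k 0 F c f hf, jq_trig k q F c f hf]
  refine Finset.sum_congr ?_ fun _ _ => rfl
  refine Finset.filter_congr fun a ha => ?_
  refine and_congr_right fun _ => ?_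
  rw [bu_dv0]
  refine ⟨fun h => ?_, fun h => by rw [h]; exact bu_dvz q⟩
  funext i
  have h1 : (ad (N ^ k) a i).natAbs ≤ ∑ a ∈ F, ∑ i, (ad (N ^ k) a i).natAbs :=
    (Finset.single_le_sum (f := fun i => (ad (N ^ k) a i).natAbs) (fun _ _ => Nat.zero_le _) (Finset.mem_univ i)).trans
      (Finset.single_le_sum (f := fun a => ∑ i, (ad (N ^ k) a i).natAbs) (fun _ _ => Nat.zero_le _) ha)
  refine Int.eq_zero_of_abs_lt_dvd (h i) ?_
  rw [Int.abs_eq_natAbs]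
  exact_mod_cast (by omega : (ad (N ^ k) a i).natAbs < q)

theorem bu_lim (k : ℕ) (f : C(Td D, ℂ)) :
    Tendsto (fun q => jq (lamU N k q) f) atTop (𝓝 (jq (lamU N k 0) f)) := by
  rw [Metric.tendsto_atTop]
  intro ε hε
  have hB : 0 < 2 * ‖f‖ + 1 := by positivity
  obtain ⟨F, c, g, hg, hd⟩ := bu_approx f (min 1 (ε / (4 * (2 * ‖f‖ + 1)))) (by positivity)
  have hd1 : ‖f - g‖ ≤ 1 := hd.le.trans (min_le_left _ _)
  have hd2 : ‖f - g‖ ≤ ε / (4 * (2 * ‖f‖ + 1)) := hd.le.trans (min_le_right _ _)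
  have hg1 : ‖g‖ ≤ ‖f‖ + 1 := by
    have : ‖g‖ ≤ ‖f‖ + ‖f - g‖ := by
      calc ‖g‖ = ‖f - (f - g)‖ := by rw [sub_sub_cancel]
        _ ≤ ‖f‖ + ‖f - g‖ := norm_sub_le _ _
    linarith
  have e1 : ‖f - g‖ * (‖f‖ + ‖g‖) ≤ ε / 4 := by
    calc ‖f - g‖ * (‖f‖ + ‖g‖) ≤ ε / (4 * (2 * ‖f‖ + 1)) * (2 * ‖f‖ + 1) := by
          apply mul_le_mul hd2 (by linarith) (by positivity) (by positivity)
      _ = ε / 4 := by field_simp
  obtain ⟨q0, h0⟩ := bu_lim_trig (N := N) k F c g hg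
  refine ⟨q0, fun q hq => ?_⟩
  have := lamU_prob (N := N) k 0
  have := lamU_prob (N := N) k q
  have h1 := abs_le.1 (bu_jq (lamU N k 0) f g)
  have h2 := abs_le.1 (bu_jq (lamU N k q) f g)
  rw [Real.dist_eq, abs_lt]
  rw [h0 q hq] at h2
  constructor <;> linarith [h1.1, h1.2, h2.1, h2.2]

open Classical in
theorem bu_level (hN : IsNilpotent N) {s : ℕ} (hs : N ^ s = 0) (q : ℕ) (F : Finset (Fin D → ℤ))
    (c : (Fin D → ℤ) → ℂ) (f : C(Td D, ℂ)) (hf : ∀ x, f x = ∑ a ∈ F, c a * mFourier a x) :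
    ∑ a ∈ F.erase 0, (if dv q (led N a) then 1 else 0) * ‖c a‖ ^ 2 ≤
      ∑ k : Fin s, (jq (lamU N k q) f - jq (lamU N k 0) f) := by
  have h1 : ∀ k : Fin s, jq (lamU N k q) f - jq (lamU N k 0) f = ∑ a ∈ F,
      ((if ad (N ^ ((k : ℕ) + 1)) a = 0 ∧ dv q (ad (N ^ (k : ℕ)) a) then 1 else 0) -
        (if ad (N ^ ((k : ℕ) + 1)) a = 0 ∧ dv 0 (ad (N ^ (k : ℕ)) a) then 1 else 0)) * ‖c a‖ ^ 2 := by
    intro k
    rw [jq_trig k 0 F c f hf, jq_trig k q F c f hf, Finset.sum_filter, Finset.sum_filter, ← Finset.sum_sub_distrib]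
    refine Finset.sum_congr rfl fun a _ => ?_
    split_ifs <;> ring
  rw [Finset.sum_congr rfl (fun k _ => h1 k), Finset.sum_comm]
  have hnn : ∀ (k : Fin s) (a : Fin D → ℤ),
      0 ≤ ((if ad (N ^ ((k : ℕ) + 1)) a = 0 ∧ dv q (ad (N ^ (k : ℕ)) a) then (1 : ℝ) else 0) -
        (if ad (N ^ ((k : ℕ) + 1)) a = 0 ∧ dv 0 (ad (N ^ (k : ℕ)) a) then 1 else 0)) * ‖c a‖ ^ 2 := by
    intro k a
    refine mul_nonneg ?_ (by positivity)
    have : (ad (N ^ ((k : ℕ) + 1)) a = 0 ∧ dv 0 (ad (N ^ (k : ℕ)) a)) →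
        (ad (N ^ ((k : ℕ) + 1)) a = 0 ∧ dv q (ad (N ^ (k : ℕ)) a)) := by
      rintro ⟨h, h'⟩
      refine ⟨h, ?_⟩
      rw [(bu_dv0 _).1 h']
      exact bu_dvz q
    split_ifs with h2 h3 h3
    · norm_num
    · norm_num
    · exact absurd (this h3) h2
    · norm_num
  have h2 : ∑ a ∈ F.erase 0, (if dv q (led N a) then 1 else 0) * ‖c a‖ ^ 2 ≤ ∑ a ∈ F.erase 0, ∑ k : Fin s,
      ((if ad (N ^ ((k : ℕ) + 1)) a = 0 ∧ dv q (ad (N ^ (k : ℕ)) a) then (1 : ℝ) else 0) -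
        (if ad (N ^ ((k : ℕ) + 1)) a = 0 ∧ dv 0 (ad (N ^ (k : ℕ)) a) then 1 else 0)) * ‖c a‖ ^ 2 := by
    refine Finset.sum_le_sum fun a ha => ?_
    have ha0 : a ≠ 0 := (Finset.mem_erase.1 ha).1
    by_cases hd : dv q (led N a)
    · rw [if_pos hd, one_mul]
      have hl1 := lev_pos hN ha0
      have hl2 : lev N a ≤ s := (ad_lev hN a s).1 (by rw [hs]; funext i; simp [ad])
      have h3 := Finset.single_le_sum (f := fun k : Fin s =>
        ((if ad (N ^ ((k : ℕ) + 1)) a = 0 ∧ dv q (ad (N ^ (k : ℕ)) a) then (1 : ℝ) else 0) -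
          (if ad (N ^ ((k : ℕ) + 1)) a = 0 ∧ dv 0 (ad (N ^ (k : ℕ)) a) then 1 else 0)) * ‖c a‖ ^ 2)
        (fun k _ => hnn k a) (Finset.mem_univ (⟨lev N a - 1, by omega⟩ : Fin s))
      refine le_trans (le_of_eq ?_) h3
      have e1 : lev N a - 1 + 1 = lev N a := by omega
      have e2 : ad (N ^ (lev N a)) a = 0 := (ad_lev hN a (lev N a)).2 le_rfl
      have e3 : ¬ dv 0 (ad (N ^ (lev N a - 1)) a) := by
        rw [bu_dv0]
        exact led_ne hN ha0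
      simp only [e1]
      rw [if_pos ⟨e2, hd⟩, if_neg (fun h => e3 h.2)]
      ring
    · rw [if_neg hd, zero_mul]
      exact Finset.sum_nonneg fun k _ => hnn k a
  refine h2.trans (Finset.sum_le_sum_of_subset_of_nonneg (Finset.erase_subset _ _) fun a _ _ => ?_)
  exact Finset.sum_nonneg fun k _ => hnn k a

open Classical in
theorem bu_parseval {s : ℕ} (hs : N ^ s = 0) (F : Finset (Fin D → ℤ)) (c : (Fin D → ℤ) → ℂ) (f : C(Td D, ℂ))
    (hf : ∀ x, f x = ∑ a ∈ F, c a * mFourier a x) : ∑ a ∈ F, ‖c a‖ ^ 2 ≤ ‖f‖ ^ 2 := by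
  have := lamU_prob (N := N) s 1
  have h1 := bu_jq_le (lamU N s 1) f
  rw [jq_trig s 1 F c f hf, Finset.filter_true_of_mem] at h1
  · exact h1
  · intro a _
    refine ⟨?_, fun _ => by simp⟩
    rw [pow_succ, hs, zero_mul]
    funext i
    simp [ad]

/-- property (P) -/
theorem bu_P {s : ℕ} (hs : N ^ s = 0) (hirr : ∀ c : Fin D → ℤ, c ≠ 0 → ad N c = 0 → mFourier c β ≠ 1)
    (Q : Finset ℕ) (hQ : ∀ p ∈ Q, p.Prime) (f : ℕ → C(Td D, ℂ)) (B : ℝ) (hB : ∀ p ∈ Q, ∀ y, ‖f p y‖ ≤ B)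
    (ε : ℝ) (hε : 0 < ε) : ∃ M0 : ℕ, ∀ M ≥ M0, ∀ (M1 : ℕ) (y : Td D),
      ∑ m ∈ Ioc M1 (M1 + M), ‖∑ p ∈ Q, f p ((uS N β)^[p * m] y)‖ ^ 2 ≤
        (‖∑ p ∈ Q, ∫ y, f p y ∂mT D‖ ^ 2 + Q.card * B ^ 2 +
          ∑ p ∈ Q, ∑ k : Fin s, ∑ q ∈ Q, (jq (lamU N k q) (f p) - jq (lamU N k 0) (f p)) + ε) * M := by
  classical
  have hN : IsNilpotent N := ⟨s, hs⟩
  rcases Finset.eq_empty_or_nonempty Q with rfl | ⟨p0, hp0⟩
  · refine ⟨0, fun M _ M1 y => ?_⟩
    simp only [Finset.sum_empty, norm_zero, Finset.card_empty, Nat.cast_zero, zero_mul]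
    simp only [ne_eq, OfNat.ofNat_ne_zero, not_false_eq_true, zero_pow, Finset.sum_const_zero, add_zero, zero_add]
    positivity
  have hB0 : 0 ≤ B := (norm_nonneg _).trans (hB p0 hp0 0)
  have hfB : ∀ p ∈ Q, ‖f p‖ ≤ B := fun p hp => (ContinuousMap.norm_le _ hB0).2 (hB p hp)
  set K : ℝ := (Q.card : ℝ) with hK
  have hK0 : 0 ≤ K := Nat.cast_nonneg _
  set C : ℝ := K ^ 2 * (2 * B + 3) + K ^ 2 * (2 * B + 1) + K * (2 * B + 1) + 2 * K ^ 2 * s * (2 * B + 1) with hC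
  have hC0 : 0 ≤ C := by positivity
  set δ : ℝ := min 1 (ε / (2 * (C + 1))) with hδ
  have hδ0 : 0 < δ := by positivity
  have hδ1 : δ ≤ 1 := min_le_left _ _
  have hδC : δ * C ≤ ε / 2 := by
    calc δ * C ≤ ε / (2 * (C + 1)) * (C + 1) := by
          apply mul_le_mul (min_le_right _ _) (by linarith) hC0 (by positivity)
      _ = ε / 2 := by field_simp
  choose F' c' g hg hd using fun p => bu_approx (f p) δ hδ0
  set F : Finset (Fin D → ℤ) := insert 0 (Q.biUnion F') with hF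
  have h0F : (0 : Fin D → ℤ) ∈ F := Finset.mem_insert_self _ _
  set c : ℕ → (Fin D → ℤ) → ℂ := fun p a => if a ∈ F' p then c' p a else 0 with hc
  have hgF : ∀ p ∈ Q, ∀ x, g p x = ∑ a ∈ F, c p a * mFourier a x := by
    intro p hp x
    have hsub : F' p ⊆ F := fun a ha => Finset.mem_insert_of_mem (Finset.mem_biUnion.2 ⟨p, hp, ha⟩)
    rw [hg p x, ← Finset.sum_subset hsub]
    · refine Finset.sum_congr rfl fun a ha => ?_
      rw [hc]
      simp only [if_pos ha]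
    · intro a _ ha
      rw [hc]
      simp only [if_neg ha, zero_mul]
  have hgB : ∀ p ∈ Q, ‖g p‖ ≤ B + δ := by
    intro p hp
    calc ‖g p‖ = ‖f p - (f p - g p)‖ := by rw [sub_sub_cancel]
      _ ≤ ‖f p‖ + ‖f p - g p‖ := norm_sub_le _ _
      _ ≤ B + δ := add_le_add (hfB p hp) (hd p).le
  obtain ⟨M0, hM0⟩ := trig_P hN hirr Q hQ F h0F c (ε / 2) (by linarith)
  refine ⟨M0, fun M hM M1 y => ?_⟩
  have hmain := hM0 M hM M1 y
  -- the left side
  have hL : ∀ m : ℕ, ‖∑ p ∈ Q, f p ((uS N β)^[p * m] y)‖ ^ 2 ≤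
      ‖∑ p ∈ Q, ∑ a ∈ F, c p a * mFourier a ((uS N β)^[p * m] y)‖ ^ 2 + δ * (K ^ 2 * (2 * B + 3)) := by
    intro m
    set A := ∑ p ∈ Q, f p ((uS N β)^[p * m] y)
    set G := ∑ p ∈ Q, ∑ a ∈ F, c p a * mFourier a ((uS N β)^[p * m] y) with hG
    have hG' : G = ∑ p ∈ Q, g p ((uS N β)^[p * m] y) :=
      Finset.sum_congr rfl fun p hp => (hgF p hp _).symm
    have h1 : ‖A - G‖ ≤ K * δ := by
      rw [hG', ← Finset.sum_sub_distrib]
      refine (norm_sum_le _ _).trans ?_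
      refine (Finset.sum_le_sum (g := fun _ => δ) fun p _ => ?_).trans (le_of_eq ?_)
      · exact ((f p - g p).norm_coe_le_norm _).trans (hd p).le
      · rw [Finset.sum_const, nsmul_eq_mul]
    have h2 : ‖G‖ ≤ K * (B + δ) := by
      rw [hG']
      refine (norm_sum_le _ _).trans ?_
      refine (Finset.sum_le_sum (g := fun _ => B + δ) fun p hp => ?_).trans (le_of_eq ?_)
      · exact ((g p).norm_coe_le_norm _).trans (hgB p hp)
      · rw [Finset.sum_const, nsmul_eq_mul]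
    have h3 : ‖A‖ ≤ ‖G‖ + K * δ := by
      calc ‖A‖ = ‖G + (A - G)‖ := by rw [add_sub_cancel]
        _ ≤ ‖G‖ + ‖A - G‖ := norm_add_le _ _
        _ ≤ ‖G‖ + K * δ := by linarith
    have h4 : 0 ≤ ‖A‖ := norm_nonneg _
    have h5 : 0 ≤ ‖G‖ := norm_nonneg _
    calc ‖A‖ ^ 2 ≤ (‖G‖ + K * δ) ^ 2 := by gcongr
      _ = ‖G‖ ^ 2 + 2 * (K * δ) * ‖G‖ + (K * δ) ^ 2 := by ring
      _ ≤ ‖G‖ ^ 2 + 2 * (K * δ) * (K * (B + 1)) + δ * K ^ 2 := by
          have e1 : 2 * (K * δ) * ‖G‖ ≤ 2 * (K * δ) * (K * (B + 1)) := by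
            have : K * (B + δ) ≤ K * (B + 1) := by gcongr
            have := h2.trans this
            gcongr
          have e2 : (K * δ) ^ 2 ≤ δ * K ^ 2 := by
            have : δ ^ 2 ≤ δ := by nlinarith
            calc (K * δ) ^ 2 = δ ^ 2 * K ^ 2 := by ring
              _ ≤ δ * K ^ 2 := by gcongr
          linarith
      _ = ‖G‖ ^ 2 + δ * (K ^ 2 * (2 * B + 3)) := by ring
  have hLs : ∑ m ∈ Ioc M1 (M1 + M), ‖∑ p ∈ Q, f p ((uS N β)^[p * m] y)‖ ^ 2 ≤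
      (∑ m ∈ Ioc M1 (M1 + M), ‖∑ p ∈ Q, ∑ a ∈ F, c p a * mFourier a ((uS N β)^[p * m] y)‖ ^ 2) +
        δ * (K ^ 2 * (2 * B + 3)) * M := by
    refine (Finset.sum_le_sum fun m _ => hL m).trans (le_of_eq ?_)
    rw [Finset.sum_add_distrib, Finset.sum_const, Nat.card_Ioc, Nat.add_sub_cancel_left, nsmul_eq_mul]
    ring
  -- the means
  have hint : ∀ h : C(Td D, ℂ), Integrable (fun x => h x) (mT D) := fun h =>
    h.continuous.integrable_of_hasCompactSupport (HasCompactSupport.of_compactSpace _)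
  have hmean : ‖∑ p ∈ Q, c p 0‖ ^ 2 ≤ ‖∑ p ∈ Q, ∫ y, f p y ∂mT D‖ ^ 2 + δ * (K ^ 2 * (2 * B + 1)) := by
    have hG' : ∑ p ∈ Q, c p 0 = ∑ p ∈ Q, ∫ y, g p y ∂mT D :=
      Finset.sum_congr rfl fun p hp => (bu_mean F h0F (c p) (g p) (hgF p hp)).symm
    set A := ∑ p ∈ Q, ∫ y, f p y ∂mT D
    set G := ∑ p ∈ Q, c p 0
    have h1 : ‖G - A‖ ≤ K * δ := by
      rw [hG', ← Finset.sum_sub_distrib]
      refine (norm_sum_le _ _).trans ?_
      refine (Finset.sum_le_sum (g := fun _ => δ) fun p _ => ?_).trans (le_of_eq ?_)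
      · rw [← integral_sub (hint _) (hint _)]
        have := norm_integral_le_of_norm_le_const (μ := mT D) (C := δ) (f := fun x => g p x - f p x)
          (Eventually.of_forall fun x => by
            rw [← norm_neg, neg_sub]
            exact ((f p - g p).norm_coe_le_norm _).trans (hd p).le)
        simpa using this
      · rw [Finset.sum_const, nsmul_eq_mul]
    have h2 : ‖A‖ ≤ K * B := by
      refine (norm_sum_le _ _).trans ?_
      refine (Finset.sum_le_sum (g := fun _ => B) fun p hp => ?_).trans (le_of_eq ?_)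
      · have := norm_integral_le_of_norm_le_const (μ := mT D) (C := B) (f := fun x => f p x)
          (Eventually.of_forall fun x => hB p hp x)
        simpa using this
      · rw [Finset.sum_const, nsmul_eq_mul]
    have h3 : ‖G‖ ≤ ‖A‖ + K * δ := by
      calc ‖G‖ = ‖A + (G - A)‖ := by rw [add_sub_cancel]
        _ ≤ ‖A‖ + ‖G - A‖ := norm_add_le _ _
        _ ≤ ‖A‖ + K * δ := by linarith
    have h4 : 0 ≤ ‖A‖ := norm_nonneg _
    have h5 : 0 ≤ ‖G‖ := norm_nonneg _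
    calc ‖G‖ ^ 2 ≤ (‖A‖ + K * δ) ^ 2 := by gcongr
      _ = ‖A‖ ^ 2 + 2 * (K * δ) * ‖A‖ + (K * δ) ^ 2 := by ring
      _ ≤ ‖A‖ ^ 2 + 2 * (K * δ) * (K * B) + δ * K ^ 2 := by
          have e1 : 2 * (K * δ) * ‖A‖ ≤ 2 * (K * δ) * (K * B) := by gcongr
          have e2 : (K * δ) ^ 2 ≤ δ * K ^ 2 := by
            have : δ ^ 2 ≤ δ := by nlinarith
            calc (K * δ) ^ 2 = δ ^ 2 * K ^ 2 := by ring
              _ ≤ δ * K ^ 2 := by gcongr
          linarith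
      _ = ‖A‖ ^ 2 + δ * (K ^ 2 * (2 * B + 1)) := by ring
  -- Parseval
  have hpar : ∑ p ∈ Q, ∑ a ∈ F.erase 0, ‖c p a‖ ^ 2 ≤ K * B ^ 2 + δ * (K * (2 * B + 1)) := by
    have h1 : ∀ p ∈ Q, ∑ a ∈ F.erase 0, ‖c p a‖ ^ 2 ≤ B ^ 2 + δ * (2 * B + 1) := by
      intro p hp
      have e1 : ∑ a ∈ F.erase 0, ‖c p a‖ ^ 2 ≤ ∑ a ∈ F, ‖c p a‖ ^ 2 :=
        Finset.sum_le_sum_of_subset_of_nonneg (Finset.erase_subset _ _) fun _ _ _ => by positivity
      have e2 := bu_parseval hs F (c p) (g p) (hgF p hp)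
      have e3 := hgB p hp
      have e4 : ‖g p‖ ^ 2 ≤ (B + δ) ^ 2 := by gcongr
      have e5 : (B + δ) ^ 2 ≤ B ^ 2 + δ * (2 * B + 1) := by nlinarith
      linarith
    refine (Finset.sum_le_sum h1).trans (le_of_eq ?_)
    rw [Finset.sum_const, nsmul_eq_mul]
    ring
  -- the levels
  have hlev : ∑ p ∈ Q, ∑ a ∈ F.erase 0, ((Q.filter (fun q => dv q (led N a))).card : ℝ) * ‖c p a‖ ^ 2 ≤
      ∑ p ∈ Q, ∑ k : Fin s, ∑ q ∈ Q, (jq (lamU N k q) (f p) - jq (lamU N k 0) (f p)) +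
        δ * (2 * K ^ 2 * s * (2 * B + 1)) := by
    have h1 : ∀ p ∈ Q, ∑ a ∈ F.erase 0, ((Q.filter (fun q => dv q (led N a))).card : ℝ) * ‖c p a‖ ^ 2 ≤
        ∑ k : Fin s, ∑ q ∈ Q, (jq (lamU N k q) (f p) - jq (lamU N k 0) (f p)) +
          δ * (2 * K * s * (2 * B + 1)) := by
      intro p hp
      have e1 : ∑ a ∈ F.erase 0, ((Q.filter (fun q => dv q (led N a))).card : ℝ) * ‖c p a‖ ^ 2 =
          ∑ q ∈ Q, ∑ a ∈ F.erase 0, (if dv q (led N a) then 1 else 0) * ‖c p a‖ ^ 2 := by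
        rw [Finset.sum_comm]
        refine Finset.sum_congr rfl fun a _ => ?_
        rw [← Finset.sum_mul, Finset.card_filter]
        push_cast
        rfl
      have e2 : ∑ q ∈ Q, ∑ a ∈ F.erase 0, (if dv q (led N a) then (1 : ℝ) else 0) * ‖c p a‖ ^ 2 ≤
          ∑ q ∈ Q, ∑ k : Fin s, (jq (lamU N k q) (g p) - jq (lamU N k 0) (g p)) :=
        Finset.sum_le_sum fun q _ => bu_level hN hs q F (c p) (g p) (hgF p hp)
      have e3 : ∀ (k q : ℕ), |jq (lamU N k q) (f p) - jq (lamU N k q) (g p)| ≤ δ * (2 * B + 1) := by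
        intro k q
        have := lamU_prob (N := N) k q
        refine (bu_jq (lamU N k q) (f p) (g p)).trans ?_
        have i1 := hfB p hp
        have i2 := hgB p hp
        have i3 := (hd p).le
        apply mul_le_mul i3 (by linarith) (by positivity) hδ0.le
      have e4 : ∑ q ∈ Q, ∑ k : Fin s, (jq (lamU N k q) (g p) - jq (lamU N k 0) (g p)) ≤
          ∑ q ∈ Q, ∑ k : Fin s, (jq (lamU N k q) (f p) - jq (lamU N k 0) (f p) + 2 * (δ * (2 * B + 1))) := by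
        refine Finset.sum_le_sum fun q _ => Finset.sum_le_sum fun k _ => ?_
        have i1 := abs_le.1 (e3 k q)
        have i2 := abs_le.1 (e3 k 0)
        linarith [i1.1, i2.2]
      rw [e1]
      refine (e2.trans e4).trans (le_of_eq ?_)
      rw [Finset.sum_comm]
      simp only [Finset.sum_add_distrib, Finset.sum_const, Finset.card_univ, Fintype.card_fin, nsmul_eq_mul]
      ring
    refine (Finset.sum_le_sum h1).trans (le_of_eq ?_)
    rw [Finset.sum_add_distrib, Finset.sum_const, nsmul_eq_mul]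
    ring
  have hsplit : ∑ p ∈ Q, ∑ a ∈ F.erase 0, (1 + ((Q.filter (fun q => dv q (led N a))).card : ℝ)) * ‖c p a‖ ^ 2 =
      ∑ p ∈ Q, ∑ a ∈ F.erase 0, ‖c p a‖ ^ 2 +
        ∑ p ∈ Q, ∑ a ∈ F.erase 0, ((Q.filter (fun q => dv q (led N a))).card : ℝ) * ‖c p a‖ ^ 2 := by
    rw [← Finset.sum_add_distrib]
    refine Finset.sum_congr rfl fun p _ => ?_
    rw [← Finset.sum_add_distrib]
    refine Finset.sum_congr rfl fun a _ => ?_
    ring
  rw [hsplit] at hmain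
  have hM' : (0 : ℝ) ≤ M := Nat.cast_nonneg _
  refine (hLs.trans (add_le_add_left hmain _)).trans ?_
  rw [← add_mul]
  refine mul_le_mul_of_nonneg_right ?_ hM'
  have hCe : δ * (K ^ 2 * (2 * B + 3)) + δ * (K ^ 2 * (2 * B + 1)) + δ * (K * (2 * B + 1)) +
      δ * (2 * K ^ 2 * s * (2 * B + 1)) = δ * C := by
    rw [hC]
    ring
  linarith

theorem baseU {s : ℕ} (hN : N ^ s = 0) (hirr : ∀ c : Fin D → ℤ, c ≠ 0 → ad N c = 0 → mFourier c β ≠ 1) :
    BaseP (uS N β) (mT D) (fun k : Fin s => lamU N k) where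
  cont := uS_cont
  prob := inferInstance
  mp := uS_mp ⟨s, hN⟩
  lprob := fun k q => lamU_prob k q
  linv := fun k q => lamU_inv ⟨s, hN⟩ k q
  pos := fun k q f => bu_pos k q f
  lim := fun k f => bu_lim k f
  P := fun Q hQ f B hB ε hε => bu_P hN hirr Q hQ f B hB ε hε

end Pool.Agent.Lib.MP_9fe581_an.HX
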