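import Pool.Agent.Lib.MP_9fe581_an.HX.DefsZ

/-!
# HX, Z5: the block trick over a general base
-/

set_option autoImplicit false

open Finset MeasureTheory Filter Topology UnitAddTorus
open scoped ComplexConjugate Matrix

namespace Pool.Agent.Lib.MP_9fe581_an.HX

open Pool.Agent.Lib.MP_9fe581_an.HD

section

variable {X Y : Type} [TopologicalSpace X] [TopologicalSpace Y] {q m : ℕ}

/-- the block cocycle: block `t` goes to block `t + 1` by `A (Ψ t y)` -/
private noncomputable def blkA (Ψ : ZMod q → Y → X) (A : X → Matrix (Fin m) (Fin m) ℂ) (y : Y) :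
    Matrix (ZMod q × Fin m) (ZMod q × Fin m) ℂ :=
  Matrix.of fun s t => if s.1 = t.1 + 1 then A (Ψ t.1 y) s.2 t.2 else 0

/-- the block diagonal observable -/
private noncomputable def blkD (Ψ : ZMod q → Y → X) (h : C(X, ℂ)) (y : Y) :
    Matrix (ZMod q × Fin m) (ZMod q × Fin m) ℂ :=
  Matrix.of fun s t => if s = t then h (Ψ s.1 y) else 0

private theorem blkA_cont {Ψ : ZMod q → Y → X} (hΨ : ∀ t, Continuous (Ψ t))
    {A : X → Matrix (Fin m) (Fin m) ℂ} (hA : Continuous A) : Continuous (blkA Ψ A) := by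
  refine continuous_matrix fun s t => ?_
  unfold blkA
  simp only [Matrix.of_apply]
  by_cases h : s.1 = t.1 + 1
  · simp only [if_pos h]
    exact (hA.comp (hΨ t.1)).matrix_elem s.2 t.2
  · simp only [if_neg h]
    exact continuous_const

private theorem blkD_cont {Ψ : ZMod q → Y → X} (hΨ : ∀ t, Continuous (Ψ t)) (h : C(X, ℂ)) :
    Continuous (blkD (m := m) Ψ h) := by
  refine continuous_matrix fun s t => ?_
  unfold blkD
  simp only [Matrix.of_apply]
  by_cases hs : s = t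
  · simp only [if_pos hs]
    exact h.continuous.comp (hΨ s.1)
  · simp only [if_neg hs]
    exact continuous_const

omit [TopologicalSpace X] [TopologicalSpace Y] in
private theorem blkA_unit [NeZero q] (Ψ : ZMod q → Y → X) {A : X → Matrix (Fin m) (Fin m) ℂ}
    (hA : ∀ x, A x * (A x)ᴴ = 1) (y : Y) : blkA Ψ A y * (blkA Ψ A y)ᴴ = 1 := by
  ext s t
  rw [Matrix.mul_apply, Fintype.sum_prod_type]
  simp only [Matrix.conjTranspose_apply, blkA, Matrix.of_apply]
  rw [Finset.sum_eq_single (s.1 - 1)]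
  · simp only [sub_add_cancel, if_true]
    by_cases h : t.1 = s.1
    · simp only [if_pos h]
      have h1 := congrFun (congrFun (hA (Ψ (s.1 - 1) y)) s.2) t.2
      rw [Matrix.mul_apply] at h1
      simp only [Matrix.conjTranspose_apply] at h1
      rw [h1]
      by_cases h2 : s.2 = t.2
      · rw [show s = t from Prod.ext h.symm h2, Matrix.one_apply_eq, Matrix.one_apply_eq]
      · rw [Matrix.one_apply_ne h2, Matrix.one_apply_ne fun e => h2 (congrArg Prod.snd e)]
    · simp only [if_neg h, star_zero, mul_zero, Finset.sum_const_zero]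
      rw [Matrix.one_apply_ne fun e => h (congrArg Prod.fst e).symm]
  · intro b _ hb
    refine Finset.sum_eq_zero fun l _ => ?_
    rw [if_neg, zero_mul]
    intro e
    exact hb (by rw [e, add_sub_cancel_right])
  · intro h
    exact absurd (Finset.mem_univ _) h

omit [TopologicalSpace X] [TopologicalSpace Y] in
private theorem blkA_step [NeZero q] (Ψ : ZMod q → Y → X) (A : X → Matrix (Fin m) (Fin m) ℂ) (y : Y)
    (M : Matrix (ZMod q × Fin m) (ZMod q × Fin m) ℂ) (t : ZMod q) (i : Fin m) (s : ZMod q × Fin m) :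
    (blkA Ψ A y * M) (t + 1, i) s = ∑ l, A (Ψ t y) i l * M (t, l) s := by
  rw [Matrix.mul_apply, Fintype.sum_prod_type]
  simp only [blkA, Matrix.of_apply]
  rw [Finset.sum_eq_single t]
  · simp only [if_true]
  · intro b _ hb
    refine Finset.sum_eq_zero fun l _ => ?_
    rw [if_neg, zero_mul]
    intro e
    exact hb (add_right_cancel e).symm
  · intro h
    exact absurd (Finset.mem_univ _) h

omit [TopologicalSpace Y] in
private theorem blkD_mul [NeZero q] (Ψ : ZMod q → Y → X) (h : C(X, ℂ)) (y : Y)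
    (M : Matrix (ZMod q × Fin m) (ZMod q × Fin m) ℂ) (s t : ZMod q × Fin m) :
    (blkD Ψ h y * M : Matrix (ZMod q × Fin m) (ZMod q × Fin m) ℂ) s t = h (Ψ s.1 y) * M s t := by
  rw [Matrix.mul_apply]
  simp only [blkD, Matrix.of_apply, ite_mul, zero_mul]
  rw [Finset.sum_ite_eq Finset.univ s, if_pos (Finset.mem_univ s)]

omit [TopologicalSpace X] [TopologicalSpace Y] in
private theorem blk_zero [NeZero q] (S : Y → Y) (Ψ : ZMod q → Y → X)
    (A : X → Matrix (Fin m) (Fin m) ℂ) (y0 : Y) (n : ℕ) (t : ZMod q) (ht : t ≠ n) (i k : Fin m) :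
    cpS S (blkA Ψ A) n y0 (t, i) (0, k) = 0 := by
  induction n generalizing t i with
  | zero =>
    rw [cpS, Matrix.one_apply_ne]
    intro e
    exact ht (by simpa using congrArg Prod.fst e)
  | succ n ih =>
    rw [cpS]
    obtain ⟨t', rfl⟩ : ∃ t', t = t' + 1 := ⟨t - 1, (sub_add_cancel t 1).symm⟩
    rw [blkA_step]
    refine Finset.sum_eq_zero fun l _ => ?_
    rw [ih t' (fun e => ht (by rw [e]; push_cast; rfl)) l, mul_zero]

omit [TopologicalSpace X] [TopologicalSpace Y] in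
private theorem blk_eq [NeZero q] (S : Y → Y) (Ψ : ZMod q → Y → X)
    (A : X → Matrix (Fin m) (Fin m) ℂ) (y0 : Y) (n : ℕ) (i k : Fin m) :
    sqp A (fun n => Ψ (n : ZMod q) (S^[n] y0)) n i k =
      cpS S (blkA Ψ A) n y0 (((n : ℕ) : ZMod q), i) (0, k) := by
  induction n generalizing i with
  | zero =>
    rw [cpS, sqp, Nat.cast_zero]
    by_cases h : i = k
    · rw [h, Matrix.one_apply_eq, Matrix.one_apply_eq]
    · rw [Matrix.one_apply_ne h, Matrix.one_apply_ne fun e => h (congrArg Prod.snd e)]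
  | succ n ih =>
    rw [cpS, sqp, Nat.cast_succ, blkA_step, Matrix.mul_apply]
    exact Finset.sum_congr rfl fun l _ => by rw [ih l]

omit [TopologicalSpace X] in
private theorem sqp_unit {A : X → Matrix (Fin m) (Fin m) ℂ} (hA : ∀ x, A x * (A x)ᴴ = 1) (x : ℕ → X)
    (n : ℕ) : sqp A x n * (sqp A x n)ᴴ = 1 := by
  induction n with
  | zero => rw [sqp, Matrix.conjTranspose_one, one_mul]
  | succ n ih =>
    rw [sqp, Matrix.conjTranspose_mul, Matrix.mul_assoc, ← Matrix.mul_assoc (sqp A x n), ih,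
      Matrix.one_mul, hA]

omit [TopologicalSpace X] in
private theorem sqp_tail {A : X → Matrix (Fin m) (Fin m) ℂ} (hA : ∀ x, A x * (A x)ᴴ = 1)
    {x x' : ℕ → X} {a : ℕ} (hx : ∀ n ≥ a, x n = x' n) (n : ℕ) (hn : a ≤ n) :
    sqp A x n = sqp A x' n * ((sqp A x' a)ᴴ * sqp A x a) := by
  induction n, hn using Nat.le_induction with
  | base => rw [← Matrix.mul_assoc, sqp_unit hA, Matrix.one_mul]
  | succ n hn ih => rw [sqp, sqp, ih, hx n hn, Matrix.mul_assoc]

end

theorem blk_seq {X Y : Type} [TopologicalSpace X] [TopologicalSpace Y] {S : Y → Y} {u : ℕ → ℂ} (H : MatOrth S u)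
    (hu : ∀ n, ‖u n‖ ≤ 1) (q : ℕ) (hq : 0 < q) (Ψ : ZMod q → Y → X) (hΨ : ∀ t, Continuous (Ψ t)) (y0 : Y)
    (x : ℕ → X) (a : ℕ) (hx : ∀ n ≥ a, x n = Ψ (n : ZMod q) (S^[n] y0)) : SeqOrth u x := by
  intro m A hAc hA h ε hε
  have : NeZero q := ⟨hq.ne'⟩
  have hqr : (0 : ℝ) < q := by exact_mod_cast hq
  set x' : ℕ → X := fun n => Ψ (n : ZMod q) (S^[n] y0) with hx'
  set R : Matrix (Fin m) (Fin m) ℂ := (sqp A x' a)ᴴ * sqp A x a with hR
  have htail : ∀ n, a ≤ n → sqp A x n = sqp A x' n * R := fun n hn => sqp_tail hA hx n hn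
  -- constants
  obtain ⟨CR, hCR⟩ : ∃ CR : ℝ, CR = (∑ l, ∑ j, ‖R l j‖) + 1 := ⟨_, rfl⟩
  have hCR0 : 0 < CR := by
    rw [hCR]
    positivity
  have hCRj : ∀ j, ∑ l, ‖R l j‖ ≤ CR := by
    intro j
    rw [hCR]
    have h1 : ∀ l ∈ (Finset.univ : Finset (Fin m)), ‖R l j‖ ≤ ∑ j', ‖R l j'‖ := fun l _ =>
      Finset.single_le_sum (f := fun j' => ‖R l j'‖) (fun _ _ => norm_nonneg _) (Finset.mem_univ j)
    have h2 := Finset.sum_le_sum h1
    linarith
  -- the bound for `x'`
  obtain ⟨N0, hN0⟩ := H (ZMod q × Fin m) (blkA Ψ A) (blkD Ψ h) (blkA_cont hΨ hAc)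
    (blkA_unit Ψ hA) (blkD_cont hΨ h) (ε / (2 * CR * q)) (by positivity)
  have hmain : ∀ N ≥ N0, ∀ i j : Fin m,
      ‖∑ n ∈ Icc 1 N, u n * (h (x' n) * sqp A x' n i j)‖ ≤ ε / (2 * CR) * N := by
    intro N hN i j
    have e1 : ∀ n : ℕ, h (x' n) * sqp A x' n i j =
        ∑ t : ZMod q, ((blkD Ψ h (S^[n] y0) * cpS S (blkA Ψ A) n y0 : Matrix (ZMod q × Fin m) (ZMod q × Fin m) ℂ)) (t, i) (0, j) := by
      intro n
      have e2 : ∀ t : ZMod q, ((blkD Ψ h (S^[n] y0) * cpS S (blkA Ψ A) n y0 : Matrix (ZMod q × Fin m) (ZMod q × Fin m) ℂ)) (t, i) (0, j) =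
          h (Ψ t (S^[n] y0)) * cpS S (blkA Ψ A) n y0 (t, i) (0, j) := fun t =>
        blkD_mul Ψ h (S^[n] y0) _ (t, i) (0, j)
      simp only [e2]
      rw [Finset.sum_eq_single ((n : ℕ) : ZMod q)]
      · rw [hx', blk_eq]
      · intro t _ ht
        rw [blk_zero S Ψ A y0 n t ht, mul_zero]
      · intro hh
        exact absurd (Finset.mem_univ _) hh
    simp_rw [e1, Finset.mul_sum]
    rw [Finset.sum_comm]
    refine (norm_sum_le _ _).trans ?_
    have h1 : ∀ t ∈ (Finset.univ : Finset (ZMod q)),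
        ‖∑ n ∈ Icc 1 N, u n * ((blkD Ψ h (S^[n] y0) * cpS S (blkA Ψ A) n y0 : Matrix (ZMod q × Fin m) (ZMod q × Fin m) ℂ)) (t, i) (0, j)‖ ≤
          ε / (2 * CR * q) * N := fun t _ => hN0 N hN y0 (t, i) (0, j)
    refine (Finset.sum_le_card_nsmul _ _ _ h1).trans_eq ?_
    rw [Finset.card_univ, ZMod.card, nsmul_eq_mul]
    field_simp
  -- the finitely many terms before `a`
  set er : ℕ → Fin m → Fin m → ℂ := fun n i j =>
    u n * (h (x n) * sqp A x n i j) - ∑ l, u n * (h (x' n) * sqp A x' n i l) * R l j with her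
  have her0 : ∀ n, a ≤ n → ∀ i j, er n i j = 0 := by
    intro n hn i j
    rw [her]
    show u n * (h (x n) * sqp A x n i j) - ∑ l, u n * (h (x' n) * sqp A x' n i l) * R l j = 0
    rw [htail n hn, Matrix.mul_apply, hx n hn, sub_eq_zero, Finset.mul_sum, Finset.mul_sum]
    exact Finset.sum_congr rfl fun l _ => by ring
  obtain ⟨K, hK⟩ : ∃ K : ℝ, K = ∑ n ∈ Finset.range a, ∑ i, ∑ j, ‖er n i j‖ := ⟨_, rfl⟩
  have hsum : ∀ N i j, ‖∑ n ∈ Icc 1 N, er n i j‖ ≤ K := by
    intro N i j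
    refine (norm_sum_le _ _).trans ?_
    have h1 : ∑ n ∈ Icc 1 N, ‖er n i j‖ ≤ ∑ n ∈ Finset.range a, ‖er n i j‖ := by
      have h2 : ∑ n ∈ Icc 1 N, ‖er n i j‖ = ∑ n ∈ (Icc 1 N).filter (fun n => n < a), ‖er n i j‖ := by
        rw [Finset.sum_filter]
        refine Finset.sum_congr rfl fun n _ => ?_
        by_cases hn : n < a
        · rw [if_pos hn]
        · rw [if_neg hn, her0 n (not_lt.1 hn), norm_zero]
      rw [h2]
      refine Finset.sum_le_sum_of_subset_of_nonneg (fun n hn => ?_) (fun _ _ _ => norm_nonneg _)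
      exact Finset.mem_range.2 (Finset.mem_filter.1 hn).2
    refine h1.trans ?_
    rw [hK]
    refine Finset.sum_le_sum fun n _ => ?_
    have h3 : ‖er n i j‖ ≤ ∑ j', ‖er n i j'‖ :=
      Finset.single_le_sum (f := fun j' => ‖er n i j'‖) (fun _ _ => norm_nonneg _)
        (Finset.mem_univ j)
    have h4 : ∑ j', ‖er n i j'‖ ≤ ∑ i', ∑ j', ‖er n i' j'‖ :=
      Finset.single_le_sum (f := fun i' => ∑ j', ‖er n i' j'‖)
        (fun _ _ => Finset.sum_nonneg fun _ _ => norm_nonneg _) (Finset.mem_univ i)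
    exact h3.trans h4
  refine ⟨max N0 (⌈2 * K / ε⌉₊), fun N hN i j => ?_⟩
  have hN1 : N0 ≤ N := (le_max_left _ _).trans hN
  have hN2 : 2 * K / ε ≤ N := (Nat.le_ceil _).trans (by exact_mod_cast (le_max_right _ _).trans hN)
  have hK2 : K ≤ ε / 2 * N := by
    rw [div_le_iff₀ hε] at hN2
    linarith
  have e3 : ∑ n ∈ Icc 1 N, u n * (h (x n) * sqp A x n i j) =
      (∑ n ∈ Icc 1 N, er n i j) +
        ∑ l, (∑ n ∈ Icc 1 N, u n * (h (x' n) * sqp A x' n i l)) * R l j := by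
    have e4 : ∑ l, (∑ n ∈ Icc 1 N, u n * (h (x' n) * sqp A x' n i l)) * R l j =
        ∑ n ∈ Icc 1 N, ∑ l, u n * (h (x' n) * sqp A x' n i l) * R l j := by
      simp_rw [Finset.sum_mul]
      rw [Finset.sum_comm]
    rw [e4, ← Finset.sum_add_distrib]
    refine Finset.sum_congr rfl fun n _ => ?_
    rw [her]
    ring
  rw [e3]
  refine (norm_add_le _ _).trans ?_
  have h5 : ‖∑ l, (∑ n ∈ Icc 1 N, u n * (h (x' n) * sqp A x' n i l)) * R l j‖ ≤ ε / 2 * N := by
    refine (norm_sum_le _ _).trans ?_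
    have h6 : ∀ l ∈ (Finset.univ : Finset (Fin m)),
        ‖(∑ n ∈ Icc 1 N, u n * (h (x' n) * sqp A x' n i l)) * R l j‖ ≤
          ε / (2 * CR) * N * ‖R l j‖ := by
      intro l _
      rw [norm_mul]
      exact mul_le_mul_of_nonneg_right (hmain N hN1 i l) (norm_nonneg _)
    refine (Finset.sum_le_sum h6).trans ?_
    rw [← Finset.mul_sum]
    refine (mul_le_mul_of_nonneg_left (hCRj j) (by positivity)).trans_eq ?_
    field_simp
  have h7 := hsum N i j
  linarith

end Pool.Agent.Lib.MP_9fe581_an.HX
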