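import Pool.Agent.Lib.MP_9fe581_an.HX.DefsZ
import Pool.Agent.Lib.MP_9fe581_an.HD.PW
import Pool.Agent.Lib.MP_9fe581_an.HD.DenseG

/-!
# HX / EqDense: the equivariant functions of a compact group action span a dense subspace

`V x = ∫ g, f (g⁻¹ • x) • (π g)ᴴ` is equivariant; `∫ k g * f (g⁻¹ • x)` is uniformly close to `f x` for `k ≥ 0` supported near 1 with
integral 1; `k` is uniformly close to a linear combination of matrix coefficients (Peter - Weyl, Stone - Weierstrass).
-/

set_option autoImplicit false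

open Finset MeasureTheory Filter Topology UnitAddTorus
open scoped ComplexConjugate Matrix

namespace Pool.Agent.Lib.MP_9fe581_an.HX

open Pool.Agent.Lib.MP_9fe581_an.HD

/-- the equivariant functions -/
def eqSet (X G : Type) [TopologicalSpace X] [Group G] [TopologicalSpace G] [MulAction G X] : Set (X → ℂ) :=
  {f | ∃ (n : ℕ) (π : G → Matrix (Fin n) (Fin n) ℂ) (V : X → Matrix (Fin n) (Fin n) ℂ), URep π ∧ Continuous V ∧
    (∀ g x, V (g • x) = V x * (π g)ᴴ) ∧ ∃ i j, f = fun x => V x i j}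

section

variable {X : Type} [TopologicalSpace X] [CompactSpace X] [T2Space X] {G : Type} [Group G] [TopologicalSpace G]
  [IsTopologicalGroup G] [CompactSpace G] [T2Space G] [MulAction G X] [ContinuousSMul G X]

omit [CompactSpace X] [T2Space X] in
private theorem cont_f (f : C(X, ℂ)) (x : X) : Continuous fun g : G => f (g⁻¹ • x) :=
  f.continuous.comp (continuous_inv.smul continuous_const)

private theorem intg [MeasurableSpace G] [BorelSpace G] (μ : Measure G) [IsProbabilityMeasure μ] {a : G → ℂ}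
    (ha : Continuous a) : Integrable a μ :=
  ha.integrable_of_hasCompactSupport (HasCompactSupport.of_compactSpace _)

/-- integration is continuous on `C(G, ℂ)` -/
private theorem cont_int [MeasurableSpace G] [BorelSpace G] (μ : Measure G) [IsProbabilityMeasure μ] :
    Continuous fun a : C(G, ℂ) => ∫ g, a g ∂μ := by
  have h : LipschitzWith 1 (fun a : C(G, ℂ) => ∫ g, a g ∂μ) := by
    refine LipschitzWith.of_dist_le_mul fun a b => ?_
    rw [NNReal.coe_one, one_mul, dist_eq_norm, ← integral_sub (intg μ a.continuous) (intg μ b.continuous)]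
    refine (norm_integral_le_of_norm_le_const (C := dist a b) (Eventually.of_forall fun g => ?_)).trans ?_
    · rw [← dist_eq_norm]
      exact ContinuousMap.dist_apply_le_dist g
    · simp
  exact h.continuous

omit [CompactSpace X] [T2Space X] in
/-- parametric integrals over `G` are continuous, no countability assumption on `X` -/
private theorem cont_par [MeasurableSpace G] [BorelSpace G] (μ : Measure G) [IsProbabilityMeasure μ] {F : X → G → ℂ}
    (hF : Continuous fun z : X × G => F z.1 z.2) : Continuous fun x => ∫ g, F x g ∂μ := by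
  have h1 : Continuous fun x => (ContinuousMap.curry ⟨fun z : X × G => F z.1 z.2, hF⟩ x : C(G, ℂ)) :=
    (ContinuousMap.curry ⟨fun z : X × G => F z.1 z.2, hF⟩).continuous
  exact (cont_int μ).comp h1

omit [CompactSpace X] [T2Space X] in
private theorem coef_mem [MeasurableSpace G] [BorelSpace G] (μ : Measure G) [IsProbabilityMeasure μ]
    [μ.IsMulLeftInvariant] (f : C(X, ℂ)) {n : ℕ} {π : G → Matrix (Fin n) (Fin n) ℂ} (hπ : URep π) (i j : Fin n) :
    (fun x : X => ∫ g, π g i j * f (g⁻¹ • x) ∂μ) ∈ eqSet X G := by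
  have hπ' := urep_conj hπ
  have hcf : Continuous fun z : X × G => f (z.2⁻¹ • z.1) :=
    f.continuous.comp ((continuous_inv.comp continuous_snd).smul continuous_fst)
  refine ⟨n, fun g => (π g).map conj, fun x => Matrix.of fun a b => ∫ g, π g b a * f (g⁻¹ • x) ∂μ, hπ', ?_, ?_, j, i, rfl⟩
  · refine continuous_matrix fun a b => ?_
    exact cont_par μ (F := fun x g => π g b a * f (g⁻¹ • x))
      (((hπ.cont.matrix_elem b a).comp continuous_snd).mul hcf)
  · intro h x
    ext a b
    rw [Matrix.mul_apply]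
    have e1 : ∀ l, ((π h).map conj)ᴴ l b = π h b l := by
      intro l
      rw [Matrix.conjTranspose_apply, Matrix.map_apply]
      exact Complex.conj_conj _
    have e2 : ∀ l ∈ (univ : Finset (Fin n)), Integrable (fun g => (π g l a * f (g⁻¹ • x)) * π h b l) μ := by
      intro l _
      exact intg μ (((hπ.cont.matrix_elem l a).mul (cont_f f x)).mul continuous_const)
    have e3 : ∑ l, (Matrix.of fun a b => ∫ g, π g b a * f (g⁻¹ • x) ∂μ) a l * ((π h).map conj)ᴴ l b =
        ∫ g, ∑ l, (π g l a * f (g⁻¹ • x)) * π h b l ∂μ := by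
      rw [integral_finsetSum _ e2]
      refine sum_congr rfl fun l _ => ?_
      rw [e1, integral_mul_const]
      rfl
    rw [e3]
    show ∫ g, π g b a * f (g⁻¹ • h • x) ∂μ = _
    rw [← integral_mul_left_eq_self (fun g => π g b a * f (g⁻¹ • h • x)) h]
    refine integral_congr_ae (Eventually.of_forall fun g => ?_)
    show π (h * g) b a * f ((h * g)⁻¹ • h • x) = _
    rw [hπ.mul, Matrix.mul_apply, mul_inv_rev, mul_smul, inv_smul_smul, sum_mul]
    refine sum_congr rfl fun l _ => ?_
    ring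

omit [CompactSpace X] [T2Space X] in
private theorem conv_mem [MeasurableSpace G] [BorelSpace G] (μ : Measure G) [IsProbabilityMeasure μ]
    [μ.IsMulLeftInvariant] (f : C(X, ℂ)) (c : Td 0 × G → ℂ) (hc : c ∈ Submodule.span ℂ (dgSet 0 G)) :
    Continuous (fun g : G => c (0, g)) ∧
      (fun x : X => ∫ g, c (0, g) * f (g⁻¹ • x) ∂μ) ∈ Submodule.span ℂ (eqSet X G) := by
  induction hc using Submodule.span_induction with
  | mem c hc =>
    obtain ⟨k, m, π, hπ, i, j, rfl⟩ := hc
    have e : ∀ g : G, mFourier k (0 : Td 0) * π g i j = π g i j := by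
      intro g
      have : mFourier k (0 : Td 0) = 1 := by
        simp [mFourier]
      rw [this, one_mul]
    refine ⟨?_, ?_⟩
    · show Continuous fun g : G => mFourier k (0 : Td 0) * π g i j
      exact continuous_const.mul (hπ.cont.matrix_elem i j)
    · show (fun x : X => ∫ g, (mFourier k (0 : Td 0) * π g i j) * f (g⁻¹ • x) ∂μ) ∈ _
      simp only [e]
      exact Submodule.subset_span (coef_mem μ f hπ i j)
  | zero =>
    refine ⟨continuous_const, ?_⟩
    have e : (fun x : X => ∫ g, (0 : Td 0 × G → ℂ) (0, g) * f (g⁻¹ • x) ∂μ) = 0 := by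
      funext x
      simp
    rw [e]
    exact Submodule.zero_mem _
  | add c c' _ _ h h' =>
    refine ⟨h.1.add h'.1, ?_⟩
    have e : (fun x : X => ∫ g, (c + c') (0, g) * f (g⁻¹ • x) ∂μ) =
        (fun x : X => ∫ g, c (0, g) * f (g⁻¹ • x) ∂μ) + fun x : X => ∫ g, c' (0, g) * f (g⁻¹ • x) ∂μ := by
      funext x
      show _ = (∫ g, c (0, g) * f (g⁻¹ • x) ∂μ) + ∫ g, c' (0, g) * f (g⁻¹ • x) ∂μ
      have i1 : Integrable (fun g => c (0, g) * f (g⁻¹ • x)) μ := intg μ (h.1.mul (cont_f f x))
      have i2 : Integrable (fun g => c' (0, g) * f (g⁻¹ • x)) μ := intg μ (h'.1.mul (cont_f f x))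
      rw [← integral_add i1 i2]
      refine integral_congr_ae (Eventually.of_forall fun g => ?_)
      show (c (0, g) + c' (0, g)) * _ = _
      ring
    rw [e]
    exact Submodule.add_mem _ h.2 h'.2
  | smul a c _ h =>
    refine ⟨h.1.const_smul a, ?_⟩
    have e : (fun x : X => ∫ g, (a • c) (0, g) * f (g⁻¹ • x) ∂μ) =
        a • fun x : X => ∫ g, c (0, g) * f (g⁻¹ • x) ∂μ := by
      funext x
      show _ = a * ∫ g, c (0, g) * f (g⁻¹ • x) ∂μ
      rw [← integral_const_mul]
      refine integral_congr_ae (Eventually.of_forall fun g => ?_)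
      show (a * c (0, g)) * _ = _
      ring
    rw [e]
    exact Submodule.smul_mem _ a h.2

/-- an approximate unit -/
private theorem exists_unit [MeasurableSpace G] [BorelSpace G] (μ : Measure G) [IsProbabilityMeasure μ]
    [μ.IsOpenPosMeasure] {U : Set G} (hU : U ∈ 𝓝 (1 : G)) :
    ∃ k : C(G, ℝ), (∀ g, 0 ≤ k g) ∧ (∀ g, g ∉ U → k g = 0) ∧ ∫ g, k g ∂μ = 1 := by
  obtain ⟨O, hOU, hO, h1O⟩ := mem_nhds_iff.1 hU
  obtain ⟨k, hk0, hk1, hk⟩ := exists_continuous_zero_one_of_isClosed (X := G) (s := Oᶜ) (t := {1})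
    hO.isClosed_compl isClosed_singleton (by
      rw [Set.disjoint_singleton_right]
      exact fun h => h h1O)
  have hpos : 0 < ∫ g, k g ∂μ := by
    refine k.continuous.integral_pos_of_hasCompactSupport_nonneg_nonzero
      (HasCompactSupport.of_compactSpace _) (fun g => (hk g).1) (x := 1) ?_
    have : k 1 = 1 := hk1 rfl
    rw [this]
    exact one_ne_zero
  refine ⟨(∫ g, k g ∂μ)⁻¹ • k, fun g => ?_, fun g hg => ?_, ?_⟩
  · exact mul_nonneg (inv_nonneg.2 hpos.le) (hk g).1
  · have h2 : k g = 0 := hk0 (show g ∈ Oᶜ from fun h => hg (hOU h))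
    show (∫ g, k g ∂μ)⁻¹ * k g = 0
    rw [h2, mul_zero]
  · show ∫ g, (∫ g, k g ∂μ)⁻¹ * k g ∂μ = 1
    rw [integral_const_mul, inv_mul_cancel₀ hpos.ne']

omit [T2Space X] in
/-- translates of `f` by group elements near 1 are uniformly close to `f` -/
private theorem near_one (f : C(X, ℂ)) (ε : ℝ) (hε : 0 < ε) :
    {g : G | ∀ x, ‖f (g⁻¹ • x) - f x‖ ≤ ε} ∈ 𝓝 (1 : G) := by
  have hc : Continuous fun z : G × X => f (z.1⁻¹ • z.2) :=
    f.continuous.comp ((continuous_inv.comp continuous_fst).smul continuous_snd)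
  have h1 : Continuous fun g => (ContinuousMap.curry ⟨fun z : G × X => f (z.1⁻¹ • z.2), hc⟩ g : C(X, ℂ)) :=
    (ContinuousMap.curry ⟨fun z : G × X => f (z.1⁻¹ • z.2), hc⟩).continuous
  have h2 := Metric.continuousAt_iff'.1 (h1.continuousAt (x := (1 : G))) ε hε
  filter_upwards [h2] with g hg x
  have h3 := (ContinuousMap.dist_apply_le_dist (f := ContinuousMap.curry ⟨fun z : G × X => f (z.1⁻¹ • z.2), hc⟩ g)
    (g := ContinuousMap.curry ⟨fun z : G × X => f (z.1⁻¹ • z.2), hc⟩ 1) x).trans hg.le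
  have h4 : dist (f (g⁻¹ • x)) (f ((1 : G)⁻¹ • x)) ≤ ε := h3
  rwa [inv_one, one_smul, dist_eq_norm] at h4

/-- the equivariant functions span a dense subspace -/
theorem eq_dense (f : C(X, ℂ)) (ε : ℝ) (hε : 0 < ε) :
    ∃ g : X → ℂ, (∀ x, ‖f x - g x‖ ≤ ε) ∧ g ∈ Submodule.span ℂ (eqSet X G) := by
  borelize G
  set μ : Measure G := Measure.haarMeasure ⊤ with hμ
  have : IsProbabilityMeasure μ := ⟨Measure.haarMeasure_self⟩
  obtain ⟨k, hk0, hkU, hk1⟩ := exists_unit μ (near_one (G := G) f (ε / 2) (by positivity))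
  set M : ℝ := ‖f‖ with hM
  have hM0 : 0 ≤ M := norm_nonneg _
  have hs : Sep G := fun g hg => pw_sep hg
  have hkc : Continuous fun z : Td 0 × G => ((k z.2 : ℝ) : ℂ) :=
    Complex.continuous_ofReal.comp (k.continuous.comp continuous_snd)
  obtain ⟨c, hc, hcs⟩ := coef_dense_G hs ⟨fun z : Td 0 × G => ((k z.2 : ℝ) : ℂ), hkc⟩ (ε / (2 * (M + 1))) (by positivity)
  obtain ⟨hcc, hmem⟩ := conv_mem μ f c hcs
  refine ⟨_, fun x => ?_, hmem⟩
  have hkc' : Continuous fun g : G => ((k g : ℝ) : ℂ) := Complex.continuous_ofReal.comp k.continuous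
  have hf := cont_f (G := G) f x
  have e1 : f x - ∫ g, c (0, g) * f (g⁻¹ • x) ∂μ =
      (∫ g, ((k g : ℝ) : ℂ) * (f x - f (g⁻¹ • x)) ∂μ) + ∫ g, (((k g : ℝ) : ℂ) - c (0, g)) * f (g⁻¹ • x) ∂μ := by
    have i1 : Integrable (fun g => ((k g : ℝ) : ℂ) * (f x - f (g⁻¹ • x))) μ := intg μ (hkc'.mul (continuous_const.sub hf))
    have i2 : Integrable (fun g => (((k g : ℝ) : ℂ) - c (0, g)) * f (g⁻¹ • x)) μ := intg μ ((hkc'.sub hcc).mul hf)
    have i3 : Integrable (fun g => ((k g : ℝ) : ℂ) * f x) μ := intg μ (hkc'.mul continuous_const)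
    have i4 : Integrable (fun g => c (0, g) * f (g⁻¹ • x)) μ := intg μ (hcc.mul hf)
    rw [← integral_add i1 i2]
    have e2 : ∫ g, ((k g : ℝ) : ℂ) ∂μ = 1 := by
      rw [integral_complex_ofReal, hk1, Complex.ofReal_one]
    have e3 : f x = ∫ g, ((k g : ℝ) : ℂ) * f x ∂μ := by
      rw [integral_mul_const, e2, one_mul]
    conv_lhs => rw [e3]
    rw [← integral_sub i3 i4]
    refine integral_congr_ae (Eventually.of_forall fun g => ?_)
    show ((k g : ℝ) : ℂ) * f x - c (0, g) * f (g⁻¹ • x) = ((k g : ℝ) : ℂ) * (f x - f (g⁻¹ • x)) + (((k g : ℝ) : ℂ) - c (0, g)) * f (g⁻¹ • x)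
    ring
  rw [e1]
  refine (norm_add_le _ _).trans ?_
  have b1 : ‖∫ g, ((k g : ℝ) : ℂ) * (f x - f (g⁻¹ • x)) ∂μ‖ ≤ ε / 2 := by
    have h1 : ∀ g, ‖((k g : ℝ) : ℂ) * (f x - f (g⁻¹ • x))‖ ≤ k g * (ε / 2) := by
      intro g
      rw [norm_mul, Complex.norm_real, Real.norm_eq_abs, abs_of_nonneg (hk0 g)]
      by_cases hg : g ∈ {g : G | ∀ x, ‖f (g⁻¹ • x) - f x‖ ≤ ε / 2}
      · refine mul_le_mul_of_nonneg_left ?_ (hk0 g)
        rw [norm_sub_rev]
        exact hg x
      · rw [hkU g hg, zero_mul, zero_mul]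
    have hi : Integrable (fun g => k g * (ε / 2)) μ :=
      (k.continuous.mul continuous_const).integrable_of_hasCompactSupport (HasCompactSupport.of_compactSpace _)
    refine (norm_integral_le_of_norm_le hi (Eventually.of_forall h1)).trans ?_
    rw [integral_mul_const, hk1, one_mul]
  have b2 : ‖∫ g, (((k g : ℝ) : ℂ) - c (0, g)) * f (g⁻¹ • x) ∂μ‖ ≤ ε / 2 := by
    refine (norm_integral_le_of_norm_le_const (C := ε / (2 * (M + 1)) * M) (Eventually.of_forall fun g => ?_)).trans ?_
    · rw [norm_mul]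
      refine mul_le_mul (hc (0, g)) (f.norm_coe_le_norm _) (norm_nonneg _) (by positivity)
    · simp only [probReal_univ, mul_one]
      have : ε / (2 * (M + 1)) * M = ε / 2 * (M / (M + 1)) := by
        field_simp
      rw [this]
      refine mul_le_of_le_one_right (by positivity) ?_
      rw [div_le_one (by positivity)]
      linarith
  linarith

end

end Pool.Agent.Lib.MP_9fe581_an.HX
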