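import Mathlib

/-!
# HX: the inverse square root of a continuous positive definite matrix function
-/

set_option autoImplicit false

open Finset Filter Topology
open scoped ComplexConjugate Matrix ComplexOrder

namespace Pool.Agent.Lib.MP_9fe581_an.HX

open scoped Matrix.Norms.L2Operator MatrixOrder in
private theorem is_aux {X : Type} [TopologicalSpace X] [CompactSpace X] {n : ℕ} (M : X → Matrix (Fin n) (Fin n) ℂ) (hM : Continuous M)
    (hpos : ∀ x, (M x).PosDef) : ∃ R : X → Matrix (Fin n) (Fin n) ℂ, Continuous R ∧ (∀ x, (R x)ᴴ = R x) ∧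
      (∀ x, R x * M x * R x = 1) ∧
      ∀ (x x' : X) (U : Matrix (Fin n) (Fin n) ℂ), U * Uᴴ = 1 → M x' = U * M x * Uᴴ → R x' = U * R x * Uᴴ := by
  have hsa : ∀ x, IsSelfAdjoint (M x) := fun x => (hpos x).isHermitian
  have hsp : ∀ x, ∀ t ∈ spectrum ℝ (M x), 0 < t := fun x t ht =>
    (hpos x).isStrictlyPositive.spectrum_pos ht
  set f : ℝ → ℝ := fun t => (√t)⁻¹ with hf_def
  have hf : ContinuousOn f (Set.Ioi 0) := by
    refine ContinuousOn.inv₀ Real.continuous_sqrt.continuousOn fun t ht => ?_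
    exact (Real.sqrt_pos.mpr ht).ne'
  have hfs : ∀ x, ContinuousOn f (spectrum ℝ (M x)) := fun x => hf.mono fun t ht => hsp x t ht
  refine ⟨fun x => cfc f (M x), ?_, fun x => ?_, fun x => ?_, fun x x' U hU hx => ?_⟩
  · refine Continuous.cfc_of_mem_nhdsSet (s := Set.Ioi 0) f ?_ hM hsa hf
    refine isOpen_Ioi.mem_nhdsSet.mpr ?_
    intro t ht
    obtain ⟨x, hx⟩ := Set.mem_iUnion.mp ht
    exact hsp x t hx
  · exact cfc_predicate f (M x)
  · have h1 : M x = cfc (fun t : ℝ => t) (M x) := (cfc_id' ℝ (M x) (hsa x)).symm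
    have h2 : cfc f (M x) * M x * cfc f (M x) = cfc (fun t => f t * t * f t) (M x) := by
      conv_lhs => rw [h1]
      have hc : cfc f (cfc (fun t : ℝ => t) (M x)) = cfc f (M x) := by rw [← h1]
      rw [hc, ← cfc_mul f (fun t => t) (M x) (hfs x) continuousOn_id,
        ← cfc_mul (fun t => f t * t) f (M x) ((hfs x).mul continuousOn_id) (hfs x)]
    rw [h2]
    have h3 : cfc (fun t => f t * t * f t) (M x) = cfc (fun _ => (1 : ℝ)) (M x) := by
      refine cfc_congr fun t ht => ?_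
      have ht0 := hsp x t ht
      have hs : 0 < √t := Real.sqrt_pos.mpr ht0
      simp only [hf_def]
      have : t = √t * √t := (Real.mul_self_sqrt ht0.le).symm
      field_simp
      rw [sq, ← this]
    rw [h3, cfc_const_one ℝ (M x) (hsa x)]
  · have hU' : Uᴴ * U = 1 := mul_eq_one_comm.mp hU
    let u : unitary (Matrix (Fin n) (Fin n) ℂ) := ⟨U, by
      rw [Unitary.mem_iff]
      exact ⟨hU', hU⟩⟩
    have h1 := StarAlgHomClass.map_cfc (S := ℂ) (R := ℝ) (Unitary.conjStarAlgAut ℂ (Matrix (Fin n) (Fin n) ℂ) u) f (M x)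
      (hfs x) (by
        have : (fun y => Unitary.conjStarAlgAut ℂ (Matrix (Fin n) (Fin n) ℂ) u y) = fun y => U * y * Uᴴ := rfl
        show Continuous (fun y => Unitary.conjStarAlgAut ℂ (Matrix (Fin n) (Fin n) ℂ) u y)
        rw [this]
        fun_prop) (hsa x) (by
        show IsSelfAdjoint (U * M x * Uᴴ)
        rw [← hx]
        exact hsa x')
    simp only [Unitary.conjStarAlgAut_apply] at h1
    show cfc f (M x') = U * cfc f (M x) * Uᴴ
    rw [hx]
    exact h1.symm

theorem inv_sqrt {X : Type} [TopologicalSpace X] [CompactSpace X] {n : ℕ} (M : X → Matrix (Fin n) (Fin n) ℂ) (hM : Continuous M)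
    (hpos : ∀ x, (M x).PosDef) : ∃ R : X → Matrix (Fin n) (Fin n) ℂ, Continuous R ∧ (∀ x, (R x)ᴴ = R x) ∧
      (∀ x, R x * M x * R x = 1) ∧
      ∀ (x x' : X) (U : Matrix (Fin n) (Fin n) ℂ), U * Uᴴ = 1 → M x' = U * M x * Uᴴ → R x' = U * R x * Uᴴ :=
  is_aux M hM hpos

end Pool.Agent.Lib.MP_9fe581_an.HX
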