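import Pool.Agent.Lib.MP_9fe581_an.HX.Local
import Pool.Agent.Lib.MP_9fe581_an.HX.InvSqrt

/-!
# HX, B2c: an equivariant isometric frame
-/

set_option autoImplicit false

open Finset MeasureTheory Filter Topology UnitAddTorus
open scoped ComplexConjugate Matrix ComplexOrder

namespace Pool.Agent.Lib.MP_9fe581_an.HX

open Pool.Agent.Lib.MP_9fe581_an.HD

section grp

variable {X : Type} [TopologicalSpace X] [CompactSpace X] [T2Space X] {G : Type} [Group G] [TopologicalSpace G]
  [IsTopologicalGroup G] [CompactSpace G] [T2Space G] [MulAction G X] [ContinuousSMul G X]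

theorem frame (hfree : ∀ (g : G) (x : X), g • x = x → g = 1) {n : ℕ} {π : G → Matrix (Fin n) (Fin n) ℂ} (hπ : URep π) :
    ∃ (m : ℕ) (Φ : X → Matrix (Fin m) (Fin n) ℂ), Continuous Φ ∧ (∀ g x, Φ (g • x) = Φ x * (π g)ᴴ) ∧
      ∀ x, (Φ x)ᴴ * Φ x = 1 := by
  classical
  choose F hFc hFe hFd using fun x0 : X => local_frame (X := X) hfree hπ x0
  -- finite cover
  obtain ⟨t, ht⟩ := isCompact_univ.elim_finite_subcover (fun a : X => {x : X | (F a x).det ≠ 0})
    (fun a => isOpen_ne.preimage (Continuous.matrix_det (hFc a)))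
    (fun x _ => Set.mem_iUnion.2 ⟨x, (hFd x).ne_zero⟩)
  have ht' : ∀ x : X, ∃ a ∈ t, (F a x).det ≠ 0 := by
    intro x
    have := ht (Set.mem_univ x)
    simpa using this
  set M : X → Matrix (Fin n) (Fin n) ℂ := fun x => ∑ a ∈ t, F a x * (F a x)ᴴ with hMdef
  have hMc : Continuous M := continuous_finsetSum _ fun a _ => (hFc a).mul (hFc a).matrix_conjTranspose
  have hπ' : ∀ g, (π g)ᴴ * π g = 1 := fun g => mul_eq_one_comm.mp (hπ.uni g)
  have hMe : ∀ g x, M (g • x) = π g * M x * (π g)ᴴ := by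
    intro g x
    simp only [hMdef]
    rw [Finset.mul_sum, Finset.sum_mul]
    refine Finset.sum_congr rfl fun a _ => ?_
    rw [hFe, Matrix.conjTranspose_mul, Matrix.mul_assoc, Matrix.mul_assoc, Matrix.mul_assoc]
  have hpos : ∀ x, (M x).PosDef := by
    intro x
    obtain ⟨a, ha, hd⟩ := ht' x
    simp only [hMdef]
    rw [← Finset.add_sum_erase t _ ha]
    refine Matrix.PosDef.add_posSemidef ?_ ?_
    · have hu : IsUnit (F a x) := by
        rw [Matrix.isUnit_iff_isUnit_det]
        exact isUnit_iff_ne_zero.2 hd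
      have := (Matrix.PosDef.one (n := Fin n) (R := ℂ)).mul_mul_conjTranspose_same (B := F a x)
        (Matrix.vecMul_injective_of_isUnit hu)
      simpa using this
    · exact Matrix.posSemidef_sum _ fun b _ => Matrix.posSemidef_self_mul_conjTranspose _
  obtain ⟨R, hRc, hRH, hRM, hRe⟩ := inv_sqrt M hMc hpos
  let e := Fintype.equivFin (t × Fin n)
  refine ⟨Fintype.card (t × Fin n), fun x => Matrix.of fun k j => ((F (e.symm k).1 x)ᴴ * R x) (e.symm k).2 j, ?_, ?_, ?_⟩
  · refine continuous_matrix fun k j => ?_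
    exact (((hFc _).matrix_conjTranspose).mul hRc).matrix_elem _ _
  · intro g x
    ext k j
    show ((F (e.symm k).1 (g • x))ᴴ * R (g • x)) (e.symm k).2 j = _
    rw [hRe x (g • x) (π g) (hπ.uni g) (hMe g x), hFe, Matrix.conjTranspose_mul]
    have h1 : (F (e.symm k).1 x)ᴴ * (π g)ᴴ * (π g * R x * (π g)ᴴ) = ((F (e.symm k).1 x)ᴴ * R x) * (π g)ᴴ := by
      calc (F (e.symm k).1 x)ᴴ * (π g)ᴴ * (π g * R x * (π g)ᴴ)
          = (F (e.symm k).1 x)ᴴ * ((π g)ᴴ * π g) * R x * (π g)ᴴ := by simp only [Matrix.mul_assoc]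
        _ = _ := by rw [hπ', Matrix.mul_one]
    rw [h1, Matrix.mul_apply, Matrix.mul_apply]
    rfl
  · intro x
    have h1 : ∀ i j : Fin n, (∑ k : Fin (Fintype.card (t × Fin n)),
        star (((F (e.symm k).1 x)ᴴ * R x) (e.symm k).2 i) * (((F (e.symm k).1 x)ᴴ * R x) (e.symm k).2 j))
        = (R x * M x * R x) i j := by
      intro i j
      rw [Equiv.sum_comp e.symm (fun p : t × Fin n => star (((F p.1 x)ᴴ * R x) p.2 i) * (((F p.1 x)ᴴ * R x) p.2 j))]
      rw [Fintype.sum_prod_type]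
      have h2 : ∀ a : t, (∑ l : Fin n, star (((F a x)ᴴ * R x) l i) * (((F a x)ᴴ * R x) l j))
          = (R x * (F a x * (F a x)ᴴ) * R x) i j := by
        intro a
        have h3 : R x * (F a x * (F a x)ᴴ) * R x = ((F a x)ᴴ * R x)ᴴ * ((F a x)ᴴ * R x) := by
          rw [Matrix.conjTranspose_mul, Matrix.conjTranspose_conjTranspose, hRH]
          simp only [Matrix.mul_assoc]
        rw [h3, Matrix.mul_apply]
        rfl
      rw [Finset.sum_congr rfl fun a _ => h2 a]
      simp only [hMdef]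
      rw [Finset.mul_sum, Finset.sum_mul, Matrix.sum_apply]
      exact Finset.sum_coe_sort t (fun a => (R x * (F a x * (F a x)ᴴ) * R x) i j)
    ext i j
    rw [← hRM x, ← h1 i j, Matrix.mul_apply]
    rfl

end grp

end Pool.Agent.Lib.MP_9fe581_an.HX
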