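import Mathlib

/-!
# HX / Quot (row B3): a continuous function constant on the fibres of a continuous surjection of a compact space onto a
Hausdorff space descends
-/

set_option autoImplicit false

namespace Pool.Agent.Lib.MP_9fe581_an.HX

theorem descend {X Y W : Type} [TopologicalSpace X] [CompactSpace X] [TopologicalSpace Y] [T2Space Y] [TopologicalSpace W]
    (p : X → Y) (hp : Continuous p) (hps : Function.Surjective p) (f : X → W) (hf : Continuous f)
    (hfib : ∀ x x', p x = p x' → f x = f x') : ∃ f' : Y → W, Continuous f' ∧ ∀ x, f' (p x) = f x := by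
  have hq : Topology.IsQuotientMap p := hp.isClosedMap.isQuotientMap hp hps
  have hfp : ∀ x, f (Function.surjInv hps (p x)) = f x := fun x => hfib _ _ (Function.surjInv_eq hps (p x))
  refine ⟨fun y => f (Function.surjInv hps y), ?_, hfp⟩
  rw [hq.continuous_iff]
  have h : (fun y => f (Function.surjInv hps y)) ∘ p = f := funext hfp
  rw [h]
  exact hf

end Pool.Agent.Lib.MP_9fe581_an.HX
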