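import Pool.Agent.Lib.MP_9fe581_an.HX.Halmos
import Pool.Agent.Lib.MP_9fe581_an.HX.Quot
import Pool.Agent.Lib.MP_9fe581_an.HX.Frame
import Pool.Agent.Lib.MP_9fe581_an.HX.EqDense

/-!
# HX / Bundle: non-product extensions

`A (p x) = Φ (T x) (Φ x)ᴴ`, `P (p x) = Φ x (Φ x)ᴴ`, `D (p x) = V x (Φ x)ᴴ`: `V (T^n x) = D (S^n (p x)) A_n (p x) P (p x) Φ x`.
-/

set_option autoImplicit false

open Finset MeasureTheory Filter Topology UnitAddTorus
open scoped ComplexConjugate Matrix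

namespace Pool.Agent.Lib.MP_9fe581_an.HX

open Pool.Agent.Lib.MP_9fe581_an.HD

variable {X : Type} [TopologicalSpace X] [CompactSpace X] [T2Space X] {G : Type} [Group G] [TopologicalSpace G]
  [IsTopologicalGroup G] [CompactSpace G] [T2Space G] [MulAction G X] [ContinuousSMul G X]

private theorem entry_le {m n : ℕ} (Φ : Matrix (Fin m) (Fin n) ℂ) (h : Φᴴ * Φ = 1) (l : Fin m) (j : Fin n) : ‖Φ l j‖ ≤ 1 := by
  have h1 := congrFun (congrFun h j) j
  rw [Matrix.mul_apply, Matrix.one_apply_eq] at h1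
  have h2 : ∀ a, (Φᴴ j a) * Φ a j = ((‖Φ a j‖ ^ 2 : ℝ) : ℂ) := by
    intro a
    rw [Matrix.conjTranspose_apply, ← Complex.normSq_eq_norm_sq, ← Complex.mul_conj, mul_comm]
    rfl
  rw [sum_congr rfl fun a _ => h2 a, ← Complex.ofReal_sum] at h1
  have h3 : ∑ a, ‖Φ a j‖ ^ 2 = 1 := by exact_mod_cast h1
  have h4 : ‖Φ l j‖ ^ 2 ≤ 1 := by
    rw [← h3]
    exact single_le_sum (f := fun a => ‖Φ a j‖ ^ 2) (fun a _ => by positivity) (mem_univ l)
  exact (sq_le_one_iff₀ (norm_nonneg _)).mp h4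

private theorem equiv_orth {Y : Type} [TopologicalSpace Y] [T2Space Y] {S : Y → Y} {u : ℕ → ℂ} {Z : Set Y}
    (hc : CocOrthY S u Z) (hS : Continuous S) (hfree : ∀ (g : G) (x : X), g • x = x → g = 1)
    {T : X → X} (hT : Continuous T) (hTG : ∀ (g : G) (x : X), T (g • x) = g • T x) {p : X → Y} (hp : Continuous p)
    (hps : Function.Surjective p) (hpT : ∀ x, p (T x) = S (p x)) (hfib : ∀ x x' : X, p x = p x' → ∃ g : G, x' = g • x)
    {n : ℕ} {π : G → Matrix (Fin n) (Fin n) ℂ} (hπ : URep π) {V : X → Matrix (Fin n) (Fin n) ℂ} (hV : Continuous V)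
    (hVg : ∀ g x, V (g • x) = V x * (π g)ᴴ) (i j : Fin n) : OrthOn T (fun x => V x i j) u (p ⁻¹' Z) := by
  obtain ⟨m, Φ, hΦ, hΦg, hΦΦ⟩ := frame hfree hπ
  have hππ : ∀ g, (π g)ᴴ * π g = 1 := fun g => mul_eq_one_comm.mp (hπ.uni g)
  have hcan : ∀ {a b : ℕ} (g : G) (M : Matrix (Fin a) (Fin n) ℂ) (N : Matrix (Fin b) (Fin n) ℂ),
      M * (π g)ᴴ * (N * (π g)ᴴ)ᴴ = M * Nᴴ := by
    intro a b g M N
    rw [Matrix.conjTranspose_mul, Matrix.conjTranspose_conjTranspose, Matrix.mul_assoc, ← Matrix.mul_assoc _ (π g),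
      hππ, Matrix.one_mul]
  have hdesc : ∀ {a b : ℕ} (f : X → Matrix (Fin a) (Fin b) ℂ), Continuous f → (∀ (g : G) x, f (g • x) = f x) →
      ∃ f' : Y → Matrix (Fin a) (Fin b) ℂ, Continuous f' ∧ ∀ x, f' (p x) = f x := by
    intro a b f hf hfg
    refine descend p hp hps f hf fun x x' hxx => ?_
    obtain ⟨g, rfl⟩ := hfib x x' hxx
    exact (hfg g x).symm
  obtain ⟨A, hA, hAp⟩ := hdesc (fun x => Φ (T x) * (Φ x)ᴴ) ((hΦ.comp hT).matrix_mul hΦ.matrix_conjTranspose) (fun g x => by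
    rw [hTG, hΦg, hΦg, hcan])
  obtain ⟨P, hP, hPp⟩ := hdesc (fun x => Φ x * (Φ x)ᴴ) (hΦ.matrix_mul hΦ.matrix_conjTranspose) (fun g x => by
    rw [hΦg, hcan])
  obtain ⟨D, hD, hDp⟩ := hdesc (fun x => V x * (Φ x)ᴴ) (hV.matrix_mul hΦ.matrix_conjTranspose) (fun g x => by
    rw [hVg, hΦg, hcan])
  have hPH : ∀ y, (P y)ᴴ = P y := by
    intro y
    obtain ⟨x, rfl⟩ := hps y
    rw [hPp, Matrix.conjTranspose_mul, Matrix.conjTranspose_conjTranspose]
  have hPP : ∀ y, P y * P y = P y := by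
    intro y
    obtain ⟨x, rfl⟩ := hps y
    rw [hPp, Matrix.mul_assoc, ← Matrix.mul_assoc _ (Φ x), hΦΦ, Matrix.one_mul]
  have h1 : ∀ y, A y * (A y)ᴴ = P (S y) := by
    intro y
    obtain ⟨x, rfl⟩ := hps y
    rw [hAp, ← hpT, hPp, Matrix.conjTranspose_mul, Matrix.conjTranspose_conjTranspose, Matrix.mul_assoc,
      ← Matrix.mul_assoc _ (Φ x), hΦΦ, Matrix.one_mul]
  have h2 : ∀ y, (A y)ᴴ * A y = P y := by
    intro y
    obtain ⟨x, rfl⟩ := hps y
    rw [hAp, hPp, Matrix.conjTranspose_mul, Matrix.conjTranspose_conjTranspose, Matrix.mul_assoc,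
      ← Matrix.mul_assoc _ (Φ (T x)), hΦΦ, Matrix.one_mul]
  have hpTn : ∀ k x, p (T^[k] x) = S^[k] (p x) := by
    intro k x
    induction k with
    | zero => rfl
    | succ k ih => rw [Function.iterate_succ_apply', Function.iterate_succ_apply', hpT, ih]
  have hcp : ∀ k x, cpS S A k (p x) * P (p x) = Φ (T^[k] x) * (Φ x)ᴴ := by
    intro k x
    induction k with
    | zero =>
      change (1 : Matrix (Fin m) (Fin m) ℂ) * P (p x) = _
      rw [Matrix.one_mul, hPp]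
      rfl
    | succ k ih =>
      change A (S^[k] (p x)) * cpS S A k (p x) * P (p x) = _
      rw [Matrix.mul_assoc, ih, ← hpTn, hAp, Function.iterate_succ_apply', Matrix.mul_assoc,
        ← Matrix.mul_assoc _ (Φ (T^[k] x)), hΦΦ, Matrix.one_mul]
  have hVn : ∀ k x, V (T^[k] x) = D (S^[k] (p x)) * cpS S A k (p x) * P (p x) * Φ x := by
    intro k x
    rw [Matrix.mul_assoc (D _), hcp, ← hpTn, hDp, Matrix.mul_assoc (V _), ← Matrix.mul_assoc _ (Φ (T^[k] x)), hΦΦ,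
      Matrix.one_mul, Matrix.mul_assoc, hΦΦ, Matrix.mul_one]
  intro ε hε
  obtain ⟨N0, hN0⟩ := halmos hc hS P A hP hA hPH hPP h1 h2 D hD (ε / (m + 1)) (by positivity)
  refine ⟨N0, fun N hN x hx => ?_⟩
  have e1 : ∑ k ∈ Icc 1 N, u k * V (T^[k] x) i j =
      ∑ l, (∑ k ∈ Icc 1 N, u k * (D (S^[k] (p x)) * cpS S A k (p x) * P (p x)) i l) * Φ x l j := by
    rw [sum_congr rfl fun l _ => sum_mul _ _ _, sum_comm]
    refine sum_congr rfl fun k _ => ?_
    rw [hVn, Matrix.mul_apply, mul_sum]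
    exact sum_congr rfl fun l _ => (mul_assoc _ _ _).symm
  rw [e1]
  refine (norm_sum_le _ _).trans ?_
  have e2 : ∀ l ∈ (univ : Finset (Fin m)), ‖(∑ k ∈ Icc 1 N, u k * (D (S^[k] (p x)) * cpS S A k (p x) * P (p x)) i l) * Φ x l j‖ ≤
      ε / (m + 1) * N := by
    intro l _
    rw [norm_mul]
    refine (mul_le_mul (hN0 N hN (p x) hx i l) (entry_le (Φ x) (hΦΦ x) l j) (norm_nonneg _) (by positivity)).trans ?_
    rw [mul_one]
  refine (sum_le_sum e2).trans ?_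
  rw [sum_const, card_univ, Fintype.card_fin, nsmul_eq_mul]
  have e3 : (m : ℝ) * (ε / (m + 1) * N) = ε * N * (m / (m + 1)) := by
    field_simp
  rw [e3]
  refine mul_le_of_le_one_right (by positivity) ?_
  rw [div_le_one (by positivity)]
  linarith

theorem bundle_ext {Y : Type} [TopologicalSpace Y] [T2Space Y] {S : Y → Y} {u : ℕ → ℂ} {Z : Set Y}
    (hc : CocOrthY S u Z) (hS : Continuous S) (hu : ∀ n, ‖u n‖ ≤ 1) (hfree : ∀ (g : G) (x : X), g • x = x → g = 1)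
    {T : X → X} (hT : Continuous T) (hTG : ∀ (g : G) (x : X), T (g • x) = g • T x) {p : X → Y} (hp : Continuous p)
    (hps : Function.Surjective p) (hpT : ∀ x, p (T x) = S (p x)) (hfib : ∀ x x' : X, p x = p x' → ∃ g : G, x' = g • x)
    (hfib' : ∀ (g : G) (x : X), p (g • x) = p x) (f : C(X, ℂ)) : OrthOn T f u (p ⁻¹' Z) := by
  have _ := hfib'
  refine po_approx hu fun ε hε => ?_
  obtain ⟨g, hg, hgs⟩ := eq_dense (G := G) f ε hε
  refine ⟨g, hg, ?_⟩
  clear hg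
  induction hgs using Submodule.span_induction with
  | mem h hh =>
    obtain ⟨n, π, V, hπ, hV, hVg, i, j, rfl⟩ := hh
    exact equiv_orth hc hS hfree hT hTG hp hps hpT hfib hπ hV hVg i j
  | zero => exact po_zero
  | add a b _ _ ha hb => exact po_add ha hb
  | smul c a _ ha => exact po_smul ha c

end Pool.Agent.Lib.MP_9fe581_an.HX
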