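import Pool.Agent.Lib.MP_9fe581_an.HX.Defs

/-!
# HX U3a: levels of characters
-/

set_option autoImplicit false

open Finset MeasureTheory Filter Topology UnitAddTorus
open scoped ComplexConjugate Matrix

namespace Pool.Agent.Lib.MP_9fe581_an.HX

open Pool.Agent.Lib.MP_9fe581_an.HD

variable {D : ℕ} {N : Matrix (Fin D) (Fin D) ℤ}

private theorem u3_zero (M : Matrix (Fin D) (Fin D) ℤ) : ad M 0 = 0 := Matrix.zero_vecMul M

private theorem u3_mul (M N : Matrix (Fin D) (Fin D) ℤ) (a : Fin D → ℤ) :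
    ad (M * N) a = ad N (ad M a) := (Matrix.vecMul_vecMul a M N).symm

private theorem u3_ne (hN : IsNilpotent N) (a : Fin D → ℤ) : {k | ad (N ^ k) a = 0}.Nonempty := by
  obtain ⟨k, hk⟩ := hN
  exact ⟨k, by
    show ad (N ^ k) a = 0
    rw [hk]
    exact Matrix.vecMul_zero a⟩

private theorem u3_mem (hN : IsNilpotent N) (a : Fin D → ℤ) : ad (N ^ lev N a) a = 0 :=
  Nat.sInf_mem (u3_ne hN a)

theorem lev_zero : lev N 0 = 0 :=
  Nat.sInf_eq_zero.2 (Or.inl (u3_zero _))

theorem led_zero : led N 0 = 0 := u3_zero _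

theorem lev_pos (hN : IsNilpotent N) {a : Fin D → ℤ} (ha : a ≠ 0) : 1 ≤ lev N a := by
  by_contra hcon
  have h0 : lev N a = 0 := by omega
  have h1 := u3_mem hN a
  rw [h0, pow_zero] at h1
  exact ha ((Matrix.vecMul_one a).symm.trans h1)

theorem led_ne (hN : IsNilpotent N) {a : Fin D → ℤ} (ha : a ≠ 0) : led N a ≠ 0 := by
  intro h
  have h1 : lev N a ≤ lev N a - 1 := Nat.sInf_le h
  have := lev_pos hN ha
  omega

theorem ad_led (hN : IsNilpotent N) (a : Fin D → ℤ) : ad N (led N a) = 0 := by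
  by_cases ha : a = 0
  · rw [ha, led_zero]
    exact u3_zero _
  · have h1 := lev_pos hN ha
    have h2 : N ^ (lev N a - 1) * N = N ^ lev N a := by
      rw [← pow_succ, Nat.sub_add_cancel h1]
    rw [led, ← u3_mul, h2]
    exact u3_mem hN a

theorem ad_lev (hN : IsNilpotent N) (a : Fin D → ℤ) (k : ℕ) :
    ad (N ^ k) a = 0 ↔ lev N a ≤ k := by
  refine ⟨fun h => Nat.sInf_le h, fun h => ?_⟩
  have h2 : N ^ lev N a * N ^ (k - lev N a) = N ^ k := by
    rw [← pow_add, Nat.add_sub_cancel' h]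
  rw [← h2, u3_mul, u3_mem hN a]
  exact u3_zero _

end Pool.Agent.Lib.MP_9fe581_an.HX
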