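import Pool.Agent.Lib.MP_9fe581_an.HX.Defs
import Pool.Agent.Lib.MP_9fe581_an.HX.Act
import Pool.Agent.Lib.MP_9fe581_an.HX.Lev
import Pool.Agent.Lib.MP_9fe581_an.HD.Equi

/-!
# HX, module G3: the families of the characters of the base; ergodicity gives irrationality
-/

set_option autoImplicit false

open Finset MeasureTheory Filter Topology UnitAddTorus
open scoped ComplexConjugate Matrix

namespace Pool.Agent.Lib.MP_9fe581_an.HX

open Pool.Agent.Lib.MP_9fe581_an.HD

variable {D : ℕ} {G : Type} [Group G] [TopologicalSpace G] [IsTopologicalGroup G]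
  [CompactSpace G] [T2Space G] [SecondCountableTopology G] [MeasurableSpace G] [BorelSpace G]
  {μ : Measure G} [μ.IsHaarMeasure] [IsProbabilityMeasure μ] {S : Td D → Td D} {φ : Td D → G}

/-- nontrivial characters have integral `0` -/
private theorem cs_int {k : Fin D → ℤ} (hk : k ≠ 0) : ∫ t, mFourier k t ∂mT D = 0 := by
  obtain ⟨i, hi⟩ := Function.ne_iff.1 hk
  have hi0 : k i ≠ 0 := hi
  set s : Td D := Pi.single i (((1 / (2 * (k i : ℝ)) : ℝ)) : UnitAddCircle) with hs
  refine eq_mF_int k s ?_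
  have h1 : mFourier k s = fourier (k i) (((1 / (2 * (k i : ℝ)) : ℝ)) : UnitAddCircle) := by
    simp only [mFourier, ContinuousMap.coe_mk]
    rw [Finset.prod_eq_single i]
    · rw [hs, Pi.single_eq_same]
    · intro j _ hj
      rw [hs, Pi.single_eq_of_ne hj]
      simp [fourier_apply]
    · intro h
      exact absurd (Finset.mem_univ i) h
  rw [h1, fourier_coe_apply]
  have h2 : (2 * (Real.pi : ℂ) * Complex.I * (k i : ℂ) * ((1 / (2 * (k i : ℝ)) : ℝ) : ℂ) / ((1 : ℝ) : ℂ)) =
      Real.pi * Complex.I := by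
    have h3 : ((k i : ℤ) : ℂ) ≠ 0 := by exact_mod_cast hi0
    push_cast
    field_simp
  rw [h2, Complex.exp_pi_mul_I]
  norm_num

private theorem cs_step (N : Matrix (Fin D) (Fin D) ℤ) (β : Td D) (b : Fin D → ℤ) (x : Td D) :
    mFourier b (uS N β x) = mFourier b β * mFourier (ad (1 + N) b) x := by
  have h1 : ad (1 + N) b = b + ad N b := by
    unfold ad
    rw [Matrix.vecMul_add, Matrix.vecMul_one]
  rw [h1, mFourier_add, uS, eq_mF_add, eq_mF_add, mF_act]
  ring

/-- the characters along the orbits -/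
private theorem cs_orbit (N : Matrix (Fin D) (Fin D) ℤ) (β : Td D) (a : Fin D → ℤ) (n : ℕ) :
    ∃ c : ℂ, ‖c‖ = 1 ∧ ∀ x, mFourier a ((uS N β)^[n] x) = c * mFourier (ad ((1 + N) ^ n) a) x := by
  induction n with
  | zero =>
    refine ⟨1, norm_one, fun x => ?_⟩
    rw [Function.iterate_zero_apply, pow_zero, one_mul]
    unfold ad
    rw [Matrix.vecMul_one]
  | succ n ih =>
    obtain ⟨c, hc, h⟩ := ih
    refine ⟨c * mFourier (ad ((1 + N) ^ n) a) β, ?_, fun x => ?_⟩
    · rw [norm_mul, hc, one_mul, eq_mF_norm]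
    · rw [Function.iterate_succ_apply, h, cs_step, ← mul_assoc]
      congr 2
      unfold ad
      rw [Matrix.vecMul_vecMul, ← pow_succ]

/-- an invariant character -/
private theorem cs_inv (N : Matrix (Fin D) (Fin D) ℤ) (β : Td D) (a : Fin D → ℤ) (ha : ad N a = 0)
    (n : ℕ) (x : Td D) : mFourier a ((uS N β)^[n] x) = mFourier a β ^ n * mFourier a x := by
  induction n generalizing x with
  | zero => rw [Function.iterate_zero_apply, pow_zero, one_mul]
  | succ n ih =>
    rw [Function.iterate_succ_apply, ih, cs_step]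
    have h1 : ad (1 + N) a = a := by
      have h2 : ad (1 + N) a = a + ad N a := by
        unfold ad
        rw [Matrix.vecMul_add, Matrix.vecMul_one]
      rw [h2, ha, add_zero]
    rw [h1]
    ring

/-- if `N` does not kill `a`, then `a` is moved by all positive powers of `1 + N` -/
private theorem cs_move {N : Matrix (Fin D) (Fin D) ℤ} (hN : IsNilpotent N) {a : Fin D → ℤ}
    (ha : ad N a ≠ 0) (n : ℕ) (hn : 1 ≤ n) : ad ((1 + N) ^ n) a ≠ a := by
  intro h
  have ha0 : a ≠ 0 := by
    rintro rfl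
    exact ha (Matrix.zero_vecMul N)
  have hl1 : 1 ≤ lev N a := lev_pos hN ha0
  have hl2 : 2 ≤ lev N a := by
    by_contra hlt
    have h1 : lev N a ≤ 1 := by omega
    have h2 := (ad_lev hN a 1).2 h1
    rw [pow_one] at h2
    exact ha h2
  obtain ⟨k, hk⟩ : ∃ k, lev N a = k + 2 := ⟨lev N a - 2, by omega⟩
  -- apply `N ^ k`
  have hmod : ∃ R : Matrix (Fin D) (Fin D) ℤ, (1 + N) ^ n = 1 + (n : ℤ) • N + N ^ 2 * R ∧
      Commute N R := by
    clear h hn
    induction n with
    | zero => exact ⟨0, by simp, Commute.zero_right N⟩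
    | succ n ih =>
      obtain ⟨R, hR, hc⟩ := ih
      refine ⟨R + R * N + (n : ℤ) • 1, ?_, ?_⟩
      · rw [pow_succ, hR]
        have h1 : N ^ 2 * R * N = N ^ 2 * (R * N) := mul_assoc _ _ _
        have h2 : (n : ℤ) • N * N = N ^ 2 * ((n : ℤ) • 1) := by
          rw [smul_mul_assoc, mul_smul_comm, mul_one, pow_two]
        push_cast
        rw [mul_add, mul_one, add_mul, add_mul, one_mul, h1, h2, mul_add, mul_add, add_smul,
          one_smul]
        abel
      · exact ((hc.add_right (hc.mul_right (Commute.refl N))).add_right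
          ((Commute.one_right N).smul_right (n : ℤ)))
  obtain ⟨R, hR, hc⟩ := hmod
  have h1 : Matrix.vecMul (Matrix.vecMul a (N ^ k)) ((1 + N) ^ n) = Matrix.vecMul a (N ^ k) := by
    have hcomm : Commute (N ^ k) ((1 + N) ^ n) :=
      ((Commute.one_right (N ^ k)).add_right ((Commute.refl N).pow_left k)).pow_right n
    rw [Matrix.vecMul_vecMul, hcomm.eq, ← Matrix.vecMul_vecMul]
    have h' : Matrix.vecMul a ((1 + N) ^ n) = a := h
    rw [h']
  have h2 : Matrix.vecMul (Matrix.vecMul a (N ^ k)) (N ^ 2 * R) = 0 := by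
    have h3 : ad (N ^ (k + 2)) a = 0 := (ad_lev hN a (k + 2)).2 (by omega)
    have h3' : Matrix.vecMul a (N ^ (k + 2)) = 0 := h3
    rw [← Matrix.vecMul_vecMul _ (N ^ 2) R, Matrix.vecMul_vecMul a (N ^ k) (N ^ 2), ← pow_add, h3',
      Matrix.zero_vecMul]
  rw [hR, Matrix.vecMul_add, Matrix.vecMul_add, Matrix.vecMul_one, h2, add_zero] at h1
  have h4 : Matrix.vecMul (Matrix.vecMul a (N ^ k)) ((n : ℤ) • N) = 0 := by
    have := h1
    rwa [add_eq_left] at this
  rw [Matrix.vecMul_smul, Matrix.vecMul_vecMul, ← pow_succ] at h4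
  have h5 : Matrix.vecMul a (N ^ (k + 1)) = 0 := by
    rcases smul_eq_zero.1 h4 with h6 | h6
    · exact absurd h6 (by exact_mod_cast (by omega : n ≠ 0))
    · exact h6
  have h6 := (ad_lev hN a (k + 1)).1 h5
  omega

theorem XC_fam (a : Fin D → ℤ) (hS : Continuous S) :
    Fam S (fun n x => mFourier a (S^[n] x) • (1 : Matrix (Fin 1) (Fin 1) ℂ)) := by
  refine ⟨fun n => ?_, fun n y i j => ?_, fun k y => ⟨1, fun t => ?_, fun l => ⟨?_, ?_⟩⟩⟩
  · exact (((mFourier a).continuous.comp (hS.iterate n)).smul continuous_const)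
  · rw [Matrix.smul_apply, smul_eq_mul, norm_mul, eq_mF_norm, one_mul]
    rw [Subsingleton.elim i j, Matrix.one_apply_eq, norm_one]
  · rw [Finset.sum_eq_single t]
    · simp
    · intro b _ hb
      exact absurd (Subsingleton.elim b t) hb
    · intro h
      exact absurd (Finset.mem_univ t) h
  · rw [mul_one, Function.iterate_add_apply]
  · rw [one_mul, Matrix.conjTranspose_one, mul_one]

private theorem cs_aX (a : Fin D → ℤ) (S : Td D → Td D) (n : ℕ) :
    aX (mT D) (fun n x => mFourier a (S^[n] x) • (1 : Matrix (Fin 1) (Fin 1) ℂ)) n =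
      ∫ x, mFourier a (S^[n] x) * conj (mFourier a x) ∂mT D := by
  unfold aX FF
  refine integral_congr_ae (Eventually.of_forall fun x => ?_)
  simp only [Function.iterate_zero_apply, Matrix.conjTranspose_smul, Matrix.conjTranspose_one,
    smul_mul_assoc, one_mul, Matrix.trace_smul, smul_eq_mul, Matrix.trace_fin_one,
    Matrix.one_apply_eq, mul_one, RCLike.star_def]

theorem XC_noRat {N : Matrix (Fin D) (Fin D) ℤ} {β : Td D} (hN : IsNilpotent N)
    (hirr : ∀ c : Fin D → ℤ, c ≠ 0 → ad N c = 0 → mFourier c β ≠ 1) (a : Fin D → ℤ) (ha : a ≠ 0) :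
    NoRat (aX (mT D) (fun n x => mFourier a ((uS N β)^[n] x) • (1 : Matrix (Fin 1) (Fin 1) ℂ))) := by
  intro b q hq
  by_cases hNa : ad N a = 0
  · -- a power of an irrational number
    set w := mFourier a β with hw
    have hwn : ‖w‖ = 1 := eq_mF_norm _ _
    have h1 : ∀ n, aX (mT D) (fun n x => mFourier a ((uS N β)^[n] x) •
        (1 : Matrix (Fin 1) (Fin 1) ℂ)) n = w ^ n := by
      intro n
      rw [cs_aX]
      have h2 : ∀ x : Td D, mFourier a ((uS N β)^[n] x) * conj (mFourier a x) = w ^ n := by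
        intro x
        rw [cs_inv N β a hNa, mul_assoc, Complex.mul_conj, Complex.normSq_eq_norm_sq, eq_mF_norm]
        simp [hw]
      simp only [h2, integral_const, probReal_univ, one_smul]
    set z := GT.e (-((b : ℝ) / q)) with hz
    have hzq : z ^ q = 1 := by
      rw [hz]
      unfold GT.e
      rw [← Complex.exp_nat_mul, Complex.exp_eq_one_iff]
      refine ⟨-b, ?_⟩
      have hq0 : (q : ℂ) ≠ 0 := by exact_mod_cast hq.ne'
      push_cast
      field_simp
    have hne : w * z ≠ 1 := by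
      intro h
      have h2 : w ^ q = 1 := by
        have h3 : (w * z) ^ q = 1 := by rw [h, one_pow]
        rwa [mul_pow, hzq, mul_one] at h3
      refine hirr ((q : ℤ) • a) ?_ ?_ ?_
      · exact smul_ne_zero (by exact_mod_cast hq.ne') ha
      · unfold ad at hNa ⊢
        rw [Matrix.smul_vecMul, hNa, smul_zero]
      · rw [eq_mF_nmul, ← hw, h2]
    have hzn : ‖z‖ = 1 := by
      rw [hz]
      unfold GT.e
      have : (2 * (Real.pi : ℂ) * ((-((b : ℝ) / q) : ℝ) : ℂ) * Complex.I) =
          ((2 * Real.pi * (-((b : ℝ) / q)) : ℝ) : ℂ) * Complex.I := by push_cast; ring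
      rw [this, Complex.norm_exp_ofReal_mul_I]
    have h3 : ∀ N' : ℕ, ‖(1 / (N' : ℂ)) * ∑ n ∈ Icc 1 N', w ^ n * GT.e (-(n * ((b : ℝ) / q)))‖ ≤
        2 / ‖w * z - 1‖ * (1 / (N' : ℝ)) := by
      intro N'
      have h4 : ∀ n : ℕ, w ^ n * GT.e (-(n * ((b : ℝ) / q))) = (w * z) ^ n := by
        intro n
        rw [mul_pow, hz]
        congr 1
        unfold GT.e
        rw [← Complex.exp_nat_mul]
        congr 1
        push_cast
        ring
      simp only [h4]
      rw [norm_mul, norm_div, norm_one, Complex.norm_natCast, mul_comm]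
      exact mul_le_mul_of_nonneg_right (eq_geom _ hne (by rw [norm_mul, hwn, hzn, one_mul]) N')
        (by positivity)
    have h5 : Tendsto (fun N' : ℕ => 2 / ‖w * z - 1‖ * (1 / (N' : ℝ))) atTop (𝓝 0) := by
      have := (tendsto_one_div_atTop_nhds_zero_nat (𝕜 := ℝ)).const_mul (2 / ‖w * z - 1‖)
      rwa [mul_zero] at this
    simp only [h1]
    exact squeeze_zero_norm h3 h5
  · -- all integrals vanish
    have h1 : ∀ n, 1 ≤ n → aX (mT D) (fun n x => mFourier a ((uS N β)^[n] x) •
        (1 : Matrix (Fin 1) (Fin 1) ℂ)) n = 0 := by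
      intro n hn
      rw [cs_aX]
      obtain ⟨c, _, h2⟩ := cs_orbit N β a n
      have h3 : ∀ x : Td D, mFourier a ((uS N β)^[n] x) * conj (mFourier a x) =
          c * mFourier (ad ((1 + N) ^ n) a + -a) x := by
        intro x
        rw [h2, mFourier_add, mFourier_neg]
        ring
      simp only [h3]
      rw [integral_const_mul, cs_int, mul_zero]
      intro h4
      exact cs_move hN hNa n hn (by
        have := h4
        rwa [← sub_eq_add_neg, sub_eq_zero] at this)
    have h2 : (fun N' : ℕ => (1 / (N' : ℂ)) * ∑ n ∈ Icc 1 N', aX (mT D)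
        (fun n x => mFourier a ((uS N β)^[n] x) • (1 : Matrix (Fin 1) (Fin 1) ℂ)) n *
          GT.e (-(n * ((b : ℝ) / q)))) = fun _ => 0 := by
      funext N'
      rw [Finset.sum_eq_zero, mul_zero]
      intro n hn
      rw [h1 n (Finset.mem_Icc.1 hn).1, zero_mul]
    rw [h2]
    exact tendsto_const_nhds

theorem irr_of_erg {N : Matrix (Fin D) (Fin D) ℤ} {β : Td D} (hφ : Continuous φ)
    (hT : Ergodic (skewS (uS N β) φ) ((mT D).prod μ)) :
    ∀ c : Fin D → ℤ, c ≠ 0 → ad N c = 0 → mFourier c β ≠ 1 := by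
  have _ := hφ
  intro c hc hNc h1
  have hinv : (fun z : Td D × G => mFourier c z.1) ∘ skewS (uS N β) φ =ᵐ[(mT D).prod μ]
      fun z : Td D × G => mFourier c z.1 := by
    refine Eventually.of_forall fun z => ?_
    have h2 := cs_inv N β c hNc 1 z.1
    rw [Function.iterate_one, pow_one, h1, one_mul] at h2
    exact h2
  have hcont : Continuous fun z : Td D × G => mFourier c z.1 :=
    (mFourier c).continuous.comp continuous_fst
  obtain ⟨d, hd⟩ := hT.ae_eq_const_of_ae_eq_comp₀ hcont.measurable.nullMeasurable hinv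
  have h3 : ∫ z : Td D × G, mFourier c z.1 ∂(mT D).prod μ = 0 := by
    have h4 : ∫ z : Td D × G, mFourier c z.1 ∂(mT D).prod μ =
        ∫ z : Td D × G, mFourier c z.1 * (fun _ => (1 : ℂ)) z.2 ∂(mT D).prod μ := by simp
    rw [h4, integral_prod_mul (fun x => mFourier c x) (fun _ : G => (1 : ℂ)), cs_int hc, zero_mul]
  have h5 : ∫ z : Td D × G, mFourier c z.1 ∂(mT D).prod μ = d := by
    rw [integral_congr_ae hd]
    simp
  have hd0 : d = 0 := by rw [← h5, h3]
  obtain ⟨z, hz⟩ := hd.exists
  rw [Function.const_apply, hd0] at hz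
  have hz' : mFourier c z.1 = 0 := hz
  have h6 := eq_mF_norm c z.1
  rw [hz', norm_zero] at h6
  exact zero_ne_one h6

end Pool.Agent.Lib.MP_9fe581_an.HX
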