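import Pool.Agent.Lib.MP_9fe581_an.HX.Defs
import Pool.Agent.Lib.MP_9fe581_an.HD.Fix
import Pool.Agent.Lib.MP_9fe581_an.HD.Iter

/-!
# HX: the families of the matrix coefficients of a group extension
-/

set_option autoImplicit false
set_option linter.unusedSectionVars false

open Finset MeasureTheory Filter Topology UnitAddTorus
open scoped ComplexConjugate Matrix

namespace Pool.Agent.Lib.MP_9fe581_an.HX

open Pool.Agent.Lib.MP_9fe581_an.HD

section iter

variable {D : ℕ} {G : Type} [Group G] {S : Td D → Td D} {φ : Td D → G}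

theorem prS_add (l k : ℕ) (x : Td D) : prS S φ (l + k) x = prS S φ l (S^[k] x) * prS S φ k x := by
  induction l with
  | zero => simp [prS]
  | succ l ih =>
    rw [Nat.succ_add]
    show φ (S^[l + k] x) * prS S φ (l + k) x = φ (S^[l] (S^[k] x)) * prS S φ l (S^[k] x) * prS S φ k x
    rw [ih, Function.iterate_add_apply, mul_assoc]

theorem skewS_iter (n : ℕ) (z : Td D × G) : (skewS S φ)^[n] z = (S^[n] z.1, prS S φ n z.1 * z.2) := by
  induction n with
  | zero => simp [prS]
  | succ n ih =>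
    rw [Function.iterate_succ_apply', ih]
    simp only [skewS, prS]
    rw [Function.iterate_succ_apply', mul_assoc]

end iter

variable {D : ℕ} {ι : Type} [Fintype ι] [DecidableEq ι] {G : Type} [Group G] [TopologicalSpace G] [IsTopologicalGroup G]
  [CompactSpace G] [T2Space G] [SecondCountableTopology G] [MeasurableSpace G] [BorelSpace G]
  {μ : Measure G} [μ.IsHaarMeasure] [IsProbabilityMeasure μ] {S : Td D → Td D} {φ : Td D → G}

theorem prS_cont (hS : Continuous S) (hφ : Continuous φ) (n : ℕ) : Continuous (prS S φ n) := by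
  induction n with
  | zero => exact continuous_const
  | succ n ih => exact (hφ.comp (hS.iterate n)).mul ih

theorem coc_diag (X : Matrix ι ι ℂ) (i : ι) : (X * Xᴴ) i i = ((∑ j, ‖X i j‖ ^ 2 : ℝ) : ℂ) := by
  rw [Matrix.mul_apply]
  push_cast
  refine Finset.sum_congr rfl fun j _ => ?_
  rw [Matrix.conjTranspose_apply]
  exact Complex.mul_conj' _

/-- entries of `(1 - P) π g` are bounded by one -/
theorem coc_entry {π : G → Matrix ι ι ℂ} (hπ : URep π) (g : G) (i j : ι) :
    ‖((1 - fixP μ π) * π g) i j‖ ≤ 1 := by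
  set R : Matrix ι ι ℂ := 1 - fixP μ π with hR
  have hRH : Rᴴ = R := by rw [hR, Matrix.conjTranspose_sub, Matrix.conjTranspose_one, fixP_H hπ]
  have hRR : R * R = R := fx_QQ hπ
  have h1 : (R * π g) * (R * π g)ᴴ = R := by
    rw [Matrix.conjTranspose_mul, hRH, Matrix.mul_assoc, ← Matrix.mul_assoc (π g), hπ.uni, one_mul, hRR]
  have h2 := coc_diag (R * π g) i
  rw [h1] at h2
  have h3 := coc_diag R i
  rw [hRH, hRR] at h3
  have h4 : (∑ j, ‖(R * π g) i j‖ ^ 2 : ℝ) = ∑ j, ‖R i j‖ ^ 2 := by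
    have := h2.symm.trans h3
    exact_mod_cast this
  -- the diagonal entry of a projection is at most one
  have h5 : (∑ j, ‖R i j‖ ^ 2 : ℝ) ≤ 1 := by
    have h6 : ‖R i i‖ ^ 2 ≤ ∑ j, ‖R i j‖ ^ 2 :=
      Finset.single_le_sum (f := fun j => ‖R i j‖ ^ 2) (fun j _ => by positivity) (Finset.mem_univ i)
    have h7 : ‖R i i‖ = ∑ j, ‖R i j‖ ^ 2 := by
      rw [h3, Complex.norm_real, Real.norm_of_nonneg]
      exact Finset.sum_nonneg fun j _ => by positivity
    rw [← h7] at h6 ⊢
    by_contra h8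
    rw [not_le] at h8
    nlinarith
  have h9 : ‖(R * π g) i j‖ ^ 2 ≤ ∑ j, ‖(R * π g) i j‖ ^ 2 :=
    Finset.single_le_sum (f := fun j => ‖(R * π g) i j‖ ^ 2) (fun j _ => by positivity) (Finset.mem_univ j)
  have h10 : ‖(R * π g) i j‖ ^ 2 ≤ 1 := h9.trans (h4.le.trans h5)
  exact (sq_le_one_iff₀ (norm_nonneg _)).1 h10

theorem XG_fam {π : G → Matrix ι ι ℂ} (hπ : URep π) (k : Fin D → ℤ) (hS : Continuous S) (hφ : Continuous φ) :
    Fam S (XG μ π k S φ) where
  cont n := by
    have h1 : Continuous fun x => mFourier k (S^[n] x) := (mFourier k).continuous.comp (hS.iterate n)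
    have h2 : Continuous fun x => (1 - fixP μ π) * π (prS S φ n x) :=
      Continuous.matrix_mul continuous_const (hπ.cont.comp (prS_cont hS hφ n))
    exact h1.smul h2
  bd n y i j := by
    rw [XG, Matrix.smul_apply, smul_eq_mul, norm_mul]
    have h1 : ‖mFourier k (S^[n] y)‖ ≤ 1 := by
      have := (mFourier k).norm_coe_le_norm (S^[n] y)
      rwa [mFourier_norm] at this
    exact mul_le_one₀ h1 (norm_nonneg _) (coc_entry hπ _ i j)
  add m y := by
    refine ⟨π (prS S φ m y), fun t => ?_, fun l => ⟨?_, ?_⟩⟩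
    · have h := congrFun (congrFun (fx_uni' hπ (prS S φ m y)) t) t
      rw [Matrix.one_apply_eq, Matrix.mul_apply] at h
      have h2 : ((∑ b, ‖π (prS S φ m y) b t‖ ^ 2 : ℝ) : ℂ) = 1 := by
        rw [← h]
        push_cast
        refine Finset.sum_congr rfl fun b _ => ?_
        rw [Matrix.conjTranspose_apply]
        exact (Complex.conj_mul' _).symm
      exact le_of_eq (by exact_mod_cast h2)
    · simp only [XG]
      rw [prS_add, hπ.mul, Function.iterate_add_apply, Matrix.smul_mul, Matrix.mul_assoc]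
    · rw [hπ.uni, mul_one]

theorem XG_orbit {π : G → Matrix ι ι ℂ} (hπ : URep π) (k : Fin D → ℤ) (n : ℕ) (z : Td D × G) (i j : ι) :
    mFourier k ((skewS S φ)^[n] z).1 * ((1 - fixP μ π) * π ((skewS S φ)^[n] z).2) i j =
      ∑ l, XG μ π k S φ n z.1 i l * π z.2 l j := by
  rw [skewS_iter]
  simp only [XG]
  rw [hπ.mul, ← Matrix.mul_assoc, Matrix.mul_apply, Finset.mul_sum]
  refine Finset.sum_congr rfl fun a _ => ?_
  rw [Matrix.smul_apply, smul_eq_mul]
  ring

end Pool.Agent.Lib.MP_9fe581_an.HX
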