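import Pool.Agent.Lib.MP_9fe581_an.HX.DefsZ

/-!
# HX: matrix observables over any finite index type, from scalar observables
-/

set_option autoImplicit false

open Finset MeasureTheory Filter Topology UnitAddTorus
open scoped ComplexConjugate Matrix ComplexOrder

namespace Pool.Agent.Lib.MP_9fe581_an.HX

open Pool.Agent.Lib.MP_9fe581_an.HD

variable {Y : Type} [TopologicalSpace Y] {S : Y → Y} {u : ℕ → ℂ} {Z : Set Y}

omit [TopologicalSpace Y] in
/-- reindexing the cocycle products -/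
private theorem cpS_submatrix {κ κ2 : Type} [Fintype κ] [DecidableEq κ] [Fintype κ2] [DecidableEq κ2] (e : κ2 ≃ κ)
    (A : Y → Matrix κ κ ℂ) (n : ℕ) (y : Y) :
    cpS S (fun y => (A y).submatrix e e) n y = (cpS S A n y).submatrix e e := by
  induction n with
  | zero => simp only [cpS, Matrix.submatrix_one_equiv]
  | succ n ih => simp only [cpS, ih, Matrix.submatrix_mul_equiv]

theorem coc_mat (hc : CocOrthY S u Z) {κ κ' : Type} [Fintype κ] [DecidableEq κ] (A : Y → Matrix κ κ ℂ) (hA : Continuous A)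
    (hAA : ∀ y, A y * (A y)ᴴ = 1) [Fintype κ'] (D : Y → Matrix κ' κ ℂ) (hD : Continuous D) (ε : ℝ) (hε : 0 < ε) :
    ∃ N0 : ℕ, ∀ N ≥ N0, ∀ y ∈ Z, ∀ (i : κ') (j : κ), ‖∑ n ∈ Icc 1 N, u n * (D (S^[n] y) * cpS S A n y) i j‖ ≤ ε * N := by
  set e : Fin (Fintype.card κ) ≃ κ := (Fintype.equivFin κ).symm with he
  have hA' : Continuous fun y => (A y).submatrix e e := hA.matrix_submatrix e e
  have hAA' : ∀ y, (A y).submatrix e e * ((A y).submatrix e e)ᴴ = 1 := by
    intro y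
    rw [Matrix.conjTranspose_submatrix, Matrix.submatrix_mul_equiv, hAA, Matrix.submatrix_one_equiv]
  have hε' : 0 < ε / ((Fintype.card κ : ℝ) + 1) := by positivity
  have hex : ∀ (i : κ') (l : κ), ∃ N0 : ℕ, ∀ N ≥ N0, ∀ y ∈ Z, ∀ j : κ,
      ‖∑ n ∈ Icc 1 N, u n * (D (S^[n] y) i l * cpS S A n y l j)‖ ≤ ε / ((Fintype.card κ : ℝ) + 1) * N := by
    intro i l
    obtain ⟨N0, h0⟩ := hc (Fintype.card κ) (fun y => (A y).submatrix e e) hA' hAA'
      ⟨fun y => D y i l, (continuous_apply l).comp ((continuous_apply i).comp hD)⟩ _ hε'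
    refine ⟨N0, fun N hN y hy j => ?_⟩
    have h1 := h0 N hN y hy (e.symm l) (e.symm j)
    simp only [cpS_submatrix, Matrix.submatrix_apply, Equiv.apply_symm_apply, ContinuousMap.coe_mk] at h1
    exact h1
  choose N0 hN0 using hex
  refine ⟨∑ i : κ', ∑ l : κ, N0 i l, fun N hN y hy i j => ?_⟩
  have hle : ∀ l : κ, N0 i l ≤ N := by
    intro l
    refine le_trans ?_ hN
    refine le_trans ?_ (Finset.single_le_sum (f := fun i => ∑ l : κ, N0 i l) (fun _ _ => Nat.zero_le _)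
      (Finset.mem_univ i))
    exact Finset.single_le_sum (f := fun l => N0 i l) (fun _ _ => Nat.zero_le _) (Finset.mem_univ l)
  have hsum : ∑ n ∈ Icc 1 N, u n * (D (S^[n] y) * cpS S A n y) i j =
      ∑ l : κ, ∑ n ∈ Icc 1 N, u n * (D (S^[n] y) i l * cpS S A n y l j) := by
    rw [Finset.sum_comm]
    refine Finset.sum_congr rfl fun n _ => ?_
    rw [Matrix.mul_apply, Finset.mul_sum]
  rw [hsum]
  refine le_trans (norm_sum_le _ _) ?_
  refine le_trans (Finset.sum_le_sum fun l _ => hN0 i l N (hle l) y hy j) ?_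
  rw [Finset.sum_const, Finset.card_univ, nsmul_eq_mul]
  have hN' : (0 : ℝ) ≤ N := Nat.cast_nonneg N
  have hc0 : (0 : ℝ) ≤ Fintype.card κ := Nat.cast_nonneg _
  have h1 : (Fintype.card κ : ℝ) * (ε / ((Fintype.card κ : ℝ) + 1) * N) = (Fintype.card κ : ℝ) / ((Fintype.card κ : ℝ) + 1) * (ε * N) := by
    ring
  rw [h1]
  have h2 : (Fintype.card κ : ℝ) / ((Fintype.card κ : ℝ) + 1) ≤ 1 := by
    rw [div_le_one (by positivity)]
    linarith
  have h3 : 0 ≤ ε * (N : ℝ) := mul_nonneg hε.le hN'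
  nlinarith

end Pool.Agent.Lib.MP_9fe581_an.HX
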