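import Pool.Agent.Lib.MP_9fe581_an.HX.Delta
import Pool.Agent.Lib.MP_9fe581_an.HX.DefsQ

/-!
# HX: the averages over the primes, uniformly in the choice of the joinings
-/

set_option autoImplicit false

open Finset MeasureTheory Filter Topology UnitAddTorus
open scoped ComplexConjugate Matrix

namespace Pool.Agent.Lib.MP_9fe581_an.HX

open Pool.Agent.Lib.MP_9fe581_an.HD

variable {Y : Type} [TopologicalSpace Y] {ι : Type} [Fintype ι] [DecidableEq ι] {S : Y → Y} {X : ℕ → Y → Matrix ι ι ℂ}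
  [CompactSpace Y] [T2Space Y] [SecondCountableTopology Y] [MeasurableSpace Y] [BorelSpace Y]
  {ν : Measure Y} {D : Type} [Fintype D] {lam : D → ℕ → Measure (Y × Y)}

variable {MM : D → ℕ → Set (Measure (Y × Y))} {linf : D → Measure (Y × Y)} {C0 : ℝ}

open Classical in
theorem delta_unif (hB : BaseQ S ν MM linf C0) (hX : Fam S X) (r : ℕ) (hr : 1 ≤ r) (ε : ℝ) (hε : 0 < ε) :
    ∃ j0 : ℕ, ∀ j ≥ j0, ∀ m : D → ℕ → Measure (Y × Y), (∀ i, ∀ q ∈ Qb j, m i q ∈ MM i q) →
      ∑ p ∈ Qb j, ∑ i, ∑ q ∈ Qb j, ((bX (m i q) X (p * r)).re - (bX (linf i) X (p * r)).re) ≤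
        ε * ((Qb j).card : ℝ) ^ 2 := by
  -- the bad blocks, with a choice of bad joinings
  set bad : ℕ → (D → ℕ → Measure (Y × Y)) → Prop := fun j m => (∀ i, ∀ q ∈ Qb j, m i q ∈ MM i q) ∧
    ε * ((Qb j).card : ℝ) ^ 2 < ∑ p ∈ Qb j, ∑ i, ∑ q ∈ Qb j,
      ((bX (m i q) X (p * r)).re - (bX (linf i) X (p * r)).re) with hbad
  have hch : ∀ j, ∃ m : D → ℕ → Measure (Y × Y), (∃ m', bad j m') → bad j m := by
    intro j
    by_cases h : ∃ m', bad j m'
    · obtain ⟨m', hm'⟩ := h
      exact ⟨m', fun _ => hm'⟩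
    · exact ⟨fun i _ => linf i, fun h' => absurd h' h⟩
  choose sel hsel using hch
  set lam : D → ℕ → Measure (Y × Y) := fun i q =>
    if q ∈ Qb (Nat.log 2 q) ∧ ∃ m', bad (Nat.log 2 q) m' then sel (Nat.log 2 q) i q else linf i with hlam
  have hlam1 : ∀ i q, lam i q ∈ MM i q ∨ lam i q = linf i := by
    intro i q
    by_cases h : q ∈ Qb (Nat.log 2 q) ∧ ∃ m', bad (Nat.log 2 q) m'
    · left
      have e : lam i q = sel (Nat.log 2 q) i q := by
        simp only [hlam]
        rw [if_pos h]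
      rw [e]
      exact (hsel _ h.2).1 i q h.1
    · right
      simp only [hlam]
      rw [if_neg h]
  have hlam0 : ∀ i, lam i 0 = linf i := by
    intro i
    have h : ¬ (0 ∈ Qb (Nat.log 2 0) ∧ ∃ m', bad (Nat.log 2 0) m') := by
      rintro ⟨h1, _⟩
      exact Nat.not_prime_zero (mem_filter.1 h1).2
    simp only [hlam]
    rw [if_neg h]
  have h := delta_primes0 (S := S) (X := X) (lam := lam) hB.cont
    (fun i q => by
      rcases hlam1 i q with h | h
      · exact hB.lprob i q _ h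
      · rw [h]; exact hB.iprob i)
    (fun i q => by
      rcases hlam1 i q with h | h
      · exact hB.linv i q _ h
      · rw [h]; exact hB.iinv i)
    (fun i q f => by
      rw [hlam0]
      rcases hlam1 i q with h | h
      · exact hB.pos i q _ h f
      · rw [h])
    (fun i f => by
      rw [hlam0, Metric.tendsto_atTop]
      intro δ hδ
      obtain ⟨q0, hq0⟩ := hB.lim i f (δ / 2) (half_pos hδ)
      refine ⟨q0, fun q hq => ?_⟩
      rw [Real.dist_eq]
      rcases hlam1 i q with h | h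
      · have h1 := hB.pos i q _ h f
        have h2 := hq0 q hq _ h
        rw [abs_of_nonneg (by linarith)]
        linarith
      · rw [h, sub_self, abs_zero]
        exact hδ)
    hX r hr ε hε
  obtain ⟨j0, hj0⟩ := h
  refine ⟨j0, fun j hj m hm => ?_⟩
  by_contra hcon
  have hb : ∃ m', bad j m' := ⟨m, hm, not_le.1 hcon⟩
  have h1 := (hsel j hb).2
  have h2 := hj0 j hj
  have hlog : ∀ q ∈ Qb j, Nat.log 2 q = j := by
    intro q hq
    have h3 := mem_Ico.1 (mem_filter.1 hq).1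
    exact Nat.log_eq_of_pow_le_of_lt_pow h3.1 h3.2
  have h3 : ∑ p ∈ Qb j, ∑ i, ∑ q ∈ Qb j, ((bX (lam i q) X (p * r)).re - (bX (lam i 0) X (p * r)).re) =
      ∑ p ∈ Qb j, ∑ i, ∑ q ∈ Qb j, ((bX (sel j i q) X (p * r)).re - (bX (linf i) X (p * r)).re) := by
    refine Finset.sum_congr rfl fun p _ => Finset.sum_congr rfl fun i _ => Finset.sum_congr rfl fun q hq => ?_
    rw [hlam0]
    have e : lam i q = sel j i q := by
      simp only [hlam]
      rw [hlog q hq, if_pos ⟨hq, hb⟩]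
    rw [e]
  rw [h3] at h2
  exact absurd h2 (not_le.2 h1)

end Pool.Agent.Lib.MP_9fe581_an.HX
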