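import Pool.Agent.Lib.MP_9fe581_an.HX.Fam
import Pool.Agent.Lib.MP_9fe581_an.HD.AbsMono

/-!
# HX: the correlations along a joining are positive definite, their averages are monotone
-/

set_option autoImplicit false

open Finset MeasureTheory Filter Topology UnitAddTorus
open scoped ComplexConjugate Matrix

namespace Pool.Agent.Lib.MP_9fe581_an.HX

open Pool.Agent.Lib.MP_9fe581_an.HD

section abs

variable {Y : Type} [TopologicalSpace Y] {ι : Type} [Fintype ι] [DecidableEq ι] {S : Y → Y} {X : ℕ → Y → Matrix ι ι ℂ}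

/-- `tr (X_l(u) X_{l'}(u)^*)` -/
private noncomputable def enG (X : ℕ → Y → Matrix ι ι ℂ) (l l' : ℕ) (u : Y) : ℂ :=
  (X l u * (X l' u)ᴴ).trace

omit [TopologicalSpace Y] [DecidableEq ι] in
private theorem enG_eq (l l' : ℕ) (u : Y) :
    enG X l l' u = ∑ a, ∑ b, X l u a b * conj (X l' u a b) := by
  simp [enG, Matrix.trace, Matrix.mul_apply, Matrix.conjTranspose_apply]

omit [TopologicalSpace Y] [DecidableEq ι] in
private theorem en_gen (z : ℕ → ℂ) (e : ℕ → ℕ) (M : ℕ) (v u : Y) :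
    ((∑ a, ∑ b, ∑ c, ∑ f, ‖∑ m ∈ range M, z m * (X (e m) v a b * conj (X (e m) u c f))‖ ^ 2 : ℝ) : ℂ) =
      ∑ m ∈ range M, ∑ m' ∈ range M, z m * conj (z m') *
        (enG X (e m) (e m') v * conj (enG X (e m) (e m') u)) := by
  have h1 : ∀ a b c f : ι, ((‖∑ m ∈ range M, z m * (X (e m) v a b * conj (X (e m) u c f))‖ : ℂ) ^ 2) =
      ∑ m ∈ range M, ∑ m' ∈ range M, z m * conj (z m') *
        ((X (e m) v a b * conj (X (e m') v a b)) *
          (conj (X (e m) u c f) * X (e m') u c f)) := by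
    intro a b c f
    rw [← Complex.mul_conj', map_sum, Finset.sum_mul_sum]
    refine Finset.sum_congr rfl fun m _ => Finset.sum_congr rfl fun m' _ => ?_
    rw [map_mul, map_mul, Complex.conj_conj]; ring
  push_cast
  simp_rw [h1]
  have h4 : ∀ g : ι → ι → ι → ι → ℕ → ℕ → ℂ, (∑ a, ∑ b, ∑ c, ∑ f, ∑ l ∈ range M, ∑ l' ∈ range M, g a b c f l l') =
      ∑ l ∈ range M, ∑ l' ∈ range M, ∑ a, ∑ b, ∑ c, ∑ f, g a b c f l l' := by
    intro g
    have h5 : ∀ h : ι → ι → ι → ι → ℂ, (∑ a, ∑ b, ∑ c, ∑ f, h a b c f) =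
        ∑ x : ι × ι × ι × ι, h x.1 x.2.1 x.2.2.1 x.2.2.2 := by
      intro h; simp [Fintype.sum_prod_type]
    simp_rw [h5]
    rw [Finset.sum_comm]
    exact Finset.sum_congr rfl fun l _ => Finset.sum_comm
  rw [h4]
  refine Finset.sum_congr rfl fun l _ => Finset.sum_congr rfl fun l' _ => ?_
  simp_rw [enG_eq, map_sum, map_mul, Complex.conj_conj, Finset.sum_mul, Finset.mul_sum]

omit [TopologicalSpace Y] [DecidableEq ι] in
private theorem en_phi (L : ℕ) (v u : Y) :
    ((Phi X 1 1 L v u : ℝ) : ℂ) =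
      (1 / (L : ℂ) ^ 2) * ∑ l ∈ range L, ∑ l' ∈ range L, enG X l l' v * conj (enG X l l' u) := by
  have h := en_gen (X := X) (fun _ => 1 / (L : ℂ)) (fun m => m) L v u
  have h1 : Phi X 1 1 L v u = ∑ a, ∑ b, ∑ c, ∑ f,
      ‖∑ m ∈ range L, (1 / (L : ℂ)) * (X m v a b * conj (X m u c f))‖ ^ 2 := by
    unfold Phi Wt
    simp only [one_mul, Finset.mul_sum]
  rw [h1, h, Finset.mul_sum]
  refine Finset.sum_congr rfl fun l _ => ?_
  rw [Finset.mul_sum]
  refine Finset.sum_congr rfl fun l' _ => ?_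
  have : conj (1 / (L : ℂ)) = 1 / (L : ℂ) := by simp
  rw [this]; ring

private theorem enG_shift (hX : Fam S X) (l l' k : ℕ) (u : Y) :
    enG X (l + k) (l' + k) u = enG X l l' (S^[k] u) := by
  unfold enG
  rw [gram hX]

private theorem enG_gt (hX : Fam S X) (l l' : ℕ) (h : l' ≤ l) (u : Y) :
    enG X l l' u = FF X (l - l') (S^[l'] u) := by
  have h1 := enG_shift hX (l - l') 0 l' u
  rw [Nat.sub_add_cancel h, Nat.zero_add] at h1
  exact h1

omit [TopologicalSpace Y] [DecidableEq ι] in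
private theorem enG_symm (l l' : ℕ) (u : Y) : enG X l' l u = conj (enG X l l' u) := by
  simp only [enG_eq, map_sum, map_mul, Complex.conj_conj]
  exact Finset.sum_congr rfl fun a _ => Finset.sum_congr rfl fun b _ => mul_comm _ _

private theorem enG_cont (hX : Fam S X) (l l' : ℕ) : Continuous (enG X l l') := by
  unfold enG
  exact ((hX.cont _).matrix_mul (hX.cont _).matrix_conjTranspose).matrix_trace

omit [TopologicalSpace Y] [DecidableEq ι] in
private theorem en_blocks (F : ℕ → ℂ) (M R : ℕ) :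
    ∑ n ∈ range (M * R), F n = ∑ i ∈ range R, ∑ l ∈ range M, F (l + M * i) := by
  induction R with
  | zero => simp
  | succ R ih =>
    rw [Nat.mul_succ, Finset.sum_range_add, ih, Finset.sum_range_succ]
    congr 1
    exact Finset.sum_congr rfl fun l _ => by rw [add_comm]

private theorem en_conv (R : ℕ) (hR : 0 < R) (V : ℕ → ℂ) :
    ‖(1 / (R : ℂ)) * ∑ i ∈ range R, V i‖ ^ 2 ≤ (1 / (R : ℝ)) * ∑ i ∈ range R, ‖V i‖ ^ 2 := by
  have hR' : (0 : ℝ) < R := by exact_mod_cast hR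
  have h1 : ‖∑ i ∈ range R, V i‖ ^ 2 ≤ R * ∑ i ∈ range R, ‖V i‖ ^ 2 := by
    calc ‖∑ i ∈ range R, V i‖ ^ 2 ≤ (∑ i ∈ range R, ‖V i‖) ^ 2 :=
          pow_le_pow_left₀ (norm_nonneg _) (norm_sum_le _ _) 2
      _ ≤ (range R).card * ∑ i ∈ range R, ‖V i‖ ^ 2 := sq_sum_le_card_mul_sum_sq
      _ = _ := by rw [Finset.card_range]
  rw [norm_mul, mul_pow, norm_div, norm_one, Complex.norm_natCast]
  calc (1 / (R : ℝ)) ^ 2 * ‖∑ i ∈ range R, V i‖ ^ 2 ≤ (1 / (R : ℝ)) ^ 2 * (R * ∑ i ∈ range R, ‖V i‖ ^ 2) := by gcongr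
    _ = (1 / (R : ℝ)) * ∑ i ∈ range R, ‖V i‖ ^ 2 := by field_simp

private theorem en_pt (hX : Fam S X) (M R : ℕ) (hM : 0 < M) (hR : 0 < R) (v u : Y) :
    Phi X 1 1 (M * R) v u ≤ (1 / (R : ℝ)) * ∑ i ∈ range R,
      Phi X 1 1 M (S^[M * i] v) (S^[M * i] u) := by
  set V : ℕ → ι → ι → ι → ι → ℂ := fun i a b c f =>
    ∑ l ∈ range M, (1 / (M : ℂ)) * (X (l + M * i) v a b * conj (X (l + M * i) u c f)) with hV
  have hM' : (M : ℂ) ≠ 0 := Nat.cast_ne_zero.2 hM.ne'
  have hR' : (R : ℂ) ≠ 0 := Nat.cast_ne_zero.2 hR.ne'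
  have h1 : ∀ a b c f, Wt X 1 1 (M * R) v u a b c f = (1 / (R : ℂ)) * ∑ i ∈ range R, V i a b c f := by
    intro a b c f
    unfold Wt
    simp only [one_mul, hV]
    rw [en_blocks, Finset.mul_sum, Finset.mul_sum]
    refine Finset.sum_congr rfl fun i _ => ?_
    rw [Finset.mul_sum, Finset.mul_sum]
    refine Finset.sum_congr rfl fun l _ => ?_
    push_cast
    field_simp
  have h2 : ∀ i, ∑ a, ∑ b, ∑ c, ∑ f, ‖V i a b c f‖ ^ 2 = Phi X 1 1 M (S^[M * i] v) (S^[M * i] u) := by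
    intro i
    have h3 := en_gen (X := X) (fun _ => 1 / (M : ℂ)) (fun m => m + M * i) M v u
    have h4 : ((∑ a, ∑ b, ∑ c, ∑ f, ‖V i a b c f‖ ^ 2 : ℝ) : ℂ) =
        ((Phi X 1 1 M (S^[M * i] v) (S^[M * i] u) : ℝ) : ℂ) := by
      simp only [hV]
      rw [h3, en_phi, Finset.mul_sum]
      refine Finset.sum_congr rfl fun l _ => ?_
      rw [Finset.mul_sum]
      refine Finset.sum_congr rfl fun l' _ => ?_
      have : conj (1 / (M : ℂ)) = 1 / (M : ℂ) := by simp
      rw [this, enG_shift hX, enG_shift hX]; ring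
    exact_mod_cast h4
  have h0 : Phi X 1 1 (M * R) v u =
      ∑ a, ∑ b, ∑ c, ∑ f, ‖(1 / (R : ℂ)) * ∑ i ∈ range R, V i a b c f‖ ^ 2 :=
    Finset.sum_congr rfl fun a _ => Finset.sum_congr rfl fun b _ => Finset.sum_congr rfl fun c _ =>
      Finset.sum_congr rfl fun f _ => by rw [h1]
  rw [h0]
  calc ∑ a, ∑ b, ∑ c, ∑ f, ‖(1 / (R : ℂ)) * ∑ i ∈ range R, V i a b c f‖ ^ 2
      ≤ ∑ a, ∑ b, ∑ c, ∑ f, (1 / (R : ℝ)) * ∑ i ∈ range R, ‖V i a b c f‖ ^ 2 :=
        Finset.sum_le_sum fun a _ => Finset.sum_le_sum fun b _ => Finset.sum_le_sum fun c _ =>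
          Finset.sum_le_sum fun f _ => en_conv R hR _
    _ = (1 / (R : ℝ)) * ∑ i ∈ range R, ∑ a, ∑ b, ∑ c, ∑ f, ‖V i a b c f‖ ^ 2 := by
        simp_rw [← Finset.mul_sum]
        congr 1
        have h5 : ∀ h : ι → ι → ι → ι → ℝ, (∑ a, ∑ b, ∑ c, ∑ f, h a b c f) =
            ∑ x : ι × ι × ι × ι, h x.1 x.2.1 x.2.2.1 x.2.2.2 := by
          intro h; simp [Fintype.sum_prod_type]
        simp_rw [h5]
        exact Finset.sum_comm
    _ = (1 / (R : ℝ)) * ∑ i ∈ range R, Phi X 1 1 M (S^[M * i] v) (S^[M * i] u) := by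
        rw [Finset.sum_congr rfl fun i _ => h2 i]

omit [TopologicalSpace Y] [DecidableEq ι] in
private theorem en_FF0 (y : Y) : FF X 0 y = ((∑ a, ∑ b, ‖X 0 y a b‖ ^ 2 : ℝ) : ℂ) := by
  have h : FF X 0 y = enG X 0 0 y := rfl
  rw [h, enG_eq]
  push_cast
  exact Finset.sum_congr rfl fun a _ => Finset.sum_congr rfl fun b _ => Complex.mul_conj' _

section meas

variable [CompactSpace Y] [T2Space Y] [SecondCountableTopology Y] [MeasurableSpace Y] [BorelSpace Y]
  {ν : Measure Y}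

omit [T2Space Y] in
private theorem en_intC {l : Measure (Y × Y)} [IsProbabilityMeasure l] {f : Y × Y → ℂ} (hf : Continuous f) :
    Integrable f l :=
  hf.integrable_of_hasCompactSupport (HasCompactSupport.of_compactSpace _)

omit [T2Space Y] in
private theorem en_intR {l : Measure (Y × Y)} [IsProbabilityMeasure l] {f : Y × Y → ℝ} (hf : Continuous f) :
    Integrable f l :=
  hf.integrable_of_hasCompactSupport (HasCompactSupport.of_compactSpace _)

omit [T2Space Y] [SecondCountableTopology Y] in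
private theorem en_intY [IsProbabilityMeasure ν] {f : Y → ℂ} (hf : Continuous f) : Integrable f ν :=
  hf.integrable_of_hasCompactSupport (HasCompactSupport.of_compactSpace _)

omit [CompactSpace Y] [T2Space Y] in
/-- invariance of the integral of a continuous function -/
private theorem en_inv {E : Type} [NormedAddCommGroup E] [NormedSpace ℝ E] [SecondCountableTopology E]
    (hS : Continuous S) (l : Measure (Y × Y))
    (hl : MeasurePreserving (Prod.map S S) l l) (k : ℕ) {F : Y × Y → E} (hF : Continuous F) :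
    ∫ z, F (S^[k] z.1, S^[k] z.2) ∂l = ∫ z, F z ∂l := by
  borelize E
  have h1 : MeasurePreserving (Prod.map S S)^[k] l l := hl.iterate k
  have h2 : (fun z : Y × Y => F (S^[k] z.1, S^[k] z.2)) = fun z => F ((Prod.map S S)^[k] z) := by
    funext z
    rw [Prod.map_iterate]
    rfl
  rw [h2]
  conv_rhs => rw [← h1.map_eq]
  rw [integral_map h1.measurable.aemeasurable]
  rw [h1.map_eq]
  exact hF.measurable.aestronglyMeasurable

omit [T2Space Y] in
private theorem en_pair_le (hS : Continuous S) (hX : Fam S X) (l : Measure (Y × Y)) [IsProbabilityMeasure l]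
    (hl : MeasurePreserving (Prod.map S S) l l) {n n' : ℕ} (h : n' ≤ n) :
    ∫ z, enG X n n' z.1 * conj (enG X n n' z.2) ∂l = bX l X (n - n') := by
  have h1 : ∀ z : Y × Y, enG X n n' z.1 * conj (enG X n n' z.2) =
      (fun w : Y × Y => FF X (n - n') w.1 * conj (FF X (n - n') w.2)) (S^[n'] z.1, S^[n'] z.2) := by
    intro z
    simp only
    rw [enG_gt hX n n' h, enG_gt hX n n' h]
  simp_rw [h1]
  exact en_inv hS l hl n' (F := fun w : Y × Y => FF X (n - n') w.1 * conj (FF X (n - n') w.2))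
    (((FF_cont hX _).comp continuous_fst).mul (Complex.continuous_conj.comp ((FF_cont hX _).comp continuous_snd)))

omit [T2Space Y] in
private theorem en_pair (hS : Continuous S) (hX : Fam S X) (l : Measure (Y × Y)) [IsProbabilityMeasure l]
    (hl : MeasurePreserving (Prod.map S S) l l) (n n' : ℕ) :
    ∫ z, enG X n n' z.1 * conj (enG X n n' z.2) ∂l =
      if n' ≤ n then bX l X (n - n') else conj (bX l X (n' - n)) := by
  split_ifs with h
  · exact en_pair_le hS hX l hl h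
  · rw [← en_pair_le hS hX l hl (le_of_not_ge h), ← integral_conj]
    congr 1
    funext z
    rw [enG_symm n' n z.1, enG_symm n' n z.2, map_mul]

omit [T2Space Y] in
private theorem en_pair_int (hX : Fam S X) (l : Measure (Y × Y)) [IsProbabilityMeasure l] (n n' : ℕ) :
    Integrable (fun z : Y × Y => enG X n n' z.1 * conj (enG X n n' z.2)) l := by
  apply en_intC
  exact ((enG_cont hX n n').comp continuous_fst).mul
    (Complex.continuous_conj.comp ((enG_cont hX n n').comp continuous_snd))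

omit [T2Space Y] in
private theorem en_expand (hS : Continuous S) (hX : Fam S X) (l : Measure (Y × Y)) [IsProbabilityMeasure l]
    (hl : MeasurePreserving (Prod.map S S) l l) (N : ℕ) :
    ∫ z, Phi X 1 1 N z.1 z.2 ∂l = avg2 (fun n => (bX l X n).re) N := by
  have h1 : ((∫ z, Phi X 1 1 N z.1 z.2 ∂l : ℝ) : ℂ) =
      (1 / (N : ℂ) ^ 2) * ∑ n ∈ range N, ∑ n' ∈ range N,
        (if n' ≤ n then bX l X (n - n') else conj (bX l X (n' - n))) := by
    rw [← integral_complex_ofReal]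
    simp_rw [en_phi]
    rw [integral_const_mul, integral_finsetSum _ fun n _ => integrable_finsetSum _ fun n' _ => en_pair_int hX l n n']
    congr 1
    refine Finset.sum_congr rfl fun n _ => ?_
    rw [integral_finsetSum _ fun n' _ => en_pair_int hX l n n']
    exact Finset.sum_congr rfl fun n' _ => en_pair hS hX l hl n n'
  have h2 : ∫ z, Phi X 1 1 N z.1 z.2 ∂l = (((∫ z, Phi X 1 1 N z.1 z.2 ∂l : ℝ) : ℂ)).re :=
    (Complex.ofReal_re _).symm
  have h3 : (1 / (N : ℂ) ^ 2) = ((1 / (N : ℝ) ^ 2 : ℝ) : ℂ) := by push_cast; rfl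
  rw [h2, h1, h3, Complex.re_ofReal_mul, Complex.re_sum, avg2]
  congr 1
  refine Finset.sum_congr rfl fun n _ => ?_
  rw [Complex.re_sum]
  refine Finset.sum_congr rfl fun n' _ => ?_
  split_ifs with h
  · have e : (n - n') + (n' - n) = n - n' := by omega
    rw [e]
  · have e : (n - n') + (n' - n) = n' - n := by omega
    rw [Complex.conj_re, e]

theorem bX_posDef (hS : Continuous S) (hX : Fam S X) (l : Measure (Y × Y)) [IsProbabilityMeasure l]
    (hl : MeasurePreserving (Prod.map S S) l l) : PosDef (bX l X) := by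
  intro M z
  have h1 : (∑ m ∈ range M, ∑ m' ∈ range M, z m * conj (z m') *
      (if m' ≤ m then bX l X (m - m') else conj (bX l X (m' - m)))) =
      ∫ w, (((∑ a, ∑ b, ∑ c, ∑ f, ‖∑ m ∈ range M, z m *
        (X m w.1 a b * conj (X m w.2 c f))‖ ^ 2 : ℝ)) : ℂ) ∂l := by
    have h2 : ∀ w : Y × Y, (((∑ a, ∑ b, ∑ c, ∑ f, ‖∑ m ∈ range M, z m *
        (X m w.1 a b * conj (X m w.2 c f))‖ ^ 2 : ℝ)) : ℂ) =
        ∑ m ∈ range M, ∑ m' ∈ range M, z m * conj (z m') *
        (enG X m m' w.1 * conj (enG X m m' w.2)) := fun w => en_gen z (fun m => m) M w.1 w.2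
    simp_rw [h2]
    rw [integral_finsetSum _ fun m _ => integrable_finsetSum _ fun m' _ => (en_pair_int hX l m m').const_mul _]
    refine Finset.sum_congr rfl fun m _ => ?_
    rw [integral_finsetSum _ fun m' _ => (en_pair_int hX l m m').const_mul _]
    refine Finset.sum_congr rfl fun m' _ => ?_
    rw [integral_const_mul, en_pair hS hX l hl m m']
  rw [h1, integral_complex_ofReal, Complex.ofReal_re]
  exact integral_nonneg fun w => Finset.sum_nonneg fun a _ => Finset.sum_nonneg fun b _ =>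
    Finset.sum_nonneg fun c _ => Finset.sum_nonneg fun f _ => sq_nonneg _

theorem bX_zero_im (hX : Fam S X) (l : Measure (Y × Y)) [IsProbabilityMeasure l] : (bX l X 0).im = 0 := by
  have h1 : bX l X 0 = ((∫ z, (∑ a, ∑ b, ‖X 0 z.1 a b‖ ^ 2) * (∑ a, ∑ b, ‖X 0 z.2 a b‖ ^ 2) ∂l : ℝ) : ℂ) := by
    unfold bX
    rw [← integral_complex_ofReal]
    congr 1
    funext z
    rw [en_FF0, en_FF0, Complex.conj_ofReal, ← Complex.ofReal_mul]
  rw [h1, Complex.ofReal_im]

theorem bX_le (hX : Fam S X) (l : Measure (Y × Y)) [IsProbabilityMeasure l] (n : ℕ) :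
    ‖bX l X n‖ ≤ ((Fintype.card ι : ℝ) ^ 2) ^ 2 := by
  unfold bX
  refine (norm_integral_le_of_norm_le_const (C := ((Fintype.card ι : ℝ) ^ 2) ^ 2)
    (ae_of_all _ fun z => ?_)).trans ?_
  · rw [norm_mul, RCLike.norm_conj, sq ((Fintype.card ι : ℝ) ^ 2)]
    exact mul_le_mul (FF_le hX n _) (FF_le hX n _) (norm_nonneg _) (by positivity)
  · simp

theorem bX_avg_nonneg (hS : Continuous S) (hX : Fam S X) (l : Measure (Y × Y)) [IsProbabilityMeasure l]
    (hl : MeasurePreserving (Prod.map S S) l l) (N : ℕ) (hN : 0 < N) : 0 ≤ avg2 (fun n => (bX l X n).re) N := by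
  rw [← en_expand hS hX l hl N]
  exact integral_nonneg fun z => Phi_nonneg X 1 1 N z.1 z.2

theorem bX_avg_mono (hS : Continuous S) (hX : Fam S X) (l : Measure (Y × Y)) [IsProbabilityMeasure l]
    (hl : MeasurePreserving (Prod.map S S) l l) (M R : ℕ) (hM : 0 < M) (hR : 0 < R) :
    avg2 (fun n => (bX l X n).re) (M * R) ≤ avg2 (fun n => (bX l X n).re) M := by
  rw [← en_expand hS hX l hl, ← en_expand hS hX l hl]
  have hi0 : ∀ k : ℕ, Continuous fun z : Y × Y => Phi X 1 1 M (S^[k] z.1) (S^[k] z.2) := by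
    intro k
    have e1 : Continuous fun z : Y × Y => S^[k] z.1 := (hS.iterate k).comp continuous_fst
    have e2 : Continuous fun z : Y × Y => S^[k] z.2 := (hS.iterate k).comp continuous_snd
    have e3 : Continuous fun z : Y × Y => ((S^[k] z.1, S^[k] z.2) : Y × Y) := e1.prodMk e2
    have e4 := (Phi_cont hX 1 1 M).comp e3
    exact e4
  have hi : ∀ i : ℕ, Continuous fun z : Y × Y => Phi X 1 1 M (S^[M * i] z.1) (S^[M * i] z.2) := fun i =>
    hi0 (M * i)
  have hc : Continuous fun z : Y × Y => (1 / (R : ℝ)) * ∑ i ∈ range R, Phi X 1 1 M (S^[M * i] z.1) (S^[M * i] z.2) :=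
    continuous_const.mul (continuous_finsetSum _ fun i _ => hi i)
  have hpt : ∀ z : Y × Y, Phi X 1 1 (M * R) z.1 z.2 ≤
      (1 / (R : ℝ)) * ∑ i ∈ range R, Phi X 1 1 M (S^[M * i] z.1) (S^[M * i] z.2) :=
    fun z => en_pt hX M R hM hR z.1 z.2
  have hf1 : Integrable (fun z : Y × Y => Phi X 1 1 (M * R) z.1 z.2) l := en_intR (Phi_cont hX 1 1 (M * R))
  have hf2 : Integrable (fun z : Y × Y => (1 / (R : ℝ)) * ∑ i ∈ range R,
      Phi X 1 1 M (S^[M * i] z.1) (S^[M * i] z.2)) l := en_intR hc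
  have h1 : ∫ z, Phi X 1 1 (M * R) z.1 z.2 ∂l ≤
      ∫ z, (1 / (R : ℝ)) * ∑ i ∈ range R, Phi X 1 1 M (S^[M * i] z.1) (S^[M * i] z.2) ∂l :=
    integral_mono hf1 hf2 hpt
  refine h1.trans ?_
  rw [integral_const_mul, integral_finsetSum _ fun i _ => en_intR (hi i)]
  have h2 : ∀ i : ℕ, ∫ z, Phi X 1 1 M (S^[M * i] z.1) (S^[M * i] z.2) ∂l = ∫ z, Phi X 1 1 M z.1 z.2 ∂l :=
    fun i => en_inv hS l hl (M * i) (F := fun z : Y × Y => Phi X 1 1 M z.1 z.2) (Phi_cont hX 1 1 M)
  rw [Finset.sum_congr rfl fun i _ => h2 i]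
  rw [Finset.sum_const, Finset.card_range, nsmul_eq_mul]
  have hR' : (0 : ℝ) < R := by exact_mod_cast hR
  apply le_of_eq
  field_simp

omit [T2Space Y] in
private theorem en_invY (hν : MeasurePreserving S ν ν) (k : ℕ) {F : Y → ℂ} (hF : Continuous F) :
    ∫ y, F (S^[k] y) ∂ν = ∫ y, F y ∂ν := by
  have h1 : MeasurePreserving S^[k] ν ν := hν.iterate k
  conv_rhs => rw [← h1.map_eq]
  rw [integral_map h1.measurable.aemeasurable]
  rw [h1.map_eq]
  exact hF.measurable.aestronglyMeasurable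

omit [T2Space Y] in
private theorem en_aX_le (hX : Fam S X) [IsProbabilityMeasure ν] (hν : MeasurePreserving S ν ν) {m m' : ℕ}
    (h : m' ≤ m) : ∫ y, enG X m m' y ∂ν = aX ν X (m - m') := by
  have h1 : ∀ y, enG X m m' y = (fun w => FF X (m - m') w) (S^[m'] y) := fun y => enG_gt hX m m' h y
  simp only [h1]
  exact en_invY hν m' (FF_cont hX _)

omit [T2Space Y] in
private theorem en_aX_eq (hX : Fam S X) [IsProbabilityMeasure ν] (hν : MeasurePreserving S ν ν) (m m' : ℕ) :
    (if m' ≤ m then aX ν X (m - m') else conj (aX ν X (m' - m))) = ∫ y, enG X m m' y ∂ν := by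
  split_ifs with h
  · exact (en_aX_le hX hν h).symm
  · rw [← en_aX_le hX hν (le_of_not_ge h), ← integral_conj]
    congr 1
    funext y
    rw [enG_symm m m' y, Complex.conj_conj]

theorem aX_posDef (hS : Continuous S) (hX : Fam S X) [IsProbabilityMeasure ν] (hν : MeasurePreserving S ν ν) :
    PosDef (aX ν X) := by
  intro M z
  have h1 : (∑ m ∈ range M, ∑ m' ∈ range M, z m * conj (z m') *
      (if m' ≤ m then aX ν X (m - m') else conj (aX ν X (m' - m)))) =
      ∫ y, (∑ m ∈ range M, ∑ m' ∈ range M, z m * conj (z m') * enG X m m' y) ∂ν := by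
    rw [integral_finsetSum]
    · refine Finset.sum_congr rfl fun m _ => ?_
      rw [integral_finsetSum]
      · refine Finset.sum_congr rfl fun m' _ => ?_
        rw [en_aX_eq hX hν, integral_const_mul]
      · intro m' _
        exact (en_intY (enG_cont hX m m')).const_mul _
    · intro m _
      exact integrable_finsetSum _ fun m' _ => (en_intY (enG_cont hX m m')).const_mul _
  have h2 : ∀ y, (∑ m ∈ range M, ∑ m' ∈ range M, z m * conj (z m') * enG X m m' y) =
      ((∑ i, ∑ j, ‖∑ m ∈ range M, z m * X m y i j‖ ^ 2 : ℝ) : ℂ) := by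
    intro y
    push_cast
    have h3 : ∀ i j : ι, ((‖∑ m ∈ range M, z m * X m y i j‖ : ℂ) ^ 2) =
        ∑ m ∈ range M, ∑ m' ∈ range M, z m * conj (z m') * (X m y i j * conj (X m' y i j)) := by
      intro i j
      rw [← Complex.mul_conj', map_sum, Finset.sum_mul_sum]
      refine Finset.sum_congr rfl fun m _ => Finset.sum_congr rfl fun m' _ => ?_
      rw [map_mul]; ring
    simp_rw [h3]
    have h4 : ∀ g : ι → ι → ℕ → ℕ → ℂ, (∑ a, ∑ b, ∑ l ∈ range M, ∑ l' ∈ range M, g a b l l') =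
        ∑ l ∈ range M, ∑ l' ∈ range M, ∑ a, ∑ b, g a b l l' := by
      intro g
      have h5 : ∀ h : ι → ι → ℂ, (∑ a, ∑ b, h a b) = ∑ x : ι × ι, h x.1 x.2 := by
        intro h; simp [Fintype.sum_prod_type]
      simp_rw [h5]
      rw [Finset.sum_comm]
      exact Finset.sum_congr rfl fun l _ => Finset.sum_comm
    rw [h4]
    refine Finset.sum_congr rfl fun m _ => Finset.sum_congr rfl fun m' _ => ?_
    simp_rw [enG_eq, Finset.mul_sum]
  rw [h1]
  simp only [h2]
  rw [integral_complex_ofReal, Complex.ofReal_re]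
  exact integral_nonneg fun y => Finset.sum_nonneg fun i _ => Finset.sum_nonneg fun j _ => sq_nonneg _

theorem aX_zero_im (hX : Fam S X) [IsProbabilityMeasure ν] : (aX ν X 0).im = 0 := by
  have h1 : aX ν X 0 = ((∫ y, (∑ a, ∑ b, ‖X 0 y a b‖ ^ 2) ∂ν : ℝ) : ℂ) := by
    unfold aX
    rw [← integral_complex_ofReal]
    congr 1
    funext y
    exact en_FF0 y
  rw [h1, Complex.ofReal_im]

theorem aX_le (hX : Fam S X) [IsProbabilityMeasure ν] (n : ℕ) : ‖aX ν X n‖ ≤ (Fintype.card ι : ℝ) ^ 2 := by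
  unfold aX
  refine (norm_integral_le_of_norm_le_const (C := (Fintype.card ι : ℝ) ^ 2)
    (ae_of_all _ fun y => FF_le hX n y)).trans ?_
  simp

end meas

end abs

end Pool.Agent.Lib.MP_9fe581_an.HX
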