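import Pool.Agent.Lib.MP_9fe581_an.HX.DefsZ
import Pool.Agent.Lib.MP_9fe581_an.HD.PW
import Pool.Agent.Lib.MP_9fe581_an.HT.Defs

/-!
# HX Z3: compact group extensions of a map of a compact Hausdorff space, nothing ergodic
-/

set_option autoImplicit false

open Finset MeasureTheory Filter Topology UnitAddTorus
open scoped ComplexConjugate Matrix Kronecker

namespace Pool.Agent.Lib.MP_9fe581_an.HX

open Pool.Agent.Lib.MP_9fe581_an.HD

section

variable {X : Type} [TopologicalSpace X] {G : Type} [Group G] [TopologicalSpace G]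

/-- the generating functions -/
def eySet (X : Type) [TopologicalSpace X] (G : Type) [Group G] [TopologicalSpace G] : Set (X × G → ℂ) :=
  {f : X × G → ℂ | ∃ (h : C(X, ℂ)) (m : ℕ) (π : G → Matrix (Fin m) (Fin m) ℂ), URep π ∧
    ∃ i j : Fin m, f = fun z => h z.1 * π z.2 i j}

/-- a coefficient of a representation on any finite type -/
private theorem ey_mem {ι : Type} [Fintype ι] [DecidableEq ι] {π : G → Matrix ι ι ℂ} (hπ : URep π) (h : C(X, ℂ))
    (i j : ι) : (fun z : X × G => h z.1 * π z.2 i j) ∈ eySet X G := by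
  refine ⟨h, Fintype.card ι, _, urep_reindex (Fintype.equivFin ι) hπ, Fintype.equivFin ι i, Fintype.equivFin ι j, ?_⟩
  funext z
  simp

private theorem ey_one : (fun _ => 1 : X × G → ℂ) ∈ Submodule.span ℂ (eySet X G) := by
  apply Submodule.subset_span
  refine ⟨1, 1, _, urep_triv, 0, 0, ?_⟩
  funext z
  simp

private theorem ey_mul (f g : X × G → ℂ)
    (hf : f ∈ Submodule.span ℂ (eySet X G)) (hg : g ∈ Submodule.span ℂ (eySet X G)) :
    (fun z => f z * g z) ∈ Submodule.span ℂ (eySet X G) := by
  induction hf using Submodule.span_induction with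
  | mem f hf =>
    obtain ⟨k, m, π, hπ, i, j, rfl⟩ := hf
    induction hg using Submodule.span_induction with
    | mem g hg =>
      obtain ⟨k', m', σ, hσ, i', j', rfl⟩ := hg
      apply Submodule.subset_span
      have h := ey_mem (X := X) (urep_kron hπ hσ) (k * k') (i, i') (j, j')
      have e : (fun z : X × G => k z.1 * π z.2 i j * (k' z.1 * σ z.2 i' j')) =
          fun z : X × G => (k * k' : C(X, ℂ)) z.1 * (π z.2 ⊗ₖ σ z.2) (i, i') (j, j') := by
        funext z
        rw [Matrix.kroneckerMap_apply, ContinuousMap.mul_apply]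
        ring
      rw [e]
      exact h
    | zero =>
      have e : (fun z => k z.1 * π z.2 i j * (0 : X × G → ℂ) z) = 0 := by
        funext z
        simp
      rw [e]
      exact Submodule.zero_mem _
    | add g g' _ _ h h' =>
      have e : (fun z => k z.1 * π z.2 i j * (g + g') z) =
          (fun z => k z.1 * π z.2 i j * g z) + fun z => k z.1 * π z.2 i j * g' z := by
        funext z
        simp only [Pi.add_apply]
        ring
      rw [e]
      exact Submodule.add_mem _ h h'
    | smul c g _ h =>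
      have e : (fun z => k z.1 * π z.2 i j * (c • g) z) =
          c • fun z => k z.1 * π z.2 i j * g z := by
        funext z
        simp only [Pi.smul_apply, smul_eq_mul]
        ring
      rw [e]
      exact Submodule.smul_mem _ c h
  | zero =>
    have e : (fun z => (0 : X × G → ℂ) z * g z) = 0 := by
      funext z
      simp
    rw [e]
    exact Submodule.zero_mem _
  | add f f' _ _ h h' =>
    have e : (fun z => (f + f') z * g z) = (fun z => f z * g z) + fun z => f' z * g z := by
      funext z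
      simp only [Pi.add_apply]
      ring
    rw [e]
    exact Submodule.add_mem _ h h'
  | smul c f _ h =>
    have e : (fun z => (c • f) z * g z) = c • fun z => f z * g z := by
      funext z
      simp only [Pi.smul_apply, smul_eq_mul]
      ring
    rw [e]
    exact Submodule.smul_mem _ c h

private theorem ey_star (f : X × G → ℂ) (hf : f ∈ Submodule.span ℂ (eySet X G)) :
    (fun z => conj (f z)) ∈ Submodule.span ℂ (eySet X G) := by
  induction hf using Submodule.span_induction with
  | mem f hf =>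
    obtain ⟨k, m, π, hπ, i, j, rfl⟩ := hf
    apply Submodule.subset_span
    have h := ey_mem (X := X) (urep_conj hπ) (star k) i j
    have e : (fun z : X × G => conj (k z.1 * π z.2 i j)) =
        fun z : X × G => (star k : C(X, ℂ)) z.1 * ((π z.2).map conj) i j := by
      funext z
      rw [map_mul, Matrix.map_apply, ContinuousMap.star_apply]
      rfl
    rw [e]
    exact h
  | zero =>
    have e : (fun z => conj ((0 : X × G → ℂ) z)) = 0 := by
      funext z
      simp
    rw [e]
    exact Submodule.zero_mem _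
  | add f f' _ _ h h' =>
    have e : (fun z => conj ((f + f') z)) = (fun z => conj (f z)) + fun z => conj (f' z) := by
      funext z
      simp
    rw [e]
    exact Submodule.add_mem _ h h'
  | smul c f _ h =>
    have e : (fun z => conj ((c • f) z)) = (conj c) • fun z => conj (f z) := by
      funext z
      simp
    rw [e]
    exact Submodule.smul_mem _ _ h

/-- the star subalgebra -/
private noncomputable def eyAlg (X : Type) [TopologicalSpace X] (G : Type) [Group G] [TopologicalSpace G] :
    StarSubalgebra ℂ C(X × G, ℂ) where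
  carrier := {g | (g : X × G → ℂ) ∈ Submodule.span ℂ (eySet X G)}
  mul_mem' := fun {f g} hf hg => ey_mul f g hf hg
  one_mem' := ey_one
  add_mem' := by
    intro f g hf hg
    change ((f + g : C(X × G, ℂ)) : X × G → ℂ) ∈ Submodule.span ℂ (eySet X G)
    rw [ContinuousMap.coe_add]
    exact Submodule.add_mem _ hf hg
  zero_mem' := by
    change ((0 : C(X × G, ℂ)) : X × G → ℂ) ∈ Submodule.span ℂ (eySet X G)
    exact Submodule.zero_mem _
  algebraMap_mem' := by
    intro c
    have h := Submodule.smul_mem _ c (ey_one (X := X) (G := G))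
    have e : ((algebraMap ℂ C(X × G, ℂ) c : C(X × G, ℂ)) : X × G → ℂ) =
        c • (fun _ => 1 : X × G → ℂ) := by
      funext z
      simp
    change ((algebraMap ℂ C(X × G, ℂ) c : C(X × G, ℂ)) : X × G → ℂ) ∈
      Submodule.span ℂ (eySet X G)
    rw [e]
    exact h
  star_mem' := fun {f} hf => ey_star f hf

/-- the continuous functions separate the points of a compact Hausdorff space -/
private theorem ey_sepX [CompactSpace X] [T2Space X] {x y : X} (h : x ≠ y) : ∃ f : C(X, ℂ), f x ≠ f y := by
  obtain ⟨f, hf0, hf1, -⟩ := exists_continuous_zero_one_of_isClosed (isClosed_singleton (x := x))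
    (isClosed_singleton (x := y)) (Set.disjoint_singleton.mpr h)
  refine ⟨⟨fun z => ((f z : ℝ) : ℂ), Complex.continuous_ofReal.comp f.continuous⟩, ?_⟩
  have h0 : f x = 0 := hf0 rfl
  have h1 : f y = 1 := hf1 rfl
  simp only [ContinuousMap.coe_mk, h0, h1]
  simp

private theorem ey_sep [CompactSpace X] [T2Space X] (hs : Sep G) : (eyAlg X G).SeparatesPoints := by
  intro z z' hz
  have hmem : ∀ (k : C(X, ℂ)) (m : ℕ) (π : G → Matrix (Fin m) (Fin m) ℂ) (_ : URep π) (i j : Fin m),
      k z.1 * π z.2 i j ≠ k z'.1 * π z'.2 i j →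
      ∃ f ∈ (fun f : C(X × G, ℂ) => (f : X × G → ℂ)) '' (eyAlg X G : Set C(X × G, ℂ)),
        f z ≠ f z' := by
    intro k m π hπ i j h
    have hc : Continuous fun w : X × G => k w.1 * π w.2 i j :=
      (k.continuous.comp continuous_fst).mul ((hπ.cont.matrix_elem i j).comp continuous_snd)
    refine ⟨fun w : X × G => k w.1 * π w.2 i j, ⟨⟨fun w : X × G => k w.1 * π w.2 i j, hc⟩, ?_, rfl⟩, h⟩
    exact Submodule.subset_span ⟨k, m, π, hπ, i, j, rfl⟩
  by_cases h2 : z.2 = z'.2
  · have h1 : z.1 ≠ z'.1 := fun h => hz (Prod.ext h h2)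
    obtain ⟨k, hk⟩ := ey_sepX h1
    apply hmem k 1 _ urep_triv 0 0
    rw [Matrix.one_apply_eq, mul_one, mul_one]
    exact hk
  · have h3 : z.2 * z'.2⁻¹ ≠ 1 := fun h => h2 (mul_inv_eq_one.mp h)
    obtain ⟨m, π, hπ, h4⟩ := hs _ h3
    have h1 : π z.2 ≠ π z'.2 := by
      intro h
      apply h4
      rw [hπ.mul, h, ← hπ.mul, mul_inv_cancel, hπ.one]
    obtain ⟨i, hi⟩ := Function.ne_iff.mp h1
    obtain ⟨j, hj⟩ := Function.ne_iff.mp hi
    apply hmem 1 m π hπ i j
    rw [ContinuousMap.one_apply, ContinuousMap.one_apply, one_mul, one_mul]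
    exact hj

private theorem ey_dense [CompactSpace X] [T2Space X] [CompactSpace G] (hs : Sep G) (f : C(X × G, ℂ)) (ε : ℝ)
    (hε : 0 < ε) :
    ∃ g : C(X × G, ℂ), (∀ z, ‖f z - g z‖ ≤ ε) ∧ (g : X × G → ℂ) ∈ Submodule.span ℂ (eySet X G) := by
  have h1 := ContinuousMap.starSubalgebra_topologicalClosure_eq_top_of_separatesPoints (eyAlg X G) (ey_sep hs)
  have h2 : f ∈ closure ((eyAlg X G : StarSubalgebra ℂ C(X × G, ℂ)) : Set C(X × G, ℂ)) := by
    rw [← StarSubalgebra.topologicalClosure_coe, h1]
    exact Set.mem_univ f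
  obtain ⟨g, hg, hd⟩ := Metric.mem_closure_iff.mp h2 ε hε
  refine ⟨g, fun z => ?_, hg⟩
  rw [← dist_eq_norm]
  exact (ContinuousMap.dist_apply_le_dist z).trans hd.le

private theorem ey_cp {T : X → X} {φ : X → G} {m : ℕ} {π : G → Matrix (Fin m) (Fin m) ℂ} (hπ : URep π) (n : ℕ)
    (x : X) : cpS T (fun x => π (φ x)) n x = π (HT.pr T φ n x) := by
  induction n with
  | zero => rw [cpS, HT.pr, hπ.one]
  | succ n ih => rw [cpS, ih, HT.pr, hπ.mul]

private theorem ey_iter (T : X → X) (φ : X → G) (n : ℕ) (z : X × G) :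
    (HT.skew T φ)^[n] z = (T^[n] z.1, HT.pr T φ n z.1 * z.2) := by
  induction n with
  | zero => simp [HT.pr]
  | succ n ih =>
    rw [Function.iterate_succ_apply', ih]
    simp only [HT.skew, HT.pr]
    rw [Function.iterate_succ_apply', mul_assoc]

private theorem ey_gen {T : X → X} {u : ℕ → ℂ} {Z : Set X} (hc : CocOrthY T u Z) {φ : X → G} (hφ : Continuous φ)
    (h : C(X, ℂ)) {m : ℕ} {π : G → Matrix (Fin m) (Fin m) ℂ} (hπ : URep π) (i j : Fin m) :
    OrthOn (HT.skew T φ) (fun z => h z.1 * π z.2 i j) u (Prod.fst ⁻¹' Z) := by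
  intro ε hε
  obtain ⟨N0, hN0⟩ := hc m (fun x => π (φ x)) (hπ.cont.comp hφ) (fun x => hπ.uni _) h (ε / (m + 1)) (by positivity)
  refine ⟨N0, fun N hN z hz => ?_⟩
  have e : ∑ n ∈ Icc 1 N, u n * (h ((HT.skew T φ)^[n] z).1 * π ((HT.skew T φ)^[n] z).2 i j) =
      ∑ a, π z.2 a j * ∑ n ∈ Icc 1 N, u n * (h (T^[n] z.1) * cpS T (fun x => π (φ x)) n z.1 i a) := by
    simp_rw [mul_sum]
    rw [sum_comm]
    refine sum_congr rfl fun n _ => ?_
    rw [ey_iter]
    simp only [ey_cp hπ]
    rw [hπ.mul, Matrix.mul_apply, mul_sum, mul_sum]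
    refine sum_congr rfl fun a _ => ?_
    ring
  rw [e]
  calc _ ≤ ∑ a, ‖π z.2 a j * ∑ n ∈ Icc 1 N, u n * (h (T^[n] z.1) * cpS T (fun x => π (φ x)) n z.1 i a)‖ :=
        norm_sum_le _ _
    _ ≤ ∑ _a : Fin m, ε / (m + 1) * N := by
        refine sum_le_sum fun a _ => ?_
        rw [norm_mul]
        have h2 := ex_entry hπ z.2 a j
        have h3 := hN0 N hN z.1 hz i a
        calc _ ≤ 1 * (ε / (m + 1) * N) := by gcongr
          _ = _ := by ring
    _ = m * (ε / (m + 1) * N) := by
        rw [sum_const, card_univ, nsmul_eq_mul, Fintype.card_fin]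
    _ ≤ (m + 1) * (ε / (m + 1) * N) := by
        have : 0 ≤ ε / (m + 1) * N := by positivity
        nlinarith
    _ = ε * N := by field_simp

end

theorem ext_orth {X : Type} [TopologicalSpace X] [CompactSpace X] [T2Space X] {T : X → X} {u : ℕ → ℂ} {Z : Set X}
    (hc : CocOrthY T u Z) (hu : ∀ n, ‖u n‖ ≤ 1) {G : Type} [Group G] [TopologicalSpace G] [IsTopologicalGroup G]
    [CompactSpace G] [T2Space G] {φ : X → G} (hφ : Continuous φ) (F : C(X × G, ℂ)) :
    OrthOn (HT.skew T φ) F u (Prod.fst ⁻¹' Z) := by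
  have key : ∀ g : X × G → ℂ, g ∈ Submodule.span ℂ (eySet X G) →
      OrthOn (HT.skew T φ) g u (Prod.fst ⁻¹' Z) := by
    intro g hg
    induction hg using Submodule.span_induction with
    | mem h hh =>
      obtain ⟨k, m, π, hπ, i, j, rfl⟩ := hh
      exact ey_gen hc hφ k hπ i j
    | zero => exact po_zero
    | add x y _ _ hx hy => exact po_add hx hy
    | smul c x _ hx => exact po_smul hx c
  refine po_approx hu fun ε hε => ?_
  obtain ⟨g, hg1, hg2⟩ := ey_dense (fun g hg => pw_sep hg) F ε hε
  exact ⟨g, hg1, key _ hg2⟩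

end Pool.Agent.Lib.MP_9fe581_an.HX
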