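import Pool.Agent.Lib.MP_9fe581_an.HX.Defs

/-!
# HX: elementary facts for families with an observable

Continuity and size of `FF`, the Gram matrices along the orbit, the form `Phi`.
-/

set_option autoImplicit false

open Finset MeasureTheory Filter Topology UnitAddTorus
open scoped ComplexConjugate Matrix

namespace Pool.Agent.Lib.MP_9fe581_an.HX

open Pool.Agent.Lib.MP_9fe581_an.HD

section abs

variable {Y : Type} [TopologicalSpace Y] {ι : Type} [Fintype ι] [DecidableEq ι] {S : Y → Y} {X : ℕ → Y → Matrix ι ι ℂ}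

theorem FF_cont (hX : Fam S X) (n : ℕ) : Continuous (FF X n) := by
  unfold FF
  exact ((hX.cont n).matrix_mul (hX.cont 0).matrix_conjTranspose).matrix_trace

theorem FF_le (hX : Fam S X) (n : ℕ) (y : Y) : ‖FF X n y‖ ≤ (Fintype.card ι : ℝ) ^ 2 := by
  unfold FF
  rw [Matrix.trace]
  have h1 : ∀ i : ι, ‖(X n y * (X 0 y)ᴴ).diag i‖ ≤ Fintype.card ι := by
    intro i
    rw [Matrix.diag_apply, Matrix.mul_apply]
    refine (norm_sum_le _ _).trans ?_
    have h2 : ∀ j ∈ Finset.univ, ‖X n y i j * (X 0 y)ᴴ j i‖ ≤ 1 := by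
      intro j _
      rw [norm_mul, Matrix.conjTranspose_apply, norm_star]
      exact mul_le_one₀ (hX.bd _ _ _ _) (norm_nonneg _) (hX.bd _ _ _ _)
    refine (Finset.sum_le_sum h2).trans (le_of_eq ?_)
    rw [Finset.sum_const, Finset.card_univ, nsmul_eq_mul, mul_one]
  refine (norm_sum_le _ _).trans ((Finset.sum_le_sum fun i _ => h1 i).trans (le_of_eq ?_))
  rw [Finset.sum_const, Finset.card_univ, nsmul_eq_mul]
  ring

theorem gram (hX : Fam S X) (l l' k : ℕ) (y : Y) :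
    X (l + k) y * (X (l' + k) y)ᴴ = X l (S^[k] y) * (X l' (S^[k] y))ᴴ := by
  obtain ⟨V, _, hV⟩ := hX.add k y
  rw [(hV l).1, (hV l').1, Matrix.conjTranspose_mul, mul_assoc, ← mul_assoc V, ← mul_assoc, (hV l).2]

theorem sX_gt (hX : Fam S X) (p l l' : ℕ) (h : l' ≤ l) (u : Y) :
    sX X p l l' u = FF X (p * (l - l')) (S^[p * l'] u) := by
  have h1 := gram hX (p * (l - l')) 0 (p * l') u
  have h2 : p * (l - l') + p * l' = p * l := by
    rw [← Nat.mul_add, Nat.sub_add_cancel h]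
  rw [h2, Nat.zero_add] at h1
  unfold sX FF
  rw [h1]

private theorem sX_eq (X : ℕ → Y → Matrix ι ι ℂ) (p l l' : ℕ) (u : Y) :
    sX X p l l' u = ∑ a, ∑ b, X (p * l) u a b * conj (X (p * l') u a b) := by
  simp [sX, Matrix.trace, Matrix.mul_apply, Matrix.conjTranspose_apply]

theorem sX_symm (X : ℕ → Y → Matrix ι ι ℂ) (p l l' : ℕ) (u : Y) : sX X p l' l u = conj (sX X p l l' u) := by
  simp only [sX_eq, map_sum, map_mul, Complex.conj_conj]
  exact Finset.sum_congr rfl fun a _ => Finset.sum_congr rfl fun b _ => mul_comm _ _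

theorem Phi_nonneg (X : ℕ → Y → Matrix ι ι ℂ) (p q L : ℕ) (u v : Y) : 0 ≤ Phi X p q L u v := by
  unfold Phi
  exact Finset.sum_nonneg fun a _ => Finset.sum_nonneg fun b _ => Finset.sum_nonneg fun c _ =>
    Finset.sum_nonneg fun f _ => by positivity

theorem Phi_cont (hX : Fam S X) (p q L : ℕ) : Continuous fun z : Y × Y => Phi X p q L z.1 z.2 := by
  unfold Phi Wt
  refine continuous_finsetSum _ fun a _ => continuous_finsetSum _ fun b _ =>
    continuous_finsetSum _ fun c _ => continuous_finsetSum _ fun f _ => ?_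
  refine (Continuous.norm (continuous_const.mul (continuous_finsetSum _ fun l _ => ?_))).pow 2
  exact (((hX.cont _).comp continuous_fst).matrix_elem a b).mul
    (Complex.continuous_conj.comp (((hX.cont _).comp continuous_snd).matrix_elem c f))

private theorem phi_eq (X : ℕ → Y → Matrix ι ι ℂ) (p q L : ℕ) (u v : Y) :
    ((Phi X p q L u v : ℝ) : ℂ) =
      (1 / (L : ℂ) ^ 2) * ∑ l ∈ range L, ∑ l' ∈ range L, sX X p l l' u * conj (sX X q l l' v) := by
  have h1 : ∀ a b c f : ι, ((‖Wt X p q L u v a b c f‖ ^ 2 : ℝ) : ℂ) =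
      (1 / (L : ℂ) ^ 2) * ∑ l ∈ range L, ∑ l' ∈ range L,
        (X (p * l) u a b * conj (X (p * l') u a b)) *
          (conj (X (q * l) v c f) * X (q * l') v c f) := by
    intro a b c f
    rw [Complex.ofReal_pow, ← Complex.mul_conj', Wt, map_mul, map_sum]
    have : conj (1 / (L : ℂ)) = 1 / (L : ℂ) := by simp
    rw [this]
    have h2 : (∑ l ∈ range L, X (p * l) u a b * conj (X (q * l) v c f)) *
        (∑ l ∈ range L, conj (X (p * l) u a b * conj (X (q * l) v c f))) =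
        ∑ l ∈ range L, ∑ l' ∈ range L,
        (X (p * l) u a b * conj (X (p * l') u a b)) *
          (conj (X (q * l) v c f) * X (q * l') v c f) := by
      rw [Finset.sum_mul_sum]
      refine Finset.sum_congr rfl fun l _ => Finset.sum_congr rfl fun l' _ => ?_
      rw [map_mul, Complex.conj_conj]; ring
    rw [← h2]; ring
  unfold Phi
  push_cast
  have h3 : ∀ a b c f : ι, ((‖Wt X p q L u v a b c f‖ : ℂ) ^ 2) =
      (1 / (L : ℂ) ^ 2) * ∑ l ∈ range L, ∑ l' ∈ range L,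
        (X (p * l) u a b * conj (X (p * l') u a b)) *
          (conj (X (q * l) v c f) * X (q * l') v c f) := by
    intro a b c f
    rw [← h1 a b c f]; push_cast; rfl
  simp_rw [h3, ← Finset.mul_sum]
  congr 1
  simp_rw [sX_eq, map_sum, map_mul, Complex.conj_conj]
  -- move the sums over l, l' outside
  have h4 : ∀ g : ι → ι → ι → ι → ℕ → ℕ → ℂ, (∑ a, ∑ b, ∑ c, ∑ f, ∑ l ∈ range L, ∑ l' ∈ range L, g a b c f l l') =
      ∑ l ∈ range L, ∑ l' ∈ range L, ∑ a, ∑ b, ∑ c, ∑ f, g a b c f l l' := by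
    intro g
    have h5 : ∀ h : ι → ι → ι → ι → ℂ, (∑ a, ∑ b, ∑ c, ∑ f, h a b c f) =
        ∑ x : ι × ι × ι × ι, h x.1 x.2.1 x.2.2.1 x.2.2.2 := by
      intro h; simp [Fintype.sum_prod_type]
    simp_rw [h5]
    rw [Finset.sum_comm]
    exact Finset.sum_congr rfl fun l _ => Finset.sum_comm
  rw [h4]
  refine Finset.sum_congr rfl fun l _ => Finset.sum_congr rfl fun l' _ => ?_
  simp_rw [Finset.sum_mul, Finset.mul_sum]

theorem sum_Phi (X : ℕ → Y → Matrix ι ι ℂ) (P : Finset ℕ) (L : ℕ) (u : ℕ → Y) :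
    ∑ p ∈ P, ∑ q ∈ P, Phi X p q L (u p) (u q) =
      (1 / (L : ℝ) ^ 2) * ∑ l ∈ range L, ∑ l' ∈ range L, ‖∑ p ∈ P, sX X p l l' (u p)‖ ^ 2 := by
  have h : ((∑ p ∈ P, ∑ q ∈ P, Phi X p q L (u p) (u q) : ℝ) : ℂ) =
      (((1 / (L : ℝ) ^ 2) * ∑ l ∈ range L, ∑ l' ∈ range L, ‖∑ p ∈ P, sX X p l l' (u p)‖ ^ 2 : ℝ) : ℂ) := by
    push_cast
    simp_rw [phi_eq, ← Finset.mul_sum, ← Complex.mul_conj', map_sum, Finset.sum_mul_sum]
    congr 1
    have h6 : ∀ g : ℕ → ℕ → ℕ → ℕ → ℂ, (∑ p ∈ P, ∑ q ∈ P, ∑ l ∈ range L, ∑ l' ∈ range L, g p q l l') =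
        ∑ l ∈ range L, ∑ l' ∈ range L, ∑ p ∈ P, ∑ q ∈ P, g p q l l' := by
      intro g
      have h5 : ∀ h : ℕ → ℕ → ℂ, (∑ p ∈ P, ∑ q ∈ P, h p q) = ∑ x ∈ P ×ˢ P, h x.1 x.2 := by
        intro h; rw [Finset.sum_product]
      simp_rw [h5]
      rw [Finset.sum_comm]
      exact Finset.sum_congr rfl fun l _ => Finset.sum_comm
    exact h6 _
  exact_mod_cast h

end abs

end Pool.Agent.Lib.MP_9fe581_an.HX
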