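import Pool.Agent.Lib.MP_9fe581_an.HX.Main
import Pool.Agent.Lib.MP_9fe581_an.HX.BaseU
import Pool.Agent.Lib.MP_9fe581_an.HX.Coc
import Pool.Agent.Lib.MP_9fe581_an.HX.ErgS
import Pool.Agent.Lib.MP_9fe581_an.HX.CharS
import Pool.Agent.Lib.MP_9fe581_an.HD.Final

/-!
# HX: the final theorem over unipotent affine maps

Uniform orthogonality of all continuous functions of an ergodic extension of a unipotent affine map of a torus by a
compact connected linear group, with any continuous cocycle, to all bounded multiplicative functions.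
-/

set_option autoImplicit false

open Finset MeasureTheory Filter Topology UnitAddTorus
open scoped ComplexConjugate Matrix

namespace Pool.Agent.Lib.MP_9fe581_an.HX

open Pool.Agent.Lib.MP_9fe581_an.HD

/-! ### characters of the torus -/

theorem fx_int_mF {D : ℕ} (k : Fin D → ℤ) (hk : k ≠ 0) : ∫ x, mFourier k x ∂mT D = 0 := by
  obtain ⟨i, hi⟩ := Function.ne_iff.1 hk
  have hi : k i ≠ 0 := hi
  refine fin_int_mF k (α := Pi.single i (((1 : ℝ) / 2 / (k i : ℤ) : ℝ) : UnitAddCircle)) ?_
  rw [mFourier]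
  simp only [ContinuousMap.coe_mk]
  rw [prod_eq_single i]
  · rw [Pi.single_eq_same]
    have h := fourier_add_half_inv_index hi (one_pos : (0 : ℝ) < 1) (0 : UnitAddCircle)
    rw [zero_add, fourier_eval_zero] at h
    rw [h]
    norm_num
  · intro j _ hj
    rw [Pi.single_eq_of_ne hj, fourier_eval_zero]
  · intro h
    exact absurd (mem_univ i) h

/-! ### the generators -/

section gens

variable {D : ℕ} {ι : Type} [Fintype ι] [DecidableEq ι] {G : Type} [Group G] [TopologicalSpace G] [IsTopologicalGroup G]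
  [CompactSpace G] [T2Space G] [SecondCountableTopology G] [MeasurableSpace G] [BorelSpace G]
  {μ : Measure G} [μ.IsHaarMeasure] [IsProbabilityMeasure μ] {φ : Td D → G} {N : Matrix (Fin D) (Fin D) ℤ} {β : Td D}

/-- the part off the fixed vectors -/
theorem fx_off [ConnectedSpace G] {π : G → Matrix ι ι ℂ} (hπ : URep π) (k : Fin D → ℤ) (hN : IsNilpotent N)
    (hφ : Continuous φ) (hT : Ergodic (skewS (uS N β) φ) ((mT D).prod μ)) (i j : ι) :
    UnifOrth (skewS (uS N β) φ) (fun z => mFourier k z.1 * ((1 - fixP μ π) * π z.2) i j) := by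
  intro u hu ε hε
  obtain ⟨s, hs⟩ := hN
  have hirr := irr_of_erg hφ hT
  have hc : (0 : ℝ) < Fintype.card ι + 1 := by positivity
  obtain ⟨N0, hN0⟩ := obs_noRat (baseU hs hirr) (XG_fam (μ := μ) (φ := φ) hπ k uS_cont hφ)
    (noRat_XG hπ k uS_cont hφ hT) hu (ε / (Fintype.card ι + 1)) (by positivity)
  refine ⟨N0, fun M hM z => ?_⟩
  have e : ∑ n ∈ Icc 1 M, u n * (mFourier k ((skewS (uS N β) φ)^[n] z).1 *
      ((1 - fixP μ π) * π ((skewS (uS N β) φ)^[n] z).2) i j) =
      ∑ a, π z.2 a j * ∑ n ∈ Icc 1 M, u n * XG μ π k (uS N β) φ n z.1 i a := by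
    simp_rw [mul_sum]
    rw [sum_comm]
    refine sum_congr rfl fun n _ => ?_
    rw [XG_orbit hπ k n z i j, mul_sum]
    exact sum_congr rfl fun a _ => by ring
  rw [e]
  calc _ ≤ ∑ a, ‖π z.2 a j * ∑ n ∈ Icc 1 M, u n * XG μ π k (uS N β) φ n z.1 i a‖ := norm_sum_le _ _
    _ ≤ ∑ _a : ι, ε / (Fintype.card ι + 1) * M := by
        refine sum_le_sum fun a _ => ?_
        rw [norm_mul]
        have h2 := fin_entry hπ z.2 a j
        have h3 := hN0 M hM z.1 i a
        calc _ ≤ 1 * (ε / (Fintype.card ι + 1) * M) := by gcongr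
          _ = _ := by ring
    _ = Fintype.card ι * (ε / (Fintype.card ι + 1) * M) := by
        rw [sum_const, card_univ, nsmul_eq_mul]
    _ ≤ (Fintype.card ι + 1) * (ε / (Fintype.card ι + 1) * M) := by
        have : 0 ≤ ε / (Fintype.card ι + 1) * M := by positivity
        nlinarith
    _ = ε * M := by field_simp

/-- characters of the base -/
theorem fx_char (k : Fin D → ℤ) (hk : k ≠ 0) (hN : IsNilpotent N) (hφ : Continuous φ)
    (hT : Ergodic (skewS (uS N β) φ) ((mT D).prod μ)) :
    UnifOrth (skewS (uS N β) φ) (fun z => mFourier k z.1) := by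
  intro u hu ε hε
  obtain ⟨s, hs⟩ := id hN
  have hirr := irr_of_erg hφ hT
  obtain ⟨N0, hN0⟩ := obs_noRat (baseU hs hirr) (XC_fam k (uS_cont (N := N) (β := β)))
    (XC_noRat hN hirr k hk) hu ε hε
  refine ⟨N0, fun M hM z => ?_⟩
  have h := hN0 M hM z.1 0 0
  have e : ∑ n ∈ Icc 1 M, u n * mFourier k ((skewS (uS N β) φ)^[n] z).1 =
      ∑ n ∈ Icc 1 M, u n * (mFourier k ((uS N β)^[n] z.1) • (1 : Matrix (Fin 1) (Fin 1) ℂ)) 0 0 := by
    refine sum_congr rfl fun n _ => ?_
    rw [skewS_iter]
    simp only [Matrix.smul_apply, Matrix.one_apply_eq, smul_eq_mul, mul_one]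
  rw [e]
  exact h

/-- a matrix coefficient minus its integral -/
theorem fx_gen [ConnectedSpace G] {π : G → Matrix ι ι ℂ} (hπ : URep π) (k : Fin D → ℤ) (hN : IsNilpotent N)
    (hφ : Continuous φ) (hT : Ergodic (skewS (uS N β) φ) ((mT D).prod μ)) (i j : ι) :
    UnifOrth (skewS (uS N β) φ)
      (fun z => mFourier k z.1 * π z.2 i j - ∫ w, mFourier k w.1 * π w.2 i j ∂(mT D).prod μ) := by
  have hI : ∫ w, mFourier k w.1 * π w.2 i j ∂(mT D).prod μ = (∫ x, mFourier k x ∂mT D) * fixP μ π i j := by
    have := integral_prod_mul (μ := mT D) (ν := μ) (fun x => mFourier k x) (fun y => π y i j)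
    rw [this]
    rfl
  have hdec : ∀ y : G, π y i j = ((1 - fixP μ π) * π y) i j + fixP μ π i j := by
    intro y
    rw [Matrix.sub_mul, Matrix.one_mul, fixP_pi hπ y, Matrix.sub_apply]
    ring
  have h1 := fx_off (μ := μ) hπ k hN hφ hT i j
  by_cases hk : k = 0
  · subst hk
    have e : (fun z : Td D × G => mFourier 0 z.1 * π z.2 i j - ∫ w, mFourier 0 w.1 * π w.2 i j ∂(mT D).prod μ) =
        fun z => mFourier 0 z.1 * ((1 - fixP μ π) * π z.2) i j := by
      funext z
      rw [hI, hdec z.2]
      simp only [mFourier_zero, ContinuousMap.one_apply, one_mul, integral_const, probReal_univ, one_smul]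
      ring
    rw [e]
    exact h1
  · have e : (fun z : Td D × G => mFourier k z.1 * π z.2 i j - ∫ w, mFourier k w.1 * π w.2 i j ∂(mT D).prod μ) =
        fun z => mFourier k z.1 * ((1 - fixP μ π) * π z.2) i j + fixP μ π i j * mFourier k z.1 := by
      funext z
      rw [hI, hdec z.2, fx_int_mF k hk]
      ring
    rw [e]
    exact uo_add h1 (uo_smul (fx_char k hk hN hφ hT) _)

end gens

variable {D : ℕ} {G : Type} [Group G] [TopologicalSpace G] [IsTopologicalGroup G]
  [CompactSpace G] [T2Space G] [SecondCountableTopology G] [MeasurableSpace G] [BorelSpace G]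
  {μ : Measure G} [μ.IsHaarMeasure] [IsProbabilityMeasure μ] {φ : Td D → G}

/-- **the theorem over unipotent affine maps, compact connected linear fibres** -/
theorem unifOrth_uni {n : ℕ} {ρ : G → Matrix (Fin n) (Fin n) ℂ} [ConnectedSpace G] (hρ : URep ρ)
    (hinj : Function.Injective ρ) {N : Matrix (Fin D) (Fin D) ℤ} {β : Td D} (hN : IsNilpotent N)
    (hφ : Continuous φ) (hT : Ergodic (skewS (uS N β) φ) ((mT D).prod μ)) (f : C(Td D × G, ℂ)) :
    UnifOrth (skewS (uS N β) φ) (fun z => f z - ∫ w, f w ∂(mT D).prod μ) := by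
  have key : ∀ g : Td D × G → ℂ, g ∈ Submodule.span ℂ {h : Td D × G → ℂ | ∃ (k : Fin D → ℤ) (a b : ℕ)
      (s t : (Fin a → Fin n) × (Fin b → Fin n)), h = fun z => mFourier k z.1 * tens ρ a b z.2 s t} →
      Continuous g ∧ UnifOrth (skewS (uS N β) φ) (fun z => g z - ∫ w, g w ∂(mT D).prod μ) := by
    intro g hg
    induction hg using Submodule.span_induction with
    | mem h hh =>
      obtain ⟨k, a, b, s, t, rfl⟩ := hh
      have hπ := tens_urep hρ a b
      refine ⟨?_, fx_gen hπ k hN hφ hT s t⟩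
      have hc : Continuous fun y => tens ρ a b y s t := (hπ.cont.matrix_elem s t)
      exact ((mFourier k).continuous.comp continuous_fst).mul (hc.comp continuous_snd)
    | zero =>
      refine ⟨continuous_const, ?_⟩
      simp only [Pi.zero_apply, integral_zero, sub_zero]
      exact uo_zero
    | add x y _ _ hx hy =>
      refine ⟨hx.1.add hy.1, ?_⟩
      have ix : Integrable x ((mT D).prod μ) := hx.1.integrable_of_hasCompactSupport (HasCompactSupport.of_compactSpace x)
      have iy : Integrable y ((mT D).prod μ) := hy.1.integrable_of_hasCompactSupport (HasCompactSupport.of_compactSpace y)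
      have e : (fun z : Td D × G => (x + y) z - ∫ w, (x + y) w ∂(mT D).prod μ) =
          fun z => (x z - ∫ w, x w ∂(mT D).prod μ) + (y z - ∫ w, y w ∂(mT D).prod μ) := by
        funext z
        have : ∫ w, (x + y) w ∂(mT D).prod μ = ∫ w, x w ∂(mT D).prod μ + ∫ w, y w ∂(mT D).prod μ :=
          integral_add ix iy
        rw [this]
        simp only [Pi.add_apply]
        ring
      rw [e]
      exact uo_add hx.2 hy.2
    | smul c x _ hx =>
      refine ⟨hx.1.const_smul c, ?_⟩
      have e : (fun z : Td D × G => (c • x) z - ∫ w, (c • x) w ∂(mT D).prod μ) =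
          fun z => c * (x z - ∫ w, x w ∂(mT D).prod μ) := by
        funext z
        have : ∫ w, (c • x) w ∂(mT D).prod μ = c * ∫ w, x w ∂(mT D).prod μ := by
          have := integral_const_mul (μ := (mT D).prod μ) c x
          exact this
        rw [this]
        simp only [Pi.smul_apply, smul_eq_mul]
        ring
      rw [e]
      exact uo_smul hx.2 c
  refine uo_approx fun ε hε => ?_
  obtain ⟨g, hg1, hg2⟩ := coef_dense hρ hinj f (ε / 2) (half_pos hε)
  obtain ⟨hc, hu⟩ := key _ hg2
  refine ⟨_, fun z => ?_, hu⟩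
  have hfi : Integrable (fun w => f w) ((mT D).prod μ) :=
    f.continuous.integrable_of_hasCompactSupport (HasCompactSupport.of_compactSpace _)
  have hgi : Integrable (fun w => g w) ((mT D).prod μ) :=
    g.continuous.integrable_of_hasCompactSupport (HasCompactSupport.of_compactSpace _)
  have h1 : ‖∫ w, f w ∂(mT D).prod μ - ∫ w, g w ∂(mT D).prod μ‖ ≤ ε / 2 := by
    rw [← integral_sub hfi hgi]
    have := norm_integral_le_of_norm_le_const (μ := (mT D).prod μ) (f := fun w => f w - g w) (C := ε / 2)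
      (Eventually.of_forall hg1)
    simpa using this
  have e : (f z - ∫ w, f w ∂(mT D).prod μ) - (g z - ∫ w, g w ∂(mT D).prod μ) =
      (f z - g z) - (∫ w, f w ∂(mT D).prod μ - ∫ w, g w ∂(mT D).prod μ) := by ring
  rw [e]
  calc _ ≤ _ := norm_sub_le _ _
    _ ≤ ε / 2 + ε / 2 := add_le_add (hg1 z) h1
    _ = ε := by ring

end Pool.Agent.Lib.MP_9fe581_an.HX
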