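import Pool.Agent.Lib.MP_9fe581_an.HX.DefsQ
import Pool.Agent.Lib.MP_9fe581_an.HT.MaxMeas
import Pool.Agent.Lib.MP_9fe581_an.HT.Defs

/-!
# HX: the `Good` bases of HT (in particular the Furstenberg towers) have property (P) on windows
-/

set_option autoImplicit false

open Finset MeasureTheory Filter Topology
open scoped ComplexConjugate Matrix

namespace Pool.Agent.Lib.MP_9fe581_an.HX

variable {Y : Type} [TopologicalSpace Y]

omit [TopologicalSpace Y] in
private theorem gq_iter {P : Finset ℕ} (T : Y → Y) (m : ℕ) (z : P → Y) :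
    (fun (z : P → Y) (p : P) => T^[(p : ℕ)] (z p))^[m] z = fun p : P => T^[(p : ℕ) * m] (z p) := by
  induction m generalizing z with
  | zero => funext p; simp
  | succ m ih =>
    rw [Function.iterate_succ_apply, ih]
    funext p
    rw [← Function.iterate_add_apply, Nat.mul_succ]

private theorem gq_win (F : ℕ → ℝ) (M M1 : ℕ) :
    ∑ m ∈ Ioc M1 (M1 + M), F m = ∑ m ∈ Icc 1 M, F (M1 + m) := by
  refine Finset.sum_nbij' (fun m => m - M1) (fun m => M1 + m) ?_ ?_ ?_ ?_ ?_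
  · intro m hm
    simp only [Finset.mem_Ioc, Finset.mem_Icc] at hm ⊢
    omega
  · intro m hm
    simp only [Finset.mem_Ioc, Finset.mem_Icc] at hm ⊢
    omega
  · intro m hm
    simp only [Finset.mem_Ioc] at hm
    omega
  · intro m hm
    omega
  · intro m hm
    simp only [Finset.mem_Ioc] at hm
    have : M1 + (m - M1) = m := by omega
    simp only [this]

variable [CompactSpace Y] [TopologicalSpace.MetrizableSpace Y] [MeasurableSpace Y] [BorelSpace Y]

private theorem gq_P {T : Y → Y} {μ : Measure Y} (g : HT.Good T μ) (Q : Finset ℕ) (hQ : ∀ p ∈ Q, p.Prime)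
    (f : ℕ → C(Y, ℂ)) (B : ℝ) (hB : ∀ p ∈ Q, ∀ y, ‖f p y‖ ≤ B) (ε : ℝ) (hε : 0 < ε) :
    ∃ M0 : ℕ, ∀ M ≥ M0, ∀ (M1 : ℕ) (y : Y),
      ∑ k ∈ Ioc M1 (M1 + M), ‖∑ p ∈ Q, f p (T^[p * k] y)‖ ^ 2 ≤
        (‖∑ p ∈ Q, ∫ y, f p y ∂μ‖ ^ 2 + Q.card * B ^ 2 +
          ∑ p ∈ Q, ∑ i, ∑ q ∈ Q, (jq (g.σ i q) (f p) - jq (g.σi i) (f p)) + ε) * M := by
  classical
  have := g.prob
  have : Nonempty Y := by
    by_contra h
    rw [not_nonempty_iff] at h
    have h1 : μ = 0 := Measure.eq_zero_of_isEmpty μ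
    have h2 : μ Set.univ = 1 := measure_univ
    rw [h1] at h2
    simp at h2
  set SZ : (Q → Y) → (Q → Y) := fun z p => T^[(p : ℕ)] (z p) with hSZ
  have hSZc : Continuous SZ := continuous_pi fun p => (g.cont.iterate _).comp (continuous_apply p)
  set Φ : (Q → Y) → ℝ := fun z => ‖∑ p : Q, f p (z p)‖ ^ 2 with hΦ
  have hΦc : Continuous Φ := by
    refine (Continuous.norm ?_).pow 2
    exact continuous_finsetSum _ fun p _ => (f p).continuous.comp (continuous_apply p)
  obtain ⟨ρ, hρ1, hρ2, hρ3⟩ := HT.max_meas SZ hSZc Φ hΦc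
  set R : ℕ → ℕ → Measure (Y × Y) := fun p q =>
    if h : p ∈ Q ∧ q ∈ Q then Measure.map (fun z : Q → Y => (z ⟨p, h.1⟩, z ⟨q, h.2⟩)) ρ else 0 with hR
  have hRe : ∀ p q : Q, R p q = Measure.map (fun z : Q → Y => (z p, z q)) ρ := by
    intro p q
    have h : (p : ℕ) ∈ Q ∧ (q : ℕ) ∈ Q := ⟨p.2, q.2⟩
    simp only [hR, dif_pos h]
  have hpc : ∀ p q : Q, Continuous (fun z : Q → Y => (z p, z q)) := fun p q =>
    (continuous_apply p).prodMk (continuous_apply q)
  have hR1 : ∀ p ∈ Q, ∀ q ∈ Q, IsProbabilityMeasure (R p q) ∧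
      MeasurePreserving (Prod.map T^[p] T^[q]) (R p q) (R p q) := by
    intro p hp q hq
    have h1 := hRe ⟨p, hp⟩ ⟨q, hq⟩
    simp only at h1
    rw [h1]
    refine ⟨Measure.isProbabilityMeasure_map (hpc _ _).measurable.aemeasurable, ?_, ?_⟩
    · exact ((g.cont.iterate _).prodMap (g.cont.iterate _)).measurable
    · rw [Measure.map_map ((g.cont.iterate _).prodMap (g.cont.iterate _)).measurable (hpc _ _).measurable]
      have h2 : (Prod.map T^[p] T^[q]) ∘ (fun z : Q → Y => (z ⟨p, hp⟩, z ⟨q, hq⟩)) =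
          (fun z : Q → Y => (z ⟨p, hp⟩, z ⟨q, hq⟩)) ∘ SZ := by
        funext z
        rfl
      rw [h2, ← Measure.map_map (hpc _ _).measurable hSZc.measurable, hρ2.map_eq]
  have hsv := g.sieve Q hQ (fun p y => f p y) B (fun p _ => (f p).continuous) hB R hR1
  have hint : (((∫ z, Φ z ∂ρ : ℝ)) : ℂ) = ∑ p ∈ Q, ∑ q ∈ Q, ∫ z, f p z.1 * conj (f q z.2) ∂(R p q) := by
    rw [← integral_complex_ofReal]
    have h1 : ∀ z : Q → Y, ((Φ z : ℝ) : ℂ) = ∑ p : Q, ∑ q : Q, f p (z p) * conj (f q (z q)) := by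
      intro z
      simp only [hΦ]
      push_cast
      rw [← Complex.mul_conj', map_sum, Finset.sum_mul_sum]
    simp only [h1]
    have hc : ∀ p q : Q, Continuous fun z : Q → Y => f p (z p) * conj (f q (z q)) := fun p q =>
      ((f p).continuous.comp (continuous_apply p)).mul
        (Complex.continuous_conj.comp ((f q).continuous.comp (continuous_apply q)))
    have hI : ∀ p q : Q, Integrable (fun z : Q → Y => f p (z p) * conj (f q (z q))) ρ := fun p q =>
      (hc p q).integrable_of_hasCompactSupport (HasCompactSupport.of_compactSpace _)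
    rw [integral_finsetSum _ fun p _ => integrable_finsetSum _ fun q _ => hI p q]
    rw [← Finset.sum_coe_sort Q (fun p => ∑ q ∈ Q, ∫ z, f p z.1 * conj (f q z.2) ∂(R p q))]
    refine Finset.sum_congr rfl fun p _ => ?_
    rw [integral_finsetSum _ fun q _ => hI p q]
    rw [← Finset.sum_coe_sort Q (fun q => ∫ z, f p z.1 * conj (f q z.2) ∂(R p q))]
    refine Finset.sum_congr rfl fun q _ => ?_
    rw [hRe p q, integral_map (hpc p q).measurable.aemeasurable]
    refine Continuous.aestronglyMeasurable ?_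
    exact ((f p).continuous.comp continuous_fst).mul
      (Complex.continuous_conj.comp ((f q).continuous.comp continuous_snd))
  have hle : ∫ z, Φ z ∂ρ ≤ ‖∑ p ∈ Q, ∫ y, f p y ∂μ‖ ^ 2 + Q.card * B ^ 2 +
      ∑ p ∈ Q, ∑ i, ∑ q ∈ Q, (jq (g.σ i q) (f p) - jq (g.σi i) (f p)) := by
    have h1 : ∫ z, Φ z ∂ρ = (((∫ z, Φ z ∂ρ : ℝ)) : ℂ).re := (Complex.ofReal_re _).symm
    rw [h1, hint]
    refine (Complex.re_le_norm _).trans (hsv.trans (le_of_eq ?_))
    refine congrArg _ (Finset.sum_congr rfl fun p _ => ?_)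
    rw [Finset.sum_comm]
    refine Finset.sum_congr rfl fun s _ => Finset.sum_congr rfl fun q _ => ?_
    rw [Complex.sub_re]
    rfl
  obtain ⟨M0, hM0⟩ := hρ3 ε hε
  refine ⟨M0, fun M hM M1 y => ?_⟩
  rcases Nat.eq_zero_or_pos M with h0 | hpos
  · subst h0
    simp
  have hMr : (0 : ℝ) < M := by exact_mod_cast hpos
  have h1 := hM0 M hM (fun p : Q => T^[(p : ℕ) * M1] y)
  rw [one_div, inv_mul_le_iff₀ hMr] at h1
  have h2 : ∑ k ∈ Ioc M1 (M1 + M), ‖∑ p ∈ Q, f p (T^[p * k] y)‖ ^ 2 =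
      ∑ m ∈ Icc 1 M, Φ (SZ^[m] fun p : Q => T^[(p : ℕ) * M1] y) := by
    rw [gq_win]
    refine Finset.sum_congr rfl fun m _ => ?_
    simp only [hΦ, hSZ]
    rw [gq_iter]
    rw [← Finset.sum_coe_sort Q (fun p => f p (T^[p * (M1 + m)] y))]
    refine congrArg (fun w : ℂ => ‖w‖ ^ 2) (Finset.sum_congr rfl fun p _ => ?_)
    beta_reduce
    rw [← Function.iterate_add_apply, ← Nat.mul_add, Nat.add_comm m M1]
  rw [h2]
  calc _ ≤ (M : ℝ) * (∫ z, Φ z ∂ρ + ε) := h1
    _ = (∫ z, Φ z ∂ρ + ε) * M := mul_comm _ _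
    _ ≤ _ := mul_le_mul_of_nonneg_right (by linarith) hMr.le

/-- `Good` bases have property (P) with windows -/
theorem goodQ {T : Y → Y} {μ : Measure Y} (g : HT.Good T μ) :
    BaseQ T μ (fun (i : Fin g.h) q => {m : Measure (Y × Y) | 0 < q ∧ m = g.σ i q}) g.σi 0 where
  cont := g.cont
  prob := g.prob
  mp := g.pres
  C0_nonneg := le_rfl
  lprob i q m hm := by rw [hm.2]; exact g.probσ i q hm.1
  linv i q m hm := by rw [hm.2]; exact g.invσ i q hm.1
  iprob := g.probi
  iinv := g.invi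
  pos i q m hm f := by
    rw [hm.2]
    have h1 := g.pos i q hm.1 f f.continuous
    rw [Complex.sub_re] at h1
    exact sub_nonneg.1 h1
  lim i f ε hε := by
    have hc : Continuous fun z : Y × Y => f z.1 * conj (f z.2) :=
      (f.continuous.comp continuous_fst).mul (Complex.continuous_conj.comp (f.continuous.comp continuous_snd))
    have h1 := (Complex.continuous_re.tendsto _).comp (g.lim i _ hc)
    have h2 := h1.eventually (gt_mem_nhds (show jq (g.σi i) f < jq (g.σi i) f + ε by linarith))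
    obtain ⟨q0, hq0⟩ := eventually_atTop.1 h2
    exact ⟨q0, fun q hq m hm => by rw [hm.2]; exact (hq0 q hq).le⟩
  P Q hQ f B hB ε hε := by
    obtain ⟨M0, hM0⟩ := gq_P g Q hQ f B hB ε hε
    refine ⟨M0, fun M hM M1 y => ⟨g.σ, fun i q hq => ⟨(hQ q hq).pos, rfl⟩, ?_⟩⟩
    have h1 := hM0 M hM M1 y
    rw [zero_mul, zero_mul, zero_mul, add_zero]
    exact h1

end Pool.Agent.Lib.MP_9fe581_an.HX
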