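import Mathlib

/-!
# HX: integer matrices all whose eigenvalues lie in the closed unit disc (Kronecker)
-/

set_option autoImplicit false

open Polynomial

namespace Pool.Agent.Lib.MP_9fe581_an.HX

theorem kron {D : ℕ} (B : Matrix (Fin D) (Fin D) ℤ)
    (hB : ∀ z : ℂ, (B.map (Int.cast : ℤ → ℂ)).charpoly.IsRoot z → ‖z‖ ≤ 1) :
    ∃ q s : ℕ, 0 < q ∧ B ^ s * (B ^ q - 1) ^ s = 0 := by
  classical
  set f : ℤ →+* ℂ := Int.castRingHom ℂ with hf
  set p : ℤ[X] := B.charpoly with hp
  have hmap : p.map f = (B.map f).charpoly := (Matrix.charpoly_map B f).symm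
  have hroot : ∀ z : ℂ, (p.map f).IsRoot z → ‖z‖ ≤ 1 := by
    intro z hz
    rw [hmap] at hz
    exact hB z hz
  have hmonic : (p.map f).Monic := (Matrix.charpoly_monic B).map f
  have hne : p.map f ≠ 0 := hmonic.ne_zero
  have hM : (p.map f).mahlerMeasure = 1 := by
    rw [mahlerMeasure_eq_leadingCoeff_mul_prod_roots, hmonic.leadingCoeff, norm_one, one_mul]
    refine Multiset.prod_eq_one ?_
    intro a ha
    rw [Multiset.mem_map] at ha
    obtain ⟨z, hz, rfl⟩ := ha
    exact max_eq_left (hroot z ((mem_roots hne).1 hz))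
  have hpow : ∀ z ∈ (p.map f).roots, z = 0 ∨ ∃ n : ℕ, 0 < n ∧ z ^ n = 1 := by
    intro z hz
    rcases eq_or_ne z 0 with h0 | h0
    · exact Or.inl h0
    · exact Or.inr (pow_eq_one_of_mahlerMeasure_eq_one hM h0 hz)
  choose! g hg using fun (z : ℂ) (h : ∃ n : ℕ, 0 < n ∧ z ^ n = 1) => h
  set R : Finset ℂ := (p.map f).roots.toFinset.filter fun z => z ≠ 0 with hR
  have hgR : ∀ z ∈ R, 0 < g z ∧ z ^ g z = 1 := by
    intro z hz
    rw [hR, Finset.mem_filter, Multiset.mem_toFinset] at hz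
    rcases hpow z hz.1 with h | h
    · exact absurd h hz.2
    · exact hg z h
  set q : ℕ := ∏ z ∈ R, g z with hq
  have hq0 : 0 < q := Finset.prod_pos fun z hz => (hgR z hz).1
  have hq1 : ∀ z ∈ (p.map f).roots, z = 0 ∨ z ^ q = 1 := by
    intro z hz
    rcases eq_or_ne z 0 with h0 | h0
    · exact Or.inl h0
    · right
      have hzR : z ∈ R := by
        rw [hR, Finset.mem_filter, Multiset.mem_toFinset]
        exact ⟨hz, h0⟩
      obtain ⟨c, hc⟩ := Finset.dvd_prod_of_mem g hzR
      rw [hq, hc, pow_mul, (hgR z hzR).2, one_pow]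
  have hdvd : p.map f ∣ (X * (X ^ q - 1) : ℂ[X]) ^ Multiset.card (p.map f).roots := by
    have h1 : p.map f = ((p.map f).roots.map fun a => X - C a).prod :=
      (IsAlgClosed.splits (p.map f)).eq_prod_roots_of_monic hmonic
    have h2 : ((p.map f).roots.map fun a => X - C a).prod ∣
        ((p.map f).roots.map fun _ => (X * (X ^ q - 1) : ℂ[X])).prod := by
      refine Multiset.prod_dvd_prod_of_dvd _ _ ?_
      intro a ha
      rw [dvd_iff_isRoot, IsRoot, eval_mul, eval_X, eval_sub, eval_pow, eval_X, eval_one]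
      rcases hq1 a ha with h | h
      · rw [h, zero_mul]
      · rw [h, sub_self, mul_zero]
    rw [Multiset.map_const', Multiset.prod_replicate] at h2
    rwa [← h1] at h2
  set s : ℕ := Multiset.card (p.map f).roots with hs
  refine ⟨q, s, hq0, ?_⟩
  have hC : (B.map f) ^ s * ((B.map f) ^ q - 1) ^ s = 0 := by
    obtain ⟨r, hr⟩ := hdvd
    have h1 : aeval (B.map f) ((X * (X ^ q - 1) : ℂ[X]) ^ s) = 0 := by
      rw [hr, map_mul, hmap, Matrix.aeval_self_charpoly, zero_mul]
    rw [mul_pow, map_mul, map_pow, map_pow, map_sub, map_pow, aeval_X, map_one] at h1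
    exact h1
  have hinj : Function.Injective (fun M : Matrix (Fin D) (Fin D) ℤ => M.map f) :=
    Matrix.map_injective (RingHom.injective_int f)
  apply hinj
  show (B ^ s * (B ^ q - 1) ^ s).map f = (0 : Matrix (Fin D) (Fin D) ℤ).map f
  have h2 : (B ^ s * (B ^ q - 1) ^ s).map f = (B.map f) ^ s * ((B.map f) ^ q - 1) ^ s := by
    have h3 := map_mul f.mapMatrix (B ^ s) ((B ^ q - 1) ^ s)
    simp only [map_pow, map_sub, map_one, RingHom.mapMatrix_apply] at h3
    exact h3
  rw [h2, hC]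
  ext i j
  simp

end Pool.Agent.Lib.MP_9fe581_an.HX
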