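import Mathlib

/-!
# HX: binomial coefficients are periodic modulo `N`
-/

set_option autoImplicit false

open Finset

namespace Pool.Agent.Lib.MP_9fe581_an.HX

theorem dvd_choose_mul_factorial (N s j : ℕ) (h1 : 1 ≤ j) (hj : j ≤ s) : N ∣ (N * s.factorial).choose j := by
  obtain ⟨i, rfl⟩ : ∃ i, j = i + 1 := ⟨j - 1, by omega⟩
  obtain ⟨e, he⟩ : i + 1 ∣ s.factorial := Nat.dvd_factorial (Nat.succ_pos i) hj
  rcases Nat.eq_zero_or_pos N with rfl | hN
  · simp
  · obtain ⟨M, hM⟩ : ∃ M, N * s.factorial = M + 1 :=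
      ⟨N * s.factorial - 1, by have := Nat.mul_pos hN (Nat.factorial_pos s); omega⟩
    have h := Nat.add_one_mul_choose_eq M i
    rw [← hM] at h
    refine ⟨e * M.choose i, ?_⟩
    have h2 : (N * s.factorial).choose (i + 1) * (i + 1) = N * (e * M.choose i) * (i + 1) := by
      rw [← h, he]
      ring
    exact Nat.eq_of_mul_eq_mul_right (Nat.succ_pos i) h2

theorem choose_per (N s k : ℕ) (hk : k ≤ s) (n : ℕ) : (n + N * s.factorial).choose k ≡ n.choose k [MOD N] := by
  rw [Nat.add_choose_eq]
  have h : ∑ ij ∈ antidiagonal k, n.choose ij.1 * (N * s.factorial).choose ij.2 ≡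
      ∑ ij ∈ antidiagonal k, (if ij.2 = 0 then n.choose ij.1 else 0) [MOD N] := by
    rw [← ZMod.natCast_eq_natCast_iff]
    push_cast
    refine sum_congr rfl fun ij hij => ?_
    rw [HasAntidiagonal.mem_antidiagonal] at hij
    by_cases h0 : ij.2 = 0
    · simp [h0]
    · rw [if_neg h0]
      have : N ∣ (N * s.factorial).choose ij.2 := dvd_choose_mul_factorial N s ij.2 (by omega) (by omega)
      rw [(ZMod.natCast_eq_zero_iff _ _).2 this, mul_zero]
  refine h.trans ?_
  have h3 : ∑ ij ∈ antidiagonal k, (if ij.2 = 0 then n.choose ij.1 else 0) = n.choose k := by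
    rw [sum_eq_single (k, 0)]
    · simp
    · rintro ⟨a, b⟩ hab hne
      rw [HasAntidiagonal.mem_antidiagonal] at hab
      simp only at hab ⊢
      rw [if_neg]
      rintro rfl
      apply hne
      simp at hab
      rw [hab]
    · intro h
      exact absurd (HasAntidiagonal.mem_antidiagonal.2 (by simp)) h
  rw [h3]

theorem choose_per_mul (N s k : ℕ) (hk : k ≤ s) (n t : ℕ) :
    (n + N * s.factorial * t).choose k ≡ n.choose k [MOD N] := by
  induction t with
  | zero => simp [Nat.ModEq]
  | succ t ih =>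
    rw [mul_add, mul_one, ← add_assoc]
    exact (choose_per N s k hk _).trans ih

theorem choose_per_smul {N s k : ℕ} (hk : k ≤ s) (ρ : UnitAddCircle) (hρ : N • ρ = 0) (n n' : ℕ)
    (h : n ≡ n' [MOD N * s.factorial]) : n.choose k • ρ = n'.choose k • ρ := by
  have key : ∀ a b : ℕ, a ≤ b → a ≡ b [MOD N * s.factorial] → a.choose k • ρ = b.choose k • ρ := by
    intro a b hab hmod
    obtain ⟨t, ht⟩ := (Nat.modEq_iff_dvd' hab).1 hmod
    have hb : b = a + N * s.factorial * t := by omega
    rw [hb]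
    have := (choose_per_mul N s k hk a t).symm
    rw [nsmul_eq_nsmul_iff_modEq]
    exact this.of_dvd (addOrderOf_dvd_of_nsmul_eq_zero hρ)
  rcases le_total n n' with hn | hn
  · exact key n n' hn h
  · exact (key n' n hn h.symm).symm

end Pool.Agent.Lib.MP_9fe581_an.HX
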