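import Pool.Agent.Lib.MP_9fe581_an.HX.DefsZ

/-!
# HX Z7: the tower of the sequences `binom(n, k + 1) b_i`
-/

set_option autoImplicit false

open Finset MeasureTheory Filter Topology UnitAddTorus
open scoped ComplexConjugate Matrix

namespace Pool.Agent.Lib.MP_9fe581_an.HX

open Pool.Agent.Lib.MP_9fe581_an.HD

/-- the linear part of the tower of binomials -/
private noncomputable def pa {r s : ℕ} (i : Fin r × Fin s) : (Fin r × Fin s) →₀ ℤ :=
  if h : 0 < (i.2 : ℕ) then Finsupp.single (i.1, ⟨(i.2 : ℕ) - 1, by omega⟩) 1 else 0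

private theorem pa_ne {r s : ℕ} (i l : Fin r × Fin s) (h : pa i l ≠ 0) : l.1 = i.1 ∧ (l.2 : ℕ) + 1 = (i.2 : ℕ) := by
  unfold pa at h
  split_ifs at h with h0
  · rw [Finsupp.single_apply] at h
    split_ifs at h with h1
    · rw [← h1]
      refine ⟨rfl, ?_⟩
      change (i.2 : ℕ) - 1 + 1 = i.2
      omega
    · exact absurd rfl h
  · exact absurd rfl h

private theorem pa_one {r s : ℕ} (i l : Fin r × Fin s) (h1 : l.1 = i.1) (h2 : (l.2 : ℕ) + 1 = (i.2 : ℕ)) : pa i l = 1 := by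
  unfold pa
  have h0 : 0 < (i.2 : ℕ) := by omega
  rw [dif_pos h0, Finsupp.single_apply, if_pos]
  refine Prod.ext h1.symm (Fin.ext ?_)
  change (i.2 : ℕ) - 1 = l.2
  omega

private theorem p_base {r s : ℕ} (b : Fin r → ℝ) (hb : ∀ m : Fin r → ℤ, m ≠ 0 → ∀ k : ℤ, (∑ i, (m i : ℝ) * b i) ≠ k)
    (m : (Fin r × Fin s) →₀ ℤ) (hm : m ≠ 0) (hl : ∀ i, m i ≠ 0 → (i.2 : ℕ) = 0) (k : ℤ) :
    (m.sum fun i c => (c : ℝ) * (if (i.2 : ℕ) = 0 then b i.1 else 0)) ≠ k := by
  obtain ⟨i0, hi0⟩ := DFunLike.ne_iff.1 hm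
  have hi0' : m i0 ≠ 0 := hi0
  have h := hb (fun j => m (j, i0.2)) (fun h => hi0' (congrFun h i0.1)) k
  have h00 := hl i0 hi0'
  convert h using 1
  rw [Finsupp.sum_fintype _ _ (fun i => by rw [Int.cast_zero, zero_mul]), Fintype.sum_prod_type]
  refine Finset.sum_congr rfl fun j _ => ?_
  rw [Finset.sum_eq_single i0.2]
  · rw [if_pos h00]
  · intro t _ ht
    rw [if_neg, mul_zero]
    intro h0
    exact ht (Fin.ext (h0.trans h00.symm))
  · intro h0
    exact absurd (Finset.mem_univ _) h0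

private theorem p_deg {r s : ℕ} (j : ℕ) (m : (Fin r × Fin s) →₀ ℤ) (hm : m ≠ 0)
    (hl : ∀ i, m i ≠ 0 → (i.2 : ℕ) = j + 1) :
    ∃ l : Fin r × Fin s, (l.2 : ℕ) = j ∧ (m.sum fun i c => c * pa i l) ≠ 0 := by
  obtain ⟨i0, hi0⟩ := DFunLike.ne_iff.1 hm
  have hi0' : m i0 ≠ 0 := hi0
  have h0 := hl i0 hi0'
  have hlt := i0.2.isLt
  refine ⟨(i0.1, ⟨j, by omega⟩), rfl, ?_⟩
  rw [Finsupp.sum_fintype _ _ (fun i => zero_mul _), Finset.sum_eq_single i0]
  · rw [pa_one i0 (i0.1, ⟨j, by omega⟩) rfl h0.symm, mul_one]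
    exact hi0'
  · intro i _ hi
    by_contra hc
    have h1 : m i ≠ 0 := fun h => hc (by rw [h, zero_mul])
    have h2 : pa i (i0.1, ⟨j, by omega⟩) ≠ 0 := fun h => hc (by rw [h, mul_zero])
    obtain ⟨h3, -⟩ := pa_ne _ _ h2
    refine hi (Prod.ext h3.symm (Fin.ext ?_))
    rw [hl i h1, h0]
  · intro h1
    exact absurd (Finset.mem_univ _) h1

private theorem pr_single1 {κ : Type} (l : κ) (x : κ → UnitAddCircle) : FT.pr (Finsupp.single l 1) x = x l := by
  unfold FT.pr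
  rw [Finsupp.sum_single_index]
  · exact one_smul ℤ _
  · exact zero_smul ℤ _

/-- the tower of the sequences `binom(n, k + 1) b_i` -/
noncomputable def polyW {r s : ℕ} (b : Fin r → ℝ) (hb : ∀ m : Fin r → ℤ, m ≠ 0 → ∀ k : ℤ, (∑ i, (m i : ℝ) * b i) ≠ k) :
    FT.Tower (Fin r × Fin s) where
  lev i := i.2
  a i := if h : 0 < (i.2 : ℕ) then Finsupp.single (i.1, ⟨(i.2 : ℕ) - 1, by omega⟩) 1 else 0
  ψ i _ := if (i.2 : ℕ) = 0 then b i.1 else 0
  sup := fun i l h => by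
    have h1 := (pa_ne i l h).2
    omega
  dep := fun _ _ _ _ => rfl
  cont := fun _ => continuous_const
  lip := fun i l _ => ⟨0, fun x y t _ _ => by rw [sub_self, abs_zero, zero_mul]⟩
  base := fun m hm hl k => p_base b hb m hm hl k
  deg := fun j m hm hl => p_deg j m hm hl

theorem polyW_iter {r s : ℕ} (b : Fin r → ℝ) (hb : ∀ m : Fin r → ℤ, m ≠ 0 → ∀ k : ℤ, (∑ i, (m i : ℝ) * b i) ≠ k) (n : ℕ)
    (i : Fin r × Fin s) : (FT.T (polyW b hb))^[n] 0 i = (n.choose ((i.2 : ℕ) + 1)) • (b i.1 : UnitAddCircle) := by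
  induction n generalizing i with
  | zero =>
    rw [Nat.choose_zero_succ, zero_smul]
    rfl
  | succ n ih =>
    rw [Function.iterate_succ_apply']
    change (FT.T (polyW b hb))^[n] 0 i + FT.phi (polyW b hb) i ((FT.T (polyW b hb))^[n] 0) = _
    have h1 : FT.phi (polyW b hb) i ((FT.T (polyW b hb))^[n] 0) = (n.choose (i.2 : ℕ)) • (b i.1 : UnitAddCircle) := by
      unfold FT.phi
      by_cases h0 : 0 < (i.2 : ℕ)
      · have h2 : (polyW b hb).a i = Finsupp.single (i.1, ⟨(i.2 : ℕ) - 1, by omega⟩) 1 := dif_pos h0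
        have h3 : ∀ x, (polyW (s := s) b hb).ψ i x = 0 := fun x => if_neg h0.ne'
        rw [h2, h3]
        rw [pr_single1, ih]
        change (n.choose ((i.2 : ℕ) - 1 + 1)) • (b i.1 : UnitAddCircle) + ((0 : ℝ) : UnitAddCircle) = _
        rw [show (i.2 : ℕ) - 1 + 1 = i.2 by omega]
        exact add_zero _
      · have h0' : (i.2 : ℕ) = 0 := by omega
        have h2 : (polyW b hb).a i = 0 := dif_neg h0
        have h3 : ∀ x, (polyW (s := s) b hb).ψ i x = b i.1 := fun x => if_pos h0'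
        rw [h2, h3, FT.pr_zero, zero_add, h0', Nat.choose_zero_right, one_smul]
    rw [ih, h1, ← add_smul, Nat.choose_succ_succ, add_comm]

end Pool.Agent.Lib.MP_9fe581_an.HX
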