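import Mathlib

/-!
# HX Z6: sequences in `ℝ / ℤ` killed by `(E^q - 1)^(s+1)` are quasi-polynomial
-/

set_option autoImplicit false

open Finset Polynomial

namespace Pool.Agent.Lib.MP_9fe581_an.HX

private theorem qp_zero (g : ℕ → UnitAddCircle) (q s a : ℕ) (hg : ∀ n ≥ a, (fwdDiff q)^[s + 1] g n = 0) (j : ℕ) :
    ∀ n ≥ a, (fwdDiff q)^[s + 1 + j] g n = 0 := by
  induction j with
  | zero => exact hg
  | succ j ih =>
    intro n hn
    rw [← add_assoc, Function.iterate_succ_apply']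
    show (fwdDiff q)^[s + 1 + j] g (n + q) - (fwdDiff q)^[s + 1 + j] g n = 0
    rw [ih n hn, ih (n + q) (by omega), sub_zero]

private theorem qp_trunc {M : Type} [AddCommGroup M] (s m : ℕ) (c : ℕ → M) (hc : ∀ j, s < j → c j = 0) :
    ∑ j ∈ range (m + 1), m.choose j • c j = ∑ j ∈ range (s + 1), m.choose j • c j := by
  have h1 : ∀ k, ∑ j ∈ range (m + 1 + k), m.choose j • c j = ∑ j ∈ range (m + 1), m.choose j • c j := by
    intro k
    induction k with
    | zero => rfl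
    | succ k ih =>
      rw [← add_assoc, Finset.sum_range_succ, ih, Nat.choose_eq_zero_of_lt (by omega), zero_smul, add_zero]
  have h2 : ∀ k, ∑ j ∈ range (s + 1 + k), m.choose j • c j = ∑ j ∈ range (s + 1), m.choose j • c j := by
    intro k
    induction k with
    | zero => rfl
    | succ k ih =>
      rw [← add_assoc, Finset.sum_range_succ, ih, hc _ (by omega), smul_zero, add_zero]
  rw [← h1 s, ← h2 m]
  congr 2
  omega

private theorem qp_newton (P : ℝ[X]) (s : ℕ) (hP : P.natDegree ≤ s) (n : ℕ) :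
    P.eval (n : ℝ) = ∑ k ∈ range (s + 1), n.choose k • (fwdDiff (1 : ℝ))^[k] P.eval 0 := by
  have h := shift_eq_sum_fwdDiff_iter (1 : ℝ) P.eval n 0
  rw [zero_add, nsmul_one] at h
  rw [h, qp_trunc s n _ fun j hj => ?_]
  rw [Polynomial.fwdDiff_iter_eq_zero_of_degree_lt (lt_of_le_of_lt hP hj)]
  rfl

private theorem qp_class (g : ℕ → UnitAddCircle) (q s a : ℕ) (hq : 0 < q) (hg : ∀ n ≥ a, (fwdDiff q)^[s + 1] g n = 0)
    (t : ℕ) : ∃ γ : ℕ → ℝ, ∀ n ≥ a + q, n % q = t →
      g n = ∑ k ∈ range (s + 1), (n.choose k) • ((γ k : ℝ) : UnitAddCircle) := by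
  set t0 : ℕ := t + q * (a / q + 1) with ht0
  have ha0 : a ≤ t0 := by
    have := Nat.lt_mul_div_succ a hq
    omega
  have hw : ∀ j, ∃ w : ℝ, (w : UnitAddCircle) = (fwdDiff q)^[j] g t0 := fun j => QuotientAddGroup.mk_surjective _
  choose w hw using hw
  set P : ℝ[X] := ∑ j ∈ range (s + 1), C (w j / (j.factorial : ℝ)) *
    (descPochhammer ℝ j).comp (C (1 / (q : ℝ)) * (X - C (t0 : ℝ))) with hP
  have hPd : P.natDegree ≤ s := by
    rw [hP]
    refine Polynomial.natDegree_sum_le_of_forall_le _ _ fun j hj => ?_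
    refine (Polynomial.natDegree_C_mul_le _ _).trans ?_
    rw [Polynomial.natDegree_comp, descPochhammer_natDegree]
    have h1 : (C (1 / (q : ℝ)) * (X - C (t0 : ℝ))).natDegree ≤ 1 :=
      (Polynomial.natDegree_C_mul_le _ _).trans (Polynomial.natDegree_X_sub_C_le _)
    have h2 := Finset.mem_range.1 hj
    calc j * _ ≤ j * 1 := Nat.mul_le_mul_left _ h1
      _ ≤ s := by omega
  have hPe : ∀ m : ℕ, P.eval ((t0 + m * q : ℕ) : ℝ) = ∑ j ∈ range (s + 1), m.choose j • w j := by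
    intro m
    have hqr : (q : ℝ) ≠ 0 := by exact_mod_cast hq.ne'
    have e : (1 / (q : ℝ)) * (((t0 + m * q : ℕ) : ℝ) - (t0 : ℝ)) = (m : ℝ) := by
      push_cast
      field_simp
      ring
    rw [hP, Polynomial.eval_finsetSum]
    refine Finset.sum_congr rfl fun j _ => ?_
    rw [Polynomial.eval_mul, Polynomial.eval_C, Polynomial.eval_comp, Polynomial.eval_mul, Polynomial.eval_C,
      Polynomial.eval_sub, Polynomial.eval_X, Polynomial.eval_C, e, descPochhammer_eval_eq_descFactorial,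
      Nat.descFactorial_eq_factorial_mul_choose, nsmul_eq_mul]
    have : (j.factorial : ℝ) ≠ 0 := by exact_mod_cast j.factorial_ne_zero
    push_cast
    field_simp
  refine ⟨fun k => (fwdDiff (1 : ℝ))^[k] P.eval 0, fun n hn hnt => ?_⟩
  obtain ⟨m, hm⟩ : ∃ m, n = t0 + m * q := by
    have h1 := Nat.div_add_mod n q
    have h3 : a / q + 1 ≤ n / q := by
      rw [Nat.le_div_iff_mul_le hq, add_mul, one_mul]
      have := Nat.div_mul_le_self a q
      omega
    refine ⟨n / q - (a / q + 1), ?_⟩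
    rw [ht0, Nat.sub_mul, mul_comm q]
    have h4 : (a / q + 1) * q ≤ n / q * q := Nat.mul_le_mul_right _ h3
    rw [mul_comm q] at h1
    omega
  have h5 : g n = ∑ j ∈ range (s + 1), m.choose j • (fwdDiff q)^[j] g t0 := by
    have h6 := shift_eq_sum_fwdDiff_iter q g m t0
    rw [smul_eq_mul, ← hm] at h6
    rw [h6]
    refine qp_trunc s m _ fun j hj => ?_
    obtain ⟨i, rfl⟩ := Nat.exists_eq_add_of_le (show s + 1 ≤ j by omega)
    exact qp_zero g q s a hg i t0 ha0
  have h7 : ((P.eval (n : ℝ) : ℝ) : UnitAddCircle) = g n := by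
    rw [h5, hm, hPe]
    rw [← QuotientAddGroup.coe_mk' (AddSubgroup.zmultiples (1 : ℝ)), map_sum]
    refine Finset.sum_congr rfl fun j _ => ?_
    rw [map_nsmul]
    rw [← hw j]
    rfl
  rw [← h7, qp_newton P s hPd n, ← QuotientAddGroup.coe_mk' (AddSubgroup.zmultiples (1 : ℝ)), map_sum]
  refine Finset.sum_congr rfl fun k _ => ?_
  rw [map_nsmul]

theorem quasi_poly (g : ℕ → UnitAddCircle) (q s a : ℕ) (hq : 0 < q) (hg : ∀ n ≥ a, (fwdDiff q)^[s + 1] g n = 0) :
    ∃ γ : Fin q → Fin (s + 1) → ℝ, ∀ n ≥ a + q,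
      g n = ∑ k : Fin (s + 1), (n.choose k) • ((γ ⟨n % q, Nat.mod_lt n hq⟩ k : ℝ) : UnitAddCircle) := by
  choose γ hγ using fun t : Fin q => qp_class g q s a hq hg t
  refine ⟨fun t k => γ t k, fun n hn => ?_⟩
  rw [hγ ⟨n % q, Nat.mod_lt n hq⟩ n hn rfl, Finset.sum_range]

end Pool.Agent.Lib.MP_9fe581_an.HX
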