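import Pool.Agent.Lib.MP_9fe581_an.HX.DefsZ
import Pool.Agent.Lib.MP_9fe581_an.HX.QPoly
import Pool.Agent.Lib.MP_9fe581_an.HX.PolyTow
import Pool.Agent.Lib.MP_9fe581_an.HX.Per
import Pool.Agent.Lib.MP_9fe581_an.HD.Obs.Rot

/-!
# HX, Z8: a quasi-polynomial orbit is a periodic family of functions of one orbit of a tower
-/

set_option autoImplicit false

open Finset MeasureTheory Filter Topology UnitAddTorus

namespace Pool.Agent.Lib.MP_9fe581_an.HX

open Pool.Agent.Lib.MP_9fe581_an.HD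

private theorem fwd_apply {D : ℕ} (q : ℕ) (g : ℕ → Td D) (d : Fin D) (j : ℕ) :
    ∀ n, (fwdDiff q)^[j] (fun n => g n d) n = ((fwdDiff q)^[j] g n) d := by
  induction j with
  | zero => intro n; rfl
  | succ j ih =>
    intro n
    rw [Function.iterate_succ_apply', Function.iterate_succ_apply']
    show (fwdDiff q)^[j] (fun n => g n d) (n + q) - (fwdDiff q)^[j] (fun n => g n d) n
      = ((fwdDiff q)^[j] g (n + q) - (fwdDiff q)^[j] g n) d
    rw [ih, ih]
    rfl

private theorem lift_free {r : ℕ} (β : Td r) (hβ : ∀ k : Fin r → ℤ, k ≠ 0 → mFourier k β ≠ 1) (b : Fin r → ℝ)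
    (hb : ∀ i, (b i : UnitAddCircle) = β i) : ∀ m : Fin r → ℤ, m ≠ 0 → ∀ k : ℤ, (∑ i, (m i : ℝ) * b i) ≠ k := by
  intro m hm k h
  apply hβ m hm
  rw [rot_mF]
  have h1 : (∑ i, m i • β i) = (((∑ i, (m i : ℝ) * b i : ℝ)) : UnitAddCircle) := by
    rw [show ((∑ i, (m i : ℝ) * b i : ℝ) : UnitAddCircle) = ∑ i, (((m i : ℝ) * b i : ℝ) : UnitAddCircle) from
      map_sum (QuotientAddGroup.mk' (AddSubgroup.zmultiples (1 : ℝ))) _ _]
    refine Finset.sum_congr rfl fun i _ => ?_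
    rw [← hb i, ← AddCircle.coe_zsmul, zsmul_eq_mul]
  have h2 : ((k : ℝ) : UnitAddCircle) = 0 := by
    rw [AddCircle.coe_eq_zero_iff]
    exact ⟨k, by simp⟩
  rw [h1, h, h2]
  simp

theorem poly_dec {D : ℕ} (g : ℕ → Td D) (q s a : ℕ) (hq : 0 < q) (hg : ∀ n ≥ a, (fwdDiff q)^[s + 1] g n = 0) :
    ∃ (r : ℕ) (W : FT.Tower (Fin r × Fin s)) (q' : ℕ) (Ψ : ZMod q' → HT.TX (Fin r × Fin s) → Td D), 0 < q' ∧
      (∀ t, Continuous (Ψ t)) ∧ ∀ n ≥ a + q, g n = Ψ (n : ZMod q') ((FT.T W)^[n] 0) := by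
  classical
  have h1 : ∀ d : Fin D, ∃ γ : Fin q → Fin (s + 1) → ℝ, ∀ n ≥ a + q,
      g n d = ∑ k : Fin (s + 1), (n.choose k) • ((γ ⟨n % q, Nat.mod_lt n hq⟩ k : ℝ) : UnitAddCircle) := by
    intro d
    refine quasi_poly (fun n => g n d) q s a hq ?_
    intro n hn
    rw [fwd_apply, hg n hn]
    rfl
  choose γ hγ using h1
  set e := Fintype.equivFin (Fin q × Fin (s + 1) × Fin D) with he
  obtain ⟨r, β, C, ρ, N, hN, hρ, hβ, hα⟩ :=
    rot_dec (fun l => ((γ (e.symm l).2.2 (e.symm l).1 (e.symm l).2.1 : ℝ) : UnitAddCircle))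
  have hα' : ∀ (t : Fin q) (k : Fin (s + 1)) (d : Fin D), ((γ d t k : ℝ) : UnitAddCircle)
      = (∑ i, C (e (t, k, d)) i • β i) + ρ (e (t, k, d)) := by
    intro t k d
    have := hα (e (t, k, d))
    simpa using this
  have hρ' : ∀ l, N • ρ l = 0 := fun l => congrFun hρ l
  choose b hb using fun i => QuotientAddGroup.mk_surjective (β i)
  have hb' : ∀ i, (b i : UnitAddCircle) = β i := hb
  have hfree := lift_free β hβ b hb'
  have hq' : 0 < q * (N * s.factorial) := Nat.mul_pos hq (Nat.mul_pos hN (Nat.factorial_pos s))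
  refine ⟨r, polyW b hfree, q * (N * s.factorial), fun t y d =>
    (∑ i, C (e (⟨t.val % q, Nat.mod_lt _ hq⟩, 0, d)) i • β i)
      + (∑ j : Fin s, ∑ i, C (e (⟨t.val % q, Nat.mod_lt _ hq⟩, j.succ, d)) i • y (i, j))
      + ∑ k : Fin (s + 1), (t.val.choose k) • ρ (e (⟨t.val % q, Nat.mod_lt _ hq⟩, k, d)), hq', ?_, ?_⟩
  · intro t
    refine continuous_pi fun d => ?_
    refine (continuous_const.add ?_).add continuous_const
    refine continuous_finsetSum _ fun j _ => continuous_finsetSum _ fun i _ => ?_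
    exact (continuous_apply (i, j)).zsmul _
  · intro n hn
    funext d
    have hval : (n : ZMod (q * (N * s.factorial))).val = n % (q * (N * s.factorial)) := ZMod.val_natCast _ _
    have hmod : (n : ZMod (q * (N * s.factorial))).val % q = n % q := by
      rw [hval, Nat.mod_mul_right_mod]
    have hfin : (⟨(n : ZMod (q * (N * s.factorial))).val % q, Nat.mod_lt _ hq⟩ : Fin q) = ⟨n % q, Nat.mod_lt n hq⟩ :=
      Fin.ext hmod
    have hper : ∀ (k : Fin (s + 1)) (l), (n : ZMod (q * (N * s.factorial))).val.choose k • ρ l = n.choose k • ρ l := by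
      intro k l
      refine choose_per_smul (N := N) (s := s) (Nat.lt_succ_iff.mp k.2) (ρ l) (hρ' l) _ _ ?_
      rw [hval]
      show _ % _ = _ % _
      rw [Nat.mod_mul_left_mod]
    rw [hγ d n hn]
    simp only [hfin, hper]
    rw [Finset.sum_congr rfl fun k _ => by rw [hα' ⟨n % q, Nat.mod_lt n hq⟩ k d, smul_add]]
    rw [Finset.sum_add_distrib]
    congr 1
    rw [Fin.sum_univ_succ]
    congr 1
    · simp
    · refine Finset.sum_congr rfl fun j _ => ?_
      rw [Finset.smul_sum]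
      refine Finset.sum_congr rfl fun i _ => ?_
      rw [polyW_iter, hb' i, Fin.val_succ, smul_comm]

end Pool.Agent.Lib.MP_9fe581_an.HX
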