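import Pool.Agent.Lib.MP_9fe581_an.HX.DefsZ

/-!
# HX: from sequences and from matrix observables to cocycles with an observable
-/

set_option autoImplicit false

open Finset MeasureTheory Filter Topology UnitAddTorus
open scoped ComplexConjugate Matrix

namespace Pool.Agent.Lib.MP_9fe581_an.HX

open Pool.Agent.Lib.MP_9fe581_an.HD

/-- the cocycle products are the products along the orbit -/
theorem cpS_sqp {X ι : Type} [Fintype ι] [DecidableEq ι] (T : X → X) (A : X → Matrix ι ι ℂ) (n : ℕ) (x : X) :
    cpS T A n x = sqp A (fun n => T^[n] x) n := by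
  induction n with
  | zero => rfl
  | succ n ih => rw [cpS, sqp, ih]

/-- orthogonality along the orbit of one point -/
theorem seq_coc {X : Type} [TopologicalSpace X] {T : X → X} {u : ℕ → ℂ} {x : X} (h : SeqOrth u fun n => T^[n] x) :
    CocOrthY T u {x} := by
  intro m A hA hAA hh ε hε
  obtain ⟨N0, h0⟩ := h m A hA hAA hh ε hε
  refine ⟨N0, fun N hN z hz i j => ?_⟩
  rw [Set.mem_singleton_iff] at hz
  subst hz
  have h1 := h0 N hN i j
  simpa only [cpS_sqp] using h1

/-- a scalar observable is the scalar matrix observable -/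
theorem mat_coc {Y : Type} [TopologicalSpace Y] {S : Y → Y} {u : ℕ → ℂ} (h : MatOrth S u) : CocOrthY S u Set.univ := by
  intro m A hA hAA hh ε hε
  have hD : Continuous fun y => (hh y • (1 : Matrix (Fin m) (Fin m) ℂ)) := hh.continuous.smul continuous_const
  obtain ⟨N0, h0⟩ := h (Fin m) A (fun y => hh y • (1 : Matrix (Fin m) (Fin m) ℂ)) hA hAA hD ε hε
  refine ⟨N0, fun N hN z _ i j => ?_⟩
  have h1 := h0 N hN z i j
  simpa only [Matrix.smul_mul, Matrix.one_mul, Matrix.smul_apply, smul_eq_mul] using h1

end Pool.Agent.Lib.MP_9fe581_an.HX
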