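import Pool.Agent.Lib.MP_9fe581_an.HX.DefsZ
import Pool.Agent.Lib.MP_9fe581_an.HT.MaxMeas
import Pool.Agent.Lib.MP_9fe581_an.HT.Corr2

/-!
# HX Z2: towers are uniquely ergodic
-/

set_option autoImplicit false

open Finset MeasureTheory Filter Topology UnitAddTorus
open scoped ComplexConjugate Matrix

namespace Pool.Agent.Lib.MP_9fe581_an.HX

open Pool.Agent.Lib.MP_9fe581_an.HD

private theorem z2_cont {κ : Type} (W : FT.Tower κ) : Continuous (FT.T W) := by
  refine continuous_pi fun i => ?_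
  show Continuous fun x => x i + (FT.pr (W.a i) x + (W.ψ i x : UnitAddCircle))
  exact (continuous_apply i).add ((FT.continuous_pr _).add ((AddCircle.continuous_mk' 1).comp (W.cont i)))

theorem tower_ue {κ : Type} [Fintype κ] [DecidableEq κ] (W : FT.Tower κ) : UE (FT.T W) (HT.mX κ) := by
  intro E hE ε hε
  obtain ⟨ρ, hρ1, hρ2, hρ3⟩ := HT.max_meas (FT.T W) (z2_cont W) E hE
  have hρ : ρ = HT.mX κ := HT.tower_uniq W 1 one_pos ρ (by rw [Function.iterate_one]; exact hρ2)
  obtain ⟨M0, hM0⟩ := hρ3 ε hε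
  refine ⟨max M0 1, fun N hN x => ?_⟩
  have hN0 : (0 : ℝ) < N := by
    have : 1 ≤ N := (le_max_right _ _).trans hN
    exact_mod_cast this
  have h := hM0 N ((le_max_left _ _).trans hN) x
  rw [hρ, one_div, inv_mul_eq_div, div_le_iff₀ hN0] at h
  exact h

end Pool.Agent.Lib.MP_9fe581_an.HX
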