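import Pool.Agent.Lib.MP_9fe581_an.HX.Orth
import Pool.Agent.Lib.MP_9fe581_an.HD.Base
import Pool.Agent.Lib.MP_9fe581_an.HX.DefsZ

/-!
# HX U7: ergodic unipotent affine maps of the torus are uniquely ergodic
-/

set_option autoImplicit false

open Finset MeasureTheory Filter Topology UnitAddTorus
open scoped ComplexConjugate Matrix

namespace Pool.Agent.Lib.MP_9fe581_an.HX

open Pool.Agent.Lib.MP_9fe581_an.HD

variable {D : ℕ} {N : Matrix (Fin D) (Fin D) ℤ} {β : Td D}

/-- uniform averages -/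
private def AV (S : Td D → Td D) (f : C(Td D, ℂ)) : Prop :=
  ∀ ε : ℝ, 0 < ε → ∃ M0 : ℕ, ∀ M ≥ M0, ∀ x : Td D, ‖∑ n ∈ Icc 1 M, f (S^[n] x) - M * ∫ t, f t ∂mT D‖ ≤ ε * M

private theorem av_add {S : Td D → Td D} {f g : C(Td D, ℂ)} (hf : AV S f) (hg : AV S g) : AV S (f + g) := by
  intro ε hε
  obtain ⟨M1, h1⟩ := hf (ε / 2) (half_pos hε)
  obtain ⟨M2, h2⟩ := hg (ε / 2) (half_pos hε)
  refine ⟨max M1 M2, fun M hM x => ?_⟩
  have e : ∑ n ∈ Icc 1 M, (f + g) (S^[n] x) - M * ∫ t, (f + g) t ∂mT D =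
      (∑ n ∈ Icc 1 M, f (S^[n] x) - M * ∫ t, f t ∂mT D) + (∑ n ∈ Icc 1 M, g (S^[n] x) - M * ∫ t, g t ∂mT D) := by
    have h3 : ∫ t, (f + g) t ∂mT D = ∫ t, f t ∂mT D + ∫ t, g t ∂mT D :=
      integral_add (f.continuous.integrable_of_hasCompactSupport (HasCompactSupport.of_compactSpace _))
        (g.continuous.integrable_of_hasCompactSupport (HasCompactSupport.of_compactSpace _))
    rw [h3]
    simp only [ContinuousMap.add_apply, Finset.sum_add_distrib]
    ring
  rw [e]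
  have a1 := h1 M ((le_max_left _ _).trans hM) x
  have a2 := h2 M ((le_max_right _ _).trans hM) x
  refine (norm_add_le _ _).trans ?_
  linarith

private theorem av_smul {S : Td D → Td D} {f : C(Td D, ℂ)} (hf : AV S f) (c : ℂ) : AV S (c • f) := by
  intro ε hε
  obtain ⟨M1, h1⟩ := hf (ε / (‖c‖ + 1)) (by positivity)
  refine ⟨M1, fun M hM x => ?_⟩
  have e : ∑ n ∈ Icc 1 M, (c • f) (S^[n] x) - M * ∫ t, (c • f) t ∂mT D =
      c * (∑ n ∈ Icc 1 M, f (S^[n] x) - M * ∫ t, f t ∂mT D) := by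
    have h3 : ∫ t, (c • f) t ∂mT D = c * ∫ t, f t ∂mT D := integral_const_mul c _
    rw [h3]
    simp only [ContinuousMap.smul_apply, smul_eq_mul]
    rw [← Finset.mul_sum]
    ring
  rw [e, norm_mul]
  have a1 := h1 M hM x
  have hc : (0 : ℝ) < ‖c‖ + 1 := by positivity
  calc ‖c‖ * _ ≤ (‖c‖ + 1) * (ε / (‖c‖ + 1) * M) := mul_le_mul (by linarith) a1 (norm_nonneg _) hc.le
    _ = ε * M := by field_simp

private theorem av_char (hN : IsNilpotent N) (hirr : ∀ c : Fin D → ℤ, c ≠ 0 → ad N c = 0 → mFourier c β ≠ 1)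
    (a : Fin D → ℤ) : AV (uS N β) (mFourier a) := by
  by_cases ha : a = 0
  · subst ha
    intro ε hε
    refine ⟨0, fun M _ x => ?_⟩
    have h1 : ∑ n ∈ Icc 1 M, (mFourier (0 : Fin D → ℤ)) ((uS N β)^[n] x) - M * ∫ t, (mFourier (0 : Fin D → ℤ)) t ∂mT D = 0 := by
      simp [mFourier_zero]
    rw [h1, norm_zero]
    positivity
  · intro ε hε
    obtain ⟨M0, h0⟩ := orth hN hirr 1 1 le_rfl le_rfl a 0 (by
      intro h
      have h1 := congrArg Prod.fst h
      simp only [lev_zero] at h1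
      have := lev_pos hN ha
      omega) ε hε
    refine ⟨M0, fun M hM x => ?_⟩
    have h1 := h0 M hM 0 x
    have h2 : ∫ t, (mFourier a) t ∂mT D = 0 := by
      obtain ⟨b, hb⟩ := bs_point a ha
      exact eq_mF_int a b hb
    rw [h2, mul_zero, sub_zero]
    refine le_trans (le_of_eq ?_) h1
    congr 1
    rw [zero_add]
    refine Finset.sum_congr (by ext n; simp [Nat.lt_iff_add_one_le]) fun n _ => ?_
    simp [mFourier_zero]

theorem uS_ue (hN : IsNilpotent N) (hirr : ∀ c : Fin D → ℤ, c ≠ 0 → ad N c = 0 → mFourier c β ≠ 1) :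
    UE (uS N β) (mT D) := by
  intro E hE ε hε
  set f : C(Td D, ℂ) := ⟨fun x => ((E x : ℝ) : ℂ), Complex.continuous_ofReal.comp hE⟩ with hf
  have hspan : ∀ g ∈ Submodule.span ℂ (Set.range (mFourier (d := Fin D))), AV (uS N β) g := by
    intro g hg
    induction hg using Submodule.span_induction with
    | mem y hy =>
      obtain ⟨k, rfl⟩ := hy
      exact av_char hN hirr k
    | zero =>
      intro ε hε
      refine ⟨0, fun M _ x => ?_⟩
      simp only [ContinuousMap.zero_apply, Finset.sum_const_zero, integral_zero, mul_zero, sub_zero, norm_zero]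
      positivity
    | add y z _ _ hy hz => exact av_add hy hz
    | smul c y _ hy => exact av_smul hy c
  have hmem' : f ∈ closure (Submodule.span ℂ (Set.range (mFourier (d := Fin D))) : Set _) := by
    rw [← Submodule.topologicalClosure_coe, span_mFourier_closure_eq_top]
    trivial
  obtain ⟨g, hg, hd⟩ := Metric.mem_closure_iff.1 hmem' (ε / 4) (by linarith)
  obtain ⟨M0, h0⟩ := hspan g hg (ε / 2) (by linarith)
  refine ⟨M0, fun M hM x => ?_⟩
  have h1 := h0 M hM x
  have hd' : ∀ y, ‖f y - g y‖ ≤ ε / 4 := by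
    intro y
    have := (f - g).norm_coe_le_norm y
    rw [← dist_eq_norm] at this
    exact this.trans hd.le
  have h2 : ‖∑ n ∈ Icc 1 M, f ((uS N β)^[n] x) - ∑ n ∈ Icc 1 M, g ((uS N β)^[n] x)‖ ≤ ε / 4 * M := by
    rw [← Finset.sum_sub_distrib]
    refine (norm_sum_le _ _).trans ((Finset.sum_le_sum fun n _ => hd' _).trans (le_of_eq ?_))
    rw [Finset.sum_const, Nat.card_Icc, Nat.add_sub_cancel, nsmul_eq_mul]
    ring
  have hfi : Integrable f (mT D) := f.continuous.integrable_of_hasCompactSupport (HasCompactSupport.of_compactSpace _)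
  have hgi : Integrable g (mT D) := g.continuous.integrable_of_hasCompactSupport (HasCompactSupport.of_compactSpace _)
  have h3 : ‖∫ t, f t ∂mT D - ∫ t, g t ∂mT D‖ ≤ ε / 4 := by
    rw [← integral_sub hfi hgi]
    have := norm_integral_le_of_norm_le_const (μ := mT D) (C := ε / 4) (f := fun t => f t - g t)
      (Eventually.of_forall hd')
    simpa using this
  have h4 : ‖∑ n ∈ Icc 1 M, f ((uS N β)^[n] x) - M * ∫ t, f t ∂mT D‖ ≤ ε * M := by
    have e : ∑ n ∈ Icc 1 M, f ((uS N β)^[n] x) - M * ∫ t, f t ∂mT D =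
        (∑ n ∈ Icc 1 M, f ((uS N β)^[n] x) - ∑ n ∈ Icc 1 M, g ((uS N β)^[n] x)) +
        (∑ n ∈ Icc 1 M, g ((uS N β)^[n] x) - M * ∫ t, g t ∂mT D) - M * (∫ t, f t ∂mT D - ∫ t, g t ∂mT D) := by ring
    rw [e]
    refine (norm_sub_le _ _).trans ?_
    refine (add_le_add (norm_add_le _ _) le_rfl).trans ?_
    rw [norm_mul, Complex.norm_natCast]
    have h5 : (M : ℝ) * ‖∫ t, f t ∂mT D - ∫ t, g t ∂mT D‖ ≤ M * (ε / 4) :=
      mul_le_mul_of_nonneg_left h3 (Nat.cast_nonneg _)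
    linarith
  have h6 : (∑ n ∈ Icc 1 M, E ((uS N β)^[n] x)) - M * ∫ t, E t ∂mT D ≤ ε * M := by
    refine (le_abs_self _).trans ?_
    rw [← Real.norm_eq_abs, ← Complex.norm_real]
    refine le_trans (le_of_eq ?_) h4
    congr 1
    push_cast
    congr 1
    rw [← integral_complex_ofReal]
    rfl
  linarith

end Pool.Agent.Lib.MP_9fe581_an.HX
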