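import Pool.Agent.Lib.MP_9fe581_an.HX.MneD
import Pool.Agent.Lib.MP_9fe581_an.HX.GoodQ
import Pool.Agent.Lib.MP_9fe581_an.HX.TowUE
import Pool.Agent.Lib.MP_9fe581_an.HX.SeqCoc
import Pool.Agent.Lib.MP_9fe581_an.HX.BlkS
import Pool.Agent.Lib.MP_9fe581_an.HX.PolyDec
import Pool.Agent.Lib.MP_9fe581_an.HX.Aff
import Pool.Agent.Lib.MP_9fe581_an.HX.Kron
import Pool.Agent.Lib.MP_9fe581_an.HX.BaseU
import Pool.Agent.Lib.MP_9fe581_an.HX.UniUE
import Pool.Agent.Lib.MP_9fe581_an.HT.Good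

/-!
# HX, Z11: unitary cocycles over towers and over affine maps of zero entropy, nothing ergodic
-/

set_option autoImplicit false

open Finset MeasureTheory Filter Topology UnitAddTorus
open scoped ComplexConjugate Matrix

namespace Pool.Agent.Lib.MP_9fe581_an.HX

open Pool.Agent.Lib.MP_9fe581_an.HD

theorem tower_mat {κ : Type} [Fintype κ] [DecidableEq κ] (W : FT.Tower κ) {u : ℕ → ℂ} (hu : BMult u)
    (hw : ∀ (w : ℂ) (q : ℕ), 0 < q → w ^ q = 1 → ShortOrth u w) : MatOrth (FT.T W) u := by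
  obtain ⟨g⟩ := HT.tower_good W
  exact mneD (goodQ g) (tower_ue W) hu hw

/-- cocycles over towers, uniformly in the point -/
theorem tower_coc {κ : Type} [Fintype κ] [DecidableEq κ] (W : FT.Tower κ) {u : ℕ → ℂ} (hu : BMult u)
    (hw : ∀ (w : ℂ) (q : ℕ), 0 < q → w ^ q = 1 → ShortOrth u w) : CocOrthY (FT.T W) u Set.univ :=
  mat_coc (tower_mat W hu hw)

/-- cocycles over affine maps of zero entropy, at every point -/
theorem affine_coc {D : ℕ} (B : Matrix (Fin D) (Fin D) ℤ)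
    (hB : ∀ z : ℂ, (B.map (Int.cast : ℤ → ℂ)).charpoly.IsRoot z → ‖z‖ ≤ 1) (b : Td D) {u : ℕ → ℂ} (hu : BMult u)
    (hw : ∀ (w : ℂ) (q : ℕ), 0 < q → w ^ q = 1 → ShortOrth u w) (x : Td D) : CocOrthY (aff B b) u {x} := by
  obtain ⟨q, s, hq, hBq⟩ := kron B hB
  obtain ⟨r, W, q', Ψ, hq', hΨ, hg⟩ := poly_dec (fun n => (aff B b)^[n] x) q s s hq (aff_diff B b q s s hBq x)
  exact seq_coc (blk_seq (tower_mat W hu hw) hu.le_one q' hq' Ψ hΨ 0 _ (s + q) hg)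

/-- cocycles over ergodic unipotent affine maps, uniformly in the point -/
theorem uni_coc {D : ℕ} {N : Matrix (Fin D) (Fin D) ℤ} {β : Td D} (hN : IsNilpotent N)
    (hirr : ∀ c : Fin D → ℤ, c ≠ 0 → ad N c = 0 → mFourier c β ≠ 1) {u : ℕ → ℂ} (hu : BMult u)
    (hw : ∀ (w : ℂ) (q : ℕ), 0 < q → w ^ q = 1 → ShortOrth u w) : CocOrthY (uS N β) u Set.univ := by
  obtain ⟨s, hs⟩ := hN
  exact mat_coc (mneD (baseU hs hirr).toQ (uS_ue ⟨s, hs⟩ hirr) hu hw)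

end Pool.Agent.Lib.MP_9fe581_an.HX
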