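import Pool.Agent.Lib.MP_9fe581_an.HX.CocMat

/-!
# HX: partial isometry cocycles

`P` a continuous projection valued matrix function, `A` a continuous matrix function with `A y (A y)ᴴ = P (S y)` and
`(A y)ᴴ A y = P y`. The Halmos dilation of `A` is a unitary cocycle over `S`, and its products restricted to the range of `P` are the
products of `A`.
-/

set_option autoImplicit false
set_option linter.unusedSectionVars false

open Finset MeasureTheory Filter Topology UnitAddTorus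
open scoped ComplexConjugate Matrix ComplexOrder

namespace Pool.Agent.Lib.MP_9fe581_an.HX

open Pool.Agent.Lib.MP_9fe581_an.HD

private theorem hal_ap {κ : Type} [Fintype κ] [DecidableEq κ] (A P : Matrix κ κ ℂ) (hPH : Pᴴ = P) (hPP : P * P = P)
    (h2 : Aᴴ * A = P) : A * P = A := by
  have h : (A - A * P)ᴴ * (A - A * P) = 0 := by
    rw [Matrix.conjTranspose_sub, Matrix.conjTranspose_mul, hPH]
    have e : (Aᴴ - P * Aᴴ) * (A - A * P) = Aᴴ * A - (Aᴴ * A) * P - P * (Aᴴ * A) + P * (Aᴴ * A) * P := by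
      noncomm_ring
    rw [e, h2, hPP, hPP, sub_self, zero_sub, neg_add_cancel]
  have h0 := Matrix.conjTranspose_mul_self_eq_zero.1 h
  exact (sub_eq_zero.1 h0).symm

private theorem hal_pa {κ : Type} [Fintype κ] [DecidableEq κ] (A P : Matrix κ κ ℂ) (hPH : Pᴴ = P) (hPP : P * P = P)
    (h1 : A * Aᴴ = P) : P * A = A := by
  have h := hal_ap Aᴴ P hPH hPP (by rw [Matrix.conjTranspose_conjTranspose]; exact h1)
  have h' := congrArg Matrix.conjTranspose h
  rwa [Matrix.conjTranspose_mul, hPH, Matrix.conjTranspose_conjTranspose] at h'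

/-- the entries of a projection are at most 1 -/
private theorem hal_le {κ : Type} [Fintype κ] [DecidableEq κ] (P : Matrix κ κ ℂ) (hPH : Pᴴ = P) (hPP : P * P = P) (i j : κ) :
    ‖P i j‖ ≤ 1 := by
  have h1 : ∀ i, P i i = ((∑ l, ‖P i l‖ ^ 2 : ℝ) : ℂ) := by
    intro i
    have e : P i i = (P * Pᴴ) i i := by rw [hPH, hPP]
    rw [e, Matrix.mul_apply]
    push_cast
    refine Finset.sum_congr rfl fun l _ => ?_
    rw [Matrix.conjTranspose_apply]
    exact Complex.mul_conj' _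
  have h2 : ‖P i i‖ = ∑ l, ‖P i l‖ ^ 2 := by
    rw [h1 i, Complex.norm_real, Real.norm_of_nonneg (Finset.sum_nonneg fun l _ => sq_nonneg _)]
  have h3 : ∀ l, ‖P i l‖ ^ 2 ≤ ‖P i i‖ := by
    intro l
    rw [h2]
    exact Finset.single_le_sum (f := fun l => ‖P i l‖ ^ 2) (fun l _ => sq_nonneg _) (Finset.mem_univ l)
  have h4 : ‖P i i‖ ≤ 1 := by
    have h5 := h3 i
    by_contra hc
    push Not at hc
    nlinarith [norm_nonneg (P i i)]
  have h6 := (h3 j).trans h4
  nlinarith [norm_nonneg (P i j)]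

private noncomputable def halU {Y : Type} (S : Y → Y) {κ : Type} [DecidableEq κ] (P A : Y → Matrix κ κ ℂ) (y : Y) :
    Matrix (κ ⊕ κ) (κ ⊕ κ) ℂ :=
  Matrix.fromBlocks (A y) (1 - P (S y)) (1 - P y) (-(A y)ᴴ)

variable {Y : Type} [TopologicalSpace Y] {S : Y → Y} {u : ℕ → ℂ} {Z : Set Y}

private theorem halU_cont (hS : Continuous S) {κ : Type} [DecidableEq κ] {P A : Y → Matrix κ κ ℂ} (hP : Continuous P)
    (hA : Continuous A) : Continuous (halU S P A) := by
  unfold halU
  exact Continuous.matrix_fromBlocks hA (continuous_const.sub (hP.comp hS)) (continuous_const.sub hP) hA.matrix_conjTranspose.neg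

private theorem halU_unit {κ : Type} [Fintype κ] [DecidableEq κ] {P A : Y → Matrix κ κ ℂ} (hPH : ∀ y, (P y)ᴴ = P y)
    (hPP : ∀ y, P y * P y = P y) (h1 : ∀ y, A y * (A y)ᴴ = P (S y)) (h2 : ∀ y, (A y)ᴴ * A y = P y) (y : Y) :
    halU S P A y * (halU S P A y)ᴴ = 1 := by
  have ap : A y * P y = A y := hal_ap _ _ (hPH y) (hPP y) (h2 y)
  have pa : P (S y) * A y = A y := hal_pa _ _ (hPH (S y)) (hPP (S y)) (h1 y)
  have ap' : P y * (A y)ᴴ = (A y)ᴴ := by
    have h' := congrArg Matrix.conjTranspose ap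
    rwa [Matrix.conjTranspose_mul, hPH] at h'
  have pa' : (A y)ᴴ * P (S y) = (A y)ᴴ := by
    have h' := congrArg Matrix.conjTranspose pa
    rwa [Matrix.conjTranspose_mul, hPH] at h'
  unfold halU
  rw [Matrix.fromBlocks_conjTranspose, Matrix.fromBlocks_multiply, ← Matrix.fromBlocks_one]
  simp only [Matrix.conjTranspose_sub, Matrix.conjTranspose_one, Matrix.conjTranspose_neg, Matrix.conjTranspose_conjTranspose,
    hPH]
  congr 1
  · rw [h1, mul_sub, mul_one, sub_mul, one_mul, hPP, sub_self, sub_zero]; abel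
  · rw [mul_sub, mul_one, ap, sub_self, zero_add, mul_neg, sub_mul, one_mul, pa, sub_self, neg_zero]
  · rw [sub_mul, one_mul, ap', sub_self, zero_add, neg_mul, mul_sub, mul_one, pa', sub_self, neg_zero]
  · rw [neg_mul_neg, h2, mul_sub, mul_one, sub_mul, one_mul, hPP, sub_self, sub_zero]; abel

private theorem hal_range {κ : Type} [Fintype κ] [DecidableEq κ] {P A : Y → Matrix κ κ ℂ} (hPH : ∀ y, (P y)ᴴ = P y)
    (hPP : ∀ y, P y * P y = P y) (h1 : ∀ y, A y * (A y)ᴴ = P (S y)) (n : ℕ) (y : Y) :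
    P (S^[n] y) * (cpS S A n y * P y) = cpS S A n y * P y := by
  cases n with
  | zero => simp only [cpS, Function.iterate_zero, id_eq, one_mul, hPP]
  | succ n =>
    have pa : P (S (S^[n] y)) * A (S^[n] y) = A (S^[n] y) := hal_pa _ _ (hPH _) (hPP _) (h1 _)
    rw [cpS, Function.iterate_succ_apply', ← Matrix.mul_assoc, ← Matrix.mul_assoc, pa]

private theorem hal_prod {κ : Type} [Fintype κ] [DecidableEq κ] {P A : Y → Matrix κ κ ℂ} (hPH : ∀ y, (P y)ᴴ = P y)
    (hPP : ∀ y, P y * P y = P y) (h1 : ∀ y, A y * (A y)ᴴ = P (S y)) (n : ℕ) (y : Y) :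
    cpS S (halU S P A) n y * Matrix.fromRows (P y) (0 : Matrix κ κ ℂ) =
      Matrix.fromRows (cpS S A n y * P y) (0 : Matrix κ κ ℂ) := by
  induction n with
  | zero => simp only [cpS, Matrix.one_mul]
  | succ n ih =>
    rw [cpS, Matrix.mul_assoc, ih]
    have h3 := hal_range hPH hPP h1 n y
    unfold halU
    rw [Matrix.fromBlocks_mul_fromRows, mul_zero, mul_zero, add_zero, add_zero, sub_mul, one_mul, h3, sub_self, cpS,
      Matrix.mul_assoc]

theorem halmos (hc : CocOrthY S u Z) (hS : Continuous S) {κ κ' : Type} [Fintype κ] [DecidableEq κ] [Fintype κ']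
    (P A : Y → Matrix κ κ ℂ) (hP : Continuous P) (hA : Continuous A) (hPH : ∀ y, (P y)ᴴ = P y) (hPP : ∀ y, P y * P y = P y)
    (h1 : ∀ y, A y * (A y)ᴴ = P (S y)) (h2 : ∀ y, (A y)ᴴ * A y = P y) (D : Y → Matrix κ' κ ℂ) (hD : Continuous D)
    (ε : ℝ) (hε : 0 < ε) :
    ∃ N0 : ℕ, ∀ N ≥ N0, ∀ y ∈ Z, ∀ (i : κ') (j : κ),
      ‖∑ n ∈ Icc 1 N, u n * (D (S^[n] y) * cpS S A n y * P y) i j‖ ≤ ε * N := by
  have hD' : Continuous fun y => Matrix.fromCols (D y) (0 : Matrix κ' κ ℂ) := by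
    refine continuous_matrix fun i j => ?_
    rcases j with j | j
    · simpa only [Matrix.fromCols_apply_inl] using hD.matrix_elem i j
    · simpa only [Matrix.fromCols_apply_inr, Matrix.zero_apply] using continuous_const
  obtain ⟨N0, h0⟩ := coc_mat hc (halU S P A) (halU_cont hS hP hA) (halU_unit hPH hPP h1 h2)
    (fun y => Matrix.fromCols (D y) (0 : Matrix κ' κ ℂ)) hD' (ε / (Fintype.card (κ ⊕ κ) + 1)) (by positivity)
  refine ⟨N0, fun N hN y hy i j => ?_⟩
  have e1 : ∀ n, (D (S^[n] y) * cpS S A n y * P y) i j =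
      ∑ l, (Matrix.fromCols (D (S^[n] y)) (0 : Matrix κ' κ ℂ) * cpS S (halU S P A) n y) i l *
        (Matrix.fromRows (P y) (0 : Matrix κ κ ℂ)) l j := by
    intro n
    rw [← Matrix.mul_apply, Matrix.mul_assoc (Matrix.fromCols _ _), hal_prod hPH hPP h1, Matrix.fromCols_mul_fromRows,
      Matrix.mul_zero, add_zero, Matrix.mul_assoc]
  have e2 : ∑ n ∈ Icc 1 N, u n * (D (S^[n] y) * cpS S A n y * P y) i j =
      ∑ l, (∑ n ∈ Icc 1 N, u n * (Matrix.fromCols (D (S^[n] y)) (0 : Matrix κ' κ ℂ) * cpS S (halU S P A) n y) i l) *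
        (Matrix.fromRows (P y) (0 : Matrix κ κ ℂ)) l j := by
    simp_rw [e1, Finset.sum_mul, Finset.mul_sum]
    rw [Finset.sum_comm]
    exact Finset.sum_congr rfl fun l _ => Finset.sum_congr rfl fun n _ => by ring
  have e3 : ∀ l : κ ⊕ κ, ‖(Matrix.fromRows (P y) (0 : Matrix κ κ ℂ)) l j‖ ≤ 1 := by
    intro l
    rcases l with l | l
    · rw [Matrix.fromRows_apply_inl]
      exact hal_le _ (hPH y) (hPP y) l j
    · rw [Matrix.fromRows_apply_inr, Matrix.zero_apply, norm_zero]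
      exact zero_le_one
  rw [e2]
  calc _ ≤ ∑ l : κ ⊕ κ, ε / (Fintype.card (κ ⊕ κ) + 1) * N := by
        refine norm_sum_le_of_le _ fun l _ => ?_
        rw [norm_mul]
        have h3 := h0 N hN y hy i l
        calc _ ≤ (ε / (Fintype.card (κ ⊕ κ) + 1) * N) * 1 :=
              mul_le_mul h3 (e3 l) (norm_nonneg _) (by positivity)
          _ = _ := mul_one _
    _ = Fintype.card (κ ⊕ κ) * (ε / (Fintype.card (κ ⊕ κ) + 1) * N) := by
        rw [Finset.sum_const, nsmul_eq_mul, Finset.card_univ]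
    _ ≤ ε * N := by
        have hN0 : (0 : ℝ) ≤ N := Nat.cast_nonneg _
        have h5 : (Fintype.card (κ ⊕ κ) : ℝ) * (ε / (Fintype.card (κ ⊕ κ) + 1)) ≤ ε := by
          rw [mul_div_assoc', div_le_iff₀ (by positivity)]
          nlinarith
        calc _ = (Fintype.card (κ ⊕ κ) : ℝ) * (ε / (Fintype.card (κ ⊕ κ) + 1)) * N := by ring
          _ ≤ _ := mul_le_mul_of_nonneg_right h5 hN0

end Pool.Agent.Lib.MP_9fe581_an.HX
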