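import Pool.Agent.Lib.MP_9fe581_an.HD.GDefs

/-!
# HX: an equivariant matrix function, invertible at a point
-/

set_option autoImplicit false

open Finset MeasureTheory Filter Topology
open scoped ComplexConjugate Matrix ComplexOrder

namespace Pool.Agent.Lib.MP_9fe581_an.HX

open Pool.Agent.Lib.MP_9fe581_an.HD

/-- integrals of a continuous function of two variables are continuous in the parameter -/
private theorem lf_cont {X G : Type} [TopologicalSpace X] [TopologicalSpace G] [CompactSpace G] [MeasurableSpace G]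
    [BorelSpace G] (μ : Measure G) [IsProbabilityMeasure μ] (f : X × G → ℂ) (hf : Continuous f) :
    Continuous fun x => ∫ g, f (x, g) ∂μ := by
  have h1 : Continuous fun F : C(G, ℂ) => ∫ g, F g ∂μ := by
    have hint : ∀ F : C(G, ℂ), Integrable (fun g => F g) μ := fun F =>
      F.continuous.integrable_of_hasCompactSupport (HasCompactSupport.of_compactSpace _)
    have h2 : LipschitzWith 1 fun F : C(G, ℂ) => ∫ g, F g ∂μ := by
      refine LipschitzWith.of_dist_le_mul fun F F' => ?_
      rw [NNReal.coe_one, one_mul, dist_eq_norm, dist_eq_norm, ← integral_sub (hint F) (hint F')]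
      refine (norm_integral_le_of_norm_le_const (C := ‖F - F'‖) (Eventually.of_forall fun g => ?_)).trans ?_
      · exact (F - F').norm_coe_le_norm g
      · simp
    exact h2.continuous
  exact h1.comp (ContinuousMap.curry ⟨f, hf⟩).continuous

section grp

variable {X : Type} [TopologicalSpace X] [CompactSpace X] [T2Space X] {G : Type} [Group G] [TopologicalSpace G]
  [IsTopologicalGroup G] [CompactSpace G] [T2Space G] [MulAction G X] [ContinuousSMul G X]

theorem local_frame (hfree : ∀ (g : G) (x : X), g • x = x → g = 1) {n : ℕ} {π : G → Matrix (Fin n) (Fin n) ℂ} (hπ : URep π)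
    (x0 : X) : ∃ F : X → Matrix (Fin n) (Fin n) ℂ, Continuous F ∧ (∀ g x, F (g • x) = π g * F x) ∧ IsUnit (F x0).det := by
  letI : MeasurableSpace G := borel G
  haveI : BorelSpace G := ⟨rfl⟩
  set μ : Measure G := Measure.haarMeasure ⊤ with hμ
  haveI : IsProbabilityMeasure μ :=
    ⟨by have := Measure.haarMeasure_self (G := G) (K₀ := ⊤); simpa using this⟩
  have hπc : ∀ i j, Continuous fun g => π g i j := fun i j => hπ.cont.matrix_elem i j
  -- the function on the group
  set s : G → ℝ := fun g => ∑ i, ∑ j, ‖(π g - 1) i j‖ with hs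
  have hsc : Continuous s := by
    refine continuous_finsetSum _ fun i _ => continuous_finsetSum _ fun j _ => Continuous.norm ?_
    exact (hπc i j).sub continuous_const
  have hs0 : ∀ g, 0 ≤ s g := fun g => sum_nonneg fun i _ => sum_nonneg fun j _ => norm_nonneg _
  set k : C(G, ℝ) := ⟨fun g => max 0 (1 / 2 - s g), continuous_const.max (continuous_const.sub hsc)⟩ with hk
  have hk0 : ∀ g, 0 ≤ k g := fun g => le_max_left _ _
  have hk1 : k 1 ≠ 0 := by
    have : s 1 = 0 := by
      simp only [hs]
      refine sum_eq_zero fun i _ => sum_eq_zero fun j _ => ?_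
      rw [hπ.one, sub_self, Matrix.zero_apply, norm_zero]
    show max 0 (1 / 2 - s 1) ≠ 0
    rw [this]
    norm_num
  have hks : ∀ g, k g * s g ≤ k g * (1 / 2) := by
    intro g
    by_cases h : s g ≤ 1 / 2
    · exact mul_le_mul_of_nonneg_left h (hk0 g)
    · have : k g = 0 := max_eq_left (by push Not at h; linarith)
      rw [this]
      simp
  -- Tietze
  have he : IsClosedEmbedding fun g : G => g⁻¹ • x0 := by
    refine Continuous.isClosedEmbedding (continuous_inv.smul continuous_const) ?_
    intro g h hgh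
    have h1 : (h * g⁻¹) • x0 = x0 := by
      have h2 : g⁻¹ • x0 = h⁻¹ • x0 := hgh
      rw [mul_smul, h2, smul_smul, mul_inv_cancel, one_smul]
    exact (mul_inv_eq_one.mp (hfree _ _ h1)).symm
  obtain ⟨ψ, -, hψ⟩ := ContinuousMap.exists_extension_forall_mem_of_isClosedEmbedding k (t := Set.univ)
    (fun _ => Set.mem_univ _) Set.univ_nonempty he
  have hψ' : ∀ g : G, ψ (g⁻¹ • x0) = k g := fun g => congrFun hψ g
  have hψc : ∀ i j, Continuous fun z : X × G => ((ψ (z.2⁻¹ • z.1) : ℝ) : ℂ) * π z.2 i j := by
    intro i j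
    refine (Complex.continuous_ofReal.comp (ψ.continuous.comp ?_)).mul ((hπc i j).comp continuous_snd)
    exact (continuous_snd.inv).smul continuous_fst
  have hint : ∀ f : G → ℂ, Continuous f → Integrable f μ := fun f hf =>
    hf.integrable_of_hasCompactSupport (HasCompactSupport.of_compactSpace _)
  have hintr : ∀ f : G → ℝ, Continuous f → Integrable f μ := fun f hf =>
    hf.integrable_of_hasCompactSupport (HasCompactSupport.of_compactSpace _)
  refine ⟨fun x => Matrix.of fun i j => ∫ g, ((ψ (g⁻¹ • x) : ℝ) : ℂ) * π g i j ∂μ, ?_, ?_, ?_⟩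
  · refine continuous_matrix fun i j => ?_
    exact lf_cont μ _ (hψc i j)
  · intro h x
    ext i j
    rw [Matrix.mul_apply]
    simp only [Matrix.of_apply]
    rw [← integral_mul_left_eq_self (μ := μ) (fun g => ((ψ (g⁻¹ • h • x) : ℝ) : ℂ) * π g i j) h]
    have hc : ∀ l, Continuous fun g => ((ψ (g⁻¹ • x) : ℝ) : ℂ) * π g l j := fun l =>
      (hψc l j).comp (Continuous.prodMk_right x)
    simp_rw [← integral_const_mul]
    rw [← integral_finsetSum _ fun l _ => (hint _ (hc l)).const_mul _]
    refine integral_congr_ae (Eventually.of_forall fun g => ?_)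
    simp only
    have h1 : (h * g)⁻¹ • h • x = g⁻¹ • x := by
      rw [mul_inv_rev, smul_smul, inv_mul_cancel_right]
    rw [h1, hπ.mul, Matrix.mul_apply, mul_sum]
    exact sum_congr rfl fun l _ => by ring
  · rw [isUnit_iff_ne_zero]
    set c : ℝ := ∫ g, k g ∂μ with hc
    have hc0 : 0 < c := k.continuous.integral_pos_of_hasCompactSupport_nonneg_nonzero
      (HasCompactSupport.of_compactSpace _) (fun g => hk0 g) hk1
    have hent : ∀ i j, ∫ g, ((ψ (g⁻¹ • x0) : ℝ) : ℂ) * π g i j ∂μ =
        (c : ℂ) * (1 : Matrix (Fin n) (Fin n) ℂ) i j + ∫ g, (k g : ℂ) * (π g - 1) i j ∂μ := by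
      intro i j
      have h1 : ∀ g, ((ψ (g⁻¹ • x0) : ℝ) : ℂ) * π g i j =
          (k g : ℂ) * (1 : Matrix (Fin n) (Fin n) ℂ) i j + (k g : ℂ) * (π g - 1) i j := by
        intro g
        rw [hψ' g, Matrix.sub_apply]
        ring
      simp_rw [h1]
      rw [integral_add, integral_mul_const, integral_complex_ofReal]
      · exact (hint _ (Complex.continuous_ofReal.comp k.continuous)).mul_const _
      · exact hint _ ((Complex.continuous_ofReal.comp k.continuous).mul ((hπc i j).sub continuous_const))
    set E : Fin n → Fin n → ℂ := fun i j => ∫ g, (k g : ℂ) * (π g - 1) i j ∂μ with hE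
    have hEle : ∀ i, ∑ j, ‖E i j‖ ≤ c / 2 := by
      intro i
      have h1 : ∀ j, ‖E i j‖ ≤ ∫ g, k g * ‖(π g - 1) i j‖ ∂μ := by
        intro j
        refine (norm_integral_le_integral_norm _).trans (le_of_eq ?_)
        refine integral_congr_ae (Eventually.of_forall fun g => ?_)
        simp only
        rw [norm_mul, Complex.norm_real, Real.norm_eq_abs, abs_of_nonneg (hk0 g)]
      refine (sum_le_sum fun j _ => h1 j).trans ?_
      have hcj : ∀ j, Continuous fun g => k g * ‖(π g - 1) i j‖ := fun j =>
        k.continuous.mul ((hπc i j).sub continuous_const).norm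
      have hsw : ∑ j, ∫ g, k g * ‖(π g - 1) i j‖ ∂μ = ∫ g, ∑ j, k g * ‖(π g - 1) i j‖ ∂μ :=
        (integral_finsetSum univ (f := fun j g => k g * ‖(π g - 1) i j‖) (fun j _ => hintr _ (hcj j))).symm
      refine (le_of_eq hsw).trans ?_
      have h2 : c / 2 = ∫ g, k g * (1 / 2) ∂μ := by
        rw [integral_mul_const]
        ring
      rw [h2]
      refine integral_mono (hintr _ (continuous_finsetSum _ fun j _ => hcj j))
        (hintr _ (k.continuous.mul continuous_const)) fun g => ?_
      simp only
      rw [← mul_sum]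
      refine le_trans (mul_le_mul_of_nonneg_left ?_ (hk0 g)) (hks g)
      exact single_le_sum (f := fun i => ∑ j, ‖(π g - 1) i j‖) (fun i _ => sum_nonneg fun j _ => norm_nonneg _) (mem_univ i)
    refine det_ne_zero_of_sum_row_lt_diag fun r => ?_
    simp only [Matrix.of_apply]
    have h1 : ∑ j ∈ univ.erase r, ‖∫ g, ((ψ (g⁻¹ • x0) : ℝ) : ℂ) * π g r j ∂μ‖ = ∑ j ∈ univ.erase r, ‖E r j‖ := by
      refine sum_congr rfl fun j hj => ?_
      rw [hent, Matrix.one_apply_ne (ne_of_mem_erase hj).symm, mul_zero, zero_add]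
    rw [h1, hent, Matrix.one_apply_eq, mul_one]
    have h2 : ‖E r r‖ + ∑ j ∈ univ.erase r, ‖E r j‖ ≤ c / 2 := by
      rw [add_sum_erase univ (fun j => ‖E r j‖) (mem_univ r)]
      exact hEle r
    have h3 : c - ‖E r r‖ ≤ ‖(c : ℂ) + E r r‖ := by
      have h4 : ‖(c : ℂ)‖ ≤ ‖(c : ℂ) + E r r‖ + ‖E r r‖ := by
        have := norm_sub_le ((c : ℂ) + E r r) (E r r)
        rwa [add_sub_cancel_right] at this
      rw [Complex.norm_real, Real.norm_eq_abs, abs_of_pos hc0] at h4
      linarith
    have h5 := norm_nonneg (E r r)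
    show ∑ j ∈ univ.erase r, ‖E r j‖ < ‖(c : ℂ) + E r r‖
    linarith

end grp

end Pool.Agent.Lib.MP_9fe581_an.HX
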