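import Pool.Agent.Lib.MP_9fe581_an.HX.MainQ

/-!
# HX, module A7: the orthogonality theorem for families over a base with property (P)
-/

set_option autoImplicit false

open Finset MeasureTheory Filter Topology UnitAddTorus
open scoped ComplexConjugate Matrix

namespace Pool.Agent.Lib.MP_9fe581_an.HX

open Pool.Agent.Lib.MP_9fe581_an.HD

variable {Y : Type} [TopologicalSpace Y] {ι : Type} [Fintype ι] [DecidableEq ι] {S : Y → Y} {X : ℕ → Y → Matrix ι ι ℂ}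
  [CompactSpace Y] [T2Space Y] [SecondCountableTopology Y] [MeasurableSpace Y] [BorelSpace Y]
  {ν : Measure Y} {D : Type} [Fintype D] {lam : D → ℕ → Measure (Y × Y)}

theorem obs_main (hB : BaseP S ν lam) (hX : Fam S X) {u : ℕ → ℂ} (hu : BMult u) (ε : ℝ) (hε : 0 < ε)
    (hR : ∀ r : ℕ, 1 ≤ r → ∃ j0 : ℕ, ∀ j ≥ j0, ‖∑ p ∈ Qb j, aX ν X (p * r)‖ ≤ ε ^ 2 / 512 * ((Qb j).card : ℝ)) :
    ∃ N0 : ℕ, ∀ N ≥ N0, ∀ (y : Y) (s t : ι), ‖∑ n ∈ Icc 1 N, u n * X n y s t‖ ≤ ε * N :=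
  obs_mainQ hB.toQ hX hu ε hε hR

theorem obs_noRat (hB : BaseP S ν lam) (hX : Fam S X) (hR : NoRat (aX ν X)) {u : ℕ → ℂ} (hu : BMult u) (ε : ℝ)
    (hε : 0 < ε) : ∃ N0 : ℕ, ∀ N ≥ N0, ∀ (y : Y) (s t : ι), ‖∑ n ∈ Icc 1 N, u n * X n y s t‖ ≤ ε * N :=
  obs_noRatQ hB.toQ hX hR hu ε hε

end Pool.Agent.Lib.MP_9fe581_an.HX
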