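import Pool.Agent.Lib.MP_9fe581_an.HX.Fam

/-!
# HX, module A3: the sum over the pairs on a window
-/

set_option autoImplicit false

open Finset MeasureTheory Filter Topology UnitAddTorus
open scoped ComplexConjugate Matrix

namespace Pool.Agent.Lib.MP_9fe581_an.HX

open Pool.Agent.Lib.MP_9fe581_an.HD

variable {Y : Type} [TopologicalSpace Y] {ι : Type} [Fintype ι] [DecidableEq ι] {S : Y → Y}
  {X : ℕ → Y → Matrix ι ι ℂ}

private theorem pw_comb (J : ℕ → ℝ) (hJ : ∀ r, 0 ≤ J r) (L l : ℕ) (hl : l < L) :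
    ∑ l' ∈ range L, J (if l' ≤ l then l - l' else l' - l) ≤ J 0 + 2 * ∑ r ∈ Ico 1 L, J r := by
  rw [← Finset.sum_range_add_sum_Ico _ (show l + 1 ≤ L by omega)]
  have h1 : ∑ l' ∈ range (l + 1), J (if l' ≤ l then l - l' else l' - l) = J 0 + ∑ r ∈ Ico 1 (l + 1), J r := by
    have h2 : ∑ l' ∈ range (l + 1), J (if l' ≤ l then l - l' else l' - l) = ∑ l' ∈ range (l + 1), J (l + 1 - 1 - l') := by
      refine Finset.sum_congr rfl fun l' h' => ?_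
      rw [Finset.mem_range] at h'
      rw [if_pos (by omega)]; rfl
    rw [h2, Finset.sum_range_reflect J (l + 1), ← Finset.sum_range_add_sum_Ico _ (show 1 ≤ l + 1 by omega),
      Finset.sum_range_one]
  have h3 : ∑ l' ∈ Ico (l + 1) L, J (if l' ≤ l then l - l' else l' - l) = ∑ r ∈ Ico 1 (L - l), J r := by
    rw [Finset.sum_Ico_eq_sum_range, Finset.sum_Ico_eq_sum_range, show L - (l + 1) = L - l - 1 by omega]
    refine Finset.sum_congr rfl fun i _ => ?_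
    rw [if_neg (by omega), show l + 1 + i - l = 1 + i by omega]
  have h4 : ∑ r ∈ Ico 1 (l + 1), J r ≤ ∑ r ∈ Ico 1 L, J r :=
    Finset.sum_le_sum_of_subset_of_nonneg (Finset.Ico_subset_Ico_right (by omega)) fun i _ _ => hJ i
  have h5 : ∑ r ∈ Ico 1 (L - l), J r ≤ ∑ r ∈ Ico 1 L, J r :=
    Finset.sum_le_sum_of_subset_of_nonneg (Finset.Ico_subset_Ico_right (by omega)) fun i _ _ => hJ i
  rw [h1, h3]; linarith

/-- the sums over a window for `l' ≤ l` -/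
private theorem pw_gt (hX : Fam S X) (P : Finset ℕ) (M1 M : ℕ) (y : Y) (l l' : ℕ) (h : l' ≤ l) :
    ∑ m ∈ Ioc M1 (M1 + M), ‖∑ p ∈ P, sX X p l l' (S^[p * m] y)‖ ^ 2 =
      ∑ m ∈ Ioc (M1 + l') (M1 + l' + M), ‖∑ p ∈ P, FF X (p * (l - l')) (S^[p * m] y)‖ ^ 2 := by
  have h1 : M1 + l' + M = M1 + M + l' := by ring
  rw [h1, ← Finset.map_add_right_Ioc, Finset.sum_map]
  refine Finset.sum_congr rfl fun m _ => ?_
  congr 2
  refine Finset.sum_congr rfl fun p _ => ?_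
  rw [sX_gt hX p l l' h, ← Function.iterate_add_apply]
  congr 2
  change p * l' + p * m = p * (m + l')
  ring

theorem pairs_win (hX : Fam S X) (P : Finset ℕ) (L : ℕ) (hL : 0 < L) (M1 M : ℕ) (y : Y) (E : ℕ → ℝ)
    (hE : ∀ r ∈ Ico 1 L, ∀ M' : ℕ, ∑ m ∈ Ioc M' (M' + M), ‖∑ p ∈ P, FF X (p * r) (S^[p * m] y)‖ ^ 2 ≤ E r) :
    ∑ m ∈ Ioc M1 (M1 + M), ∑ p ∈ P, ∑ q ∈ P, Phi X p q L (S^[p * m] y) (S^[q * m] y) ≤
      ((Fintype.card ι : ℝ) ^ 2) ^ 2 * (P.card : ℝ) ^ 2 * M / L + (2 / L) * ∑ r ∈ Ico 1 L, E r := by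
  have hL' : (0 : ℝ) < L := Nat.cast_pos.2 hL
  obtain ⟨D, hD⟩ : ∃ D : ℝ, D = ((Fintype.card ι : ℝ) ^ 2) ^ 2 * (P.card : ℝ) ^ 2 * M := ⟨_, rfl⟩
  have hD0 : 0 ≤ D := by rw [hD]; positivity
  obtain ⟨J, hJdef⟩ : ∃ J : ℕ → ℝ, J = fun r => if r = 0 then D else if r < L then E r else 0 :=
    ⟨_, rfl⟩
  have hE0 : ∀ r ∈ Ico 1 L, 0 ≤ E r := fun r hr =>
    (Finset.sum_nonneg fun m _ => by positivity).trans (hE r hr 0)
  have hJ : ∀ r, 0 ≤ J r := by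
    intro r
    rw [hJdef]
    dsimp only
    split_ifs with h1 h2
    · exact hD0
    · exact hE0 r (Finset.mem_Ico.2 ⟨by omega, h2⟩)
    · exact le_rfl
  have hJ0 : J 0 = D := by rw [hJdef]; simp
  have hJE : ∀ r ∈ Ico 1 L, J r = E r := by
    intro r hr
    rw [Finset.mem_Ico] at hr
    rw [hJdef]
    dsimp only
    rw [if_neg (by omega), if_pos hr.2]
  -- the case `l' ≤ l`
  have key : ∀ l < L, ∀ l' ≤ l,
      ∑ m ∈ Ioc M1 (M1 + M), ‖∑ p ∈ P, sX X p l l' (S^[p * m] y)‖ ^ 2 ≤ J (l - l') := by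
    intro l hl l' h
    rw [pw_gt hX P M1 M y l l' h]
    rcases Nat.eq_zero_or_pos (l - l') with h0 | h0
    · rw [h0, hJ0, hD]
      have hb : ∀ m ∈ Ioc (M1 + l') (M1 + l' + M), ‖∑ p ∈ P, FF X (p * 0) (S^[p * m] y)‖ ^ 2 ≤
          ((Fintype.card ι : ℝ) ^ 2) ^ 2 * (P.card : ℝ) ^ 2 := by
        intro m _
        have h1 : ‖∑ p ∈ P, FF X (p * 0) (S^[p * m] y)‖ ≤ P.card * (Fintype.card ι : ℝ) ^ 2 := by
          refine (norm_sum_le _ _).trans ?_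
          refine (Finset.sum_le_sum fun p _ => FF_le hX _ _).trans ?_
          rw [Finset.sum_const, nsmul_eq_mul]
        refine (pow_le_pow_left₀ (norm_nonneg _) h1 2).trans (le_of_eq ?_)
        ring
      refine (Finset.sum_le_card_nsmul _ _ _ hb).trans (le_of_eq ?_)
      rw [Nat.card_Ioc, Nat.add_sub_cancel_left, nsmul_eq_mul]
      ring
    · have hr : l - l' ∈ Ico 1 L := Finset.mem_Ico.2 ⟨h0, by omega⟩
      rw [hJE _ hr]
      exact hE _ hr (M1 + l')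
  have key2 : ∀ l < L, ∀ l' < L,
      ∑ m ∈ Ioc M1 (M1 + M), ‖∑ p ∈ P, sX X p l l' (S^[p * m] y)‖ ^ 2 ≤
        J (if l' ≤ l then l - l' else l' - l) := by
    intro l hl l' hl'
    by_cases h : l' ≤ l
    · rw [if_pos h]
      exact key l hl l' h
    · rw [if_neg h]
      refine le_trans (le_of_eq ?_) (key l' hl' l (by omega))
      refine Finset.sum_congr rfl fun m _ => ?_
      have h1 : ∑ p ∈ P, sX X p l l' (S^[p * m] y) = conj (∑ p ∈ P, sX X p l' l (S^[p * m] y)) := by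
        rw [map_sum]
        exact Finset.sum_congr rfl fun p _ => sX_symm X p l' l _
      rw [h1, Complex.norm_conj]
  have h1 : ∑ m ∈ Ioc M1 (M1 + M), ∑ p ∈ P, ∑ q ∈ P, Phi X p q L (S^[p * m] y) (S^[q * m] y) =
      (1 / (L : ℝ) ^ 2) * ∑ l ∈ range L, ∑ l' ∈ range L,
        ∑ m ∈ Ioc M1 (M1 + M), ‖∑ p ∈ P, sX X p l l' (S^[p * m] y)‖ ^ 2 := by
    have h2 : ∀ m ∈ Ioc M1 (M1 + M),
        ∑ p ∈ P, ∑ q ∈ P, Phi X p q L (S^[p * m] y) (S^[q * m] y) =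
          (1 / (L : ℝ) ^ 2) * ∑ l ∈ range L, ∑ l' ∈ range L,
            ‖∑ p ∈ P, sX X p l l' (S^[p * m] y)‖ ^ 2 := fun m _ =>
      sum_Phi X P L (fun p => S^[p * m] y)
    rw [Finset.sum_congr rfl h2, ← Finset.mul_sum, Finset.sum_comm]
    congr 1
    refine Finset.sum_congr rfl fun l _ => ?_
    rw [Finset.sum_comm]
  have h2 : ∑ l ∈ range L, ∑ l' ∈ range L,
      ∑ m ∈ Ioc M1 (M1 + M), ‖∑ p ∈ P, sX X p l l' (S^[p * m] y)‖ ^ 2 ≤
        L * (D + 2 * ∑ r ∈ Ico 1 L, E r) := by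
    have h3 : ∀ l ∈ range L, ∑ l' ∈ range L,
        ∑ m ∈ Ioc M1 (M1 + M), ‖∑ p ∈ P, sX X p l l' (S^[p * m] y)‖ ^ 2 ≤
          D + 2 * ∑ r ∈ Ico 1 L, E r := by
      intro l hl
      rw [Finset.mem_range] at hl
      refine (Finset.sum_le_sum fun l' hl' => key2 l hl l' (Finset.mem_range.1 hl')).trans ?_
      refine (pw_comb J hJ L l hl).trans (le_of_eq ?_)
      rw [hJ0, Finset.sum_congr rfl hJE]
    refine (Finset.sum_le_card_nsmul _ _ _ h3).trans (le_of_eq ?_)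
    rw [Finset.card_range, nsmul_eq_mul]
  rw [h1]
  calc (1 / (L : ℝ) ^ 2) * ∑ l ∈ range L, ∑ l' ∈ range L,
        ∑ m ∈ Ioc M1 (M1 + M), ‖∑ p ∈ P, sX X p l l' (S^[p * m] y)‖ ^ 2
      ≤ (1 / (L : ℝ) ^ 2) * (L * (D + 2 * ∑ r ∈ Ico 1 L, E r)) :=
        mul_le_mul_of_nonneg_left h2 (by positivity)
    _ = D / L + (2 / L) * ∑ r ∈ Ico 1 L, E r := by field_simp
    _ = _ := by rw [hD]

end Pool.Agent.Lib.MP_9fe581_an.HX
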