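import Pool.Agent.Lib.MP_9fe581_an.HX.Defs
import Pool.Agent.Lib.MP_9fe581_an.HD.Vdc

/-!
# HX A2: the van der Corput bound in windows
-/

set_option autoImplicit false

open Finset MeasureTheory Filter Topology UnitAddTorus
open scoped ComplexConjugate Matrix

namespace Pool.Agent.Lib.MP_9fe581_an.HX

open Pool.Agent.Lib.MP_9fe581_an.HD

variable {Y : Type} [TopologicalSpace Y] {ι : Type} [Fintype ι] [DecidableEq ι] {S : Y → Y} {X : ℕ → Y → Matrix ι ι ℂ}

private theorem win_map (M1 M : ℕ) : Ioc M1 (M1 + M) = (Icc 1 M).map (addLeftEmbedding M1) := by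
  ext x
  simp only [Finset.mem_Ioc, Finset.mem_map, Finset.mem_Icc, addLeftEmbedding_apply]
  constructor
  · intro hx
    exact ⟨x - M1, by omega, by omega⟩
  · rintro ⟨a, ha, rfl⟩
    omega

private theorem sum_win (f : ℕ → ℂ) (M1 M : ℕ) : ∑ m ∈ Ioc M1 (M1 + M), f m = ∑ m ∈ Icc 1 M, f (M1 + m) := by
  rw [win_map, Finset.sum_map]
  rfl

/-- the van der Corput bound for the entries of a family with an observable, in windows -/
theorem vdc_win (hX : Fam S X) (p q L : ℕ) (hL : 0 < L) (M1 M : ℕ) (y : Y) (s t : ι) :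
    ‖∑ m ∈ Ioc M1 (M1 + M), X (p * m) y s t * conj (X (q * m) y s t)‖ ≤
      (∑ m ∈ Ioc M1 (M1 + M), Real.sqrt (Phi X p q L (S^[p * m] y) (S^[q * m] y))) + 2 * L := by
  set w : ℕ → ℂ := fun m => X (p * m) y s t * conj (X (q * m) y s t) with hw
  have hw1 : ∀ n, ‖w n‖ ≤ 1 := by
    intro n
    rw [hw]
    simp only
    rw [norm_mul, Complex.norm_conj]
    calc ‖X (p * n) y s t‖ * ‖X (q * n) y s t‖ ≤ 1 * 1 :=
          mul_le_mul (hX.bd _ y s t) (hX.bd _ y s t) (norm_nonneg _) zero_le_one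
      _ = 1 := one_mul 1
  have h1 := vdc_avg (fun n => w (M1 + n)) (fun n => hw1 _) M L hL
  have hpt : ∀ m, ‖(1 / (L : ℂ)) * ∑ l ∈ range L, w (m + l)‖ ≤
      Real.sqrt (Phi X p q L (S^[p * m] y) (S^[q * m] y)) := by
    intro m
    obtain ⟨V, hV1, hV2⟩ := hX.add (p * m) y
    obtain ⟨W, hW1, hW2⟩ := hX.add (q * m) y
    have h3 : (1 / (L : ℂ)) * ∑ l ∈ range L, w (m + l) =
        ∑ b, ∑ f, Wt X p q L (S^[p * m] y) (S^[q * m] y) s b s f * (V b t * conj (W f t)) := by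
      have h4 : ∀ l, w (m + l) = ∑ b, ∑ f,
          (X (p * l) (S^[p * m] y) s b * conj (X (q * l) (S^[q * m] y) s f)) * (V b t * conj (W f t)) := by
        intro l
        rw [hw]
        simp only
        have h5 : p * (m + l) = p * l + p * m := by ring
        have h6 : q * (m + l) = q * l + q * m := by ring
        rw [h5, h6, (hV2 (p * l)).1, (hW2 (q * l)).1, Matrix.mul_apply, Matrix.mul_apply, map_sum,
          Finset.sum_mul_sum]
        refine Finset.sum_congr rfl fun b _ => Finset.sum_congr rfl fun f _ => ?_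
        rw [map_mul]
        ring
      simp_rw [h4]
      rw [Finset.sum_comm, Finset.mul_sum]
      refine Finset.sum_congr rfl fun b _ => ?_
      rw [Finset.sum_comm, Finset.mul_sum]
      refine Finset.sum_congr rfl fun f _ => ?_
      unfold Wt
      rw [← Finset.sum_mul, mul_assoc]
    rw [h3]
    refine vdc_cs (fun b f => Wt X p q L (S^[p * m] y) (S^[q * m] y) s b s f)
      (fun b => V b t) (fun b => W b t) (hV1 t) (hW1 t) _ ?_
    unfold Phi
    have h7 : ∀ a : ι, 0 ≤ ∑ b, ∑ c, ∑ f, ‖Wt X p q L (S^[p * m] y) (S^[q * m] y) a b c f‖ ^ 2 := fun a =>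
      Finset.sum_nonneg fun b _ => Finset.sum_nonneg fun c _ => Finset.sum_nonneg fun f _ => by
        positivity
    refine le_trans ?_ (Finset.single_le_sum (fun a _ => h7 a) (Finset.mem_univ s))
    refine Finset.sum_le_sum fun b _ => ?_
    exact Finset.single_le_sum (f := fun c => ∑ f, ‖Wt X p q L (S^[p * m] y) (S^[q * m] y) s b c f‖ ^ 2)
      (fun c _ => Finset.sum_nonneg fun f _ => by positivity) (Finset.mem_univ s)
  have hR : ∑ m ∈ Ioc M1 (M1 + M), Real.sqrt (Phi X p q L (S^[p * m] y) (S^[q * m] y)) =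
      ∑ m ∈ Icc 1 M, Real.sqrt (Phi X p q L (S^[p * (M1 + m)] y) (S^[q * (M1 + m)] y)) := by
    rw [win_map, Finset.sum_map]
    rfl
  rw [hR, sum_win]
  have h2 : ‖∑ m ∈ Icc 1 M, (1 / (L : ℂ)) * ∑ l ∈ range L, w (M1 + (m + l))‖ ≤
      ∑ m ∈ Icc 1 M, Real.sqrt (Phi X p q L (S^[p * (M1 + m)] y) (S^[q * (M1 + m)] y)) := by
    refine (norm_sum_le _ _).trans (Finset.sum_le_sum fun m _ => ?_)
    have h := hpt (M1 + m)
    simpa only [add_assoc] using h
  have h8 : ∑ m ∈ Icc 1 M, w (M1 + m) =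
      (∑ m ∈ Icc 1 M, w (M1 + m) - ∑ m ∈ Icc 1 M, (1 / (L : ℂ)) * ∑ l ∈ range L, w (M1 + (m + l))) +
        ∑ m ∈ Icc 1 M, (1 / (L : ℂ)) * ∑ l ∈ range L, w (M1 + (m + l)) := by
    rw [sub_add_cancel]
  rw [h8]
  refine (norm_add_le _ _).trans ?_
  have h1' : ‖∑ m ∈ Icc 1 M, w (M1 + m) - ∑ m ∈ Icc 1 M, (1 / (L : ℂ)) * ∑ l ∈ range L, w (M1 + (m + l))‖ ≤ 2 * L := h1
  linarith

end Pool.Agent.Lib.MP_9fe581_an.HX
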