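import Pool.Agent.Lib.MP_9fe581_an.HX.DeltaQ
import Pool.Agent.Lib.MP_9fe581_an.HX.Vdc
import Pool.Agent.Lib.MP_9fe581_an.HX.Pairs
import Pool.Agent.Lib.MP_9fe581_an.HX.Kbsz
import Pool.Agent.Lib.MP_9fe581_an.HX.Energy
import Pool.Agent.Lib.MP_9fe581_an.HD.Main

/-!
# HX, module A7: the orthogonality theorem for families over a base with property (P)
-/

set_option autoImplicit false

open Finset MeasureTheory Filter Topology UnitAddTorus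
open scoped ComplexConjugate Matrix

namespace Pool.Agent.Lib.MP_9fe581_an.HX

open Pool.Agent.Lib.MP_9fe581_an.HD

variable {Y : Type} [TopologicalSpace Y] {ι : Type} [Fintype ι] [DecidableEq ι] {S : Y → Y} {X : ℕ → Y → Matrix ι ι ℂ}
  [CompactSpace Y] [T2Space Y] [SecondCountableTopology Y] [MeasurableSpace Y] [BorelSpace Y]
  {ν : Measure Y} {D : Type} [Fintype D] {MM : D → ℕ → Set (Measure (Y × Y))} {linf : D → Measure (Y × Y)} {C0 : ℝ}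

/-- `∑_m √f ≤ √(M ∑_m f)` -/
private theorem mn_sqrt {α : Type*} (s : Finset α) (f : α → ℝ) (hf : ∀ m, 0 ≤ f m) :
    ∑ m ∈ s, Real.sqrt (f m) ≤ Real.sqrt (s.card * ∑ m ∈ s, f m) := by
  apply Real.le_sqrt_of_sq_le
  refine (sq_sum_le_card_mul_sum_sq).trans (le_of_eq ?_)
  congr 1
  exact Finset.sum_congr rfl fun m _ => Real.sq_sqrt (hf m)

/-- the energy over one block, uniform in the point and in the window -/
theorem energy_win (hB : BaseQ S ν MM linf C0) (hX : Fam S X) (r : ℕ) (hr : 1 ≤ r) (η : ℝ) (hη : 0 < η)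
    (hR : ∃ j0 : ℕ, ∀ j ≥ j0, ‖∑ p ∈ Qb j, aX ν X (p * r)‖ ≤ η / 8 * ((Qb j).card : ℝ)) :
    ∃ j0 : ℕ, ∀ j ≥ j0, ∃ M0 : ℕ, ∀ M ≥ M0, ∀ (M1 : ℕ) (y : Y),
      ∑ m ∈ Ioc M1 (M1 + M), ‖∑ p ∈ Qb j, FF X (p * r) (S^[p * m] y)‖ ^ 2 ≤
        η ^ 2 / 16 * ((Qb j).card : ℝ) ^ 2 * M := by
  set C : ℝ := (Fintype.card ι : ℝ) ^ 2 with hC
  have hCn : 0 ≤ C := by positivity
  have hC0n := hB.C0_nonneg
  set δ : ℝ := min (η ^ 2 / 128) ((η ^ 2 / 64 / (C0 * C + 1)) ^ 2) with hδ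
  have hδ0 : 0 < δ := lt_min (by positivity) (by positivity)
  have hδ1 : δ ≤ η ^ 2 / 128 := min_le_left _ _
  have hδ2 : Real.sqrt δ ≤ η ^ 2 / 64 / (C0 * C + 1) := by
    rw [← Real.sqrt_sq (show 0 ≤ η ^ 2 / 64 / (C0 * C + 1) by positivity)]
    exact Real.sqrt_le_sqrt (min_le_right _ _)
  obtain ⟨j1, h1⟩ := hR
  obtain ⟨j2, h2⟩ := delta_unif hB hX r hr δ hδ0
  obtain ⟨j3, h3⟩ := main_card_large (128 * C ^ 2 / η ^ 2 + 1)
  refine ⟨max j1 (max j2 j3), fun j hj => ?_⟩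
  have k1 := h1 j ((le_max_left _ _).trans hj)
  have k2 := h2 j ((le_max_left _ _).trans ((le_max_right _ _).trans hj))
  have k3 := h3 j ((le_max_right _ _).trans ((le_max_right _ _).trans hj))
  set K : ℝ := ((Qb j).card : ℝ) with hK
  have hC0 : 0 ≤ 128 * C ^ 2 / η ^ 2 := by positivity
  have hK1 : 1 ≤ K := by linarith
  let f : ℕ → C(Y, ℂ) := fun p => ⟨FF X (p * r), FF_cont hX (p * r)⟩
  obtain ⟨M0, hM0⟩ := hB.P (Qb j) (fun p hp => (mem_filter.1 hp).2) f C (fun p _ y => FF_le hX (p * r) y)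
    (η ^ 2 / 128) (by positivity)
  refine ⟨M0, fun M hM M1 y => ?_⟩
  obtain ⟨m, hm, hm2⟩ := hM0 M hM M1 y
  refine hm2.trans ?_
  refine mul_le_mul_of_nonneg_right ?_ (Nat.cast_nonneg _)
  set W : ℝ := ∑ p ∈ Qb j, ∑ i, ∑ q ∈ Qb j, (jq (m i q) (f p) - jq (linf i) (f p)) with hW
  have hW0 : 0 ≤ W := by
    refine Finset.sum_nonneg fun p _ => Finset.sum_nonneg fun i _ => Finset.sum_nonneg fun q hq => ?_
    have := hB.pos i q (m i q) (hm i q hq) (f p)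
    linarith
  have hW1 : W ≤ δ * K ^ 2 := k2 m hm
  have e1 : ‖∑ p ∈ Qb j, ∫ y, f p y ∂ν‖ ^ 2 ≤ η ^ 2 / 64 * K ^ 2 := by
    calc ‖∑ p ∈ Qb j, ∫ y, f p y ∂ν‖ ^ 2 ≤ (η / 8 * K) ^ 2 := pow_le_pow_left₀ (norm_nonneg _) k1 2
      _ = η ^ 2 / 64 * K ^ 2 := by ring
  have e2 : K * C ^ 2 ≤ η ^ 2 / 128 * K ^ 2 := by
    have h4 : 128 * C ^ 2 / η ^ 2 ≤ K := by linarith
    rw [div_le_iff₀ (by positivity)] at h4
    nlinarith
  have e3 : W ≤ η ^ 2 / 128 * K ^ 2 := hW1.trans (mul_le_mul_of_nonneg_right hδ1 (by positivity))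
  have e5 : C0 * K * C * Real.sqrt W ≤ η ^ 2 / 64 * K ^ 2 := by
    have h5 : Real.sqrt W ≤ η ^ 2 / 64 / (C0 * C + 1) * K := by
      calc Real.sqrt W ≤ Real.sqrt (δ * K ^ 2) := Real.sqrt_le_sqrt hW1
        _ = Real.sqrt δ * K := by rw [Real.sqrt_mul hδ0.le, Real.sqrt_sq (by linarith)]
        _ ≤ _ := mul_le_mul_of_nonneg_right hδ2 (by linarith)
    have h6 : 0 ≤ C0 * K * C := by positivity
    calc C0 * K * C * Real.sqrt W ≤ C0 * K * C * (η ^ 2 / 64 / (C0 * C + 1) * K) :=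
          mul_le_mul_of_nonneg_left h5 h6
      _ = (C0 * C / (C0 * C + 1)) * (η ^ 2 / 64 * K ^ 2) := by
          have : C0 * C + 1 ≠ 0 := by positivity
          field_simp
      _ ≤ 1 * (η ^ 2 / 64 * K ^ 2) := by
          refine mul_le_mul_of_nonneg_right ?_ (by positivity)
          rw [div_le_one (by positivity)]
          linarith
      _ = η ^ 2 / 64 * K ^ 2 := one_mul _
  have e4 : η ^ 2 / 128 ≤ η ^ 2 / 128 * K ^ 2 := by
    have : (1 : ℝ) ≤ K ^ 2 := one_le_pow₀ hK1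
    nlinarith [sq_nonneg η]
  have e6 : (0 : ℝ) ≤ η ^ 2 * K ^ 2 := by positivity
  linarith

theorem obs_mainQ (hB : BaseQ S ν MM linf C0) (hX : Fam S X) {u : ℕ → ℂ} (hu : BMult u) (ε : ℝ) (hε : 0 < ε)
    (hR : ∀ r : ℕ, 1 ≤ r → ∃ j0 : ℕ, ∀ j ≥ j0, ‖∑ p ∈ Qb j, aX ν X (p * r)‖ ≤ ε ^ 2 / 512 * ((Qb j).card : ℝ)) :
    ∃ N0 : ℕ, ∀ N ≥ N0, ∀ (y : Y) (s t : ι), ‖∑ n ∈ Icc 1 N, u n * X n y s t‖ ≤ ε * N := by
  have key : ∃ N0 : ℕ, ∀ N ≥ N0, ∀ z : Y × ι × ι,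
      ‖∑ n ∈ Icc 1 N, u n * (fun (z : Y × ι × ι) (n : ℕ) => X n z.1 z.2.1 z.2.2) z n‖ ≤ ε * N := by
    refine kbsz_win hu _ (fun z n => hX.bd n _ _ _) ε hε ?_
    set η : ℝ := (ε / 8) ^ 2 with hηdef
    have hη : 0 < η := by positivity
    have hη8 : ε ^ 2 / 512 = η / 8 := by rw [hηdef]; ring
    set C : ℝ := (Fintype.card ι : ℝ) ^ 2 with hC
    obtain ⟨L, hL⟩ := exists_nat_ge (8 * C ^ 2 / η ^ 2 + 1)
    have hL0 : (0 : ℝ) < L := by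
      have : 0 ≤ 8 * C ^ 2 / η ^ 2 := by positivity
      linarith
    have hLn : 0 < L := by exact_mod_cast hL0
    have hen : ∀ᶠ j in atTop, ∀ r ∈ Ico 1 L, ∃ M0 : ℕ, ∀ M ≥ M0, ∀ (M1 : ℕ) (y : Y),
        ∑ m ∈ Ioc M1 (M1 + M), ‖∑ p ∈ Qb j, FF X (p * r) (S^[p * m] y)‖ ^ 2 ≤
          η ^ 2 / 16 * ((Qb j).card : ℝ) ^ 2 * M := by
      rw [Filter.eventually_all_finset]
      intro r hr
      obtain ⟨j0, h0⟩ := energy_win hB hX r (mem_Ico.1 hr).1 η hη (by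
        rw [← hη8]
        exact hR r (mem_Ico.1 hr).1)
      exact eventually_atTop.2 ⟨j0, h0⟩
    obtain ⟨J0, hJ0⟩ := eventually_atTop.1 hen
    refine ⟨J0, fun j hj => ?_⟩
    have hM : ∀ r : ℕ, ∃ M0 : ℕ, r ∈ Ico 1 L → ∀ M ≥ M0, ∀ (M1 : ℕ) (y : Y),
        ∑ m ∈ Ioc M1 (M1 + M), ‖∑ p ∈ Qb j, FF X (p * r) (S^[p * m] y)‖ ^ 2 ≤
          η ^ 2 / 16 * ((Qb j).card : ℝ) ^ 2 * M := by
      intro r
      by_cases h : r ∈ Ico 1 L
      · obtain ⟨M0, h0⟩ := hJ0 j hj r h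
        exact ⟨M0, fun _ => h0⟩
      · exact ⟨0, fun h' => absurd h' h⟩
    choose M0 hM0 using hM
    obtain ⟨H1, hH1⟩ := exists_nat_ge (4 * L / η)
    refine ⟨max H1 ((Ico 1 L).sup M0), fun H hH M1 z => ?_⟩
    obtain ⟨y, s, t⟩ := z
    have hHH1 : (4 * L / η : ℝ) ≤ H := hH1.trans (by exact_mod_cast (le_max_left _ _).trans hH)
    have hHM : ∀ r ∈ Ico 1 L, M0 r ≤ H := fun r hr =>
      (Finset.le_sup (f := M0) hr).trans ((le_max_right _ _).trans hH)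
    set K : ℝ := ((Qb j).card : ℝ) with hK
    have hK0 : 0 ≤ K := Nat.cast_nonneg _
    have hH0 : (0 : ℝ) ≤ H := Nat.cast_nonneg _
    -- the sum of Phi over the window
    have hP := pairs_win hX (Qb j) L hLn M1 H y (fun _ => η ^ 2 / 16 * K ^ 2 * H)
      (fun r hr M' => hM0 r hr H (hHM r hr) M' y)
    have hP2 : ∑ m ∈ Ioc M1 (M1 + H), ∑ p ∈ Qb j, ∑ q ∈ Qb j, Phi X p q L (S^[p * m] y) (S^[q * m] y) ≤
        (η / 2) ^ 2 * K ^ 2 * H := by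
      refine hP.trans ?_
      have h4 : C ^ 2 * K ^ 2 * H / L ≤ η ^ 2 / 8 * K ^ 2 * H := by
        rw [div_le_iff₀ hL0]
        have h5 : 8 * C ^ 2 / η ^ 2 ≤ L := by linarith
        rw [div_le_iff₀ (by positivity)] at h5
        have h6 : (0 : ℝ) ≤ K ^ 2 * H := by positivity
        nlinarith
      have h7 : 2 / (L : ℝ) * ∑ r ∈ Ico 1 L, (η ^ 2 / 16 * K ^ 2 * H) ≤ η ^ 2 / 8 * K ^ 2 * H := by
        rw [Finset.sum_const, nsmul_eq_mul, Nat.card_Ico]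
        have h8 : ((L - 1 : ℕ) : ℝ) ≤ L := by exact_mod_cast Nat.sub_le _ _
        have h9 : (0 : ℝ) ≤ η ^ 2 / 16 * K ^ 2 * H := by positivity
        calc 2 / (L : ℝ) * (((L - 1 : ℕ) : ℝ) * (η ^ 2 / 16 * K ^ 2 * H))
            ≤ 2 / (L : ℝ) * (L * (η ^ 2 / 16 * K ^ 2 * H)) := by gcongr
          _ = η ^ 2 / 8 * K ^ 2 * H := by
              field_simp
              ring
      calc _ ≤ η ^ 2 / 8 * K ^ 2 * H + η ^ 2 / 8 * K ^ 2 * H := add_le_add h4 h7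
        _ = _ := by ring
    -- the sum over the pairs
    have hcard : ((Ioc M1 (M1 + H)).card : ℝ) = H := by rw [Nat.card_Ioc, Nat.add_sub_cancel_left]
    have h10 : ∑ p ∈ Qb j, ∑ q ∈ Qb j, ∑ m ∈ Ioc M1 (M1 + H), Real.sqrt (Phi X p q L (S^[p * m] y) (S^[q * m] y)) ≤
        η / 2 * K ^ 2 * H := by
      have e1 : ∑ p ∈ Qb j, ∑ q ∈ Qb j, ∑ m ∈ Ioc M1 (M1 + H),
          Real.sqrt (Phi X p q L (S^[p * m] y) (S^[q * m] y)) =
          ∑ x ∈ (Qb j ×ˢ Qb j) ×ˢ Ioc M1 (M1 + H),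
            Real.sqrt (Phi X x.1.1 x.1.2 L (S^[x.1.1 * x.2] y) (S^[x.1.2 * x.2] y)) := by
        rw [Finset.sum_product, Finset.sum_product]
      have e2 : ∑ x ∈ (Qb j ×ˢ Qb j) ×ˢ Ioc M1 (M1 + H),
            Phi X x.1.1 x.1.2 L (S^[x.1.1 * x.2] y) (S^[x.1.2 * x.2] y) =
          ∑ m ∈ Ioc M1 (M1 + H), ∑ p ∈ Qb j, ∑ q ∈ Qb j, Phi X p q L (S^[p * m] y) (S^[q * m] y) := by
        rw [Finset.sum_product, Finset.sum_comm]
        refine Finset.sum_congr rfl fun m _ => ?_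
        rw [Finset.sum_product]
      rw [e1]
      refine (mn_sqrt _ _ fun x => Phi_nonneg X _ _ _ _ _).trans ?_
      rw [e2, Finset.card_product, Finset.card_product]
      apply Real.sqrt_le_iff.2
      refine ⟨by positivity, ?_⟩
      push_cast
      rw [hcard, ← hK]
      calc K * K * H * _ ≤ K * K * H * ((η / 2) ^ 2 * K ^ 2 * H) :=
            mul_le_mul_of_nonneg_left hP2 (by positivity)
        _ = (η / 2 * K ^ 2 * H) ^ 2 := by ring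
    have h11 : ∑ p ∈ Qb j, ∑ q ∈ Qb j, (2 * (L : ℝ)) ≤ η / 2 * K ^ 2 * H := by
      rw [Finset.sum_const, Finset.sum_const, nsmul_eq_mul, nsmul_eq_mul, ← hK]
      have h12 : 4 * (L : ℝ) ≤ H * η := by
        rwa [div_le_iff₀ hη] at hHH1
      have h13 : (0 : ℝ) ≤ K ^ 2 := by positivity
      nlinarith
    calc ∑ p ∈ Qb j, ∑ q ∈ Qb j, ‖∑ m ∈ Ioc M1 (M1 + H), X (p * m) y s t * conj (X (q * m) y s t)‖
        ≤ ∑ p ∈ Qb j, ∑ q ∈ Qb j, ((∑ m ∈ Ioc M1 (M1 + H),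
            Real.sqrt (Phi X p q L (S^[p * m] y) (S^[q * m] y))) + 2 * L) :=
          Finset.sum_le_sum fun p _ => Finset.sum_le_sum fun q _ => vdc_win hX p q L hLn M1 H y s t
      _ = (∑ p ∈ Qb j, ∑ q ∈ Qb j, ∑ m ∈ Ioc M1 (M1 + H),
            Real.sqrt (Phi X p q L (S^[p * m] y) (S^[q * m] y))) + ∑ p ∈ Qb j, ∑ q ∈ Qb j, (2 * (L : ℝ)) := by
          simp only [Finset.sum_add_distrib]
      _ ≤ η / 2 * K ^ 2 * H + η / 2 * K ^ 2 * H := add_le_add h10 h11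
      _ = η * K ^ 2 * H := by ring
  obtain ⟨N0, hN0⟩ := key
  exact ⟨N0, fun N hN y s t => hN0 N hN (y, s, t)⟩

theorem obs_noRatQ (hB : BaseQ S ν MM linf C0) (hX : Fam S X) (hR : NoRat (aX ν X)) {u : ℕ → ℂ} (hu : BMult u) (ε : ℝ)
    (hε : 0 < ε) : ∃ N0 : ℕ, ∀ N ≥ N0, ∀ (y : Y) (s t : ι), ‖∑ n ∈ Icc 1 N, u n * X n y s t‖ ≤ ε * N := by
  have := hB.prob
  set C : ℝ := (Fintype.card ι : ℝ) ^ 2 with hC
  have hV : VN (aX ν X) C := by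
    have h1 := vn_of_posDef _ (aX_posDef hB.cont hX hB.mp) (aX_zero_im (ν := ν) hX)
    intro c N r' Bd hBd
    have h2 := h1 c N r' Bd hBd
    have h3 : 0 ≤ Bd := (norm_nonneg _).trans (hBd 0)
    have h4 : (aX ν X 0).re ≤ C := (Complex.re_le_norm _).trans (aX_le hX 0)
    exact h2.trans (mul_le_mul_of_nonneg_right h4 h3)
  refine obs_mainQ hB hX hu ε hε fun r hr => ?_
  exact prime_avg (aX ν X) C (fun n => aX_le hX n) hV hR r hr (ε ^ 2 / 512) (by positivity)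

end Pool.Agent.Lib.MP_9fe581_an.HX
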