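import Pool.Agent.Lib.MP_9fe581_an.HD.Spec

/-!
# HX: the rational spectrum of a matrix observable along a unitary cocycle
-/

set_option autoImplicit false

open Finset MeasureTheory Filter Topology
open scoped ComplexConjugate Matrix

namespace Pool.Agent.Lib.MP_9fe581_an.HX

open Pool.Agent.Lib.MP_9fe581_an.HD

variable {ι : Type} [Fintype ι] [DecidableEq ι]
  {Y : Type} [TopologicalSpace Y] [CompactSpace Y] [TopologicalSpace.MetrizableSpace Y] [MeasurableSpace Y] [BorelSpace Y]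
  {ν : Measure Y} [IsProbabilityMeasure ν] {S : Y → Y} {A : Y → Matrix ι ι ℂ}

/-- the splitting of a matrix observable -/
theorem spec_splitD (hS : MeasurePreserving S ν ν) (hSc : Continuous S) (hA : Continuous A) (hAA : ∀ x, A x * (A x)ᴴ = 1)
    {D : Y → Matrix ι ι ℂ} (hD : Continuous D) :
    ∃ K : ℝ, 0 ≤ K ∧ ∀ ε : ℝ, 0 < ε → ε ≤ 1 →
    ∃ (m : ℕ) (w : Fin m → ℂ) (F : Fin m → Y → Matrix ι ι ℂ) (C : Y → Matrix ι ι ℂ), Continuous C ∧
      (∀ s, ∃ q : ℕ, 0 < q ∧ w s ^ q = 1) ∧ (∀ s i j, Integrable (fun y => F s y i j) ν) ∧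
      (∀ l i j, ∫ y, ‖(C (S^[l] y) * cpS S A l y) i j - ∑ s, w s ^ l * F s y i j‖ ∂ν ≤ ε) ∧
      ∃ a' : ℕ → ℂ, PosDef a' ∧ (a' 0).im = 0 ∧ (∀ n, ‖a' n‖ ≤ (2 * K + 2) ^ 2) ∧ NoRat a' ∧
        ∀ n, ‖∫ x, ((D (S^[n] x) - C (S^[n] x)) * cpS S A n x * (D x - C x)ᴴ).trace ∂ν - a' n‖ ≤
          4 * (2 * K + 2) * ε := by
  set V := vop hS hA hAA with hVdef
  set f : Lp (EM ι) 2 ν := emb ν hD with hf
  refine ⟨‖f‖, norm_nonneg _, fun ε hε hε1 => ?_⟩
  obtain ⟨m, w, h, hw, hV, hc⟩ := as_split V f ε hε hε1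
  obtain ⟨c, hcd⟩ := (ContinuousMap.toLp_denseRange (EM ι) ν ℂ (p := 2) (by norm_num)).exists_dist_lt (∑ s, h s) hε
  set C : Y → Matrix ι ι ℂ := fun x => Matrix.of fun i j => c x (i, j) with hCdef
  have hC : Continuous C := continuous_matrix fun i j => (PiLp.continuous_apply 2 _ (i, j)).comp c.continuous
  have hCc : emb ν hC = ContinuousMap.toLp 2 ν ℂ c := by
    unfold emb
    congr 1
  have hcn : ‖emb ν hC - ∑ s, h s‖ ≤ ε := by
    rw [hCc, ← dist_eq_norm, dist_comm]; exact hcd.le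
  obtain ⟨a', ha1, ha2, ha3, ha4, ha5⟩ := hc (emb ν hC) hcn
  refine ⟨m, w, fun s y => Matrix.of fun i j => (h s : Y → EM ι) y (i, j), C, hC, hw, fun s i j => ?_, fun l i j => ?_,
    a', ha1, ha2, ha3, ha4, fun n => ?_⟩
  · have h1 : MemLp (fun y => (EuclideanSpace.proj (i, j) : EM ι →L[ℂ] ℂ) ((h s : Y → EM ι) y)) 2 ν :=
      (EuclideanSpace.proj (i, j) : EM ι →L[ℂ] ℂ).comp_memLp' (Lp.memLp (h s))
    exact h1.integrable (by norm_num)
  · set W : Lp (EM ι) 2 ν →ₗ[ℂ] Lp (EM ι) 2 ν := (V.toLinearMap : Module.End ℂ (Lp (EM ι) 2 ν)) ^ l with hW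
    have hWa : ∀ g, W g = V^[l] g := fun g => Module.End.pow_apply _ _ _
    have hVh : ∀ s, W (h s) = w s ^ l • h s := by
      intro s
      rw [hWa]
      clear hWa hW
      induction l with
      | zero => simp
      | succ l ih => rw [Function.iterate_succ_apply', ih, map_smul, hV, smul_smul, pow_succ]
    set G : Lp (EM ι) 2 ν := W (emb ν hC - ∑ s, h s) with hG
    have hGn : ‖G‖ ≤ ε := by rw [hG, hWa, as_iter_norm]; exact hcn
    have hG2 : G = emb ν (orb_cont hSc hA hC l) - ∑ s, w s ^ l • h s := by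
      rw [hG, map_sub, map_sum, hWa, vop_iter hS hSc hA hAA]
      congr 1
      exact Finset.sum_congr rfl fun s _ => hVh s
    have hae : (fun y => (G : Y → EM ι) y (i, j)) =ᵐ[ν] fun y => (C (S^[l] y) * cpS S A l y) i j - ∑ s, w s ^ l *
        (h s : Y → EM ι) y (i, j) := by
      have h1 := Lp.coeFn_sub (emb ν (orb_cont hSc hA hC l)) (∑ s, w s ^ l • h s)
      have h2 := Lp.coeFn_finsetSum Finset.univ fun s => w s ^ l • h s
      have h3 : ∀ᵐ y ∂ν, ∀ s, ((w s ^ l • h s : Lp (EM ι) 2 ν) : Y → EM ι) y = w s ^ l • (h s : Y → EM ι) y :=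
        ae_all_iff.2 fun s => Lp.coeFn_smul (w s ^ l) (h s)
      filter_upwards [h1, h2, h3, emb_ae (ν := ν) (orb_cont hSc hA hC l)] with y e1 e2 e3 e4
      rw [hG2, e1, Pi.sub_apply, e2, e4, PiLp.sub_apply, cmE_apply]
      congr 1
      rw [Finset.sum_apply]
      have e5 : ∀ (t : Finset (Fin m)) (g : Fin m → EM ι), (∑ s ∈ t, g s) (i, j) = ∑ s ∈ t, g s (i, j) := fun t g => by
        simp
      rw [e5]
      exact Finset.sum_congr rfl fun s _ => by rw [e3 s]; rfl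
    have h4 := lp_int_le G i j
    have h5 := integral_congr_ae (hae.fun_comp norm)
    simp only [Function.comp_def] at h5
    rw [h5] at h4
    exact h4.trans hGn
  · have h1 := ha5 n
    rw [hf, emb_sub, hVdef, cor_emb hS hSc hA hAA] at h1
    exact h1

end Pool.Agent.Lib.MP_9fe581_an.HX
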