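import Pool.Agent.Lib.MP_9fe581_an.HD.MNE
import Pool.Agent.Lib.MP_9fe581_an.HX.MainQ
import Pool.Agent.Lib.MP_9fe581_an.HX.DefsZ
import Pool.Agent.Lib.MP_9fe581_an.HX.SpecD

/-!
# HX, module Z1: unitary cocycles over a base with property (P), no ergodicity
-/

set_option linter.unusedSectionVars false

open Finset MeasureTheory Filter Topology
open scoped ComplexConjugate Matrix

namespace Pool.Agent.Lib.MP_9fe581_an.HX

open Pool.Agent.Lib.MP_9fe581_an.HD

variable {Y : Type} [TopologicalSpace Y] [CompactSpace Y] [TopologicalSpace.MetrizableSpace Y] [MeasurableSpace Y] [BorelSpace Y]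
  {ν : Measure Y} [IsProbabilityMeasure ν] {S : Y → Y}

/-- core of the part with rational discrete spectrum -/
theorem ms_core (hE : UE S ν) {u : ℕ → ℂ} (hu : ∀ n, ‖u n‖ ≤ 1)
    {σ : Type} [Fintype σ] (w : σ → ℂ) (hw : ∀ s, ‖w s‖ = 1) (hS : ∀ s, ShortOrth u (w s))
    (b : σ → Y → ℂ) (hb : ∀ s, Integrable (b s) (ν))
    (T : ℕ → Y → ℂ) (hT : ∀ l, Continuous (T l)) (δ : ℝ)
    (hδ : ∀ l, ∫ y, ‖T l y - ∑ s, w s ^ l * b s y‖ ∂ν ≤ δ) (ε : ℝ) (hε : 0 < ε) :
    ∃ L0 : ℕ, ∀ L ≥ L0, ∃ N0 : ℕ, ∀ N ≥ N0, ∀ x : Y,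
      ∑ n ∈ Icc 1 N, ‖∑ l ∈ range L, u (n + l) * T l (S^[n] x)‖ ≤ (δ + ε) * L * N := by
  classical
  set K : ℝ := (Fintype.card σ : ℝ) with hK
  have hK0 : 0 ≤ K := Nat.cast_nonneg _
  set ε1 : ℝ := ε / (4 * (K + 1)) with hε1
  have hε1p : 0 < ε1 := by positivity
  choose b' hb' hbi' using fun s => (hb s).exists_boundedContinuous_integral_sub_le (ε := ε1) hε1p
  set M : ℝ := ∑ s, ‖b' s‖ + 1 with hM
  have hM0 : 0 < M := by
    have : 0 ≤ ∑ s, ‖b' s‖ := Finset.sum_nonneg fun s _ => norm_nonneg _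
    linarith
  have hbM : ∀ s y, ‖b' s y‖ ≤ M := by
    intro s y
    have e1 := (b' s).norm_coe_le_norm y
    have e2 := Finset.single_le_sum (f := fun s => ‖b' s‖) (fun s _ => norm_nonneg _) (Finset.mem_univ s)
    linarith
  choose L0 hL0 using fun s => hS s (ε1 / M) (by positivity)
  refine ⟨∑ s, L0 s + 1, fun L hL => ?_⟩
  have hLs : ∀ s, L0 s ≤ L := fun s => by
    have := Finset.single_le_sum (fun i _ => Nat.zero_le (L0 i)) (Finset.mem_univ s)
    omega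
  have hL1 : (1 : ℝ) ≤ L := by
    have : 1 ≤ L := by omega
    exact_mod_cast this
  choose N0 hN0 using fun s => hL0 s L (hLs s)
  set E : Y → ℝ := fun y => ∑ l ∈ range L, ‖T l y - ∑ s, w s ^ l * b' s y‖ with hEdef
  have hEl : ∀ l, Continuous fun y => ‖T l y - ∑ s, w s ^ l * b' s y‖ := fun l =>
    Continuous.norm ((hT l).sub (continuous_finsetSum _ fun s _ => continuous_const.mul (b' s).continuous))
  have hEc : Continuous E := continuous_finsetSum _ fun l _ => hEl l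
  have hTi : ∀ l, Integrable (T l) (ν) := fun l =>
    (hT l).integrable_of_hasCompactSupport (HasCompactSupport.of_compactSpace _)
  have hterm : ∀ l, ∫ y, ‖T l y - ∑ s, w s ^ l * b' s y‖ ∂ν ≤ δ + K * ε1 := by
    intro l
    have hpt : ∀ y, ‖T l y - ∑ s, w s ^ l * b' s y‖ ≤
        ‖T l y - ∑ s, w s ^ l * b s y‖ + ∑ s, ‖b s y - b' s y‖ := by
      intro y
      have e1 : T l y - ∑ s, w s ^ l * b' s y =
          (T l y - ∑ s, w s ^ l * b s y) + ∑ s, w s ^ l * (b s y - b' s y) := by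
        have : ∑ s, w s ^ l * (b s y - b' s y) = ∑ s, w s ^ l * b s y - ∑ s, w s ^ l * b' s y := by
          rw [← Finset.sum_sub_distrib]
          exact Finset.sum_congr rfl fun s _ => by ring
        rw [this]; ring
      rw [e1]
      refine (norm_add_le _ _).trans (add_le_add le_rfl ((norm_sum_le _ _).trans (Finset.sum_le_sum fun s _ => ?_)))
      rw [norm_mul, norm_pow, hw s, one_pow, one_mul]
    have hi1 : Integrable (fun y => ‖T l y - ∑ s, w s ^ l * b s y‖) (ν) :=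
      ((hTi l).sub (integrable_finsetSum _ fun s _ => (hb s).const_mul _)).norm
    have hi3 : ∀ s, Integrable (fun y => ‖b s y - b' s y‖) (ν) := fun s => ((hb s).sub (hbi' s)).norm
    have hi4 : Integrable (fun y => ∑ s, ‖b s y - b' s y‖) (ν) := integrable_finsetSum _ fun s _ => hi3 s
    calc ∫ y, ‖T l y - ∑ s, w s ^ l * b' s y‖ ∂ν
        ≤ ∫ y, (‖T l y - ∑ s, w s ^ l * b s y‖ + ∑ s, ‖b s y - b' s y‖) ∂ν :=
          integral_mono_of_nonneg (Eventually.of_forall fun y => norm_nonneg _) (hi1.add hi4) (Eventually.of_forall hpt)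
      _ = ∫ y, ‖T l y - ∑ s, w s ^ l * b s y‖ ∂ν + ∑ s, ∫ y, ‖b s y - b' s y‖ ∂ν := by
          rw [integral_add hi1 hi4, integral_finsetSum _ fun s _ => hi3 s]
      _ ≤ δ + ∑ _s : σ, ε1 := by
          gcongr with s
          · exact hδ l
          · exact hb' s
      _ = δ + K * ε1 := by
          rw [Finset.sum_const, Finset.card_univ, nsmul_eq_mul]
  have hEint : ∫ y, E y ∂ν ≤ L * (δ + K * ε1) := by
    rw [hEdef, integral_finsetSum _ fun l _ =>
      (hEl l).integrable_of_hasCompactSupport (HasCompactSupport.of_compactSpace _)]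
    refine (Finset.sum_le_sum fun l _ => hterm l).trans (le_of_eq ?_)
    rw [Finset.sum_const, Finset.card_range, nsmul_eq_mul]
  obtain ⟨N1, hN1⟩ := hE E hEc ε1 hε1p
  refine ⟨N1 + ∑ s, N0 s, fun N hN x => ?_⟩
  have hNs : ∀ s, N0 s ≤ N := fun s => by
    have := Finset.single_le_sum (fun i _ => Nat.zero_le (N0 i)) (Finset.mem_univ s)
    omega
  have hEN := hN1 N (by omega) x
  have hn : ∀ n ∈ Icc 1 N, ‖∑ l ∈ range L, u (n + l) * T l (S^[n] x)‖ ≤ E (S^[n] x) +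
      ∑ s, M * ‖∑ l ∈ range L, u (n + l) * w s ^ l‖ := by
    intro n _
    set y := S^[n] x with hy
    have e1 : ∑ l ∈ range L, u (n + l) * T l y =
        ∑ l ∈ range L, u (n + l) * (T l y - ∑ s, w s ^ l * b' s y) +
        ∑ s, b' s y * (∑ l ∈ range L, u (n + l) * w s ^ l) := by
      have e2 : ∑ s, b' s y * (∑ l ∈ range L, u (n + l) * w s ^ l) =
          ∑ l ∈ range L, u (n + l) * ∑ s, w s ^ l * b' s y := by
        simp_rw [Finset.mul_sum]
        rw [Finset.sum_comm]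
        exact Finset.sum_congr rfl fun l _ => Finset.sum_congr rfl fun s _ => by ring
      rw [e2, ← Finset.sum_add_distrib]
      exact Finset.sum_congr rfl fun l _ => by ring
    rw [e1]
    refine (norm_add_le _ _).trans (add_le_add ((norm_sum_le _ _).trans (Finset.sum_le_sum fun l _ => ?_))
      ((norm_sum_le _ _).trans (Finset.sum_le_sum fun s _ => ?_)))
    · rw [norm_mul]
      exact mul_le_of_le_one_left (norm_nonneg _) (hu _)
    · rw [norm_mul]
      exact mul_le_mul_of_nonneg_right (hbM s y) (norm_nonneg _)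
  refine (Finset.sum_le_sum hn).trans ?_
  rw [Finset.sum_add_distrib]
  have h6 : ∑ n ∈ Icc 1 N, ∑ s, M * ‖∑ l ∈ range L, u (n + l) * w s ^ l‖ =
      ∑ s, M * ∑ n ∈ Icc 1 N, ‖∑ l ∈ range L, u (n + l) * w s ^ l‖ := by
    rw [Finset.sum_comm]
    exact Finset.sum_congr rfl fun s _ => (Finset.mul_sum _ _ _).symm
  rw [h6]
  have h7 : ∑ s, M * ∑ n ∈ Icc 1 N, ‖∑ l ∈ range L, u (n + l) * w s ^ l‖ ≤ K * (ε1 * L * N) := by
    have h8 : ∀ s ∈ Finset.univ, M * ∑ n ∈ Icc 1 N, ‖∑ l ∈ range L, u (n + l) * w s ^ l‖ ≤ ε1 * L * N := by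
      intro s _
      refine (mul_le_mul_of_nonneg_left (hN0 s N (hNs s)) hM0.le).trans (le_of_eq ?_)
      field_simp
    refine (Finset.sum_le_sum h8).trans (le_of_eq ?_)
    rw [Finset.sum_const, Finset.card_univ, nsmul_eq_mul]
  have hN' : (0 : ℝ) ≤ N := Nat.cast_nonneg _
  have h8 : (∫ t, E t ∂ν + ε1) * N ≤ (L * (δ + K * ε1) + ε1 * L) * N := by
    apply mul_le_mul_of_nonneg_right _ hN'
    nlinarith [hEint]
  have h9 : (2 * K + 1) * ε1 ≤ ε := by
    rw [hε1, mul_div_assoc', div_le_iff₀ (by positivity)]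
    nlinarith
  have h10 : 0 ≤ (L : ℝ) * N := by positivity
  have h11 := mul_le_mul_of_nonneg_right h9 h10
  calc _ ≤ (L * (δ + K * ε1) + ε1 * L) * N + K * (ε1 * L * N) := add_le_add (hEN.trans h8) h7
    _ = δ * (L * N) + (2 * K + 1) * ε1 * (L * N) := by ring
    _ ≤ δ * (L * N) + ε * (L * N) := by linarith
    _ = (δ + ε) * L * N := by ring

variable {ι : Type} [Fintype ι] [DecidableEq ι] {A : Y → Matrix ι ι ℂ}

theorem ms_add (S : Y → Y) (A : Y → Matrix ι ι ℂ) (l k : ℕ) (x : Y) :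
    cpS S A (l + k) x = cpS S A l (S^[k] x) * cpS S A k x := by
  induction l with
  | zero => simp [cpS]
  | succ l ih => rw [Nat.succ_add, cpS, ih, cpS, Function.iterate_add_apply, Matrix.mul_assoc]

theorem ms_uni (hAA : ∀ x, A x * (A x)ᴴ = 1) (n : ℕ) (x : Y) : cpS S A n x * (cpS S A n x)ᴴ = 1 := by
  induction n with
  | zero => simp [cpS]
  | succ n ih =>
    rw [cpS, Matrix.conjTranspose_mul, Matrix.mul_assoc, ← Matrix.mul_assoc (cpS S A n x), ih, Matrix.one_mul, hAA]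

theorem ms_uni' (hAA : ∀ x, A x * (A x)ᴴ = 1) (n : ℕ) (x : Y) : (cpS S A n x)ᴴ * cpS S A n x = 1 :=
  mul_eq_one_comm.1 (ms_uni hAA n x)

theorem ms_col (hAA : ∀ x, A x * (A x)ᴴ = 1) (n : ℕ) (x : Y) (t : ι) : ∑ b, ‖cpS S A n x b t‖ ^ 2 = 1 := by
  have h := congrFun (congrFun (ms_uni' (S := S) hAA n x) t) t
  rw [Matrix.one_apply_eq, Matrix.mul_apply] at h
  have h2 : ((∑ b, ‖cpS S A n x b t‖ ^ 2 : ℝ) : ℂ) = 1 := by
    rw [← h]
    push_cast
    refine Finset.sum_congr rfl fun b _ => ?_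
    rw [Matrix.conjTranspose_apply]
    exact (Complex.conj_mul' _).symm
  exact_mod_cast h2

theorem ms_entry (hAA : ∀ x, A x * (A x)ᴴ = 1) (n : ℕ) (x : Y) (b t : ι) : ‖cpS S A n x b t‖ ≤ 1 := by
  have h1 : ‖cpS S A n x b t‖ ^ 2 ≤ ∑ b, ‖cpS S A n x b t‖ ^ 2 :=
    Finset.single_le_sum (f := fun b => ‖cpS S A n x b t‖ ^ 2) (fun b _ => by positivity) (Finset.mem_univ b)
  rw [ms_col hAA] at h1
  exact (sq_le_one_iff₀ (norm_nonneg _)).1 h1

/-- the part of a unitary cocycle with discrete spectrum, cut out by a continuous function `C` -/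
theorem ms_part (hSc : Continuous S) (hA : Continuous A) (hAA : ∀ x, A x * (A x)ᴴ = 1) (hE : UE S ν) {u : ℕ → ℂ} (hu : ∀ n, ‖u n‖ ≤ 1)
    {σ : Type} [Fintype σ] (w : σ → ℂ) (hw : ∀ s, ‖w s‖ = 1) (hS : ∀ s, ShortOrth u (w s))
    (F : σ → Y → Matrix ι ι ℂ) (hm : ∀ s i k, Integrable (fun y => F s y i k) (ν))
    (C : Y → Matrix ι ι ℂ) (hC : Continuous C) (δ : ℝ)
    (hδ : ∀ l i k, ∫ y, ‖(C (S^[l] y) * cpS S A l y) i k - ∑ s, w s ^ l * F s y i k‖ ∂ν ≤ δ)
    (ε : ℝ) (hε : 0 < ε) :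
    ∃ N0 : ℕ, ∀ N ≥ N0, ∀ (x : Y) (i j : ι),
      ‖∑ n ∈ Icc 1 N, u n * (C (S^[n] x) * cpS S A n x) i j‖ ≤ (Fintype.card ι * δ + ε) * N := by
  classical
  set K : ℝ := (Fintype.card ι : ℝ) with hK
  have hK0 : 0 ≤ K := Nat.cast_nonneg _
  set T : ι → ι → ℕ → Y → ℂ := fun i k l y => (C (S^[l] y) * cpS S A l y) i k with hT
  have hTc : ∀ i k l, Continuous (T i k l) := fun i k l =>
    ((hC.comp (hSc.iterate l)).matrix_mul (cpS_cont hSc hA l)).matrix_elem i k
  set ε1 : ℝ := ε / (2 * (K + 1)) with hε1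
  have hε1p : 0 < ε1 := by positivity
  have hcore : ∀ i k : ι, ∃ L0 : ℕ, ∀ L ≥ L0, ∃ N0 : ℕ, ∀ N ≥ N0, ∀ x : Y,
      ∑ n ∈ Icc 1 N, ‖∑ l ∈ range L, u (n + l) * T i k l (S^[n] x)‖ ≤ (δ + ε1) * L * N := fun i k =>
    ms_core hE hu w hw hS (fun s y => F s y i k) (fun s => hm s i k) (T i k) (hTc i k) δ (fun l => hδ l i k) ε1 hε1p
  choose L0 hL0 using hcore
  set L : ℕ := ∑ i, ∑ k, L0 i k + 1 with hL
  have hLs : ∀ i k, L0 i k ≤ L := fun i k => by
    have e1 := Finset.single_le_sum (fun k _ => Nat.zero_le (L0 i k)) (Finset.mem_univ k)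
    have e2 := Finset.single_le_sum (fun i _ => Nat.zero_le (∑ k, L0 i k)) (Finset.mem_univ i)
    omega
  choose N0 hN0 using fun i k => hL0 i k L (hLs i k)
  -- bound for C
  obtain ⟨B, hB⟩ : ∃ B : ℝ, ∀ (y : Y) (i k : ι), ‖C y i k‖ ≤ B := by
    have hc : ∀ i k : ι, ∃ B : ℝ, ∀ y : Y, ‖C y i k‖ ≤ B := fun i k =>
      ⟨‖(⟨fun y => C y i k, hC.matrix_elem i k⟩ : C(Y, ℂ))‖, fun y =>
        (⟨fun y => C y i k, hC.matrix_elem i k⟩ : C(Y, ℂ)).norm_coe_le_norm y⟩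
    choose B hB using hc
    refine ⟨∑ i, ∑ k, |B i k|, fun y i k => (hB i k y).trans ((le_abs_self _).trans ?_)⟩
    exact (Finset.single_le_sum (f := fun k => |B i k|) (fun k _ => abs_nonneg _) (Finset.mem_univ k)).trans
      (Finset.single_le_sum (f := fun i => ∑ k, |B i k|) (fun i _ => Finset.sum_nonneg fun k _ => abs_nonneg _) (Finset.mem_univ i))
  have hLpos : (0 : ℝ) < L := by
    have : 0 < L := by omega
    exact_mod_cast this
  obtain ⟨N1, hN1⟩ := exists_nat_ge (4 * (K * B) * L / ε)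
  refine ⟨N1 + ∑ i, ∑ k, N0 i k, fun N hN x i j => ?_⟩
  have hNs : ∀ i k, N0 i k ≤ N := fun i k => by
    have e1 := Finset.single_le_sum (fun k _ => Nat.zero_le (N0 i k)) (Finset.mem_univ k)
    have e2 := Finset.single_le_sum (fun i _ => Nat.zero_le (∑ k, N0 i k)) (Finset.mem_univ i)
    omega
  have hNN : 4 * (K * B) * L / ε ≤ N := hN1.trans (by exact_mod_cast (show N1 ≤ N by omega))
  have hB0 : 0 ≤ B := (norm_nonneg _).trans (hB x i j)
  have hbound : ∀ n : ℕ, ‖u n * (C (S^[n] x) * cpS S A n x) i j‖ ≤ K * B := by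
    intro n
    rw [norm_mul, Matrix.mul_apply]
    have e1 : ‖∑ k, C (S^[n] x) i k * cpS S A n x k j‖ ≤ K * B := by
      refine (norm_sum_le _ _).trans ?_
      have : ∀ k ∈ Finset.univ, ‖C (S^[n] x) i k * cpS S A n x k j‖ ≤ B := by
        intro k _
        rw [norm_mul]
        calc ‖C (S^[n] x) i k‖ * ‖cpS S A n x k j‖ ≤ B * 1 :=
              mul_le_mul (hB _ i k) (ms_entry hAA n x k j) (norm_nonneg _) hB0
          _ = B := mul_one _
      refine (Finset.sum_le_sum this).trans (le_of_eq ?_)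
      rw [Finset.sum_const, Finset.card_univ, nsmul_eq_mul]
    calc ‖u n‖ * ‖∑ k, C (S^[n] x) i k * cpS S A n x k j‖ ≤ 1 * (K * B) :=
          mul_le_mul (hu n) e1 (norm_nonneg _) zero_le_one
      _ = K * B := one_mul _
  have hblk := ne_block (fun n => u n * (C (S^[n] x) * cpS S A n x) i j) (K * B) hbound L N
  have hsum : ∑ n ∈ Icc 1 N, ‖∑ l ∈ range L, u (n + l) * (C (S^[n + l] x) * cpS S A (n + l) x) i j‖ ≤
      K * ((δ + ε1) * L * N) := by
    have hpt : ∀ n ∈ Icc 1 N, ‖∑ l ∈ range L, u (n + l) * (C (S^[n + l] x) * cpS S A (n + l) x) i j‖ ≤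
        ∑ k, ‖∑ l ∈ range L, u (n + l) * T i k l (S^[n] x)‖ := by
      intro n _
      have e1 : ∑ l ∈ range L, u (n + l) * (C (S^[n + l] x) * cpS S A (n + l) x) i j =
          ∑ k, (∑ l ∈ range L, u (n + l) * T i k l (S^[n] x)) * cpS S A n x k j := by
        simp_rw [Finset.sum_mul]
        rw [Finset.sum_comm]
        refine Finset.sum_congr rfl fun l _ => ?_
        rw [add_comm n l, ms_add S A l n x, ← Matrix.mul_assoc, Matrix.mul_apply, Finset.mul_sum]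
        refine Finset.sum_congr rfl fun k _ => ?_
        rw [hT]
        simp only
        rw [Function.iterate_add_apply]
        ring
      rw [e1]
      refine (norm_sum_le _ _).trans (Finset.sum_le_sum fun k _ => ?_)
      rw [norm_mul]
      exact mul_le_of_le_one_right (norm_nonneg _) (ms_entry hAA n x k j)
    refine (Finset.sum_le_sum hpt).trans ?_
    rw [Finset.sum_comm]
    refine (Finset.sum_le_sum fun k _ => hN0 i k N (hNs i k) x).trans (le_of_eq ?_)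
    rw [Finset.sum_const, Finset.card_univ, nsmul_eq_mul]
  have h1 : L * ‖∑ n ∈ Icc 1 N, u n * (C (S^[n] x) * cpS S A n x) i j‖ ≤
      L * (K * ((δ + ε1) * N) + 2 * (K * B) * L) := by
    refine hblk.trans (le_trans (add_le_add hsum le_rfl) (le_of_eq (by ring)))
  have h2 := le_of_mul_le_mul_left h1 hLpos
  refine h2.trans ?_
  have h3 : 2 * (K * B) * L ≤ ε / 2 * N := by
    rw [div_le_iff₀ hε] at hNN
    linarith
  have h4 : K * ε1 ≤ ε / 2 := by
    rw [hε1, mul_div_assoc', div_le_div_iff₀ (by positivity) (by norm_num)]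
    nlinarith
  have h5 : K * ε1 * N ≤ ε / 2 * N := mul_le_mul_of_nonneg_right h4 (Nat.cast_nonneg _)
  calc K * ((δ + ε1) * N) + 2 * (K * B) * L = K * δ * N + K * ε1 * N + 2 * (K * B) * L := by ring
    _ ≤ K * δ * N + ε / 2 * N + ε / 2 * N := by linarith
    _ = (K * δ + ε) * N := by ring

/-- entries of `D (x + n α) A_n(x)` are bounded -/
theorem ms_bound (hAA : ∀ x, A x * (A x)ᴴ = 1) {D : Y → Matrix ι ι ℂ} (hD : Continuous D) :
    ∃ R : ℝ, 0 < R ∧ ∀ (n : ℕ) (x : Y) (i j : ι), ‖(D (S^[n] x) * cpS S A n x) i j‖ ≤ R := by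
  obtain ⟨B, hB⟩ : ∃ B : ℝ, ∀ (y : Y) (i k : ι), ‖D y i k‖ ≤ B := by
    have hc : ∀ i k : ι, ∃ B : ℝ, ∀ y : Y, ‖D y i k‖ ≤ B := fun i k =>
      ⟨‖(⟨fun y => D y i k, hD.matrix_elem i k⟩ : C(Y, ℂ))‖, fun y =>
        (⟨fun y => D y i k, hD.matrix_elem i k⟩ : C(Y, ℂ)).norm_coe_le_norm y⟩
    choose B hB using hc
    refine ⟨∑ i, ∑ k, |B i k|, fun y i k => (hB i k y).trans ((le_abs_self _).trans ?_)⟩
    exact (Finset.single_le_sum (f := fun k => |B i k|) (fun k _ => abs_nonneg _) (Finset.mem_univ k)).trans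
      (Finset.single_le_sum (f := fun i => ∑ k, |B i k|) (fun i _ => Finset.sum_nonneg fun k _ => abs_nonneg _) (Finset.mem_univ i))
  refine ⟨Fintype.card ι * |B| + 1, by positivity, fun n x i j => ?_⟩
  rw [Matrix.mul_apply]
  have e1 : ‖∑ k, D (S^[n] x) i k * cpS S A n x k j‖ ≤ Fintype.card ι * |B| := by
    refine (norm_sum_le _ _).trans ?_
    have : ∀ k ∈ Finset.univ, ‖D (S^[n] x) i k * cpS S A n x k j‖ ≤ |B| := by
      intro k _
      rw [norm_mul]
      calc ‖D (S^[n] x) i k‖ * ‖cpS S A n x k j‖ ≤ |B| * 1 :=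
            mul_le_mul ((hB _ i k).trans (le_abs_self _)) (ms_entry hAA n x k j) (norm_nonneg _) (abs_nonneg _)
        _ = |B| := mul_one _
    refine (Finset.sum_le_sum this).trans (le_of_eq ?_)
    rw [Finset.sum_const, Finset.card_univ, nsmul_eq_mul]
  linarith

variable {δι : Type} [Fintype δι] {MM : δι → ℕ → Set (Measure (Y × Y))} {linf : δι → Measure (Y × Y)} {C0 : ℝ}

/-- the part almost without rational spectrum -/
theorem ms_obs (hB : BaseQ S ν MM linf C0) (hA : Continuous A) (hAA : ∀ x, A x * (A x)ᴴ = 1) {u : ℕ → ℂ} (hu : BMult u)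
    {D : Y → Matrix ι ι ℂ} (hD : Continuous D) (a' : ℕ → ℂ) (K ε : ℝ) (hP : PosDef a') (h0 : (a' 0).im = 0)
    (hK : ∀ n, ‖a' n‖ ≤ K) (hR : NoRat a') (δ : ℝ) (hδ : 0 < δ) (hε : ε ≤ δ ^ 2 / 1024)
    (hd : ∀ n, ‖∫ x, (D (S^[n] x) * cpS S A n x * (D x)ᴴ).trace ∂ν - a' n‖ ≤ ε) :
    ∃ N0 : ℕ, ∀ N ≥ N0, ∀ (x : Y) (i j : ι),
      ‖∑ n ∈ Icc 1 N, u n * (D (S^[n] x) * cpS S A n x) i j‖ ≤ δ * N := by
  obtain ⟨R, hR0, hRb⟩ := ms_bound (S := S) hAA hD
  set X : ℕ → Y → Matrix ι ι ℂ := fun n x => ((R : ℂ)⁻¹) • (D (S^[n] x) * cpS S A n x) with hX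
  have hXF : Fam S X := by
    refine ⟨fun n => ?_, fun n x i j => ?_, fun k y => ⟨cpS S A k y, fun t => (ms_col hAA k y t).le, fun l => ⟨?_, ?_⟩⟩⟩
    · exact Continuous.const_smul ((hD.comp (hB.cont.iterate n)).matrix_mul (cpS_cont hB.cont hA n)) ((R : ℂ)⁻¹)
    · simp only [hX]
      rw [Matrix.smul_apply, smul_eq_mul, norm_mul, norm_inv, Complex.norm_real, Real.norm_of_nonneg hR0.le,
        inv_mul_le_iff₀ hR0, mul_one]
      exact hRb n x i j
    · simp only [hX]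
      rw [ms_add S A l k y, Function.iterate_add_apply, Matrix.smul_mul, Matrix.mul_assoc]
    · rw [ms_uni hAA, Matrix.mul_one]
  set I : ℕ → ℂ := fun n => ∫ x, (D (S^[n] x) * cpS S A n x * (D x)ᴴ).trace ∂ν with hI
  have haa : ∀ n, aX ν X n = ((R : ℂ)⁻¹) ^ 2 * I n := by
    intro n
    unfold aX FF
    rw [hI, ← integral_const_mul]
    refine integral_congr_ae (Eventually.of_forall fun x => ?_)
    simp only [hX]
    rw [show cpS S A 0 x = 1 from rfl, Matrix.mul_one, Matrix.conjTranspose_smul, Matrix.smul_mul,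
      Matrix.mul_smul, smul_smul, Matrix.trace_smul, smul_eq_mul, sq]
    congr 2
    rw [star_inv₀]
    simp
  have hV : VN a' (a' 0).re := vn_of_posDef a' hP h0
  obtain ⟨N0, hN0⟩ := obs_mainQ hB hXF hu (δ / R) (by positivity) (by
    intro r hr
    obtain ⟨j0, hj0⟩ := prime_avg a' (max K (a' 0).re) (fun n => (hK n).trans (le_max_left _ _))
      (fun c N r' Bd hBd => (hV c N r' Bd hBd).trans (mul_le_mul_of_nonneg_right (le_max_right _ _)
        ((norm_nonneg _).trans (hBd 0)))) hR r hr (δ ^ 2 / 1024) (by positivity)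
    refine ⟨j0, fun j hj => ?_⟩
    have h1 : ‖∑ p ∈ Qb j, I (p * r)‖ ≤ δ ^ 2 / 512 * (Qb j).card := by
      have h2 : ∑ p ∈ Qb j, I (p * r) = ∑ p ∈ Qb j, (I (p * r) - a' (p * r)) + ∑ p ∈ Qb j, a' (p * r) := by
        rw [← Finset.sum_add_distrib]
        exact Finset.sum_congr rfl fun p _ => by ring
      rw [h2]
      refine (norm_add_le _ _).trans ?_
      have h3 : ‖∑ p ∈ Qb j, (I (p * r) - a' (p * r))‖ ≤ (Qb j).card * (δ ^ 2 / 1024) := by
        refine (norm_sum_le _ _).trans ((Finset.sum_le_sum fun p _ => (hd (p * r)).trans hε).trans (le_of_eq ?_))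
        rw [Finset.sum_const, nsmul_eq_mul]
      linarith [hj0 j hj]
    simp_rw [haa]
    rw [← Finset.mul_sum, norm_mul, norm_pow, norm_inv, Complex.norm_real, Real.norm_of_nonneg hR0.le]
    calc R⁻¹ ^ 2 * ‖∑ p ∈ Qb j, I (p * r)‖ ≤ R⁻¹ ^ 2 * (δ ^ 2 / 512 * (Qb j).card) :=
          mul_le_mul_of_nonneg_left h1 (by positivity)
      _ = (δ / R) ^ 2 / 512 * (Qb j).card := by field_simp)
  refine ⟨N0, fun N hN x i j => ?_⟩
  have h1 := hN0 N hN x i j
  have h2 : ∑ n ∈ Icc 1 N, u n * X n x i j = (R : ℂ)⁻¹ * ∑ n ∈ Icc 1 N, u n * (D (S^[n] x) * cpS S A n x) i j := by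
    rw [Finset.mul_sum]
    refine Finset.sum_congr rfl fun n _ => ?_
    simp only [hX]
    rw [Matrix.smul_apply, smul_eq_mul]; ring
  rw [h2, norm_mul, norm_inv, Complex.norm_real, Real.norm_of_nonneg hR0.le, inv_mul_le_iff₀ hR0] at h1
  refine h1.trans (le_of_eq ?_)
  field_simp

/-- every continuous unitary matrix cocycle over a uniquely ergodic base with property (P), with a matrix observable -/
theorem mneD (hB : BaseQ S ν MM linf C0) (hE : UE S ν) {u : ℕ → ℂ} (hu : BMult u)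
    (hw : ∀ (w : ℂ) (q : ℕ), 0 < q → w ^ q = 1 → ShortOrth u w) : MatOrth S u := by
  intro κ _ _ A D hA hAA hD ε hε
  obtain ⟨K, hK0, hsp⟩ := spec_splitD hB.mp hB.cont hA hAA hD
  set c : ℝ := (Fintype.card κ : ℝ) with hc
  have hc0 : 0 ≤ c := Nat.cast_nonneg _
  set δ : ℝ := ε / 2 with hδ
  have hδ0 : 0 < δ := by positivity
  set ε1 : ℝ := min 1 (min (δ ^ 2 / (1024 * (4 * (2 * K + 2)))) (ε / (4 * (c + 1)))) with hε1
  have hε1p : 0 < ε1 := lt_min one_pos (lt_min (by positivity) (by positivity))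
  have hε11 : ε1 ≤ 1 := min_le_left _ _
  have hε12 : 4 * (2 * K + 2) * ε1 ≤ δ ^ 2 / 1024 := by
    have h1 : ε1 ≤ δ ^ 2 / (1024 * (4 * (2 * K + 2))) := (min_le_right _ _).trans (min_le_left _ _)
    calc 4 * (2 * K + 2) * ε1 ≤ 4 * (2 * K + 2) * (δ ^ 2 / (1024 * (4 * (2 * K + 2)))) :=
          mul_le_mul_of_nonneg_left h1 (by positivity)
      _ = δ ^ 2 / 1024 := by field_simp
  have hε13 : c * ε1 ≤ ε / 4 := by
    have h1 : ε1 ≤ ε / (4 * (c + 1)) := (min_le_right _ _).trans (min_le_right _ _)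
    calc c * ε1 ≤ c * (ε / (4 * (c + 1))) := mul_le_mul_of_nonneg_left h1 hc0
      _ ≤ ε / 4 := by
          rw [mul_div_assoc', div_le_div_iff₀ (by positivity) (by norm_num)]
          nlinarith
  obtain ⟨m, w, F, C, hC, hq, hF, hCF, a', ha1, ha2, ha3, ha4, ha5⟩ := hsp ε1 hε1p hε11
  have hwn : ∀ s, ‖w s‖ = 1 := by
    intro s
    obtain ⟨q, hq0, hq1⟩ := hq s
    have := congrArg norm hq1
    rw [norm_pow, norm_one] at this
    exact (pow_eq_one_iff_of_nonneg (norm_nonneg _) hq0.ne').1 this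
  have hwS : ∀ s, ShortOrth u (w s) := fun s => by
    obtain ⟨q, hq0, hq1⟩ := hq s
    exact hw (w s) q hq0 hq1
  obtain ⟨N1, hN1⟩ := ms_part hB.cont hA hAA hE hu.le_one w hwn hwS F hF C hC ε1 hCF (ε / 4) (by positivity)
  obtain ⟨N2, hN2⟩ := ms_obs hB hA hAA hu (D := fun x => D x - C x) (hD.sub hC) a' _ _ ha1 ha2 ha3 ha4 δ hδ0
    hε12 ha5
  refine ⟨max N1 N2, fun N hN x i j => ?_⟩
  have h1 := hN1 N ((le_max_left _ _).trans hN) x i j
  have h2 := hN2 N ((le_max_right _ _).trans hN) x i j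
  have h3 : ∑ n ∈ Icc 1 N, u n * (D (S^[n] x) * cpS S A n x) i j =
      ∑ n ∈ Icc 1 N, u n * (C (S^[n] x) * cpS S A n x) i j +
        ∑ n ∈ Icc 1 N, u n * ((D (S^[n] x) - C (S^[n] x)) * cpS S A n x) i j := by
    rw [← Finset.sum_add_distrib]
    refine Finset.sum_congr rfl fun n _ => ?_
    rw [Matrix.sub_mul, Matrix.sub_apply]
    ring
  rw [h3]
  refine (norm_add_le _ _).trans ?_
  have hN0 : (0 : ℝ) ≤ N := Nat.cast_nonneg _
  calc _ ≤ (c * ε1 + ε / 4) * N + δ * N := add_le_add h1 h2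
    _ ≤ (ε / 4 + ε / 4) * N + ε / 2 * N := by
        have : (c * ε1 + ε / 4) * N ≤ (ε / 4 + ε / 4) * N := mul_le_mul_of_nonneg_right (by linarith) hN0
        have h5 : δ * N = ε / 2 * N := by rw [hδ]
        rw [h5]
        linarith
    _ = ε * N := by ring

end Pool.Agent.Lib.MP_9fe581_an.HX
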