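import Pool.Agent.Lib.MP_9fe581_an.HX.Weyl
import Pool.Agent.Lib.MP_9fe581_an.HX.Act
import Pool.Agent.Lib.MP_9fe581_an.HX.Lev

/-!
# HX U3b: correlations of two characters along `S^(p m) x` and `S^(q m) x`

If the keys `(lev a, p^lev led a)` and `(lev b, q^lev led b)` differ, the product of the two characters is a polynomial phase in
`m` whose top difference is an irrational constant not depending on the point, so the averages over all windows tend to `0`
uniformly.
-/

set_option autoImplicit false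

open Finset MeasureTheory Filter Topology UnitAddTorus
open scoped ComplexConjugate Matrix

namespace Pool.Agent.Lib.MP_9fe581_an.HX

open Pool.Agent.Lib.MP_9fe581_an.HD

variable {D : ℕ} {N : Matrix (Fin D) (Fin D) ℤ} {β : Td D}



private theorem orth_mul_iter (k : ℕ) (g h : ℕ → ℂ) :
    dif^[k] (fun m => g m * conj (h m)) = fun m => dif^[k] g m * conj (dif^[k] h m) := by
  induction k generalizing g h with
  | zero => rfl
  | succ k ih =>
    rw [Function.iterate_succ_apply, Function.iterate_succ_apply, Function.iterate_succ_apply, ← ih]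
    congr 1
    funext m
    simp only [dif, map_mul, Complex.conj_conj]
    ring

private theorem orth_shift_iter (k c : ℕ) (g : ℕ → ℂ) :
    dif^[k] (fun m => g (c + m)) = fun m => dif^[k] g (c + m) := by
  induction k generalizing g with
  | zero => rfl
  | succ k ih =>
    rw [Function.iterate_succ_apply, Function.iterate_succ_apply, ← ih]
    rfl

private theorem orth_smul (n : ℕ) (c : Fin D → ℤ) (x : Td D) : mFourier ((n : ℤ) • c) x = mFourier c x ^ n := by
  induction n with
  | zero => simp [mFourier_zero]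
  | succ n ih =>
    have e : ((n + 1 : ℕ) : ℤ) • c = (n : ℤ) • c + c := by
      push_cast
      rw [add_smul, one_smul]
    rw [e, mFourier_add, ih, pow_succ]

private theorem orth_norm (c : Fin D → ℤ) (x : Td D) : ‖mFourier c x‖ = 1 := by
  have h : mFourier c x * conj (mFourier c x) = 1 := by
    rw [← mFourier_neg, ← mFourier_add, add_neg_cancel, mFourier_zero]
    rfl
  have h2 : ‖mFourier c x‖ * ‖mFourier c x‖ = 1 := by
    have h3 := congrArg norm h
    rw [norm_mul, RCLike.norm_conj, norm_one] at h3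
    exact h3
  nlinarith [norm_nonneg (mFourier c x)]

theorem orth (hN : IsNilpotent N) (hirr : ∀ c : Fin D → ℤ, c ≠ 0 → ad N c = 0 → mFourier c β ≠ 1) (p q : ℕ)
    (hp : 1 ≤ p) (hq : 1 ≤ q) (a b : Fin D → ℤ)
    (hne : (lev N a, ((p : ℤ) ^ lev N a) • led N a) ≠ (lev N b, ((q : ℤ) ^ lev N b) • led N b)) (ε : ℝ) (hε : 0 < ε) :
    ∃ M0 : ℕ, ∀ M ≥ M0, ∀ (M1 : ℕ) (x : Td D),
      ‖∑ m ∈ Ioc M1 (M1 + M), mFourier a ((uS N β)^[p * m] x) * conj (mFourier b ((uS N β)^[q * m] x))‖ ≤ ε * M := by
  have hp0 : (p : ℤ) ≠ 0 := by exact_mod_cast (by omega : p ≠ 0)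
  have hq0 : (q : ℤ) ≠ 0 := by exact_mod_cast (by omega : q ≠ 0)
  -- the top level is positive
  obtain ⟨κ, hκ⟩ : ∃ κ, max (lev N a) (lev N b) = κ + 1 := by
    rcases Nat.eq_zero_or_pos (max (lev N a) (lev N b)) with h | h
    · exfalso
      have h1 : lev N a = 0 := by omega
      have h2 : lev N b = 0 := by omega
      have ha : a = 0 := by
        by_contra hc
        have := lev_pos hN hc
        omega
      have hb : b = 0 := by
        by_contra hc
        have := lev_pos hN hc
        omega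
      apply hne
      rw [ha, hb, led_zero, smul_zero, smul_zero]
    · exact ⟨_, (Nat.succ_pred_eq_of_pos h).symm⟩
  have hA : ad (N ^ (κ + 1)) a = 0 := (ad_lev hN a _).2 (by omega)
  have hB : ad (N ^ (κ + 1)) b = 0 := (ad_lev hN b _).2 (by omega)
  set c : Fin D → ℤ := ((p : ℤ) ^ (κ + 1)) • ad (N ^ κ) a - ((q : ℤ) ^ (κ + 1)) • ad (N ^ κ) b with hc
  have adsm : ∀ (z : ℤ) (v : Fin D → ℤ), ad N (z • v) = z • ad N v := fun z v => Matrix.smul_vecMul z v N
  have adsub : ∀ v v' : Fin D → ℤ, ad N (v - v') = ad N v - ad N v' := fun v v' => Matrix.sub_vecMul N v v'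
  have hNc : ad N c = 0 := by
    have e1 : ad N (ad (N ^ κ) a) = 0 := by
      rw [← ad_mul, ← pow_succ, hA]
    have e2 : ad N (ad (N ^ κ) b) = 0 := by
      rw [← ad_mul, ← pow_succ, hB]
    rw [hc, adsub, adsm, adsm, e1, e2, smul_zero, smul_zero, sub_zero]
  have hc0 : c ≠ 0 := by
    intro h0
    rcases lt_trichotomy (lev N a) (lev N b) with h | h | h
    · have hb1 : lev N b = κ + 1 := by omega
      have e1 : ad (N ^ κ) a = 0 := (ad_lev hN a _).2 (by omega)
      have e2 : led N b = ad (N ^ κ) b := by rw [led, hb1]; rfl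
      have hb0 : b ≠ 0 := by
        rintro rfl
        have := (ad_lev hN (0 : Fin D → ℤ) 0).1 (by rw [pow_zero]; exact Matrix.zero_vecMul _)
        omega
      rw [hc, e1, smul_zero, zero_sub, neg_eq_zero, smul_eq_zero] at h0
      rcases h0 with h0 | h0
      · exact pow_ne_zero _ hq0 h0
      · exact led_ne hN hb0 (e2.trans h0)
    · apply hne
      have ha1 : lev N a = κ + 1 := by omega
      have hb1 : lev N b = κ + 1 := by omega
      have e1 : led N a = ad (N ^ κ) a := by rw [led, ha1]; rfl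
      have e2 : led N b = ad (N ^ κ) b := by rw [led, hb1]; rfl
      rw [ha1, hb1, e1, e2]
      rw [sub_eq_zero.1 h0]
    · have ha1 : lev N a = κ + 1 := by omega
      have e1 : ad (N ^ κ) b = 0 := (ad_lev hN b _).2 (by omega)
      have e2 : led N a = ad (N ^ κ) a := by rw [led, ha1]; rfl
      have ha0 : a ≠ 0 := by
        rintro rfl
        have := (ad_lev hN (0 : Fin D → ℤ) 0).1 (by rw [pow_zero]; exact Matrix.zero_vecMul _)
        omega
      rw [hc, e1, smul_zero, sub_zero, smul_eq_zero] at h0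
      rcases h0 with h0 | h0
      · exact pow_ne_zero _ hp0 h0
      · exact led_ne hN ha0 (e2.trans h0)
  have hwn : ∀ n : ℕ, 1 ≤ n → mFourier c β ^ n ≠ 1 := by
    intro n hn h1
    rw [← orth_smul] at h1
    refine hirr ((n : ℤ) • c) ?_ ?_ h1
    · intro h2
      rcases smul_eq_zero.1 h2 with h3 | h3
      · omega
      · exact hc0 h3
    · rw [adsm, hNc, smul_zero]
  obtain ⟨M0, hM0⟩ := weyl_unif κ (mFourier c β) (orth_norm c β) hwn ε hε
  refine ⟨M0, fun M hM M1 x => ?_⟩
  set g : ℕ → ℂ := fun m => mFourier a ((uS N β)^[p * m] x) * conj (mFourier b ((uS N β)^[q * m] x)) with hg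
  have hdif : ∀ m, dif^[κ + 1] g m = mFourier c β := by
    intro m
    rw [hg, orth_mul_iter]
    simp only
    rw [dif_char p κ a hA x m, dif_char q κ b hB x m]
    have e1 : c = (((p ^ (κ + 1) : ℕ) : ℤ)) • ad (N ^ κ) a + -((((q ^ (κ + 1) : ℕ) : ℤ)) • ad (N ^ κ) b) := by
      rw [hc]; push_cast; rw [sub_eq_add_neg]
    rw [e1, mFourier_add, mFourier_neg, orth_smul, orth_smul]
  have h1 := hM0 M hM (fun m => g (M1 + 1 + m)) (fun m => by
      show ‖mFourier a ((uS N β)^[p * (M1 + 1 + m)] x) * conj (mFourier b ((uS N β)^[q * (M1 + 1 + m)] x))‖ = 1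
      rw [norm_mul, RCLike.norm_conj, orth_norm, orth_norm, one_mul])
    (fun m => by
      rw [orth_shift_iter]
      exact hdif _)
  have h2 : ∑ m ∈ Ioc M1 (M1 + M), g m = ∑ m ∈ range M, g (M1 + 1 + m) := by
    have e : Ioc M1 (M1 + M) = Ico (M1 + 1) (M1 + 1 + M) := by
      ext i; simp only [mem_Ioc, mem_Ico]; omega
    rw [e, Finset.sum_Ico_eq_sum_range]
    congr 2
    omega
  rw [h2]
  exact h1

end Pool.Agent.Lib.MP_9fe581_an.HX
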