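import Pool.Agent.Lib.MP_9fe581_an.HX.TowUE

/-!
# HX: orbits of uniquely ergodic maps with a measure of full support are dense; orbits of towers along arithmetic
progressions are dense
-/

set_option autoImplicit false

open Finset MeasureTheory Filter Topology UnitAddTorus
open scoped ComplexConjugate Matrix

namespace Pool.Agent.Lib.MP_9fe581_an.HX

open Pool.Agent.Lib.MP_9fe581_an.HD

/-- a closed set that contains the end of an orbit is everything -/
theorem ue_min {Y : Type} [TopologicalSpace Y] [CompactSpace Y] [T2Space Y] [MeasurableSpace Y] [BorelSpace Y]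
    {S : Y → Y} {ν : Measure Y} [IsFiniteMeasure ν] [ν.IsOpenPosMeasure] (hE : UE S ν) {C : Set Y} (hC : IsClosed C)
    (x0 : Y) (a : ℕ) (h : ∀ n ≥ a, S^[n] x0 ∈ C) : C = Set.univ := by
  by_contra hne
  obtain ⟨y, hy⟩ : ∃ y, y ∉ C := (Set.ne_univ_iff_exists_notMem C).1 hne
  obtain ⟨E, hE0, hE1, hE2⟩ := exists_continuous_zero_one_of_isClosed hC (isClosed_singleton (x := y))
    (Set.disjoint_singleton_right.2 hy)
  have hpos : 0 < ∫ z, E z ∂ν := by
    refine Continuous.integral_pos_of_hasCompactSupport_nonneg_nonzero (x := y) E.continuous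
      (HasCompactSupport.of_compactSpace _) (fun z => (hE2 z).1) ?_
    rw [hE1 (Set.mem_singleton y)]
    exact one_ne_zero
  obtain ⟨N0, hN0⟩ := hE (fun z => - E z) E.continuous.neg ((∫ z, E z ∂ν) / 2) (by positivity)
  have h1 := hN0 (max N0 1) (le_max_left _ _) (S^[a] x0)
  have h2 : ∑ n ∈ Icc 1 (max N0 1), -E (S^[n] (S^[a] x0)) = 0 := Finset.sum_eq_zero fun n _ => by
    rw [← Function.iterate_add_apply, hE0 (h _ (by omega))]
    simp
  rw [h2, integral_neg] at h1
  have h3 : (0 : ℝ) < (max N0 1 : ℕ) := by exact_mod_cast lt_of_lt_of_le one_pos (le_max_right N0 1)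
  have h4 : (-(∫ z, E z ∂ν) + (∫ z, E z ∂ν) / 2) * ((max N0 1 : ℕ) : ℝ) < 0 := mul_neg_of_neg_of_pos (by linarith) h3
  linarith

private theorem td_cont {κ : Type} (W : FT.Tower κ) : Continuous (FT.T W) := by
  refine continuous_pi fun i => ?_
  show Continuous fun x => x i + (FT.pr (W.a i) x + (W.ψ i x : UnitAddCircle))
  exact (continuous_apply i).add ((FT.continuous_pr _).add ((AddCircle.continuous_mk' 1).comp (W.cont i)))

/-- the powers of towers are uniquely ergodic -/
theorem tower_ue_pow {κ : Type} [Fintype κ] [DecidableEq κ] (W : FT.Tower κ) (q : ℕ) (hq : 0 < q) :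
    UE (FT.T W)^[q] (HT.mX κ) := by
  intro E hE ε hε
  obtain ⟨ρ, hρ1, hρ2, hρ3⟩ := HT.max_meas (FT.T W)^[q] ((td_cont W).iterate q) E hE
  have hρ : ρ = HT.mX κ := HT.tower_uniq W q hq ρ hρ2
  obtain ⟨M0, hM0⟩ := hρ3 ε hε
  refine ⟨max M0 1, fun N hN x => ?_⟩
  have hN0 : (0 : ℝ) < N := by
    have : 1 ≤ N := (le_max_right _ _).trans hN
    exact_mod_cast this
  have h := hM0 N ((le_max_left _ _).trans hN) x
  rw [hρ, one_div, inv_mul_eq_div, div_le_iff₀ hN0] at h
  exact h

/-- the orbit of `0` along an arithmetic progression is dense -/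
theorem tower_dense {κ : Type} [Fintype κ] [DecidableEq κ] (W : FT.Tower κ) (q : ℕ) (hq : 0 < q) (t a : ℕ)
    {C : Set (HT.TX κ)} (hC : IsClosed C) (h : ∀ n ≥ a, n % q = t % q → (FT.T W)^[n] 0 ∈ C) : C = Set.univ := by
  refine ue_min (tower_ue_pow W q hq) hC ((FT.T W)^[t] 0) a fun n hn => ?_
  rw [← Function.iterate_mul, ← Function.iterate_add_apply]
  refine h _ ?_ ?_
  · have : n ≤ q * n := Nat.le_mul_of_pos_left n hq
    omega
  · rw [Nat.mul_add_mod]

end Pool.Agent.Lib.MP_9fe581_an.HX
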