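import Pool.Agent.Lib.MP_9fe581_an.HX.FinalZ
import Pool.Agent.Lib.MP_9fe581_an.HX.TowDense

/-!
# HX: unitary cocycles over the closed subsystems of the affine maps of zero entropy
-/

set_option autoImplicit false

open Finset MeasureTheory Filter Topology UnitAddTorus
open scoped ComplexConjugate Matrix

namespace Pool.Agent.Lib.MP_9fe581_an.HX

open Pool.Agent.Lib.MP_9fe581_an.HD

/-- a quasi-polynomial sequence in a closed set -/
theorem seq_sub {D : ℕ} (g : ℕ → Td D) (q s a : ℕ) (hq : 0 < q) (hg : ∀ n ≥ a, (fwdDiff q)^[s + 1] g n = 0)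
    {Y0 : Set (Td D)} (hY0 : IsClosed Y0) (hgY : ∀ n, g n ∈ Y0) {u : ℕ → ℂ} (hu : BMult u)
    (hw : ∀ (w : ℂ) (q : ℕ), 0 < q → w ^ q = 1 → ShortOrth u w) : SeqOrth u (fun n => (⟨g n, hgY n⟩ : Y0)) := by
  obtain ⟨r, W, q', Ψ, hq', hΨ, hgn⟩ := poly_dec g q s a hq hg
  have : NeZero q' := ⟨hq'.ne'⟩
  have hmem : ∀ (t : ZMod q') (y : HT.TX (Fin r × Fin s)), Ψ t y ∈ Y0 := by
    intro t
    have h1 : {y | Ψ t y ∈ Y0} = Set.univ := by
      refine tower_dense W q' hq' t.val (a + q) (hY0.preimage (hΨ t)) fun n hn h => ?_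
      have h2 : (n : ZMod q') = t := by
        rw [← ZMod.natCast_zmod_val t]
        exact (ZMod.natCast_eq_natCast_iff' n t.val q').2 h
      show Ψ t ((FT.T W)^[n] 0) ∈ Y0
      rw [← h2, ← hgn n hn]
      exact hgY n
    intro y
    have h3 : y ∈ {y | Ψ t y ∈ Y0} := by rw [h1]; trivial
    exact h3
  refine blk_seq (tower_mat W hu hw) hu.le_one q' hq' (fun t y => (⟨Ψ t y, hmem t y⟩ : Y0))
    (fun t => (hΨ t).subtype_mk _) 0 _ (a + q) fun n hn => ?_
  exact Subtype.ext (hgn n hn)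

/-- cocycles over a closed subsystem of an affine map of zero entropy, at every point -/
theorem affine_coc_sub {D : ℕ} (B : Matrix (Fin D) (Fin D) ℤ)
    (hB : ∀ z : ℂ, (B.map (Int.cast : ℤ → ℂ)).charpoly.IsRoot z → ‖z‖ ≤ 1) (b : Td D) {u : ℕ → ℂ} (hu : BMult u)
    (hw : ∀ (w : ℂ) (q : ℕ), 0 < q → w ^ q = 1 → ShortOrth u w) {Y0 : Set (Td D)} (hY0 : IsClosed Y0) (S0 : Y0 → Y0)
    (hS0 : ∀ y, (S0 y : Td D) = aff B b y) (x : Y0) : CocOrthY S0 u {x} := by
  obtain ⟨q, s, hq, hBq⟩ := kron B hB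
  have hit : ∀ n, ((S0^[n] x : Y0) : Td D) = (aff B b)^[n] x := by
    intro n
    induction n with
    | zero => rfl
    | succ n ih => rw [Function.iterate_succ_apply', Function.iterate_succ_apply', hS0, ih]
  have h := seq_sub (fun n => (aff B b)^[n] (x : Td D)) q s s hq (aff_diff B b q s s hBq x) hY0
    (fun n => by rw [← hit]; exact (S0^[n] x).2) hu hw
  refine seq_coc ?_
  have e : (fun n => S0^[n] x) = fun n => (⟨(aff B b)^[n] (x : Td D), by rw [← hit]; exact (S0^[n] x).2⟩ : Y0) := by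
    funext n
    exact Subtype.ext (hit n)
  rw [e]
  exact h

end Pool.Agent.Lib.MP_9fe581_an.HX
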