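import Pool.Agent.Lib.MP_9fe581_an.HX.Orth
import Pool.Agent.Lib.MP_9fe581_an.HX.Lev

/-!
# HX: the large sieve for characters of unipotent affine maps
-/

set_option autoImplicit false

open Finset MeasureTheory Filter Topology UnitAddTorus
open scoped ComplexConjugate Matrix

namespace Pool.Agent.Lib.MP_9fe581_an.HX

open Pool.Agent.Lib.MP_9fe581_an.HD

variable {D : ℕ} {N : Matrix (Fin D) (Fin D) ℤ} {β : Td D}

/-- expansion of the square, pairs with different keys apart -/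
theorem tp_split {J K : Type} [DecidableEq K] (I : Finset J) (key : J → K) (c : J → ℂ) (e : J → ℕ → ℂ)
    (W : Finset ℕ) :
    ∑ m ∈ W, ‖∑ i ∈ I, c i * e i m‖ ^ 2 ≤
      ∑ κ ∈ I.image key, ∑ m ∈ W, ‖∑ i ∈ I.filter (fun i => key i = κ), c i * e i m‖ ^ 2 +
      ∑ i ∈ I, ∑ j ∈ I.filter (fun j => ¬ key j = key i), ‖c i‖ * ‖c j‖ * ‖∑ m ∈ W, e i m * conj (e j m)‖ := by
  have hexp : ∀ I' : Finset J, ((∑ m ∈ W, ‖∑ i ∈ I', c i * e i m‖ ^ 2 : ℝ) : ℂ) =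
      ∑ i ∈ I', ∑ j ∈ I', c i * conj (c j) * ∑ m ∈ W, e i m * conj (e j m) := by
    intro I'
    push_cast
    have h1 : ∀ m ∈ W, ((‖∑ i ∈ I', c i * e i m‖ : ℂ)) ^ 2 =
        ∑ i ∈ I', ∑ j ∈ I', c i * conj (c j) * (e i m * conj (e j m)) := by
      intro m _
      rw [← Complex.mul_conj', map_sum, sum_mul_sum]
      refine sum_congr rfl fun i _ => sum_congr rfl fun j _ => ?_
      rw [map_mul]
      ring
    rw [sum_congr rfl h1, sum_comm]
    refine sum_congr rfl fun i _ => ?_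
    rw [sum_comm]
    refine sum_congr rfl fun j _ => ?_
    rw [mul_sum]
  have h2 : ((∑ m ∈ W, ‖∑ i ∈ I, c i * e i m‖ ^ 2 : ℝ) : ℂ) =
      ((∑ κ ∈ I.image key, ∑ m ∈ W, ‖∑ i ∈ I.filter (fun i => key i = κ), c i * e i m‖ ^ 2 : ℝ) : ℂ) +
      ∑ i ∈ I, ∑ j ∈ I.filter (fun j => ¬ key j = key i), c i * conj (c j) * ∑ m ∈ W, e i m * conj (e j m) := by
    rw [hexp I]
    have h3 : ∀ i ∈ I, ∑ j ∈ I, c i * conj (c j) * ∑ m ∈ W, e i m * conj (e j m) =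
        ∑ j ∈ I.filter (fun j => key j = key i), c i * conj (c j) * ∑ m ∈ W, e i m * conj (e j m) +
        ∑ j ∈ I.filter (fun j => ¬ key j = key i), c i * conj (c j) * ∑ m ∈ W, e i m * conj (e j m) := by
      intro i _
      rw [sum_filter_add_sum_filter_not]
    rw [sum_congr rfl h3, sum_add_distrib]
    congr 1
    rw [Complex.ofReal_sum]
    rw [← sum_fiberwise_of_maps_to (s := I) (t := I.image key) (g := key) (fun i hi => mem_image_of_mem key hi)]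
    refine sum_congr rfl fun κ _ => ?_
    rw [hexp]
    refine sum_congr rfl fun i hi => ?_
    rw [(mem_filter.mp hi).2]
  have h4 := congrArg Complex.re h2
  rw [Complex.ofReal_re, Complex.add_re, Complex.ofReal_re] at h4
  rw [h4]
  refine add_le_add le_rfl ((Complex.re_le_norm _).trans ?_)
  refine (norm_sum_le _ _).trans (sum_le_sum fun i _ => (norm_sum_le _ _).trans (sum_le_sum fun j _ => ?_))
  rw [norm_mul, norm_mul, RCLike.norm_conj]

/-- Cauchy - Schwarz -/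
theorem tp_cs {J : Type} (P : Finset J) (g : J → ℂ) : ‖∑ i ∈ P, g i‖ ^ 2 ≤ (P.card : ℝ) * ∑ i ∈ P, ‖g i‖ ^ 2 := by
  have h1 : ‖∑ i ∈ P, g i‖ ≤ ∑ i ∈ P, ‖g i‖ := norm_sum_le _ _
  have h2 : ‖∑ i ∈ P, g i‖ ^ 2 ≤ (∑ i ∈ P, ‖g i‖) ^ 2 := pow_le_pow_left₀ (norm_nonneg _) h1 2
  exact h2.trans sq_sum_le_card_mul_sum_sq

/-- the key of a pair -/
noncomputable def tp_key (N : Matrix (Fin D) (Fin D) ℤ) (i : ℕ × (Fin D → ℤ)) : ℕ × (Fin D → ℤ) :=
  (lev N i.2, ((i.1 : ℤ) ^ lev N i.2) • led N i.2)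

theorem tp_key_zero (p : ℕ) : tp_key N (p, 0) = (0, 0) := by
  simp [tp_key, lev_zero, led_zero]

theorem tp_key_ne (hN : IsNilpotent N) (p : ℕ) {a : Fin D → ℤ} (ha : a ≠ 0) : tp_key N (p, a) ≠ (0, 0) := by
  intro h
  have := congrArg Prod.fst h
  have h1 := lev_pos hN ha
  simp only [tp_key] at this
  omega

/-- the primes in a class: `p` and divisors of the leading part -/
theorem tp_dv (hN : IsNilpotent N) {p q : ℕ} (hp : p.Prime) (hq : q.Prime) (hpq : q ≠ p) {a b : Fin D → ℤ} (ha : a ≠ 0)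
    (h : tp_key N (q, b) = tp_key N (p, a)) : dv q (led N a) := by
  intro i
  have h1 : lev N b = lev N a := congrArg Prod.fst h
  have h2 := congrFun (congrArg Prod.snd h) i
  simp only [tp_key, Pi.smul_apply, smul_eq_mul] at h2
  have h3 : (q : ℤ) ∣ (p : ℤ) ^ lev N a * led N a i := by
    rw [← h2]
    refine Dvd.dvd.mul_right ?_ _
    refine dvd_pow_self _ ?_
    have := lev_pos hN ha
    omega
  have hqz : Prime (q : ℤ) := Nat.prime_iff_prime_int.mp hq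
  rcases hqz.dvd_or_dvd h3 with h4 | h4
  · have h5 := hqz.dvd_of_dvd_pow h4
    have h6 : q ∣ p := by exact_mod_cast h5
    exact absurd ((Nat.prime_dvd_prime_iff_eq hq hp).mp h6) hpq
  · exact h4

theorem tp_norm (a : Fin D → ℤ) (x : Td D) : ‖mFourier a x‖ = 1 := by
  have h1 := mFourier_add (m := -a) (n := a) (x := x)
  rw [neg_add_cancel, mFourier_zero, mFourier_neg, Complex.conj_mul'] at h1
  have h2 : ((1 : ℝ) : ℂ) = ((‖mFourier a x‖ ^ 2 : ℝ) : ℂ) := by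
    push_cast
    simpa using h1
  have h3 : (1 : ℝ) = ‖mFourier a x‖ ^ 2 := Complex.ofReal_injective h2
  have h4 := norm_nonneg (mFourier a x)
  nlinarith

/-- the pairs which matter have small correlations -/
theorem tp_orth (hN : IsNilpotent N) (hirr : ∀ c : Fin D → ℤ, c ≠ 0 → ad N c = 0 → mFourier c β ≠ 1)
    (i j : ℕ × (Fin D → ℤ)) (hi : 1 ≤ i.1) (hj : 1 ≤ j.1)
    (h : tp_key N i ≠ tp_key N j ∨ (i.1 = j.1 ∧ i.2 ≠ j.2)) (δ : ℝ) (hδ : 0 < δ) :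
    ∃ M0 : ℕ, ∀ M ≥ M0, ∀ (M1 : ℕ) (x : Td D),
      ‖∑ m ∈ Ioc M1 (M1 + M), mFourier i.2 ((uS N β)^[i.1 * m] x) * conj (mFourier j.2 ((uS N β)^[j.1 * m] x))‖ ≤
        δ * M := by
  rcases h with h | ⟨h1, h2⟩
  · exact orth hN hirr i.1 j.1 hi hj i.2 j.2 h δ hδ
  · have h3 : i.2 - j.2 ≠ 0 := sub_ne_zero.mpr h2
    obtain ⟨M0, hM0⟩ := orth hN hirr i.1 i.1 hi hi (i.2 - j.2) 0
      (by
        have := tp_key_ne hN i.1 h3
        rw [← tp_key_zero (N := N) i.1] at this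
        exact this) δ hδ
    refine ⟨M0, fun M hM M1 x => ?_⟩
    have := hM0 M hM M1 x
    rw [← h1]
    convert this using 3 with m hm
    rw [sub_eq_add_neg, mFourier_add, mFourier_neg, mFourier_zero]
    simp

/-- a double sum of products with small correlations -/
theorem tp_err {J : Type} (I I' : Finset J) (hI : I' ⊆ I) (c : J → ℂ) (f : J → Finset J)
    (E : J → J → ℝ) (δM : ℝ) (hδ : 0 ≤ δM) (hf : ∀ i ∈ I', ∀ j ∈ f i, j ∈ I ∧ E i j ≤ δM) :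
    ∑ i ∈ I', ∑ j ∈ f i, ‖c i‖ * ‖c j‖ * E i j ≤ (∑ i ∈ I, ‖c i‖) ^ 2 * δM := by
  calc ∑ i ∈ I', ∑ j ∈ f i, ‖c i‖ * ‖c j‖ * E i j
      ≤ ∑ i ∈ I', ∑ j ∈ f i, ‖c i‖ * ‖c j‖ * δM := by
        refine sum_le_sum fun i hi => sum_le_sum fun j hj => ?_
        exact mul_le_mul_of_nonneg_left (hf i hi j hj).2 (by positivity)
    _ ≤ ∑ i ∈ I, ∑ j ∈ I, ‖c i‖ * ‖c j‖ * δM := by
        refine (sum_le_sum fun i hi => sum_le_sum_of_subset_of_nonneg (fun j hj => (hf i hi j hj).1)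
          fun j _ _ => by positivity).trans ?_
        exact sum_le_sum_of_subset_of_nonneg hI fun i _ _ => sum_nonneg fun j _ => by positivity
    _ = (∑ i ∈ I, ‖c i‖) ^ 2 * δM := by
        rw [sq, sum_mul_sum, sum_mul]
        refine sum_congr rfl fun i _ => ?_
        rw [sum_mul]

/-- almost orthogonal functions -/
theorem tp_one {J : Type} [DecidableEq J] (I G : Finset J) (hG : G ⊆ I) (c : J → ℂ) (e : J → ℕ → ℂ) (W : Finset ℕ)
    (he : ∀ i m, ‖e i m‖ = 1) (δM : ℝ) (hδ : 0 ≤ δM)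
    (hE : ∀ i ∈ G, ∀ j ∈ G, i ≠ j → ‖∑ m ∈ W, e i m * conj (e j m)‖ ≤ δM) :
    ∑ m ∈ W, ‖∑ i ∈ G, c i * e i m‖ ^ 2 ≤ (∑ i ∈ G, ‖c i‖ ^ 2) * W.card + (∑ i ∈ I, ‖c i‖) ^ 2 * δM := by
  refine (tp_split G (fun i => i) c e W).trans (add_le_add ?_ ?_)
  · rw [image_id', sum_mul]
    refine sum_le_sum fun i hi => le_of_eq ?_
    have h1 : G.filter (fun j => j = i) = {i} := by
      ext j
      rw [mem_filter, mem_singleton]
      exact ⟨fun h => h.2, fun h => ⟨h ▸ hi, h⟩⟩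
    rw [h1]
    have h2 : ∀ m ∈ W, ‖∑ j ∈ {i}, c j * e j m‖ ^ 2 = ‖c i‖ ^ 2 := by
      intro m _
      rw [sum_singleton, norm_mul, he, mul_one]
    rw [sum_congr rfl h2, sum_const, nsmul_eq_mul, mul_comm]
  · refine tp_err I G hG c _ (fun i j => ‖∑ m ∈ W, e i m * conj (e j m)‖) δM hδ fun i hi j hj => ?_
    have hj1 := mem_filter.mp hj
    exact ⟨hG hj1.1, hE i hi j hj1.1 fun h => hj1.2 h.symm⟩

open Classical in
/-- one class of keys -/
theorem tp_class (hN : IsNilpotent N) (Q : Finset ℕ) (hQ : ∀ p ∈ Q, p.Prime) (F : Finset (Fin D → ℤ))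
    (h0 : (0 : Fin D → ℤ) ∈ F) (c : ℕ × (Fin D → ℤ) → ℂ) (e : ℕ × (Fin D → ℤ) → ℕ → ℂ) (W : Finset ℕ)
    (he : ∀ i m, ‖e i m‖ = 1) (he0 : ∀ p m, e (p, 0) m = 1) (δM : ℝ) (hδ : 0 ≤ δM)
    (hE : ∀ i ∈ Q ×ˢ F, ∀ j ∈ Q ×ˢ F, i.1 = j.1 → i.2 ≠ j.2 → ‖∑ m ∈ W, e i m * conj (e j m)‖ ≤ δM)
    (κ : ℕ × (Fin D → ℤ)) :
    ∑ m ∈ W, ‖∑ i ∈ (Q ×ˢ F).filter (fun i => tp_key N i = κ), c i * e i m‖ ^ 2 ≤
      ((if κ = (0, 0) then ‖∑ p ∈ Q, c (p, 0)‖ ^ 2 else 0) +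
        ∑ i ∈ (Q ×ˢ F).filter (fun i => tp_key N i = κ), (if i.2 = 0 then 0 else
          (1 + ((Q.filter (fun q => dv q (led N i.2))).card : ℝ)) * ‖c i‖ ^ 2)) * W.card +
      (Q.card : ℝ) ^ 2 * ((∑ i ∈ Q ×ˢ F, ‖c i‖) ^ 2 * δM) := by
  have herr : 0 ≤ (Q.card : ℝ) ^ 2 * ((∑ i ∈ Q ×ˢ F, ‖c i‖) ^ 2 * δM) := by positivity
  set G := (Q ×ˢ F).filter (fun i => tp_key N i = κ) with hG
  by_cases hκ : κ = (0, 0)
  · have h1 : ∀ m ∈ W, ‖∑ i ∈ G, c i * e i m‖ ^ 2 = ‖∑ p ∈ Q, c (p, 0)‖ ^ 2 := by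
      intro m _
      have hG' : G = Q.image (fun p => (p, (0 : Fin D → ℤ))) := by
        ext i
        rw [hG, mem_filter, mem_product, mem_image]
        constructor
        · rintro ⟨⟨h1, h2⟩, h3⟩
          refine ⟨i.1, h1, ?_⟩
          by_contra hc
          have h4 : i.2 ≠ 0 := fun h => hc (Prod.ext rfl h.symm)
          exact tp_key_ne hN i.1 h4 (h3.trans hκ)
        · rintro ⟨p, hp, rfl⟩
          exact ⟨⟨hp, h0⟩, by rw [tp_key_zero, hκ]⟩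
      rw [hG', sum_image (fun a _ b _ h => congrArg Prod.fst h)]
      congr 2
      exact sum_congr rfl fun p _ => by rw [he0, mul_one]
    rw [sum_congr rfl h1, sum_const, nsmul_eq_mul, if_pos hκ]
    have h2 : 0 ≤ ∑ i ∈ G, (if i.2 = 0 then 0 else
          (1 + ((Q.filter (fun q => dv q (led N i.2))).card : ℝ)) * ‖c i‖ ^ 2) := by
      refine sum_nonneg fun i _ => ?_
      split_ifs
      · exact le_rfl
      · positivity
    have h3 : 0 ≤ (∑ i ∈ G, (if i.2 = 0 then 0 else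
          (1 + ((Q.filter (fun q => dv q (led N i.2))).card : ℝ)) * ‖c i‖ ^ 2)) * (W.card : ℝ) := by positivity
    rw [add_mul]
    linarith
  · have hne : ∀ i ∈ G, i.2 ≠ 0 := by
      intro i hi h
      rw [hG, mem_filter] at hi
      apply hκ
      rw [← hi.2]
      have : i = (i.1, 0) := Prod.ext rfl h
      rw [this, tp_key_zero]
    rw [if_neg hκ, zero_add]
    set P := G.image Prod.fst with hP
    have hPQ : P ⊆ Q := by
      intro p hp
      rw [hP, mem_image] at hp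
      obtain ⟨i, hi, rfl⟩ := hp
      rw [hG, mem_filter, mem_product] at hi
      exact hi.1.1
    have hPcard : (P.card : ℝ) ≤ Q.card := by exact_mod_cast card_le_card hPQ
    -- the card of `P`
    have hPle : ∀ i ∈ G, (P.card : ℝ) ≤ 1 + ((Q.filter (fun q => dv q (led N i.2))).card : ℝ) := by
      intro i hi
      have hiG := hi
      rw [hG, mem_filter, mem_product] at hi
      have h1 : P ⊆ insert i.1 (Q.filter (fun q => dv q (led N i.2))) := by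
        intro q hq
        rw [mem_insert, mem_filter]
        by_cases hqi : q = i.1
        · exact Or.inl hqi
        · refine Or.inr ⟨hPQ hq, ?_⟩
          rw [hP, mem_image] at hq
          obtain ⟨j, hj, rfl⟩ := hq
          rw [hG, mem_filter, mem_product] at hj
          exact tp_dv hN (hQ i.1 hi.1.1) (hQ j.1 hj.1.1) hqi (hne i hiG) (hj.2.trans hi.2.symm)
      have h2 := (card_le_card h1).trans (card_insert_le _ _)
      have h3 : (P.card : ℝ) ≤ (((Q.filter (fun q => dv q (led N i.2))).card + 1 : ℕ) : ℝ) := by exact_mod_cast h2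
      push_cast at h3
      linarith
    -- one prime
    have hone : ∀ p ∈ P, ∑ m ∈ W, ‖∑ i ∈ G.filter (fun i => i.1 = p), c i * e i m‖ ^ 2 ≤
        (∑ i ∈ G.filter (fun i => i.1 = p), ‖c i‖ ^ 2) * W.card + (∑ i ∈ Q ×ˢ F, ‖c i‖) ^ 2 * δM := by
      intro p _
      have hsub : G.filter (fun i => i.1 = p) ⊆ Q ×ˢ F := (filter_subset _ _).trans (filter_subset _ _)
      refine tp_one (Q ×ˢ F) _ hsub c e W he δM hδ fun i hi j hj hij => ?_
      have h3 : i.1 = j.1 := (mem_filter.mp hi).2.trans (mem_filter.mp hj).2.symm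
      exact hE i (hsub hi) j (hsub hj) h3 fun h => hij (Prod.ext h3 h)
    -- all primes of `P`
    have hcs : ∀ m ∈ W, ‖∑ i ∈ G, c i * e i m‖ ^ 2 ≤
        (P.card : ℝ) * ∑ p ∈ P, ‖∑ i ∈ G.filter (fun i => i.1 = p), c i * e i m‖ ^ 2 := by
      intro m _
      rw [← sum_fiberwise_of_maps_to (s := G) (t := P) (g := Prod.fst) (fun i hi => mem_image_of_mem _ hi)]
      exact tp_cs P _
    refine (sum_le_sum hcs).trans ?_
    rw [← mul_sum, sum_comm]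
    refine (mul_le_mul_of_nonneg_left (sum_le_sum hone) (by positivity)).trans ?_
    rw [sum_add_distrib, sum_const, nsmul_eq_mul, mul_add]
    refine add_le_add ?_ ?_
    · rw [← sum_mul, sum_fiberwise_of_maps_to (s := G) (t := P) (g := Prod.fst) (fun i hi => mem_image_of_mem _ hi),
        ← mul_assoc, mul_sum]
      refine mul_le_mul_of_nonneg_right (sum_le_sum fun i hi => ?_) (by positivity)
      rw [if_neg (hne i hi)]
      exact mul_le_mul_of_nonneg_right (hPle i hi) (by positivity)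
    · rw [← mul_assoc, ← sq]
      exact mul_le_mul_of_nonneg_right (pow_le_pow_left₀ (by positivity) hPcard 2) (by positivity)

open Classical in
theorem trig_P (hN : IsNilpotent N) (hirr : ∀ c : Fin D → ℤ, c ≠ 0 → ad N c = 0 → mFourier c β ≠ 1)
    (Q : Finset ℕ) (hQ : ∀ p ∈ Q, p.Prime) (F : Finset (Fin D → ℤ)) (h0 : (0 : Fin D → ℤ) ∈ F)
    (c : ℕ → (Fin D → ℤ) → ℂ) (ε : ℝ) (hε : 0 < ε) :
    ∃ M0 : ℕ, ∀ M ≥ M0, ∀ (M1 : ℕ) (x : Td D),
      ∑ m ∈ Ioc M1 (M1 + M), ‖∑ p ∈ Q, ∑ a ∈ F, c p a * mFourier a ((uS N β)^[p * m] x)‖ ^ 2 ≤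
        (‖∑ p ∈ Q, c p 0‖ ^ 2 + ∑ p ∈ Q, ∑ a ∈ F.erase 0,
          (1 + ((Q.filter (fun q => dv q (led N a))).card : ℝ)) * ‖c p a‖ ^ 2 + ε) * M := by
  set I := Q ×ˢ F with hI
  set c' : ℕ × (Fin D → ℤ) → ℂ := fun i => c i.1 i.2 with hc'
  set Sc := ∑ i ∈ I, ‖c' i‖ with hSc
  set K : ℝ := (1 + (I.card : ℝ) * (Q.card : ℝ) ^ 2) * Sc ^ 2 + 1 with hK
  have hK0 : 0 < K := by positivity
  have horth : ∀ z : (ℕ × (Fin D → ℤ)) × (ℕ × (Fin D → ℤ)), ∃ M0 : ℕ, z.1 ∈ I → z.2 ∈ I →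
      (tp_key N z.1 ≠ tp_key N z.2 ∨ (z.1.1 = z.2.1 ∧ z.1.2 ≠ z.2.2)) → ∀ M ≥ M0, ∀ (M1 : ℕ) (x : Td D),
      ‖∑ m ∈ Ioc M1 (M1 + M), mFourier z.1.2 ((uS N β)^[z.1.1 * m] x) *
        conj (mFourier z.2.2 ((uS N β)^[z.2.1 * m] x))‖ ≤ ε / K * M := by
    intro z
    by_cases h : z.1 ∈ I ∧ z.2 ∈ I ∧ (tp_key N z.1 ≠ tp_key N z.2 ∨ (z.1.1 = z.2.1 ∧ z.1.2 ≠ z.2.2))
    · obtain ⟨h1, h2, h3⟩ := h
      have hp1 := (hQ _ (mem_product.mp h1).1).one_le
      have hp2 := (hQ _ (mem_product.mp h2).1).one_le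
      obtain ⟨M0, hM0⟩ := tp_orth hN hirr z.1 z.2 hp1 hp2 h3 (ε / K) (by positivity)
      exact ⟨M0, fun _ _ _ => hM0⟩
    · exact ⟨0, fun h1 h2 h3 => absurd ⟨h1, h2, h3⟩ h⟩
  choose M0f hM0f using horth
  refine ⟨(I ×ˢ I).sup M0f, fun M hM M1 x => ?_⟩
  set e : ℕ × (Fin D → ℤ) → ℕ → ℂ := fun i m => mFourier i.2 ((uS N β)^[i.1 * m] x) with he_def
  set W := Ioc M1 (M1 + M) with hW
  have hWc : (W.card : ℝ) = M := by simp [hW]
  have hEE : ∀ i ∈ I, ∀ j ∈ I, (tp_key N i ≠ tp_key N j ∨ (i.1 = j.1 ∧ i.2 ≠ j.2)) →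
      ‖∑ m ∈ W, e i m * conj (e j m)‖ ≤ ε / K * M := by
    intro i hi j hj h
    refine hM0f (i, j) hi hj h M ?_ M1 x
    exact (Finset.le_sup (f := M0f) (mem_product.mpr ⟨hi, hj⟩ : (i, j) ∈ I ×ˢ I)).trans hM
  have hδ : 0 ≤ ε / K * (M : ℝ) := by positivity
  have hstart : ∀ m ∈ W, ‖∑ p ∈ Q, ∑ a ∈ F, c p a * mFourier a ((uS N β)^[p * m] x)‖ ^ 2 =
      ‖∑ i ∈ I, c' i * e i m‖ ^ 2 := by
    intro m _
    rw [hI, sum_product]
  rw [sum_congr rfl hstart]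
  refine (tp_split I (tp_key N) c' e W).trans ?_
  have herr1 : ∑ i ∈ I, ∑ j ∈ I.filter (fun j => ¬ tp_key N j = tp_key N i),
      ‖c' i‖ * ‖c' j‖ * ‖∑ m ∈ W, e i m * conj (e j m)‖ ≤ Sc ^ 2 * (ε / K * M) := by
    refine tp_err I I (Subset.refl _) c' _ (fun i j => ‖∑ m ∈ W, e i m * conj (e j m)‖) _ hδ fun i hi j hj => ?_
    have hj1 := mem_filter.mp hj
    exact ⟨hj1.1, hEE i hi j hj1.1 (Or.inl fun h' => hj1.2 h'.symm)⟩
  have hclass := fun κ => tp_class hN Q hQ F h0 c' e W (fun i m => tp_norm _ _)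
    (fun p m => by simp only [he_def, mFourier_zero]; rfl) (ε / K * M) hδ (fun i hi j hj h1 h2 => hEE i hi j hj (Or.inr ⟨h1, h2⟩)) κ
  have hmain : ∑ κ ∈ I.image (tp_key N), ∑ m ∈ W, ‖∑ i ∈ I.filter (fun i => tp_key N i = κ), c' i * e i m‖ ^ 2 ≤
      (‖∑ p ∈ Q, c p 0‖ ^ 2 + ∑ p ∈ Q, ∑ a ∈ F.erase 0,
          (1 + ((Q.filter (fun q => dv q (led N a))).card : ℝ)) * ‖c p a‖ ^ 2) * M +
      (I.card : ℝ) * ((Q.card : ℝ) ^ 2 * (Sc ^ 2 * (ε / K * M))) := by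
    refine (sum_le_sum fun κ _ => hclass κ).trans ?_
    rw [sum_add_distrib, ← sum_mul, sum_add_distrib, hWc]
    refine add_le_add (mul_le_mul_of_nonneg_right (add_le_add ?_ (le_of_eq ?_)) (by positivity)) ?_
    · rw [sum_ite_eq']
      split_ifs
      · exact le_rfl
      · positivity
    · rw [sum_fiberwise_of_maps_to (s := I) (t := I.image (tp_key N)) (g := tp_key N)
        (fun i hi => mem_image_of_mem _ hi), hI, sum_product]
      refine sum_congr rfl fun p _ => ?_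
      rw [← add_sum_erase F _ h0, if_pos rfl, zero_add]
      refine sum_congr rfl fun a ha => ?_
      rw [if_neg (ne_of_mem_erase ha)]
    · rw [sum_const, nsmul_eq_mul]
      refine mul_le_mul_of_nonneg_right ?_ (by positivity)
      exact_mod_cast card_image_le
  refine (add_le_add hmain herr1).trans ?_
  have hfin : (I.card : ℝ) * ((Q.card : ℝ) ^ 2 * (Sc ^ 2 * (ε / K * M))) + Sc ^ 2 * (ε / K * M) ≤ ε * M := by
    have h1 : (I.card : ℝ) * ((Q.card : ℝ) ^ 2 * (Sc ^ 2 * (ε / K * M))) + Sc ^ 2 * (ε / K * M) =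
        (K - 1) / K * (ε * M) := by
      rw [hK]; field_simp; ring
    rw [h1]
    have h2 : (K - 1) / K ≤ 1 := by
      rw [div_le_one hK0]; linarith
    have h3 : 0 ≤ ε * (M : ℝ) := by positivity
    nlinarith
  nlinarith [hfin]

end Pool.Agent.Lib.MP_9fe581_an.HX
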