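import Pool.Agent.Lib.MP_9fe581_an.HX.Defs

/-!
# HX: uniform Weyl sums by van der Corput's inequality

`weyl_unif`: if all `g m` have absolute value 1 and the `(k + 1)`-st multiplicative difference of `g` is the constant `w`,
where `w` is not a root of unity, then `∑ m ∈ range M, g m` is `o(M)` uniformly in `g`.
-/

set_option autoImplicit false

open Finset
open scoped ComplexConjugate

namespace Pool.Agent.Lib.MP_9fe581_an.HX

/-- the multiplicative difference commutes with shifts -/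
theorem dif_shift (j : ℕ) (g : ℕ → ℂ) (a : ℕ) : dif^[j] (fun m => g (m + a)) = fun m => dif^[j] g (m + a) := by
  induction j generalizing g with
  | zero => rfl
  | succ j ih =>
    rw [Function.iterate_succ_apply, Function.iterate_succ_apply, ← ih]
    congr 1
    funext m
    simp only [dif]
    rw [Nat.add_right_comm m 1 a]

theorem dif_mul (j : ℕ) (f g : ℕ → ℂ) : dif^[j] (fun m => f m * g m) = fun m => dif^[j] f m * dif^[j] g m := by
  induction j generalizing f g with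
  | zero => rfl
  | succ j ih =>
    rw [Function.iterate_succ_apply, Function.iterate_succ_apply, Function.iterate_succ_apply, ← ih]
    congr 1
    funext m
    simp only [dif, map_mul]
    ring

theorem dif_one (j : ℕ) : dif^[j] (fun _ => (1 : ℂ)) = fun _ => 1 := by
  induction j with
  | zero => rfl
  | succ j ih =>
    rw [Function.iterate_succ_apply]
    have h : dif (fun _ => (1 : ℂ)) = fun _ => 1 := by
      funext m
      simp [dif]
    rw [h, ih]

theorem dif_prod (j d : ℕ) (F : ℕ → ℕ → ℂ) :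
    dif^[j] (fun m => ∏ i ∈ range d, F i m) = fun m => ∏ i ∈ range d, dif^[j] (F i) m := by
  induction d with
  | zero => simpa using dif_one j
  | succ d ih =>
    simp only [prod_range_succ]
    rw [dif_mul, ih]

theorem mul_conj_of_norm {z : ℂ} (hz : ‖z‖ = 1) : z * conj z = 1 := by
  rw [Complex.mul_conj, Complex.normSq_eq_norm_sq, hz]
  norm_num

/-- telescoping -/
theorem shift_eq_prod (g : ℕ → ℂ) (hg : ∀ m, ‖g m‖ = 1) (d m : ℕ) :
    g (m + d) * conj (g m) = ∏ i ∈ range d, dif g (m + i) := by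
  induction d with
  | zero => simpa using mul_conj_of_norm (hg m)
  | succ d ih =>
    rw [prod_range_succ, ← ih]
    have h := mul_conj_of_norm (hg (m + d))
    have : dif g (m + d) = g (m + (d + 1)) * conj (g (m + d)) := rfl
    rw [this]
    calc g (m + (d + 1)) * conj (g m) = g (m + (d + 1)) * conj (g m) * (g (m + d) * conj (g (m + d))) := by
          rw [h, mul_one]
      _ = _ := by ring

/-- the correlation of two shifts has the constant `w ^ d` as its `(k + 1)`-st difference -/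
theorem dif_corr (k : ℕ) (w : ℂ) (g : ℕ → ℂ) (hg : ∀ m, ‖g m‖ = 1) (h : ∀ m, dif^[k + 2] g m = w) (d a m : ℕ) :
    dif^[k + 1] (fun m => g (m + (a + d)) * conj (g (m + a))) m = w ^ d := by
  have h1 : (fun m => g (m + (a + d)) * conj (g (m + a))) = fun m => ∏ i ∈ range d, dif g (m + (a + i)) := by
    funext m
    have := shift_eq_prod g hg d (m + a)
    simp only [← add_assoc]
    exact this
  rw [h1, dif_prod (k + 1) d (fun i m => dif g (m + (a + i)))]
  have h2 : ∀ i, dif^[k + 1] (fun m => dif g (m + (a + i))) m = w := by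
    intro i
    rw [dif_shift (k + 1) (dif g) (a + i)]
    have := h (m + (a + i))
    rwa [Function.iterate_succ_apply] at this
  simp only [h2, prod_const, card_range]

/-- van der Corput's inequality in the form of a mean over short windows -/
theorem vdc_short (g : ℕ → ℂ) (hg : ∀ m, ‖g m‖ = 1) (H : ℕ) (hH : 0 < H) (M : ℕ) :
    ‖∑ m ∈ range M, g m‖ ≤ 2 * H + (1 / (H : ℝ)) * Real.sqrt (M * ∑ m ∈ range M, ‖∑ h ∈ range H, g (m + h)‖ ^ 2) := by
  have hHr : (0 : ℝ) < H := by exact_mod_cast hH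
  have h1 : ∀ h ∈ range H, ‖∑ m ∈ range M, g m - ∑ m ∈ range M, g (m + h)‖ ≤ 2 * H := by
    intro h hh
    have hh' : (h : ℝ) ≤ H := by exact_mod_cast (mem_range.1 hh).le
    have e1 : ∑ m ∈ range (M + h), g m = ∑ m ∈ range M, g m + ∑ m ∈ range h, g (M + m) := sum_range_add g M h
    have e2 : ∑ m ∈ range (h + M), g m = ∑ m ∈ range h, g m + ∑ m ∈ range M, g (h + m) := sum_range_add g h M
    have e3 : ∑ m ∈ range M, g m - ∑ m ∈ range M, g (m + h) = ∑ m ∈ range h, g m - ∑ m ∈ range h, g (M + m) := by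
      have e4 : ∑ m ∈ range M, g (m + h) = ∑ m ∈ range M, g (h + m) := sum_congr rfl fun m _ => by rw [add_comm]
      rw [e4]
      rw [add_comm h M] at e2
      rw [e1] at e2
      linear_combination e2
    rw [e3]
    have n1 : ‖∑ m ∈ range h, g m‖ ≤ h := by
      refine (norm_sum_le _ _).trans ?_
      simp [hg]
    have n2 : ‖∑ m ∈ range h, g (M + m)‖ ≤ h := by
      refine (norm_sum_le _ _).trans ?_
      simp [hg]
    refine (norm_sub_le _ _).trans ?_
    linarith
  have h2 : ‖(H : ℂ) * ∑ m ∈ range M, g m - ∑ m ∈ range M, ∑ h ∈ range H, g (m + h)‖ ≤ H * (2 * H) := by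
    have : (H : ℂ) * ∑ m ∈ range M, g m - ∑ m ∈ range M, ∑ h ∈ range H, g (m + h) =
        ∑ h ∈ range H, (∑ m ∈ range M, g m - ∑ m ∈ range M, g (m + h)) := by
      rw [sum_sub_distrib, sum_const, card_range, nsmul_eq_mul, sum_comm]
    rw [this]
    refine (norm_sum_le _ _).trans ((sum_le_sum h1).trans ?_)
    simp
  have h3 : ‖∑ m ∈ range M, ∑ h ∈ range H, g (m + h)‖ ≤ Real.sqrt (M * ∑ m ∈ range M, ‖∑ h ∈ range H, g (m + h)‖ ^ 2) := by
    refine (norm_sum_le _ _).trans ?_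
    apply Real.le_sqrt_of_sq_le
    have := sq_sum_le_card_mul_sum_sq (s := range M) (f := fun m => ‖∑ h ∈ range H, g (m + h)‖)
    rwa [card_range] at this
  have h4 : ‖(H : ℂ) * ∑ m ∈ range M, g m‖ ≤ H * (2 * H) +
      Real.sqrt (M * ∑ m ∈ range M, ‖∑ h ∈ range H, g (m + h)‖ ^ 2) := by
    have := norm_sub_norm_le ((H : ℂ) * ∑ m ∈ range M, g m) (∑ m ∈ range M, ∑ h ∈ range H, g (m + h))
    linarith
  rw [norm_mul, Complex.norm_natCast] at h4
  have h5 : ‖∑ m ∈ range M, g m‖ ≤ (H * (2 * H) +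
      Real.sqrt (M * ∑ m ∈ range M, ‖∑ h ∈ range H, g (m + h)‖ ^ 2)) / H := by
    rw [le_div_iff₀ hHr, mul_comm]
    exact h4
  refine h5.trans (le_of_eq ?_)
  field_simp

/-- expansion of the square: the diagonal gives `H M`, the rest is small by hypothesis -/
theorem sq_expand (g : ℕ → ℂ) (hg : ∀ m, ‖g m‖ = 1) (H M : ℕ) (η : ℝ) (hη : 0 ≤ η)
    (h : ∀ d ∈ Ico 1 H, ∀ a : ℕ, ‖∑ m ∈ range M, g (m + (a + d)) * conj (g (m + a))‖ ≤ η * M) :
    ∑ m ∈ range M, ‖∑ h ∈ range H, g (m + h)‖ ^ 2 ≤ (H + η * H ^ 2) * M := by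
  have e1 : ∀ m, ((‖∑ h ∈ range H, g (m + h)‖ ^ 2 : ℝ) : ℂ) =
      ∑ a ∈ range H, ∑ b ∈ range H, g (m + a) * conj (g (m + b)) := by
    intro m
    rw [← Complex.normSq_eq_norm_sq, ← Complex.mul_conj, map_sum, sum_mul_sum]
  have e2 : ((∑ m ∈ range M, ‖∑ h ∈ range H, g (m + h)‖ ^ 2 : ℝ) : ℂ) =
      ∑ a ∈ range H, ∑ b ∈ range H, ∑ m ∈ range M, g (m + a) * conj (g (m + b)) := by
    push_cast
    simp only [← Complex.ofReal_pow, e1]
    rw [sum_comm]
    refine sum_congr rfl fun a _ => ?_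
    rw [sum_comm]
  have e3 : ∀ a ∈ range H, ∀ b ∈ range H, ‖∑ m ∈ range M, g (m + a) * conj (g (m + b))‖ ≤
      (if a = b then (M : ℝ) else 0) + η * M := by
    intro a ha b hb
    have hM : (0 : ℝ) ≤ M := Nat.cast_nonneg M
    rcases lt_trichotomy a b with hab | hab | hab
    · have hd : b - a ∈ Ico 1 H := by
        rw [mem_Ico]
        have := mem_range.1 hb
        omega
      have := h (b - a) hd a
      have e : a + (b - a) = b := by omega
      rw [e] at this
      rw [if_neg hab.ne, zero_add]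
      have e' : ∑ m ∈ range M, g (m + a) * conj (g (m + b)) = conj (∑ m ∈ range M, g (m + b) * conj (g (m + a))) := by
        rw [map_sum]
        refine sum_congr rfl fun m _ => ?_
        rw [map_mul, Complex.conj_conj, mul_comm]
      rw [e', RCLike.norm_conj]
      exact this
    · subst hab
      rw [if_pos rfl]
      have : ∑ m ∈ range M, g (m + a) * conj (g (m + a)) = (M : ℂ) := by
        simp [mul_conj_of_norm (hg _)]
      rw [this, Complex.norm_natCast]
      nlinarith [mul_nonneg hη hM]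
    · have hd : a - b ∈ Ico 1 H := by
        rw [mem_Ico]
        have := mem_range.1 ha
        omega
      have := h (a - b) hd b
      have e : b + (a - b) = a := by omega
      rw [e] at this
      rw [if_neg hab.ne', zero_add]
      exact this
  have e4 : ∑ m ∈ range M, ‖∑ h ∈ range H, g (m + h)‖ ^ 2 =
      ‖((∑ m ∈ range M, ‖∑ h ∈ range H, g (m + h)‖ ^ 2 : ℝ) : ℂ)‖ := by
    rw [Complex.norm_real, Real.norm_of_nonneg]
    positivity
  rw [e4, e2]
  refine (norm_sum_le _ _).trans ?_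
  refine (sum_le_sum fun a ha => (norm_sum_le _ _).trans (sum_le_sum fun b hb => e3 a ha b hb)).trans ?_
  simp only [sum_add_distrib, sum_const, card_range, nsmul_eq_mul]
  have : ∑ a ∈ range H, ∑ b ∈ range H, (if a = b then (M : ℝ) else 0) = H * M := by
    rw [sum_congr rfl fun a ha => by rw [sum_ite_eq, if_pos ha]]
    simp
  rw [this]
  nlinarith

theorem weyl_zero (w : ℂ) (hw : ‖w‖ = 1) (hirr : ∀ n : ℕ, 1 ≤ n → w ^ n ≠ 1) (ε : ℝ) (hε : 0 < ε) :
    ∃ M0 : ℕ, ∀ M ≥ M0, ∀ g : ℕ → ℂ, (∀ m, ‖g m‖ = 1) → (∀ m, dif g m = w) → ‖∑ m ∈ range M, g m‖ ≤ ε * M := by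
  have hw1 : w - 1 ≠ 0 := sub_ne_zero.2 (by simpa using hirr 1 le_rfl)
  have hpos : 0 < ‖w - 1‖ := norm_pos_iff.2 hw1
  refine ⟨⌈2 / (ε * ‖w - 1‖)⌉₊, fun M hM g hg h => ?_⟩
  have hg' : ∀ m, g m = w ^ m * g 0 := by
    intro m
    induction m with
    | zero => simp
    | succ m ih =>
      have h1 := h m
      have h2 := mul_conj_of_norm (hg m)
      have h3 : g (m + 1) = w * g m := by
        have : dif g m * g m = w * g m := by rw [h1]
        rw [← this]
        simp only [dif]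
        calc g (m + 1) = g (m + 1) * (g m * conj (g m)) := by rw [h2, mul_one]
          _ = _ := by ring
      rw [h3, ih, pow_succ]
      ring
  have hsum : ∑ m ∈ range M, g m = (w ^ M - 1) / (w - 1) * g 0 := by
    rw [← geom_sum_eq (sub_ne_zero.1 hw1), sum_mul]
    exact sum_congr rfl fun m _ => hg' m
  rw [hsum, norm_mul, norm_div, hg 0, mul_one]
  have h1 : ‖w ^ M - 1‖ ≤ 2 := by
    refine (norm_sub_le _ _).trans ?_
    rw [norm_pow, hw]
    norm_num
  have h2 : 2 / (ε * ‖w - 1‖) ≤ M := (Nat.le_ceil _).trans (by exact_mod_cast hM)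
  rw [div_le_iff₀ hpos]
  rw [div_le_iff₀ (mul_pos hε hpos)] at h2
  nlinarith

/-! ### U1 -/

theorem weyl_unif (k : ℕ) (w : ℂ) (hw : ‖w‖ = 1) (hirr : ∀ n : ℕ, 1 ≤ n → w ^ n ≠ 1) (ε : ℝ) (hε : 0 < ε) :
    ∃ M0 : ℕ, ∀ M ≥ M0, ∀ g : ℕ → ℂ, (∀ m, ‖g m‖ = 1) → (∀ m, dif^[k + 1] g m = w) →
      ‖∑ m ∈ range M, g m‖ ≤ ε * M := by
  induction k generalizing w ε with
  | zero => simpa using weyl_zero w hw hirr ε hε
  | succ k ih =>
    -- choose `H` with `1 / H ≤ ε² / 8` and `η = ε² / 8`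
    obtain ⟨H, hH⟩ : ∃ H : ℕ, 8 / ε ^ 2 ≤ H := exists_nat_ge _
    have hHpos : (0 : ℝ) < H := lt_of_lt_of_le (by positivity) hH
    have hH0 : 0 < H := by exact_mod_cast hHpos
    have hη : 0 < ε ^ 2 / 8 := by positivity
    have hd : ∀ d : ℕ, 1 ≤ d → ∃ M0 : ℕ, ∀ M ≥ M0, ∀ g : ℕ → ℂ, (∀ m, ‖g m‖ = 1) → (∀ m, dif^[k + 1] g m = w ^ d) →
        ‖∑ m ∈ range M, g m‖ ≤ ε ^ 2 / 8 * M := by
      intro d hd
      refine ih (w ^ d) (by rw [norm_pow, hw, one_pow]) ?_ _ hη
      intro n hn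
      rw [← pow_mul]
      exact hirr _ (Nat.mul_pos hd hn)
    choose! M0 hM0 using hd
    refine ⟨max (∑ d ∈ range H, M0 d) ⌈4 * H / ε⌉₊, fun M hM g hg h => ?_⟩
    have hM1 : ∀ d ∈ Ico 1 H, M0 d ≤ M := by
      intro d hd
      refine le_trans ?_ ((le_max_left _ _).trans hM)
      exact single_le_sum (f := M0) (fun _ _ => Nat.zero_le _) (mem_range.2 (mem_Ico.1 hd).2)
    have hM2 : 4 * H / ε ≤ (M : ℝ) := (Nat.le_ceil _).trans (by exact_mod_cast (le_max_right _ _).trans hM)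
    have hsq := sq_expand g hg H M (ε ^ 2 / 8) hη.le (fun d hd a => by
      refine hM0 d (mem_Ico.1 hd).1 M (hM1 d hd) (fun m => g (m + (a + d)) * conj (g (m + a))) ?_ ?_
      · intro m
        rw [norm_mul, RCLike.norm_conj, hg, hg, mul_one]
      · intro m
        exact dif_corr k w g hg h d a m)
    have hv := vdc_short g hg H hH0 M
    have hMnn : (0 : ℝ) ≤ M := Nat.cast_nonneg M
    have hb : Real.sqrt (M * ∑ m ∈ range M, ‖∑ h ∈ range H, g (m + h)‖ ^ 2) ≤ ε / 2 * H * M := by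
      apply Real.sqrt_le_iff.2
      refine ⟨by positivity, ?_⟩
      have h1 : (M : ℝ) * ∑ m ∈ range M, ‖∑ h ∈ range H, g (m + h)‖ ^ 2 ≤ M * ((H + ε ^ 2 / 8 * H ^ 2) * M) :=
        mul_le_mul_of_nonneg_left hsq hMnn
      refine h1.trans ?_
      have h2 : 8 ≤ H * ε ^ 2 := by
        rwa [div_le_iff₀ (by positivity)] at hH
      have h3 : (H : ℝ) + ε ^ 2 / 8 * H ^ 2 ≤ (ε / 2 * H) ^ 2 := by
        nlinarith
      calc (M : ℝ) * ((H + ε ^ 2 / 8 * H ^ 2) * M) = (H + ε ^ 2 / 8 * H ^ 2) * M ^ 2 := by ring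
        _ ≤ (ε / 2 * H) ^ 2 * M ^ 2 := by gcongr
        _ = (ε / 2 * H * M) ^ 2 := by ring
    have hc : 2 * (H : ℝ) ≤ ε / 2 * M := by
      rw [div_le_iff₀ hε] at hM2
      nlinarith
    calc ‖∑ m ∈ range M, g m‖ ≤ 2 * H + (1 / (H : ℝ)) *
          Real.sqrt (M * ∑ m ∈ range M, ‖∑ h ∈ range H, g (m + h)‖ ^ 2) := hv
      _ ≤ ε / 2 * M + (1 / (H : ℝ)) * (ε / 2 * H * M) := by gcongr
      _ = ε * M := by
        field_simp
        ring

end Pool.Agent.Lib.MP_9fe581_an.HX
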